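import Pool.Agent.MP_b2c033_nt.UC.TSpec

/-! Soundness of the check for one curve. -/

namespace Pool.Agent.MP_b2c033_nt.U

namespace Tchk

lemma fL {α : Type} (l : List ℕ) : ∀ k : List ℕ → α, forceL l k = k l := by
  induction l with
  | nil => intro k; rfl
  | cons c cs ih => intro k; simp only [forceL, force_eq, ih]

lemma fP {α : Type} (l : List (ℕ × ℕ)) : ∀ k : List (ℕ × ℕ) → α, forceP l k = k l := by
  induction l with
  | nil => intro k; rfl
  | cons c cs ih => intro k; simp only [forceP, ih]

lemma bF_le {N R K : ℕ} {b : ℕ → ℤ} {lam : ℕ → ℤ} (hC : Coef N b)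
    (hR : ∀ p : ℕ, p.Prime → p ≤ K → (p ∣ R ↔ p ∣ N))
    (hl : ∀ p : ℕ, p.Prime → p ≤ K → lam p = b p) :
    ∀ f n, n ≤ f → n ≤ K → bF lam R f n = b n := by
  intro f
  induction f with
  | zero => intro n hn _; rw [Nat.le_zero.1 hn, hC.zero]; rfl
  | succ f ih =>
    intro n hn hK
    rw [bF]
    by_cases h1 : n ≤ 1
    · rw [if_pos h1]
      interval_cases n
      · rw [hC.zero]; rfl
      · rw [hC.one]; rfl
    · rw [if_neg h1]
      simp only [force_eq]
      have hp : n.minFac.Prime := Nat.minFac_prime (by omega)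
      have hpK : n.minFac ≤ K := (Nat.minFac_le (by omega)).trans hK
      have hd := Nat.mul_div_cancel' n.minFac_dvd
      have hlt : n / n.minFac < n := Nat.div_lt_self (by omega) hp.one_lt
      have hr := hC.rel n.minFac (n / n.minFac) hp
      rw [hd] at hr
      rw [hr, ih _ (by omega) (by omega), ih _ ((Nat.div_le_self _ _).trans (by omega))
        ((Nat.div_le_self _ _).trans (by omega)), hl _ hp hpK, dn]
      simp only [← Nat.dvd_iff_mod_eq_zero, hR _ hp hpK]
      split_ifs with a1 a2 <;> simp [*]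

lemma fac (g : ℕ → ℕ) (l : List ℕ) (hn : l.Nodup) (hp : ∀ q ∈ l, q.Prime) :
    (l.map fun q => q ^ g q).prod ≠ 0 ∧
      ∀ p, ((l.map fun q => q ^ g q).prod).factorization p = if p ∈ l then g p else 0 := by
  induction l with
  | nil => simp
  | cons q l ih =>
    obtain ⟨h1, h2⟩ := ih (List.nodup_cons.1 hn).2 fun r hr => hp r (List.mem_cons_of_mem _ hr)
    have hq := hp q List.mem_cons_self
    have hq0 : q ^ g q ≠ 0 := pow_ne_zero _ hq.ne_zero
    rw [List.map_cons, List.prod_cons]
    refine ⟨mul_ne_zero hq0 h1, fun p => ?_⟩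
    rw [Nat.factorization_mul hq0 h1, Finsupp.add_apply, h2, hq.factorization_pow,
      Finsupp.single_apply]
    by_cases h : q = p
    · subst h
      simp [(List.nodup_cons.1 hn).1]
    · simp [h, Ne.symm h]

lemma fac2 (e g : ℕ → ℕ) (pl : List ℕ) (hn : pl.Nodup) (hp : ∀ q ∈ pl, q.Prime) :
    (pl.filter fun p => e p = 1).prod *
        ((pl.filter fun p => 2 ≤ e p).map fun q => q ^ g q).prod ≠ 0 ∧
      ∀ p, ((pl.filter fun p => e p = 1).prod *
        ((pl.filter fun p => 2 ≤ e p).map fun q => q ^ g q).prod).factorization p =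
        (if p ∈ pl ∧ e p = 1 then 1 else 0) + if p ∈ pl ∧ 2 ≤ e p then g p else 0 := by
  obtain ⟨a1, a2⟩ := fac (fun _ => 1) (pl.filter fun p => e p = 1) (hn.filter _)
    fun q hq => hp q (List.mem_of_mem_filter hq)
  obtain ⟨b1, b2⟩ := fac g (pl.filter fun p => 2 ≤ e p) (hn.filter _)
    fun q hq => hp q (List.mem_of_mem_filter hq)
  simp only [pow_one, List.map_id'] at a1 a2
  refine ⟨mul_ne_zero a1 b1, fun p => ?_⟩
  rw [Nat.factorization_mul a1 b1, Finsupp.add_apply, a2, b2]
  simp only [List.mem_filter, decide_eq_true_eq]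

end Tchk

open Tchk in
theorem r_chk : R_chk := by
  intro d01 st h5 ttN ttree tl W Ω ρ N b S hD Q K fu pl big leaf hQ nd hpr h2 h3 hout hbig hchk
  have hN : N ≠ 0 := S.coef.pos.ne'
  have hAd : ∀ p : ℕ, p ∣ W.Δ.natAbs ∧ p ∣ W.c₄.natAbs ↔ Ad W p := fun p => by
    simp only [Ad, Int.natCast_dvd]
  obtain ⟨h₂, h₃, hbr, hl⟩ := tl W Ω ρ N b S hD
  have hc := hbr _ _ (fun p _ hp => (hAd p).1 (Nat.dvd_gcd_iff.1 hp)) hchk
  obtain ⟨l1, l2⟩ := hl W.Δ.natAbs W.c₄.natAbs pl hpr
  simp only [chk1, fL, fP, force_eq, l1 fun p _ => hAd p, l2 rfl rfl, List.map_map,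
    Function.comp_def, Bool.or_eq_true] at hc
  have hfac : ∀ p : ℕ, p.Prime → p ∉ pl → (p ∣ W.Δ.natAbs → N.factorization p = 1) ∧
      (¬ p ∣ W.Δ.natAbs → N.factorization p = 0) := by
    intro p hp hpl
    have h5p : 5 ≤ p := hp.five_le_of_ne_two_of_ne_three (fun h => hpl (h ▸ h2))
      fun h => hpl (h ▸ h3)
    have hy := h5 W Ω ρ N b S hD p hp h5p
    obtain ⟨s1, s2, -⟩ := st W Ω ρ N b S p hp
    rw [Int.natCast_dvd] at s1
    rw [Int.natCast_dvd, Int.natCast_dvd] at s2
    exact ⟨fun h => (s2 h (hout p hp h hpl).2).resolve_right hy,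
      fun h => (s1 h).resolve_right hy⟩
  obtain ⟨F0, f1, f2, f3⟩ : ∃ F0 : List (ℕ × List Op),
      F0.map (·.2) = (bif big then [[om 17]] else []) ∧ (F0.map (·.1)).Nodup ∧
      ∀ y ∈ F0, y.1 ∉ pl ∧ y.1.Prime ∧ ∀ o ∈ y.2, Dm W N y.1 o := by
    cases big
    · exact ⟨[], rfl, by simp, by simp⟩
    · obtain ⟨q, q1, q2, q3, q4⟩ := hbig rfl
      refine ⟨[(q, [om 17])], rfl, by simp, fun y hy => ?_⟩
      rw [List.mem_singleton.1 hy]
      refine ⟨q4, q1, fun o ho => ?_⟩
      rw [List.mem_singleton.1 ho]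
      exact ((d01 W N q q1).2 ((hfac q q1 q4).1 q3)).2 17 q2
  have hF : (F0 ++ (pl.filter fun p => N.factorization p = 1).map fun p => (p, [om p])).map (·.2) =
      (bif big then [[om 17]] else []) ++
        (pl.filter fun p => N.factorization p = 1).map fun p => [om p] := by
    rw [List.map_append, f1, List.map_map]
    rfl
  have inv : TInv W N ((pl.filter fun p => 2 ≤ N.factorization p).map fun p => (p, gn W N p))
      (F0 ++ (pl.filter fun p => N.factorization p = 1).map fun p => (p, [om p])) := by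
    refine ⟨?_, fun y hy => ?_, fun y hy => ?_, fun p hp hpN hn => ?_⟩
    · simp only [List.map_append, List.map_map, Function.comp_def, List.map_id']
      rw [List.nodup_append, List.nodup_append]
      refine ⟨nd.filter _, ⟨f2, nd.filter _, fun x hx y hy hxy => ?_⟩, fun x hx y hy hxy => ?_⟩
      · obtain ⟨z, hz, rfl⟩ := List.mem_map.1 hx
        exact (f3 z hz).1 (hxy ▸ List.mem_of_mem_filter hy)
      · subst hxy
        rcases List.mem_append.1 hy with hy | hy
        · obtain ⟨z, hz, rfl⟩ := List.mem_map.1 hy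
          exact (f3 z hz).1 (List.mem_of_mem_filter hx)
        · simp only [List.mem_filter, decide_eq_true_eq] at hx hy
          omega
    · obtain ⟨p, hp, rfl⟩ := List.mem_map.1 hy
      simp only [List.mem_filter, decide_eq_true_eq] at hp
      exact ⟨hpr p hp.1, hp.2, rfl⟩
    · rcases List.mem_append.1 hy with hy | hy
      · exact (f3 y hy).2
      · obtain ⟨p, hp, rfl⟩ := List.mem_map.1 hy
        simp only [List.mem_filter, decide_eq_true_eq] at hp
        refine ⟨hpr p hp.1, fun o ho => ?_⟩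
        rw [List.mem_singleton.1 ho]
        exact ((d01 W N p (hpr p hp.1)).2 hp.2).2 p le_rfl
    · have h1 := (hp.dvd_iff_one_le_factorization hN).1 hpN
      simp only [List.map_append, List.map_map, Function.comp_def, List.map_id',
        List.mem_append, List.mem_filter, decide_eq_true_eq, not_or] at hn
      have hpl : p ∉ pl := fun h => by
        have a1 : ¬ 2 ≤ N.factorization p := fun h' => hn.1 ⟨h, h'⟩
        have a2 : ¬ N.factorization p = 1 := fun h' => hn.2.2 ⟨h, h'⟩
        omega
      by_cases hd : p ∣ W.Δ.natAbs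
      · exact ((d01 W N p hp).2 ((hfac p hp hpl).1 hd)).1
      · exact (d01 W N p hp).1 ((hfac p hp hpl).2 hd)
  rw [← hF] at hc
  rcases hc with hc | hc
  · have t1 := ttN b 1
    simp only [List.range'_one, List.map_cons, List.map_nil, S.coef.one, Int.natAbs_one, one_pow,
      one_mul, Nat.div_one] at t1
    exact absurd (ttree W Ω ρ N b S _ Q _ fu _ _ _ _ hQ t1 inv hc) (by simp)
  · obtain ⟨r0, r1⟩ := fac2 N.factorization (fun _ => 2) pl nd hpr
    generalize (pl.filter fun p => N.factorization p = 1).prod *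
      ((pl.filter fun p => 2 ≤ N.factorization p).map fun q => q ^ 2).prod = R at r0 r1 hc
    have hR : ∀ p : ℕ, p.Prime → p ≤ K → R.factorization p = min (N.factorization p) 2 := by
      intro p hp hK
      rw [r1]
      by_cases hpl : p ∈ pl
      · simp only [hpl, true_and]
        split_ifs <;> omega
      · have := (hfac p hp hpl).2 fun h => absurd (hout p hp h hpl).1 (by omega)
        simp [hpl, this]
    have hcs : csL W R K =
        (List.range' 1 K).map fun n => (b n).natAbs ^ 2 * 268435456 / n := by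
      refine List.map_congr_left fun n hn => ?_
      have hnK : n ≤ K := by
        have := List.mem_range'_1.1 hn
        omega
      rw [bF_le (K := K) S.coef (fun p hp hK => ?_) (fun p hp hK => ?_) n n le_rfl hnK]
      · rw [hp.dvd_iff_one_le_factorization r0, hp.dvd_iff_one_le_factorization hN, hR p hp hK]
        omega
      · rw [← lamF_eq S.coef S.link p hp]
        have : R % (p * p) = 0 ↔ N % (p * p) = 0 := by
          rw [← Nat.dvd_iff_mod_eq_zero, ← Nat.dvd_iff_mod_eq_zero, ← sq,
            hp.pow_dvd_iff_le_factorization r0, hp.pow_dvd_iff_le_factorization hN, hR p hp hK]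
          omega
        simp only [lamF, this]
    rw [hcs] at hc
    refine ⟨_, ttree W Ω ρ N b S _ Q _ fu _ _ _ _ hQ (ttN b K) inv hc, fun hall => ?_⟩
    obtain ⟨m0, m1⟩ := fac2 N.factorization N.factorization pl nd hpr
    simp only [List.map_map, Function.comp_def]
    refine Nat.eq_of_factorization_eq m0 hN fun p => ?_
    rw [m1]
    by_cases hpl : p ∈ pl
    · simp only [hpl, true_and]
      split_ifs <;> omega
    · by_cases hp : p.Prime
      · simp [hpl, (hfac p hp hpl).2 fun h => hpl (hall p hp h)]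
      · simp [hpl, Nat.factorization_eq_zero_of_not_prime _ hp]

end Pool.Agent.MP_b2c033_nt.U
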