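import Pool.Agent.MP_b2c033_nt.UC.CSpec

/-! No hypothetical prime beyond `3`. -/

namespace Pool.Agent.MP_b2c033_nt.U

open scoped Real

namespace H5

variable {W : WeierstrassCurve ℤ} {N p : ℕ}

theorem Dm_mono {o o' : Op} (h : Dm W N p o)
    (h' : ∀ T : ℕ → ℝ, Monotone T → (∀ X, 0 ≤ T X) → ∀ X, evO o' T X ≤ evO o T X) :
    Dm W N p o' := by
  obtain ⟨i, h1, h2⟩ := h
  exact ⟨i, h1, fun T a b X => (h' T a b X).trans (h2 T a b X)⟩

theorem evO_one (a b x : ℕ) (T : ℕ → ℝ) (X : ℕ) : evO [(a, b, x)] T X = a / b * T (X * x) := by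
  simp [evO]

theorem Dm_one {a b x a' b' x' : ℕ} (h : Dm W N p [(a, b, x)]) (h1 : (a' : ℝ) / b' ≤ a / b)
    (h2 : x' ≤ x) : Dm W N p [(a', b', x')] :=
  Dm_mono h fun T m n X => by
    rw [evO_one, evO_one]
    exact mul_le_mul h1 (m (Nat.mul_le_mul_left _ h2)) (n _) (by positivity)

theorem gn_pos (hp : 0 < p) : (1 : ℝ) ≤ gn W N p := by
  unfold gn
  split_ifs
  · exact_mod_cast Nat.one_le_pow _ _ hp
  · simp

theorem uo_ge (hp : 5 ≤ p) (g : ℕ) : uo p 1 g = [(g * (p - 1), p + 1, p)] := by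
  rw [uo, if_neg (by omega), if_neg (by omega), pow_one]

theorem frac (hp : 5 ≤ p) : (2 : ℝ) / 3 ≤ ((p - 1 : ℕ) : ℝ) / ((p + 1 : ℕ) : ℝ) := by
  have : (5 : ℝ) ≤ p := by exact_mod_cast hp
  rw [Nat.cast_sub (by omega), div_le_div_iff₀ (by norm_num) (by positivity)]
  push_cast
  linarith

theorem at2 (h1 : C_D01) (h3 : C_D3) (h4 : C_D4) (W : WeierstrassCurve ℤ) (N : ℕ) :
    Dm W N 2 o1 ∨ Dm W N 2 [(1, 5, 4)] := by
  have g := gn_pos (W := W) (N := N) two_pos
  by_cases a : N.factorization 2 = 0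
  · exact Or.inl ((h1 W N 2 Nat.prime_two).1 a)
  by_cases b : N.factorization 2 = 1
  · exact Or.inl ((h1 W N 2 Nat.prime_two).2 b).1
  by_cases c : N.factorization 2 ≤ 7
  · exact Or.inr (Dm_one ((h4 W N).1 (by omega) c) (by push_cast; linarith) le_rfl)
  · exact Or.inr (Dm_one (a := gn W N 2) (b := 5) (x := 16)
      (h3 W N 2 4 Nat.prime_two (by norm_num) (by omega)) (by push_cast; linarith) (by norm_num))

theorem at3 (h1 : C_D01) (h4 : C_D4) (W : WeierstrassCurve ℤ) (N : ℕ) :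
    Dm W N 3 o1 ∨ Dm W N 3 [(1, 2, 3)] := by
  have g := gn_pos (W := W) (N := N) three_pos
  by_cases a : N.factorization 3 = 0
  · exact Or.inl ((h1 W N 3 Nat.prime_three).1 a)
  by_cases b : N.factorization 3 = 1
  · exact Or.inl ((h1 W N 3 Nat.prime_three).2 b).1
  by_cases c : N.factorization 3 = 2
  · exact Or.inr (Dm_one ((h4 W N).2.1 c) (by push_cast; linarith) le_rfl)
  · refine Or.inr (Dm_mono ((h4 W N).2.2 (by omega)) fun T m n X => ?_)
    have h5 := m (Nat.mul_le_mul_left X (show 3 ≤ 9 by norm_num))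
    have h6 := n (X * 3)
    simp only [evO, List.map_cons, List.map_nil, List.sum_cons, List.sum_nil]
    push_cast
    nlinarith

/-- the weight at a list of additive primes -/
theorem EnO_add (T : ℕ → ℝ) (l : List ℕ) (X : ℕ) :
    EnO T (l.map fun q => [(q - 1, q + 1, 1)]) X =
      (l.map fun q => ((q - 1 : ℕ) : ℝ) / ((q + 1 : ℕ) : ℝ)).prod * T X := by
  induction l with
  | nil => simp [EnO]
  | cons q l ih => rw [List.map_cons, EnO, evO_one, mul_one, ih, List.map_cons, List.prod_cons,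
      mul_assoc]

theorem TN_two {b : ℕ → ℤ} (h : Coef N b) {X : ℕ} (hX : X ≠ 0) :
    TN b 2 X = Real.exp (-(4 * π / X)) := by
  simp [TN, hX, TT, Finset.sum_range_succ, h.one]

theorem exp60 : (0.8103 : ℝ) ≤ Real.exp (-(4 * π / 60)) := by
  have h1 := Real.add_one_le_exp (-(4 * π / 1920))
  have h2 := Real.pi_lt_d4
  have h3 : (1 - 0.0065451 : ℝ) ≤ Real.exp (-(4 * π / 1920)) := by linarith
  have h4 := pow_le_pow_left₀ (by norm_num) h3 32
  rw [← Real.exp_nat_mul] at h4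
  refine le_trans (by norm_num) (h4.trans (le_of_eq ?_))
  congr 1
  push_cast
  ring

theorem expk (k X : ℕ) (h : k * X = 60) : (0.8103 : ℝ) ^ k ≤ Real.exp (-(4 * π / X)) := by
  have h4 := pow_le_pow_left₀ (by norm_num) exp60 k
  rw [← Real.exp_nat_mul] at h4
  refine h4.trans (le_of_eq ?_)
  have h5 : (k : ℝ) * X = 60 := by exact_mod_cast h
  have h6 : (X : ℝ) ≠ 0 := by rintro h0; simp [h0] at h5
  have h7 : (k : ℝ) ≠ 0 := by rintro h0; simp [h0] at h5
  congr 1
  rw [← h5]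
  field_simp

/-- the squares of additive primes divide the discriminant -/
theorem prod_le (A : Finset ℕ) {D : ℤ} (hD : D ≠ 0) (h : ∀ q ∈ A, q.Prime ∧ (q : ℤ) ^ 2 ∣ D) :
    ∏ q ∈ A, (q : ℝ) ^ 2 ≤ |(D : ℝ)| := by
  have h1 : ∏ q ∈ A, (q : ℤ) ^ 2 ∣ D := Finset.prod_dvd_of_coprime
    (fun q hq r hr hne => (Nat.isCoprime_iff_coprime.2
      ((Nat.coprime_primes (h q hq).1 (h r hr).1).2 hne)).pow) fun q hq => (h q hq).2
  exact_mod_cast Int.le_of_dvd (abs_pos.2 hD) ((dvd_abs _ _).2 h1)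

end H5

open H5 in
theorem r_H5 : R_H5 := by
  classical
  intro _ hK h1 _ h3 h4 hS W Ω ρ N b S hΔ p hp h5 hy
  have st := hS W Ω ρ N b S
  have N0 := S.coef.pos
  obtain ⟨A, hA⟩ : ∃ A, A = N.primeFactors.filter fun q => 5 ≤ q ∧ Ad W q := ⟨_, rfl⟩
  have mA : ∀ q ∈ A, q.Prime ∧ 5 ≤ q ∧ Ad W q := fun q hq => by
    rw [hA, Finset.mem_filter] at hq
    exact ⟨Nat.prime_of_mem_primeFactors hq.1, hq.2⟩
  have hyp : ∀ q, q.Prime → 5 ≤ q → Hy W N q → Dm W N q [(50, 3, 5)] := fun q hq q5 hh => by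
    obtain ⟨e1, e2⟩ := (st q hq).2.2.2.1 hh
    have := h3 W N q 1 hq le_rfl e1
    rw [uo_ge q5, e2] at this
    refine Dm_one this ?_ q5
    have a1 := frac q5
    have a2 : (5 : ℝ) ^ 2 ≤ q ^ 2 := pow_le_pow_left₀ (by norm_num) (by exact_mod_cast q5) 2
    rw [Nat.cast_mul, mul_div_assoc, Nat.cast_pow]
    push_cast at a1 ⊢
    nlinarith
  obtain ⟨w, hw⟩ : ∃ w, w = ∏ q ∈ A, ((q - 1 : ℕ) : ℝ) / ((q + 1 : ℕ) : ℝ) := ⟨_, rfl⟩
  have w0 : 0 ≤ w := hw ▸ Finset.prod_nonneg fun q _ => by positivity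
  have main : ∀ a c x a' c' x' : ℕ, Dm W N 2 [(a, c, x)] → Dm W N 3 [(a', c', x')] →
      3 * π * (a / c * (a' / c' * (50 / 3 * (w * TN b 2 (x * x' * 5))))) ≤ Ω := by
    intro a c x a' c' x' d2 d3
    have := hK W Ω ρ N b S ((2, [(a, c, x)]) :: (3, [(a', c', x')]) :: (p, [(50, 3, 5)]) ::
      A.toList.map fun q => (q, [(q - 1, q + 1, 1)])) ?_ ?_ ?_ 2
    · simp only [List.map_cons, List.map_map, Function.comp_def, EnO, evO_one, EnO_add,
        Finset.prod_map_toList, ← hw, one_mul] at this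
      exact_mod_cast this
    · simp only [List.map_cons, List.map_map, Function.comp_def, List.map_id', List.nodup_cons,
        List.mem_cons, Finset.mem_toList, not_or]
      refine ⟨⟨by norm_num, by omega, fun h => ?_⟩, ⟨by omega, fun h => ?_⟩,
        fun h => hy.2 (mA p h).2.2, A.nodup_toList⟩
      · have := (mA _ h).2.1; omega
      · have := (mA _ h).2.1; omega
    · intro y hy'
      simp only [List.mem_cons, List.mem_map, Finset.mem_toList] at hy'
      rcases hy' with rfl | rfl | rfl | ⟨q, hq, rfl⟩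
      · exact ⟨Nat.prime_two, d2⟩
      · exact ⟨Nat.prime_three, d3⟩
      · exact ⟨hp, hyp p hp h5 hy⟩
      · obtain ⟨q1, q5, q3⟩ := mA q hq
        obtain ⟨e1, e2⟩ := (st q q1).2.2.1 q3
        have := h3 W N q 1 q1 le_rfl e1
        rw [uo_ge q5, e2, one_mul] at this
        exact ⟨q1, Dm_one this le_rfl (by omega)⟩
    · intro q q1 q2 q3
      simp only [List.map_cons, List.map_map, Function.comp_def, List.map_id', List.mem_cons,
        Finset.mem_toList, not_or] at q3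
      have q5 : 5 ≤ q := by
        have := q1.two_le
        have h4 : q ≠ 4 := by rintro rfl; norm_num at q1
        omega
      by_cases e : N.factorization q = 1
      · exact ((h1 W N q q1).2 e).1
      have e0 := q1.factorization_pos_of_dvd N0.ne' q2
      refine Dm_one (hyp q q1 q5 ⟨(q1.pow_dvd_iff_le_factorization N0.ne').2 (by omega),
        fun h => q3.2.2.2 ?_⟩) (by norm_num) (by norm_num)
      rw [hA, Finset.mem_filter, Nat.mem_primeFactors]
      exact ⟨⟨q1, q2, N0.ne'⟩, q5, h⟩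
  have pi := Real.pi_gt_d4
  have low : 12.56 * w ≤ Ω := by
    have fin : ∀ t : ℝ, 0.08 ≤ t → 3 * π * (50 / 3 * (w * t)) ≤ Ω → 12.56 * w ≤ Ω := by
      intro t ht h
      have a1 : 12.56 ≤ 50 * (π * t) := by nlinarith
      nlinarith
    rcases at2 h1 h3 h4 W N with d2 | d2 <;> rcases at3 h1 h4 W N with d3 | d3 <;>
      have := main _ _ _ _ _ _ d2 d3 <;> rw [TN_two S.coef (by norm_num)] at this
    · refine fin _ (le_trans (by norm_num) (expk 12 (1 * 1 * 5) rfl)) (le_trans (le_of_eq ?_) this)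
      push_cast; ring
    · refine fin (Real.exp (-(4 * π / (1 * 3 * 5 : ℕ))) / 2) ?_ (le_trans (le_of_eq ?_) this)
      · have := expk 4 (1 * 3 * 5) rfl
        norm_num at this ⊢; linarith
      · push_cast; ring
    · refine fin (Real.exp (-(4 * π / (4 * 1 * 5 : ℕ))) / 5) ?_ (le_trans (le_of_eq ?_) this)
      · have := expk 3 (4 * 1 * 5) rfl
        norm_num at this ⊢; linarith
      · push_cast; ring
    · refine fin (Real.exp (-(4 * π / (4 * 3 * 5 : ℕ))) / 10) ?_ (le_trans (le_of_eq ?_) this)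
      · have := expk 1 (4 * 3 * 5) rfl
        norm_num at this ⊢; linarith
      · push_cast; ring
  have two : 2 ≤ w ^ 6 * |(W.Δ : ℝ)| := by
    rcases A.eq_empty_or_nonempty with h0 | h0
    · have a1 := Int.natAbs_pos.2 S.red.ne
      have a2 : 2 ≤ W.Δ.natAbs := by omega
      rw [hw, h0, Finset.prod_empty, one_pow, one_mul, ← Int.cast_abs, ← Nat.cast_natAbs]
      exact_mod_cast a2
    · have a1 := prod_le A S.red.ne fun q hq =>
        ⟨(mA q hq).1, (st q (mA q hq).1).2.2.2.2.1 (mA q hq).2.2 (mA q hq).2.1⟩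
      refine le_trans ?_ (mul_le_mul_of_nonneg_left a1 (by positivity))
      rw [hw, ← Finset.prod_pow, ← Finset.prod_mul_distrib]
      refine le_trans ?_ (Finset.prod_le_prod (f := fun _ => (2 : ℝ)) (fun _ _ => by norm_num)
        fun q hq => ?_)
      · rw [Finset.prod_const]
        exact le_self_pow₀ (by norm_num) h0.card_pos.ne'
      · have b1 := pow_le_pow_left₀ (by norm_num) (frac (mA q hq).2.1) 6
        have b2 : (5 : ℝ) ^ 2 ≤ q ^ 2 :=
          pow_le_pow_left₀ (by norm_num) (by exact_mod_cast (mA q hq).2.1) 2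
        exact le_trans (by norm_num) (mul_le_mul b1 b2 (by norm_num) (by positivity))
  have a1 := pow_le_pow_left₀ (by positivity) low 6
  have a2 := S.vol.all
  have a3 := mul_le_mul_of_nonneg_right a1 (abs_nonneg (W.Δ : ℝ))
  rw [mul_pow, mul_assoc] at a3
  have a4 : (12.56 : ℝ) ^ 6 * 2 ≤ 14.06 ^ 6 :=
    ((mul_le_mul_of_nonneg_left two (by positivity)).trans a3).trans a2
  norm_num at a4

end Pool.Agent.MP_b2c033_nt.U
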