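import Pool.Agent.MP_b2c033_nt.UC.TSpec
import Pool.Agent.MP_b2c033_nt.UC.RH5

/-! Soundness of the check that depends only on the small additive primes. -/

namespace Pool.Agent.MP_b2c033_nt.U

namespace ChkQx

theorem big {p : ℕ} (hp : p.Prime) (h : p ∉ [2, 3, 5, 7]) : 11 ≤ p := by
  by_contra hc
  have h2 := hp.two_le
  have h3 : p < 11 := by omega
  interval_cases p <;> first | exact h (by decide) | exact absurd hp (by decide)

theorem tinv (h1 : C_D01) {W : WeierstrassCurve ℤ} {N : ℕ} (hN : 0 < N)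
    (h5 : ∀ p : ℕ, p.Prime → 5 ≤ p → ¬ Hy W N p) (F : List (ℕ × List Op))
    (hnd : (F.map (·.1)).Nodup) (h11 : ∀ q ∈ F.map (·.1), 11 ≤ q)
    (hfx : ∀ y ∈ F, y.1.Prime ∧ ∀ o ∈ y.2, Dm W N y.1 o)
    (hr : ∀ r : ℕ, r.Prime → 11 ≤ r → Ad W r → r ∈ F.map (·.1)) :
    TInv W N (([2, 3, 5, 7].filter fun p => 2 ≤ N.factorization p).map fun p => (p, gn W N p))
      F := by
  have e : (([2, 3, 5, 7].filter fun p => 2 ≤ N.factorization p).map
      fun p => (p, gn W N p)).map (·.1) = [2, 3, 5, 7].filter fun p => 2 ≤ N.factorization p := by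
    rw [List.map_map]
    exact List.map_id _
  refine ⟨?_, ?_, hfx, ?_⟩
  · rw [e, List.nodup_append]
    refine ⟨List.Nodup.filter _ (by decide), hnd, fun a ha b hb hab => ?_⟩
    have h2 := h11 b hb
    have h3 := (List.mem_filter.1 ha).1
    simp only [List.mem_cons, List.not_mem_nil, or_false] at h3
    omega
  · intro y hy
    obtain ⟨p, hp, rfl⟩ := List.mem_map.1 hy
    obtain ⟨h2, h3⟩ := List.mem_filter.1 hp
    refine ⟨?_, of_decide_eq_true h3, rfl⟩
    simp only [List.mem_cons, List.not_mem_nil, or_false] at h2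
    rcases h2 with rfl | rfl | rfl | rfl <;> norm_num
  · intro p hp hd hn
    rw [e, List.mem_append, not_or] at hn
    by_cases h2 : N.factorization p = 1
    · exact ((h1 W N p hp).2 h2).1
    exfalso
    have h3 := hp.factorization_pos_of_dvd hN.ne' hd
    have h4 : 2 ≤ N.factorization p := by omega
    have h6 : 11 ≤ p := big hp fun h => hn.1 (List.mem_filter.2 ⟨h, decide_eq_true h4⟩)
    exact h5 p hp (by omega) ⟨(hp.pow_dvd_iff_le_factorization hN.ne').2 h4,
      fun h => hn.2 (hr p hp h6 h)⟩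

theorem frac {q : ℕ} (hq : 11 ≤ q) :
    ((5 : ℕ) : ℝ) / (6 : ℕ) ≤ ((1 * (q - 1) : ℕ) : ℝ) / ((q + 1 : ℕ) : ℝ) := by
  have : (11 : ℝ) ≤ q := by exact_mod_cast hq
  rw [one_mul, Nat.cast_sub (by omega), div_le_div_iff₀ (by norm_num) (by positivity)]
  push_cast
  linarith

end ChkQx

open ChkQx in
theorem r_chkQ : R_chkQ := by
  intro h1 h3 hS hH htN hen htree hl W Ω ρ N b S hΔ A P T hT hA hX hc
  have st := hS W Ω ρ N b S
  have h5 := hH W Ω ρ N b S hΔ
  have N0 := S.coef.pos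
  obtain ⟨h₂, h₃, hbr, hlist⟩ := hl W Ω ρ N b S hΔ
  have hc' := hbr A _ (fun p hp => (hA p (by
    simp only [List.mem_cons, List.not_mem_nil, or_false] at hp ⊢
    omega)).1) hc
  have hopn := (hlist A A [2, 3, 5, 7] (by
    intro p hp
    simp only [List.mem_cons, List.not_mem_nil, or_false] at hp
    rcases hp with rfl | rfl | rfl | rfl <;> norm_num)).1
    fun p hp => by rw [and_self]; exact hA p hp
  rw [hopn] at hc'
  have hle : TLe (tN [268435456]) (TN b 2) := by
    have := htN b 1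
    simpa [S.coef.one] using this
  have hQ : OmQ Ω (Nat.mul T KQ) := hen.2 Ω T hT
  have fin : ∀ F : List (ℕ × List Op), F.map (·.2) = xo P → (F.map (·.1)).Nodup →
      (∀ q ∈ F.map (·.1), 11 ≤ q) → (∀ y ∈ F, y.1.Prime ∧ ∀ o ∈ y.2, Dm W N y.1 o) →
      (∀ r : ℕ, r.Prime → 11 ≤ r → Ad W r → r ∈ F.map (·.1)) → False := by
    intro F e a1 a2 a3 a4
    rw [← e] at hc'
    exact Bool.false_ne_true
      (htree W Ω ρ N b S _ _ 2 7 _ _ F 1 hQ hle (tinv h1 N0 h5 F a1 a2 a3 a4) hc')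
  have mult : ∀ q Q : ℕ, q.Prime → 11 ≤ q → Q ≤ q → (q : ℤ) ∣ W.Δ →
      (∀ r : ℕ, r.Prime → 11 ≤ r → ¬ Ad W r) → [[om Q]] = xo P → False := by
    intro q Q hq q11 hQq hd hno e
    have e1 : N.factorization q = 1 :=
      ((st q hq).2.1 hd fun h => hno q hq q11 ⟨hd, h⟩).resolve_right (h5 q hq (by omega))
    refine fin [(q, [om Q])] e (List.nodup_singleton _) (by simpa using q11) ?_
      fun r hr r11 ha => absurd ha (hno r hr r11)
    intro y hy
    rw [List.mem_singleton.1 hy]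
    refine ⟨hq, fun o ho => ?_⟩
    rw [List.mem_singleton.1 ho]
    exact ((h1 W N q hq).2 e1).2 Q hQq
  obtain _ | _ | _ | n := P
  · exact fin [] rfl List.nodup_nil (by simp) (by simp) fun r hr r11 ha => absurd ha (hX r hr r11)
  · obtain ⟨hno, q, hq, q11, hd⟩ := hX
    exact mult q 11 hq q11 q11 hd hno rfl
  · obtain ⟨hno, q, hq, q17, hd⟩ := hX
    exact mult q 17 hq (by omega) q17 hd hno rfl
  · obtain ⟨q, hq, q11, ha, hu⟩ := hX
    obtain ⟨e1, e2⟩ := (st q hq).2.2.1 ha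
    have hd := h3 W N q 1 hq le_rfl e1
    rw [H5.uo_ge (by omega), e2] at hd
    refine fin [(q, [[(5, 6, 11)]])] rfl (List.nodup_singleton _) (by simpa using q11) ?_
      fun r hr r11 har => by simpa using hu r hr r11 har
    intro y hy
    rw [List.mem_singleton.1 hy]
    refine ⟨hq, fun o ho => ?_⟩
    rw [List.mem_singleton.1 ho]
    exact H5.Dm_one hd (frac q11) q11

end Pool.Agent.MP_b2c033_nt.U
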