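import Pool.Agent.MP_b2c033_nt.UC.TSpec

/-! The lists of the checker for the true flags. -/

namespace Pool.Agent.MP_b2c033_nt.U

theorem tl_beq_mod (D p : ℕ) : Nat.beq (Nat.mod D p) 0 = true ↔ p ∣ D := by
  rw [Nat.beq_eq, Nat.dvd_iff_mod_eq_zero]
  rfl

theorem tl_br4 (g : ℕ) (f : Bool → Bool → Bool) (h₂ h₃ : Bool) (e₂ : h₂ = true → ¬ 2 ∣ g)
    (e₃ : h₃ = true → ¬ 3 ∣ g) (h : br4 g f = true) : f h₂ h₃ = true := by
  simp only [br4, Bool.and_eq_true, Bool.or_eq_true, tl_beq_mod] at h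
  obtain ⟨⟨h0, h1⟩, h2⟩ := h
  cases h₂ <;> cases h₃
  · exact h0
  · exact (h2.resolve_left (e₃ rfl)).1
  · exact h1.resolve_left (e₂ rfl)
  · exact (h2.resolve_left (e₃ rfl)).2.resolve_left (e₂ rfl)

theorem tl_opn (D C : ℕ) (h₂ h₃ : Bool) (P : ℕ → Prop) [DecidablePred P] (G : ℕ → ℕ)
    (pl : List ℕ)
    (h1 : ∀ p ∈ pl, p ∣ D ∧ p ∣ C → P p ∧ G p = 1)
    (h2 : ∀ p ∈ pl, ((h₂ && Nat.beq p 2) || (h₃ && Nat.beq p 3)) = true → P p ∧ G p = p ^ 2)
    (h3 : ∀ p ∈ pl, P p → (p ∣ D ∧ p ∣ C) ∨ ((h₂ && Nat.beq p 2) || (h₃ && Nat.beq p 3)) = true) :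
    opnL D C h₂ h₃ pl = (pl.filter fun p => P p).map fun p => (p, G p) := by
  induction pl with
  | nil => rfl
  | cons p l ih =>
    have ih' := ih (fun q hq => h1 q (List.mem_cons_of_mem _ hq))
      (fun q hq => h2 q (List.mem_cons_of_mem _ hq)) (fun q hq => h3 q (List.mem_cons_of_mem _ hq))
    have k1 := h1 p List.mem_cons_self
    have k2 := h2 p List.mem_cons_self
    have k3 := h3 p List.mem_cons_self
    have eA : (Nat.beq (Nat.mod D p) 0 && Nat.beq (Nat.mod C p) 0) = true ↔ p ∣ D ∧ p ∣ C := by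
      rw [Bool.and_eq_true, tl_beq_mod, tl_beq_mod]
    rw [opnL, ih']
    by_cases hA : p ∣ D ∧ p ∣ C
    · rw [eA.2 hA, cond_true, List.filter_cons_of_pos (by simpa using (k1 hA).1), List.map_cons,
        (k1 hA).2]
    · have eA' : (Nat.beq (Nat.mod D p) 0 && Nat.beq (Nat.mod C p) 0) = false :=
        Bool.eq_false_iff.2 fun h => hA (eA.1 h)
      rw [eA', cond_false]
      by_cases hH : ((h₂ && Nat.beq p 2) || (h₃ && Nat.beq p 3)) = true
      · rw [hH, cond_true, List.filter_cons_of_pos (by simpa using (k2 hH).1), List.map_cons,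
          (k2 hH).2]
      · have hP : ¬ P p := fun h => (k3 h).elim hA hH
        rw [Bool.eq_false_iff.2 hH, cond_false, List.filter_cons_of_neg (by simpa using hP)]

theorem tl_mul (D C : ℕ) (h₂ h₃ : Bool) (P : ℕ → Prop) [DecidablePred P] (pl : List ℕ)
    (h : ∀ p ∈ pl, P p ↔ p ∣ D ∧ ¬ p ∣ C ∧
      ¬ ((h₂ && Nat.beq p 2) || (h₃ && Nat.beq p 3)) = true) :
    mulL D C h₂ h₃ pl = pl.filter fun p => P p := by
  induction pl with
  | nil => rfl
  | cons p l ih =>
    have ih' := ih (fun q hq => h q (List.mem_cons_of_mem _ hq))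
    have k := h p List.mem_cons_self
    have eA : (Nat.beq (Nat.mod D p) 0 && !Nat.beq (Nat.mod C p) 0 &&
        !((h₂ && Nat.beq p 2) || (h₃ && Nat.beq p 3))) = true ↔ P p := by
      rw [k, Bool.and_eq_true, Bool.and_eq_true, tl_beq_mod, Bool.not_eq_true', Bool.not_eq_true',
        ← Bool.not_eq_true, ← Bool.not_eq_true, tl_beq_mod, and_assoc]
    rw [mulL, ih']
    by_cases hP : P p
    · rw [eA.2 hP, cond_true, List.filter_cons_of_pos (by simpa using hP)]
    · rw [Bool.eq_false_iff.2 fun h => hP (eA.1 h), cond_false,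
        List.filter_cons_of_neg (by simpa using hP)]

theorem r_lists : R_lists := by
  intro hSt hH5 W Ω ρ N b hS hD
  classical
  have hfl : ∀ p : ℕ, p.Prime →
      (((decide (Hy W N 2) && Nat.beq p 2) || (decide (Hy W N 3) && Nat.beq p 3)) = true ↔
        Hy W N p) := by
    intro p hp
    simp only [Bool.or_eq_true, Bool.and_eq_true, decide_eq_true_eq, Nat.beq_eq]
    constructor
    · rintro (⟨h, rfl⟩ | ⟨h, rfl⟩) <;> exact h
    · intro h
      have h5 : p < 5 := Nat.lt_of_not_le fun h5 => hH5 W Ω ρ N b hS hD p hp h5 h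
      have h2 := hp.two_le
      have h4 : p ≠ 4 := by rintro rfl; exact absurd hp (by decide)
      have : p = 2 ∨ p = 3 := by omega
      rcases this with rfl | rfl
      · exact Or.inl ⟨h, rfl⟩
      · exact Or.inr ⟨h, rfl⟩
  refine ⟨decide (Hy W N 2), decide (Hy W N 3), fun g f hg h => ?_, fun D C pl hpl => ⟨?_, ?_⟩⟩
  · refine tl_br4 g f _ _ (fun e hd => ?_) (fun e hd => ?_) h
    · exact (of_decide_eq_true e).2 (hg 2 (by simp) hd)
    · exact (of_decide_eq_true e).2 (hg 3 (by simp) hd)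
  · intro hA
    refine tl_opn D C _ _ (fun p => 2 ≤ N.factorization p) (gn W N) pl (fun p hp h => ?_)
      (fun p hp h => ?_) (fun p hp h => ?_)
    · exact (hSt W Ω ρ N b hS p (hpl p hp)).2.2.1 ((hA p hp).1 h)
    · exact (hSt W Ω ρ N b hS p (hpl p hp)).2.2.2.1 ((hfl p (hpl p hp)).1 h)
    · rw [hA p hp, hfl p (hpl p hp)]
      obtain ⟨s1, s2, -⟩ := hSt W Ω ρ N b hS p (hpl p hp)
      by_cases hd : (p : ℤ) ∣ W.Δ
      · by_cases hc : (p : ℤ) ∣ W.c₄
        · exact Or.inl ⟨hd, hc⟩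
        · exact Or.inr ((s2 hd hc).resolve_left (by omega))
      · exact Or.inr ((s1 hd).resolve_left (by omega))
  · rintro rfl rfl
    refine tl_mul _ _ _ _ (fun p => N.factorization p = 1) pl fun p hp => ?_
    rw [hfl p (hpl p hp), ← Int.natCast_dvd, ← Int.natCast_dvd]
    obtain ⟨s1, s2, s3, s4, -⟩ := hSt W Ω ρ N b hS p (hpl p hp)
    constructor
    · intro h
      have hH : ¬ Hy W N p := fun k => by have := (s4 k).1; omega
      have hd : (p : ℤ) ∣ W.Δ := by
        by_contra hd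
        rcases s1 hd with k | k
        · omega
        · exact hH k
      exact ⟨hd, fun hc => by have := (s3 ⟨hd, hc⟩).1; omega, hH⟩
    · rintro ⟨hd, hc, hH⟩
      exact (s2 hd hc).resolve_right hH

end Pool.Agent.MP_b2c033_nt.U
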