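import Pool.Agent.MP_b2c033_nt.UC.MidD
import Pool.Agent.MP_b2c033_nt.UC.TchkQ
import Pool.Agent.MP_b2c033_nt.UC.Tchk
import Pool.Agent.MP_b2c033_nt.UC.Tlists

/-! Soundness of the filter that depends only on the reduction at `2, 3, 5, 7`. -/

namespace Pool.Agent.MP_b2c033_nt.U

namespace MidS

theorem qad_iff (W : WeierstrassCurve ℤ) (p : ℕ) :
    Ad W p ↔ p ∣ Nat.gcd W.Δ.natAbs W.c₄.natAbs := by
  rw [Ad, Nat.dvd_gcd_iff, Int.natCast_dvd, Int.natCast_dvd]

theorem qdvd_of_div_one {g P : ℕ} (h : g / Nat.gcd g P = 1) : g ∣ P := by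
  have h1 := Nat.mul_div_cancel' (Nat.gcd_dvd_left g P)
  rw [h, mul_one] at h1
  rw [← h1]
  exact Nat.gcd_dvd_right g P

theorem qprime_P7 {q : ℕ} (hq : q.Prime) (h : q ∣ P7) : q ≤ 7 := by
  rw [P7] at h
  rcases (Nat.Prime.dvd_mul hq).1 h with h | h
  · rcases (Nat.Prime.dvd_mul hq).1 h with h | h
    · rcases (Nat.Prime.dvd_mul hq).1 h with h | h
      · exact (Nat.le_of_dvd (by norm_num) (hq.dvd_of_dvd_pow h)).trans (by norm_num)
      · exact (Nat.le_of_dvd (by norm_num) (hq.dvd_of_dvd_pow h)).trans (by norm_num)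
    · exact (Nat.le_of_dvd (by norm_num) (hq.dvd_of_dvd_pow h)).trans (by norm_num)
  · exact Nat.le_of_dvd (by norm_num) (hq.dvd_of_dvd_pow h)

theorem qge11 {m q : ℕ} (hq : q.Prime) (hm : Nat.gcd m 210 = 1) (h : q ∣ m) : 11 ≤ q := by
  by_contra hc
  have hc' : q < 11 := by omega
  have h2 : q ∣ 210 := by
    interval_cases q <;> first | (exfalso; revert hq; norm_num; done) | norm_num
  have h3 := Nat.dvd_gcd h h2
  rw [hm] at h3
  exact hq.one_lt.ne' (Nat.dvd_one.1 h3)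

theorem qge17 {m q : ℕ} (hq : q.Prime) (h11 : 11 ≤ q) (hm : Nat.gcd m 143 = 1)
    (h : q ∣ m) : 17 ≤ q := by
  by_contra hc
  have hc' : q < 17 := by omega
  have h2 : q ∣ 143 := by
    interval_cases q <;> first | (exfalso; revert hq; norm_num; done) | norm_num
  have h3 := Nat.dvd_gcd h h2
  rw [hm] at h3
  exact hq.one_lt.ne' (Nat.dvd_one.1 h3)

theorem bk_sound {W : WeierstrassCurve ℤ} {k : ℕ → Bool}
    (h : bk W.Δ.natAbs W.c₄.natAbs k = true) : ∃ P < 4, XO W P ∧ k P = true := by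
  rw [bk, force_eq, force_eq] at h
  generalize hg : Nat.gcd W.Δ.natAbs W.c₄.natAbs = g at h
  have hA : ∀ p, Ad W p ↔ p ∣ g := fun p => by rw [qad_iff, hg]
  have e1 : Nat.div g (Nat.gcd g P7) = g / Nat.gcd g P7 := rfl
  rw [e1] at h
  generalize hg' : g / Nat.gcd g P7 = g' at h
  by_cases c1 : g' = 1
  · have hN : ∀ q : ℕ, q.Prime → 11 ≤ q → ¬ Ad W q := by
      intro q hq h11 ha
      have := qprime_P7 hq (((hA q).1 ha).trans (qdvd_of_div_one (hg'.trans c1)))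
      omega
    have b1 : Nat.beq g' 1 = true := by rw [c1]; rfl
    rw [b1, cond_true, force_eq] at h
    have hmD : Nat.div W.Δ.natAbs (Nat.gcd W.Δ.natAbs P7) ∣ W.Δ.natAbs :=
      Nat.div_dvd_of_dvd (Nat.gcd_dvd_left _ _)
    generalize Nat.div W.Δ.natAbs (Nat.gcd W.Δ.natAbs P7) = m at h hmD
    by_cases c2 : m = 1
    · have b2 : Nat.beq m 1 = true := by rw [c2]; rfl
      rw [b2, cond_true] at h
      exact ⟨0, by norm_num, hN, h⟩
    · have b2 : Nat.beq m 1 = false := by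
        rw [← Bool.not_eq_true]
        exact fun hb => c2 (Nat.eq_of_beq_eq_true hb)
      rw [b2, cond_false, Bool.and_eq_true, force_eq] at h
      obtain ⟨h1, h⟩ := h
      have h1' := Nat.eq_of_beq_eq_true h1
      have hmm : Nat.div m (Nat.gcd m P13) ∣ m := Nat.div_dvd_of_dvd (Nat.gcd_dvd_left _ _)
      generalize Nat.div m (Nat.gcd m P13) = m' at h hmm
      by_cases c3 : m' = 1
      · have b3 : Nat.beq m' 1 = true := by rw [c3]; rfl
        rw [b3, cond_true] at h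
        refine ⟨1, by norm_num, ⟨hN, m.minFac, Nat.minFac_prime c2,
          qge11 (Nat.minFac_prime c2) h1' (Nat.minFac_dvd m), ?_⟩, h⟩
        exact Int.natCast_dvd.2 ((Nat.minFac_dvd m).trans hmD)
      · have b3 : Nat.beq m' 1 = false := by
          rw [← Bool.not_eq_true]
          exact fun hb => c3 (Nat.eq_of_beq_eq_true hb)
        rw [b3, cond_false, Bool.and_eq_true] at h
        have hp := Nat.minFac_prime c3
        have hd := Nat.minFac_dvd m'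
        refine ⟨2, by norm_num, ⟨hN, m'.minFac, hp,
          qge17 hp (qge11 hp h1' (hd.trans hmm)) (Nat.eq_of_beq_eq_true h.1) hd, ?_⟩, h.2⟩
        exact Int.natCast_dvd.2 ((hd.trans hmm).trans hmD)
  · have b1 : Nat.beq g' 1 = false := by
      rw [← Bool.not_eq_true]
      exact fun hb => c1 (Nat.eq_of_beq_eq_true hb)
    rw [b1, cond_false, Bool.and_eq_true, Bool.and_eq_true] at h
    obtain ⟨⟨h1, h2⟩, h3⟩ := h
    have h1' := Nat.eq_of_beq_eq_true h1
    have h2' : g' ∣ g'.minFac ^ 12 := Nat.dvd_of_mod_eq_zero (Nat.eq_of_beq_eq_true h2)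
    have hp := Nat.minFac_prime c1
    have hd := Nat.minFac_dvd g'
    have hgg : Nat.gcd g P7 * g' = g := by
      rw [← hg']
      exact Nat.mul_div_cancel' (Nat.gcd_dvd_left g P7)
    refine ⟨3, by norm_num, ⟨g'.minFac, hp, qge11 hp h1' hd, (hA _).2 ?_, ?_⟩, h3⟩
    · rw [← hgg]
      exact hd.mul_left _
    · intro r hr h11 ha
      have h4 := (hA r).1 ha
      rw [← hgg] at h4
      rcases (Nat.Prime.dvd_mul hr).1 h4 with h5 | h5
      · have := qprime_P7 hr (h5.trans (Nat.gcd_dvd_right g P7))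
        omega
      · exact (Nat.prime_dvd_prime_iff_eq hr hp).1 (hr.dvd_of_dvd_pow (h5.trans h2'))

theorem apA_eq (W : WeierstrassCurve ℤ) {p : ℕ} (hp : p.Prime) (hd : p ∣ 210) :
    apA W.a₁ W.a₂ W.a₃ p ((W.a₄ % 210).toNat % p) ((W.a₆ % 210).toNat % p) = (ap W p).natAbs := by
  have k : ∀ a : ℤ, ((((a % 210).toNat % p : ℕ) : ℤ) : ZMod p) = a := fun a => by
    rw [Int.cast_natCast, ZMod.natCast_mod, ← Int.cast_natCast,
      Int.toNat_of_nonneg (Int.emod_nonneg _ (by norm_num)), ZMod.intCast_eq_intCast_iff]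
    exact (Int.mod_modEq a 210).of_dvd (by exact_mod_cast hd)
  rw [apA, ← ap_eq _ hp]
  have e : (mkW (W.a₁, W.a₂, W.a₃, (((W.a₄ % 210).toNat % p : ℕ) : ℤ),
      (((W.a₆ % 210).toNat % p : ℕ) : ℤ))).map (Int.castRingHom (ZMod p)) =
      W.map (Int.castRingHom (ZMod p)) := by
    ext
    · rfl
    · rfl
    · rfl
    · exact k _
    · exact k _
  rw [ap, ap, e]

/-- the meaning of a digit -/
def St (W : WeierstrassCurve ℤ) (p r s : ℕ) : Prop :=
  (¬ (p : ℤ) ∣ W.Δ ∧ s = (ap W p).natAbs ∧ s < r) ∨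
    ((p : ℤ) ∣ W.Δ ∧ ¬ (p : ℤ) ∣ W.c₄ ∧ s = r) ∨ (Ad W p ∧ s = r + 1)

theorem dg_st {W : WeierstrassCurve ℤ} (hA : ApFacts W) {p r : ℕ} (hp : p.Prime) (hd : p ∣ 210)
    (hr : 4 * p < r ^ 2) : St W p r (dg W.a₁ W.a₂ W.a₃ p r (W.a₄ % 210).toNat (W.a₆ % 210).toNat
      W.Δ.natAbs W.c₄.natAbs) := by
  unfold dg
  by_cases h1 : p ∣ W.Δ.natAbs
  · rw [(tl_beq_mod _ _).2 h1, cond_true]
    by_cases h2 : p ∣ W.c₄.natAbs
    · rw [(tl_beq_mod _ _).2 h2, cond_true]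
      exact Or.inr (Or.inr ⟨⟨Int.natCast_dvd.2 h1, Int.natCast_dvd.2 h2⟩, rfl⟩)
    · rw [Bool.eq_false_iff.2 (mt (tl_beq_mod _ _).1 h2), cond_false]
      exact Or.inr (Or.inl ⟨Int.natCast_dvd.2 h1, mt Int.natCast_dvd.1 h2, rfl⟩)
  · rw [Bool.eq_false_iff.2 (mt (tl_beq_mod _ _).1 h1), cond_false, force_eq, force_eq]
    have e := apA_eq W hp hd
    have h2 := mt Int.natCast_dvd.1 h1
    refine Or.inl ⟨h2, e, lt_of_eq_of_lt e ?_⟩
    have h3 := hA.hasse p hp h2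
    rw [← Int.natAbs_sq] at h3
    exact lt_of_pow_lt_pow_left₀ 2 (Nat.zero_le _)
      (lt_of_le_of_lt (by exact_mod_cast h3) hr)

theorem St.lt {W : WeierstrassCurve ℤ} {p r s : ℕ} (h : St W p r s) : s < r + 2 := by
  rcases h with h | h | h <;> omega

theorem tw {N R K : ℕ} {b : ℕ → ℤ} {lam : ℕ → ℤ} (hC : Coef N b)
    (h : ∀ p : ℕ, p.Prime → p ≤ K → (lam p = 0 ∧ p ∣ R) ∨ (lam p = |b p| ∧ (p ∣ R ↔ p ∣ N)))
    (n : ℕ) (hn : n ≤ K) : bF lam R n n ^ 2 ≤ b n ^ 2 := by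
  classical
  obtain ⟨s, hs⟩ : ∃ s : ℕ → ℤ, s = fun p => if lam p = 0 ∧ p ∣ R then 0 else
    if 0 ≤ b p then 1 else -1 := ⟨_, rfl⟩
  obtain ⟨χ, hχ⟩ : ∃ χ : ℕ → ℤ, χ = fun n => (n.primeFactorsList.map s).prod := ⟨_, rfl⟩
  have mul : ∀ p k : ℕ, p.Prime → k ≠ 0 → χ (p * k) = s p * χ k := fun p k hp hk => by
    simp only [hχ]
    rw [((Nat.perm_primeFactorsList_mul hp.ne_zero hk).map s).prod_eq,
      Nat.primeFactorsList_prime hp]
    simp
  have s1 : ∀ p, s p ^ 2 ≤ 1 := fun p => by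
    simp only [hs]
    split_ifs <;> norm_num
  have c1 : χ n ^ 2 ≤ 1 := by
    simp only [hχ]
    induction n.primeFactorsList with
    | nil => simp
    | cons p l ih =>
      rw [List.map_cons, List.prod_cons, mul_pow]
      exact mul_le_one₀ (s1 p) (sq_nonneg _) ih
  have main : ∀ f n, n ≤ f → n ≤ K → bF lam R f n = χ n * b n := by
    intro f
    induction f with
    | zero => intro n hn _; rw [Nat.le_zero.1 hn, hC.zero, mul_zero]; rfl
    | succ f ih =>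
      intro n hn hK
      rw [bF]
      by_cases h1 : n ≤ 1
      · rw [if_pos h1]
        interval_cases n
        · rw [hC.zero, mul_zero]; rfl
        · rw [hC.one, hχ]; simp
      rw [if_neg h1]
      simp only [force_eq]
      have hp : n.minFac.Prime := Nat.minFac_prime (by omega)
      have hpK : n.minFac ≤ K := (Nat.minFac_le (by omega)).trans hK
      have hd := Nat.mul_div_cancel' n.minFac_dvd
      have hlt : n / n.minFac < n := Nat.div_lt_self (by omega) hp.one_lt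
      have hr := hC.rel n.minFac (n / n.minFac) hp
      have m0 : n / n.minFac ≠ 0 := fun h0 => by rw [h0] at hd; omega
      have hx := mul _ _ hp m0
      rw [hd] at hr hx
      rw [hr, hx, ih _ (by omega) (by omega), ih _ ((Nat.div_le_self _ _).trans (by omega))
        ((Nat.div_le_self _ _).trans (by omega)), dn]
      simp only [← Nat.dvd_iff_mod_eq_zero]
      generalize n.minFac = p at hp hpK m0 ⊢
      generalize n / p = m at m0 ⊢
      by_cases A : lam p = 0 ∧ p ∣ R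
      · have : s p = 0 := by simp only [hs]; rw [if_pos A]
        rw [if_pos A.2, if_pos A.1, this, zero_mul, zero_mul]
      obtain ⟨l1, l2⟩ := (h p hp hpK).resolve_left A
      have a1 : s p * b p = lam p ∧ s p * s p = 1 := by
        simp only [hs]
        rw [if_neg A, l1]
        split_ifs with c
        · rw [abs_of_nonneg c]; simp
        · rw [abs_of_neg (not_le.1 c)]; simp
      by_cases B : p ∣ R
      · rw [if_pos B, if_neg fun h0 => A ⟨h0, B⟩, if_pos (l2.1 B), ← a1.1]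
        ring
      · rw [if_neg B, if_neg (mt l2.2 B)]
        split_ifs with c
        · obtain ⟨k, rfl⟩ := c
          rw [Nat.mul_div_cancel_left _ hp.pos, mul p k hp (right_ne_zero_of_mul m0), ← a1.1]
          linear_combination (p * χ k * b k) * a1.2
        · rw [← a1.1]
          ring
  rw [main n n le_rfl hn, mul_pow]
  exact mul_le_of_le_one_left (sq_nonneg _) c1

theorem tle (htN : T_tN) {b b' : ℕ → ℤ} {K : ℕ} (h : ∀ n ≤ K, b' n ^ 2 ≤ b n ^ 2) :
    TLe (tN ((List.range' 1 K).map fun n => (b' n).natAbs ^ 2 * 268435456 / n)) (TN b (K + 1)) := by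
  intro X
  refine (htN b' K X).trans (mul_le_mul_of_nonneg_left ?_ (by norm_num))
  unfold TN TT
  split_ifs
  · exact le_rfl
  · refine Finset.sum_le_sum fun n hn => mul_le_mul_of_nonneg_right
      (div_le_div_of_nonneg_right ?_ (Nat.cast_nonneg _)) (Real.exp_pos _).le
    exact_mod_cast h n (Nat.lt_succ_iff.1 (Finset.mem_range.1 hn))

section

variable {W : WeierstrassCurve ℤ} {Ω ρ : ℝ} {N : ℕ} {b : ℕ → ℤ}

theorem loc (h1 : C_D01) (hS : C_St) (S : Sit W Ω ρ N b) {p r s : ℕ} (hp : p.Prime)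
    (hs : St W p r s) {h : Bool} (hh : h = true ↔ Hy W N p) :
    lamD r s h = |b p| ∧ ((radD p r s h = p ∧ p ∣ N) ∨ (radD p r s h = 1 ∧ ¬ p ∣ N)) ∧
      ∀ (hy ad : List Op) (P : List Op → Prop), (Hy W N p → P hy) → (Ad W p → P ad) →
        (∀ o, Dm W N p o → P [o]) → P (clD p r s h hy ad) := by
  obtain ⟨s1, s2, s3, -⟩ := hS W Ω ρ N b S p hp
  have N0 := S.coef.pos.ne'
  unfold lamD radD clD
  cases h with
  | true =>
    have hy := hh.1 rfl
    exact ⟨by rw [S.coef.two p hp hy.1]; rfl,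
      Or.inl ⟨rfl, (dvd_pow_self p two_ne_zero).trans hy.1⟩, fun _ _ _ a _ _ => a hy⟩
  | false =>
    have hy : ¬ Hy W N p := fun k => Bool.false_ne_true (hh.2 k)
    simp only [cond_false]
    rcases hs with ⟨a1, a2, a3⟩ | ⟨a1, a2, rfl⟩ | ⟨a1, rfl⟩
    · have e := (s1 a1).resolve_right hy
      have n : ¬ p ∣ N := fun k => by
        have := hp.factorization_pos_of_dvd N0 k
        omega
      rw [show Nat.blt s r = true from Nat.blt_eq.symm ▸ a3]
      exact ⟨by rw [(S.link.good p hp n).2, a2]; exact Int.natCast_natAbs _, Or.inr ⟨rfl, n⟩,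
        fun _ _ _ _ _ a => a _ ((h1 W N p hp).1 e)⟩
    · have e := (s2 a1 a2).resolve_right hy
      rw [show Nat.blt s s = false by simp [← Bool.not_eq_true, Nat.blt_eq], Nat.beq_refl]
      refine ⟨?_, Or.inl ⟨rfl, Nat.dvd_of_factorization_pos (by omega)⟩,
        fun _ _ _ _ _ a => a _ (((h1 W N p hp).2 e).2 p le_rfl)⟩
      rcases S.coef.one' p hp e with k | k <;> rw [k] <;> rfl
    · have e := (s3 a1).1
      rw [show Nat.blt (r + 1) r = false by simp [← Bool.not_eq_true, Nat.blt_eq],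
        show Nat.beq (r + 1) r = false by simp [← Bool.not_eq_true, Nat.beq_eq]]
      exact ⟨by rw [S.coef.two p hp ((hp.pow_dvd_iff_le_factorization N0).2 e)]; rfl,
        Or.inl ⟨rfl, Nat.dvd_of_factorization_pos (by omega)⟩, fun _ _ _ _ a _ => a a1⟩

theorem xoF (h1 : C_D01) (h3 : C_D3) (hS : C_St) (S : Sit W Ω ρ N b)
    (h5 : ∀ p : ℕ, p.Prime → 5 ≤ p → ¬ Hy W N p) {P : ℕ} (hX : XO W P) :
    ∃ F : List (ℕ × List Op), F.map (·.2) = xo P ∧ (F.map (·.1)).Nodup ∧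
      (∀ q ∈ F.map (·.1), 11 ≤ q) ∧ (∀ y ∈ F, y.1.Prime ∧ ∀ o ∈ y.2, Dm W N y.1 o) ∧
      ∀ r : ℕ, r.Prime → 11 ≤ r → Ad W r → r ∈ F.map (·.1) := by
  have st := hS W Ω ρ N b S
  have mult : ∀ q Q : ℕ, q.Prime → 11 ≤ q → Q ≤ q → (q : ℤ) ∣ W.Δ →
      (∀ r : ℕ, r.Prime → 11 ≤ r → ¬ Ad W r) → ∀ y ∈ [(q, [om Q])],
        y.1.Prime ∧ ∀ o ∈ y.2, Dm W N y.1 o := by
    intro q Q hq q11 hQq hd hno y hy
    have e1 : N.factorization q = 1 :=
      ((st q hq).2.1 hd fun h => hno q hq q11 ⟨hd, h⟩).resolve_right (h5 q hq (by omega))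
    rw [List.mem_singleton.1 hy]
    refine ⟨hq, fun o ho => ?_⟩
    rw [List.mem_singleton.1 ho]
    exact ((h1 W N q hq).2 e1).2 Q hQq
  obtain _ | _ | _ | n := P
  · exact ⟨[], rfl, List.nodup_nil, by simp, by simp, fun r hr r11 ha => absurd ha (hX r hr r11)⟩
  · obtain ⟨hno, q, hq, q11, hd⟩ := hX
    exact ⟨[(q, [om 11])], rfl, List.nodup_singleton _, by simpa using q11, mult q 11 hq q11 q11 hd hno,
      fun r hr r11 ha => absurd ha (hno r hr r11)⟩
  · obtain ⟨hno, q, hq, q17, hd⟩ := hX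
    exact ⟨[(q, [om 17])], rfl, List.nodup_singleton _, by simpa using (by omega : 11 ≤ q),
      mult q 17 hq (by omega) q17 hd hno, fun r hr r11 ha => absurd ha (hno r hr r11)⟩
  · obtain ⟨q, hq, q11, ha, hu⟩ := hX
    obtain ⟨e1, e2⟩ := (st q hq).2.2.1 ha
    have hd := h3 W N q 1 hq le_rfl e1
    rw [H5.uo_ge (by omega), e2] at hd
    refine ⟨[(q, [[(5, 6, 11)]])], rfl, List.nodup_singleton _, by simpa using q11, ?_,
      fun r hr r11 har => by simpa using hu r hr r11 har⟩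
    intro y hy
    rw [List.mem_singleton.1 hy]
    refine ⟨hq, fun o ho => ?_⟩
    rw [List.mem_singleton.1 ho]
    exact H5.Dm_one hd (ChkQx.frac q11) q11

theorem small {p : ℕ} (hp : p.Prime) (h : p ≤ 49) :
    p = 2 ∨ p = 3 ∨ p = 5 ∨ p = 7 ∨ (11 ≤ p ∧ p ∣ Q47) := by
  have := hp.two_le
  unfold Q47
  interval_cases p <;> first | (exfalso; revert hp; norm_num; done) | norm_num

theorem chkM_sound (h1 : C_D01) (h3 : C_D3) (h4 : C_D4) (hS : C_St) (hH : C_H5) (htN : T_tN)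
    (hen : T_enN) (hk : T_kill) (S : Sit W Ω ρ N b) {s₂ s₃ s₅ s₇ P t : ℕ} (a₂ : St W 2 3 s₂)
    (a₃ : St W 3 4 s₃) (a₅ : St W 5 5 s₅) (a₇ : St W 7 6 s₇) (hX : XO W P)
    (ht : 10 ^ 9 * Ω ^ 6 ≤ (t ^ 3 : ℕ)) (h : chkM s₂ s₃ s₅ s₇ P t = true) : False := by
  classical
  have st := hS W Ω ρ N b S
  have h5 := hH W Ω ρ N b S (natAbs_ne_one W)
  have p5 : Nat.Prime 5 := by norm_num
  have p7 : Nat.Prime 7 := by norm_num
  rw [chkM, force_eq, Bool.or_eq_true] at h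
  rcases h with h | h
  · rw [Nat.eq_of_beq_eq_true h] at ht
    have := S.vol.pos
    exact absurd ht (not_le.2 (by push_cast; positivity))
  have hc := tl_br4 _ _ (decide (Hy W N 2)) (decide (Hy W N 3)) (fun e => ?_) (fun e => ?_) h
  rotate_left
  · have n : Nat.beq s₂ 4 = false := Bool.eq_false_iff.2 fun k => by
      have := Nat.eq_of_beq_eq_true k
      rcases a₂ with a | a | a
      · omega
      · omega
      · exact (of_decide_eq_true e).2 a.1
    rw [n]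
    cases Nat.beq s₃ 5 <;> decide
  · have n : Nat.beq s₃ 5 = false := Bool.eq_false_iff.2 fun k => by
      have := Nat.eq_of_beq_eq_true k
      rcases a₃ with a | a | a
      · omega
      · omega
      · exact (of_decide_eq_true e).2 a.1
    rw [n]
    cases Nat.beq s₂ 4 <;> decide
  obtain ⟨l₂, r₂, c₂⟩ := loc h1 hS S Nat.prime_two a₂ (h := decide (Hy W N 2)) decide_eq_true_iff
  obtain ⟨l₃, r₃, c₃⟩ := loc h1 hS S Nat.prime_three a₃ (h := decide (Hy W N 3)) decide_eq_true_iff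
  obtain ⟨l₅, r₅, c₅⟩ := loc h1 hS S p5 a₅ (h := false) (by simpa using h5 5 p5 le_rfl)
  obtain ⟨l₇, r₇, c₇⟩ := loc h1 hS S p7 a₇ (h := false) (by simpa using h5 7 p7 (by norm_num))
  obtain ⟨F, f1, f2, f3, f4, f5⟩ := xoF h1 h3 hS S h5 hX
  have hQ : OmQ Ω (Nat.mul (Nat.pow t 3) KQ) := hen.2 Ω _ ht
  have d2 : ∀ g, 2 ≤ N.factorization 2 → gn W N 2 = g →
      ∃ o ∈ [[(g, 3, 4)], [(g, 5, 16)]], Dm W N 2 o := by
    rintro _ e rfl
    by_cases c : N.factorization 2 ≤ 7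
    · exact ⟨_, List.mem_cons_self, (h4 W N).1 e c⟩
    · exact ⟨_, List.mem_cons_of_mem _ List.mem_cons_self,
        h3 W N 2 4 Nat.prime_two (by norm_num) (by omega)⟩
  have d3 : ∀ g, 2 ≤ N.factorization 3 → gn W N 3 = g →
      ∃ o ∈ [[(5 * g, 8, 3)], [(g, 4, 9), (g, 4, 3)]], Dm W N 3 o := by
    rintro _ e rfl
    by_cases c : N.factorization 3 = 2
    · exact ⟨_, List.mem_cons_self, (h4 W N).2.1 c⟩
    · exact ⟨_, List.mem_cons_of_mem _ List.mem_cons_self, (h4 W N).2.2 (by omega)⟩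
  have d5 : ∀ p, p.Prime → Ad W p → ∀ o ∈ [uo p 1 1], Dm W N p o := fun p hp a o ho => by
    obtain ⟨e1, e2⟩ := (st p hp).2.2.1 a
    have := h3 W N p 1 hp le_rfl e1
    rwa [e2, ← List.mem_singleton.1 ho] at this
  have fin : ∀ cs K, TLe (tN cs) (TN b K) → allK s₂ s₃ s₅ s₇ P (Nat.mul (Nat.pow t 3) KQ)
      (decide (Hy W N 2)) (decide (Hy W N 3)) cs = true → False := by
    intro cs K hle ha
    obtain ⟨o₂, m₂, e₂⟩ := c₂ [[(4, 3, 4)], [(4, 5, 16)]] [[(1, 3, 4)], [(1, 5, 16)]]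
      (fun l => ∃ o ∈ l, Dm W N 2 o)
      (fun a => d2 4 ((st 2 Nat.prime_two).2.2.2.1 a).1 ((st 2 Nat.prime_two).2.2.2.1 a).2)
      (fun a => d2 1 ((st 2 Nat.prime_two).2.2.1 a).1 ((st 2 Nat.prime_two).2.2.1 a).2)
      fun o a => ⟨o, List.mem_singleton_self _, a⟩
    obtain ⟨o₃, m₃, e₃⟩ := c₃ [[(45, 8, 3)], [(9, 4, 9), (9, 4, 3)]]
      [[(5, 8, 3)], [(1, 4, 9), (1, 4, 3)]] (fun l => ∃ o ∈ l, Dm W N 3 o)
      (fun a => d3 9 ((st 3 Nat.prime_three).2.2.2.1 a).1 ((st 3 Nat.prime_three).2.2.2.1 a).2)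
      (fun a => d3 1 ((st 3 Nat.prime_three).2.2.1 a).1 ((st 3 Nat.prime_three).2.2.1 a).2)
      fun o a => ⟨o, List.mem_singleton_self _, a⟩
    have e₅ := c₅ [] [[(4, 6, 5)]] (fun l => ∀ o ∈ l, Dm W N 5 o) (by simp) (d5 5 p5)
      fun o a o' h => List.mem_singleton.1 h ▸ a
    have e₇ := c₇ [] [[(6, 8, 7)]] (fun l => ∀ o ∈ l, Dm W N 7 o) (by simp) (d5 7 p7)
      fun o a o' h => List.mem_singleton.1 h ▸ a
    have hz := List.all_eq_true.1 (List.all_eq_true.1 ha o₂ m₂) o₃ m₃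
    rw [← f1] at hz
    refine hk W Ω ρ N b S _ _ K ((2, [o₂]) :: (3, [o₃]) :: (5, _) :: (7, _) :: F) hQ hle
      ⟨?_, by simp, fun y hy => ?_, fun p hp hd hn => ?_⟩ hz
    · simp only [List.map_nil, List.nil_append, List.map_cons, List.nodup_cons, List.mem_cons,
        not_or]
      refine ⟨⟨by norm_num, by norm_num, by norm_num, fun k => ?_⟩,
        ⟨by norm_num, by norm_num, fun k => ?_⟩, ⟨by norm_num, fun k => ?_⟩, fun k => ?_, f2⟩ <;>
        exact absurd (f3 _ k) (by norm_num)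
    · simp only [List.mem_cons] at hy
      rcases hy with rfl | rfl | rfl | rfl | hy
      · exact ⟨Nat.prime_two, fun o h => List.mem_singleton.1 h ▸ e₂⟩
      · exact ⟨Nat.prime_three, fun o h => List.mem_singleton.1 h ▸ e₃⟩
      · exact ⟨p5, e₅⟩
      · exact ⟨p7, e₇⟩
      · exact f4 y hy
    · simp only [List.map_nil, List.nil_append, List.map_cons, List.mem_cons, not_or] at hn
      by_cases e : N.factorization p = 1
      · exact ((h1 W N p hp).2 e).1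
      have e0 := hp.factorization_pos_of_dvd S.coef.pos.ne' hd
      have p11 : 11 ≤ p := ChkQx.big hp (by simp [hn.1, hn.2.1, hn.2.2.1, hn.2.2.2.1])
      exact absurd ⟨(hp.pow_dvd_iff_le_factorization S.coef.pos.ne').2 (by omega),
        fun a => hn.2.2.2.2 (f5 p hp p11 a)⟩ (h5 p hp (by omega))
  rw [chkM1, Bool.or_eq_true, Tchk.fL] at hc
  rcases hc with hc | hc
  · exact fin _ 2 (by simpa [S.coef.one] using htN b 1) hc
  refine fin _ 50 ?_ hc
  simp only [csM, forceZ_eq, force_eq]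
  refine tle htN (tw S.coef fun p hp hK => ?_)
  rw [l₂, l₃, l₅, l₇]
  rcases small hp hK with rfl | rfl | rfl | rfl | ⟨p11, hq⟩
  rotate_right
  · refine Or.inl ⟨?_, hq.mul_left _⟩
    have k : ∀ q, q < 11 → Nat.beq p q = false := fun q h => Bool.eq_false_iff.2 fun k => by
      have := Nat.eq_of_beq_eq_true k
      omega
    rw [lamM, k 2 (by norm_num), k 3 (by norm_num), k 5 (by norm_num), k 7 (by norm_num)]
    rfl
  all_goals
    refine Or.inr ⟨rfl, ?_⟩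
    rcases r₂ with r₂ | r₂ <;> rcases r₃ with r₃ | r₃ <;> rcases r₅ with r₅ | r₅ <;>
      rcases r₇ with r₇ | r₇ <;> rw [r₂.1, r₃.1, r₅.1, r₇.1] <;>
      simp only [r₂.2, r₃.2, r₅.2, r₇.2, iff_true, iff_false] <;> decide

end

end MidS

open MidS in
theorem mid_of (h1 : C_D01) (h3 : C_D3) (h4 : C_D4) (hS : C_St) (hH : C_H5) (htN : T_tN)
    (hen : T_enN) (hk : T_kill) {TM : ℕ} (hM : OkM TM) (W : WeierstrassCurve ℤ) (Ω ρ : ℝ) (N : ℕ)
    (b : ℕ → ℤ) (S : Sit W Ω ρ N b) (v : ℕ) (hv : 10 ^ 9 * Ω ^ 6 ≤ v)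
    (h' : mid TM W.a₁ W.a₂ W.a₃ W.a₄ W.a₆ W.Δ.natAbs W.c₄.natAbs v = true) : False := by
  rw [mid, force_eq, force_eq] at h'
  obtain ⟨P, hP, hX, h2⟩ := bk_sound h'
  have a₂ := dg_st S.apf (r := 3) Nat.prime_two (by norm_num) (by norm_num)
  have a₃ := dg_st S.apf (r := 4) Nat.prime_three (by norm_num) (by norm_num)
  have a₅ := dg_st S.apf (p := 5) (r := 5) (by norm_num) (by norm_num) (by norm_num)
  have a₇ := dg_st S.apf (p := 7) (r := 6) (by norm_num) (by norm_num) (by norm_num)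
  have k := loopB_sound (hM _ a₂.lt _ a₃.lt) _ a₅.lt
  rw [force_eq] at k
  have k := loopB_sound k _ a₇.lt
  rw [force_eq] at k
  have k := loopB_sound k _ hP
  rw [force_eq, force_eq] at k
  exact chkM_sound h1 h3 h4 hS hH htN hen hk S a₂ a₃ a₅ a₇ hX
    (hv.trans (Nat.cast_le.2 (Nat.le_of_ble_eq_true h2))) k

theorem pre_of (h1 : C_D01) (h3 : C_D3) (h4 : C_D4) (hS : C_St) (hH : C_H5) (htN : T_tN)
    (hen : T_enN) (hk : T_kill) (hq : T_quick) {TM : ℕ} (hM : OkM TM) : T_pre TM := by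
  intro W Ω ρ N b S TB t h
  have h0 : 0 < W.Δ.natAbs := Int.natAbs_pos.2 S.red.ne
  have hb := vb_sound (P := W.c₄.natAbs ^ 3) S.vol h0 le_rfl le_rfl
  have hv : 10 ^ 9 * Ω ^ 6 ≤
      ((vb (W.c₄.natAbs ^ 3) W.Δ.natAbs / W.Δ.natAbs + 1 : ℕ) : ℝ) := by
    refine le_trans ?_ (lt_div_succ _ _ h0)
    rw [le_div_iff₀ (by exact_mod_cast h0)]
    exact hb
  have h' : (quick TB W.Δ.natAbs W.c₄.natAbs
      (vb (W.c₄.natAbs ^ 3) W.Δ.natAbs / W.Δ.natAbs + 1) ||
      (mid TM W.a₁ W.a₂ W.a₃ W.a₄ W.a₆ W.Δ.natAbs W.c₄.natAbs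
        (vb (W.c₄.natAbs ^ 3) W.Δ.natAbs / W.Δ.natAbs + 1) || t.at W)) = true := by
    unfold Tst.at pre at h
    rw [force_eq] at h
    exact h
  generalize vb (W.c₄.natAbs ^ 3) W.Δ.natAbs / W.Δ.natAbs + 1 = v at hv h'
  rw [Bool.or_eq_true, Bool.or_eq_true] at h'
  rcases h' with h' | h' | h'
  · exact (hq W Ω ρ N b S (natAbs_ne_one W) TB _ hv h').elim
  · exact (mid_of h1 h3 h4 hS hH htN hen hk hM W Ω ρ N b S v hv h').elim
  · exact h'

end Pool.Agent.MP_b2c033_nt.U
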