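import Pool.Agent.MP_b2c033_nt.UC.MidT

/-! Verification of a part of the table. -/

namespace Pool.Agent.MP_b2c033_nt.U

theorem okM_10 : okM TM 1 0 = true := by decide +kernel

theorem okM_11 : okM TM 1 1 = true := by decide +kernel

theorem okM_12 : okM TM 1 2 = true := by decide +kernel

end Pool.Agent.MP_b2c033_nt.U
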