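import Pool.Agent.MP_b2c033_nt.UC.TDef

/-! Soundness statements for the tree search. -/

namespace Pool.Agent.MP_b2c033_nt.U

def OmQ (Ω : ℝ) (Q : ℕ) : Prop := Ω ^ 6 * (268435456 / 9.4247) ^ 6 ≤ Q

def TLe (t : ℕ → ℕ) (T : ℕ → ℝ) : Prop := ∀ X, (t X : ℝ) ≤ 268435456 * T X

/-- open primes `opn`, fixed primes `F` with their alternatives, all others can be dropped -/
structure TInv (W : WeierstrassCurve ℤ) (N : ℕ) (opn : List (ℕ × ℕ)) (F : List (ℕ × List Op)) :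
    Prop where
  nd : (opn.map (·.1) ++ F.map (·.1)).Nodup
  op : ∀ y ∈ opn, y.1.Prime ∧ 2 ≤ N.factorization y.1 ∧ y.2 = gn W N y.1
  fx : ∀ y ∈ F, y.1.Prime ∧ ∀ o ∈ y.2, Dm W N y.1 o
  rest : ∀ p : ℕ, p.Prime → p ∣ N → p ∉ opn.map (·.1) ++ F.map (·.1) → Dm W N p o1

/-- the meaning of the type `P` in `xo` -/
def XO (W : WeierstrassCurve ℤ) : ℕ → Prop
  | 0 => ∀ q : ℕ, q.Prime → 11 ≤ q → ¬ Ad W q
  | 1 => (∀ q : ℕ, q.Prime → 11 ≤ q → ¬ Ad W q) ∧ ∃ q : ℕ, q.Prime ∧ 11 ≤ q ∧ (q : ℤ) ∣ W.Δ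
  | 2 => (∀ q : ℕ, q.Prime → 11 ≤ q → ¬ Ad W q) ∧ ∃ q : ℕ, q.Prime ∧ 17 ≤ q ∧ (q : ℤ) ∣ W.Δ
  | _ => ∃ q : ℕ, q.Prime ∧ 11 ≤ q ∧ Ad W q ∧ ∀ r : ℕ, r.Prime → 11 ≤ r → Ad W r → r = q

/-- the conclusion of the check -/
def Res (W : WeierstrassCurve ℤ) (N : ℕ) : Prop :=
  W ∈ posL.map mkW ∨ (N = cond W ∧ W ∈ trueL.map mkW)

def T_tN : Prop := ∀ (b : ℕ → ℤ) (K : ℕ),
  TLe (tN ((List.range' 1 K).map fun n => (b n).natAbs ^ 2 * 268435456 / n)) (TN b (K + 1))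

def T_enN : Prop := (∀ t T os X, TLe t T → (∀ X, 0 ≤ T X) →
  (enN t os X : ℝ) ≤ 268435456 * EnO T os X) ∧
  ∀ (Ω : ℝ) (v : ℕ), 10 ^ 9 * Ω ^ 6 ≤ v → OmQ Ω (v * KQ)

def T_kill : Prop := ∀ W Ω ρ N b, Sit W Ω ρ N b → ∀ t Q K F, OmQ Ω Q → TLe t (TN b K) →
  TInv W N [] F → killA t Q (F.map (·.2)) [] = true → False

def T_tree : Prop := ∀ W Ω ρ N b, Sit W Ω ρ N b → ∀ t Q K fu leaf opn F M, OmQ Ω Q →
  TLe t (TN b K) → TInv W N opn F → tree t Q fu leaf opn (F.map (·.2)) M = true →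
  leaf (M * (opn.map fun y => y.1 ^ N.factorization y.1).prod) = true

/-- the lists of the checker for the true flags -/
def T_lists : Prop := ∀ W Ω ρ N b, Sit W Ω ρ N b → W.Δ.natAbs ≠ 1 →
  ∃ h₂ h₃ : Bool, (∀ g f, (∀ p ∈ [2, 3], p ∣ g → Ad W p) → br4 g f = true → f h₂ h₃ = true) ∧
    ∀ (D C : ℕ) (pl : List ℕ), (∀ p ∈ pl, p.Prime) →
      ((∀ p ∈ pl, p ∣ D ∧ p ∣ C ↔ Ad W p) → opnL D C h₂ h₃ pl =
        (pl.filter fun p => 2 ≤ N.factorization p).map fun p => (p, gn W N p)) ∧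
      (D = W.Δ.natAbs → C = W.c₄.natAbs →
        mulL D C h₂ h₃ pl = pl.filter fun p => N.factorization p = 1)

def T_chk : Prop := ∀ W Ω ρ N b, Sit W Ω ρ N b → W.Δ.natAbs ≠ 1 →
  ∀ (Q K fu : ℕ) (pl : List ℕ) (big : Bool) (leaf : ℕ → Bool), OmQ Ω Q → pl.Nodup →
    (∀ p ∈ pl, p.Prime) → 2 ∈ pl → 3 ∈ pl →
    (∀ p : ℕ, p.Prime → p ∣ W.Δ.natAbs → p ∉ pl → K < p ∧ ¬ p ∣ W.c₄.natAbs) →
    (big = true → ∃ q : ℕ, q.Prime ∧ 17 ≤ q ∧ q ∣ W.Δ.natAbs ∧ q ∉ pl) →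
    chk W W.Δ.natAbs W.c₄.natAbs Q K fu pl big leaf = true →
    ∃ M, leaf M = true ∧ ((∀ p : ℕ, p.Prime → p ∣ W.Δ.natAbs → p ∈ pl) → M = N)

def T_chkQ : Prop := ∀ W Ω ρ N b, Sit W Ω ρ N b → W.Δ.natAbs ≠ 1 → ∀ A P T : ℕ,
  10 ^ 9 * Ω ^ 6 ≤ T → (∀ p ∈ [2, 3, 5, 7], p ∣ A ↔ Ad W p) → XO W P → chkQ A P T = true → False

def T_quick : Prop := ∀ W Ω ρ N b, Sit W Ω ρ N b → W.Δ.natAbs ≠ 1 → ∀ TB v : ℕ,
  10 ^ 9 * Ω ^ 6 ≤ v → quick TB W.Δ.natAbs W.c₄.natAbs v = true → False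

def T_fast : Prop := ∀ W Ω ρ N b, Sit W Ω ρ N b → W.Δ.natAbs ≠ 1 → ∀ v : ℕ,
  10 ^ 9 * Ω ^ 6 ≤ v → fast W W.Δ.natAbs W.c₄.natAbs v = true → False

def T_nm : Prop := ∀ W u r s t, RedMin W → nonMin W u r s t = true → False

def T_full : Prop := ∀ w Ω ρ N b, Sit (mkW w) Ω ρ N b → (mkW w).Δ.natAbs ≠ 1 → ∀ (v : ℕ) c,
  10 ^ 9 * Ω ^ 6 ≤ v → full w (mkW w).Δ.natAbs (mkW w).c₄.natAbs v c = true → Res (mkW w) N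

def T_flt : Prop := ∀ W Ω ρ N b, Sit W Ω ρ N b → W.Δ.natAbs ≠ 1 → ∀ TB exc,
  (flt TB exc W.a₁ W.a₂ W.a₃).at W = true → Res W N

def R_kill : Prop := C_Mon → C_Key → T_enN → T_kill
def R_tree : Prop := C_D2 → C_D3 → T_kill → T_tree
def R_lists : Prop := C_St → C_H5 → T_lists
def R_chk : Prop := C_D01 → C_St → C_H5 → T_tN → T_tree → T_lists → T_chk
def R_chkQ : Prop := C_D01 → C_D3 → C_St → C_H5 → T_tN → T_enN → T_tree → T_lists → T_chkQ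
def R_quick : Prop := T_chkQ → T_quick
def R_fast : Prop := T_enN → T_chk → T_fast
def R_full : Prop := T_enN → T_chk → T_nm → T_full
def R_flt : Prop := T_quick → T_fast → T_full → T_flt

end Pool.Agent.MP_b2c033_nt.U
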