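import Pool.Agent.MP_b2c033_nt.UC.EnAll
import Pool.Agent.MP_b2c033_nt.UC.TSpec

/-! From the filter to the conclusion of the check. -/

namespace Pool.Agent.MP_b2c033_nt.U

open Classical

/-- the conclusion as a test -/
noncomputable def tR (a₁ a₂ a₃ : ℤ) : Tst := fun a₄ _ a₆ _ _ =>
  decide (T_flt → ∀ Ω ρ N b, Sit ⟨a₁, a₂, a₃, a₄, a₆⟩ Ω ρ N b → Res ⟨a₁, a₂, a₃, a₄, a₆⟩ N)

lemma tR_at {W : WeierstrassCurve ℤ} {TB : ℕ} {exc : List (ℤ × ℤ × Ct)}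
    (h : (flt TB exc W.a₁ W.a₂ W.a₃).at W = true) : (tR W.a₁ W.a₂ W.a₃).at W = true := by
  unfold Tst.at tR
  exact decide_eq_true fun hF Ω ρ N b hs => hF W Ω ρ N b hs (natAbs_ne_one W) TB exc h

variable {a₁ a₂ a₃ s : ℤ} {m w : ℕ}

theorem cov_flt (TB : ℕ) (exc : List (ℤ × ℤ × Ct)) (lo n : ℕ)
    (h : chunk a₁ a₂ a₃ s m w (flt TB exc a₁ a₂ a₃) lo n = true) :
    Cov a₁ a₂ a₃ s m w (tR a₁ a₂ a₃) lo (lo + n) := by
  intro W Ω j hc hj h1 h2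
  have := cov_chunk h W Ω j hc hj h1 h2
  rw [← hc.e₁, ← hc.e₂, ← hc.e₃] at this ⊢
  exact tR_at this

theorem cov_sk (TB : ℕ) (exc : List (ℤ × ℤ × Ct)) (q lo n : ℕ)
    (h : chunk a₁ a₂ a₃ s m w (sk q (flt TB exc a₁ a₂ a₃)) lo n = true) :
    Cov a₁ a₂ a₃ s m w (sk q (tR a₁ a₂ a₃)) lo (lo + n) := by
  intro W Ω j hc hj h1 h2
  have h3 : (Bool.rec true ((flt TB exc a₁ a₂ a₃).at W) (Nat.beq (W.Δ.natAbs % q) 0) : Bool) =
    true := cov_chunk h W Ω j hc hj h1 h2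
  change (Bool.rec true ((tR a₁ a₂ a₃).at W) (Nat.beq (W.Δ.natAbs % q) 0) : Bool) = true
  cases hb : Nat.beq (W.Δ.natAbs % q) 0 with
  | false => rfl
  | true =>
    rw [hb, ← hc.e₁, ← hc.e₂, ← hc.e₃] at h3
    rw [← hc.e₁, ← hc.e₂, ← hc.e₃]
    exact tR_at h3

theorem res_of_covs (hSt : C_St) (hT : C_Thr) (hF : T_flt) (h : Covs tR)
    {W : WeierstrassCurve ℤ} {Ω ρ : ℝ} {N : ℕ} {b : ℕ → ℤ} (hs : Sit W Ω ρ N b) : Res W N := by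
  have := enum_all hSt hT h hs
  unfold Tst.at tR at this
  exact of_decide_eq_true this hF Ω ρ N b hs

end Pool.Agent.MP_b2c033_nt.U
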