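import Pool.Agent.MP_b2c033_nt.UC.CSpec

/-! Thresholds when large primes are additive. -/

namespace Pool.Agent.MP_b2c033_nt.U

open scoped Real

namespace RTA

lemma dm_le {W : WeierstrassCurve ℤ} {N p : ℕ} {o o' : Op} (h : Dm W N p o)
    (h' : ∀ T : ℕ → ℝ, Monotone T → (∀ X, 0 ≤ T X) → ∀ X, evO o' T X ≤ evO o T X) :
    Dm W N p o' :=
  let ⟨i, hi, h⟩ := h
  ⟨i, hi, fun T a b X => (h' T a b X).trans (h T a b X)⟩

lemma dm_one {W : WeierstrassCurve ℤ} {N p a b x a' b' x' : ℕ} (h : Dm W N p [(a, b, x)])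
    (h1 : (a' : ℝ) / b' ≤ a / b) (h2 : x' ≤ x) : Dm W N p [(a', b', x')] :=
  dm_le h fun T m n X => by
    simp only [evO, List.map, List.sum_cons, List.sum_nil, add_zero]
    exact mul_le_mul h1 (m (Nat.mul_le_mul_left X h2)) (n _) (by positivity)

lemma en_one (T : ℕ → ℝ) (a b x : ℕ) (os : List Op) (X : ℕ) :
    EnO T ([(a, b, x)] :: os) X = a / b * EnO T os (X * x) := by
  simp [EnO, evO]

lemma en_big (T : ℕ → ℝ) (l : List ℕ) (X : ℕ) :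
    EnO T (l.map fun _ => [(5, 6, 11)]) X = (5 / 6) ^ l.length * T (X * 11 ^ l.length) := by
  induction l generalizing X with
  | nil => simp [EnO]
  | cons q l ih =>
    rw [List.map_cons, en_one, ih, List.length_cons, pow_succ, pow_succ, mul_assoc X,
      mul_comm 11]
    push_cast
    ring

lemma tn_ge {b : ℕ → ℤ} (hb : b 1 = 1) {X Y : ℕ} (h4 : 4 ≤ Y) (h : Y ≤ X) :
    (1 - 3.1416 / Y : ℝ) ^ 4 ≤ TN b 2 X := by
  have hY : (4 : ℝ) ≤ Y := by exact_mod_cast h4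
  have hX : (Y : ℝ) ≤ X := by exact_mod_cast h
  rw [TN, if_neg (by omega), TT]
  simp only [Finset.sum_range_succ, Finset.sum_range_zero, hb, Nat.cast_zero, div_zero, zero_mul,
    zero_add, Nat.cast_one, Int.cast_one, one_pow, div_one, one_mul, mul_one, Rat.cast_natCast]
  have e : -(4 * π / X) = ((4 : ℕ) : ℝ) * -(π / X) := by push_cast; ring
  rw [e, Real.exp_nat_mul]
  have h1 : (3.1416 : ℝ) / Y ≤ 1 := by rw [div_le_one (by linarith)]; linarith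
  have h2 : π / X ≤ 3.1416 / Y :=
    div_le_div₀ (by norm_num) Real.pi_lt_d4.le (by linarith) hX
  exact pow_le_pow_left₀ (by linarith) (by linarith [Real.add_one_le_exp (-(π / X))]) 4

lemma contra {Ω c D : ℝ} {j k : ℕ} (hj : k ≤ j) (hc : 0 ≤ c) (hD : 0 ≤ D)
    (h1 : c * (5 / 6) ^ j ≤ Ω) (h2 : Ω ^ 6 * (D * 121 ^ j) ≤ 14.06 ^ 6) :
    c ^ 6 * D * ((5 / 6) ^ 6 * 121) ^ k ≤ 14.06 ^ 6 := by
  have h3 := pow_le_pow_left₀ (by positivity) h1 6
  have h4 : (((5 : ℝ) / 6) ^ 6 * 121) ^ k ≤ ((5 / 6) ^ 6 * 121) ^ j :=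
    pow_le_pow_right₀ (by norm_num) hj
  calc _ ≤ c ^ 6 * D * ((5 / 6) ^ 6 * 121) ^ j := mul_le_mul_of_nonneg_left h4 (by positivity)
    _ = (c * (5 / 6) ^ j) ^ 6 * (D * 121 ^ j) := by
      rw [mul_pow, mul_pow, ← pow_mul, ← pow_mul, mul_comm j 6]; ring
    _ ≤ _ := (mul_le_mul_of_nonneg_right h3 (by positivity)).trans h2

end RTA

open RTA in
theorem r_TA : R_TA := by
  classical
  intro _ hKey h01 _ hD3 hD4 hSt hH5 W Ω ρ N b hS hΔ hA
  have st := hSt W Ω ρ N b hS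
  have hN := hS.coef.pos.ne'
  have small : ∀ p : ℕ, p.Prime → N.factorization p ≤ 1 → Dm W N p o1 := fun p hp h => by
    rcases Nat.le_one_iff_eq_zero_or_eq_one.1 h with h | h
    · exact (h01 W N p hp).1 h
    · exact ((h01 W N p hp).2 h).1
  have hy : ∀ p : ℕ, p.Prime → ¬ Ad W p → 2 ≤ N.factorization p → Hy W N p := fun p hp h h' =>
    ⟨(hp.pow_dvd_iff_le_factorization hN).2 h', h⟩
  have nad : ∀ p : ℕ, p.Prime → 5 ≤ p → ¬ Ad W p → Dm W N p [(1, 1, 1)] := fun p hp h5 h =>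
    small p hp (by by_contra h'; exact hH5 W Ω ρ N b hS hΔ p hp h5 (hy p hp h (by omega)))
  have ad : ∀ p : ℕ, p.Prime → 5 ≤ p → Ad W p → Dm W N p [(p - 1, p + 1, p)] := fun p hp h5 h => by
    obtain ⟨h1, h2⟩ := (st p hp).2.2.1 h
    have := hD3 W N p 1 hp le_rfl h1
    rwa [h2, uo, if_neg (by omega), if_neg (by omega), one_mul, pow_one] at this
  have two : ∀ g, gn W N 2 = g → 2 ≤ N.factorization 2 →
      Dm W N 2 [(g, 3, 4)] ∨ Dm W N 2 [(g, 5, 16)] := fun g hg h => by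
    by_cases h7 : N.factorization 2 ≤ 7
    · exact Or.inl (hg ▸ (hD4 W N).1 h h7)
    · exact Or.inr (hg ▸ hD3 W N 2 4 Nat.prime_two (by norm_num) (by omega))
  have three : ∀ g, gn W N 3 = g → 2 ≤ N.factorization 3 → Dm W N 3 [(g, 2, 3)] := fun g hg h => by
    by_cases h2 : N.factorization 3 = 2
    · refine dm_one (hg ▸ (hD4 W N).2.1 h2) ?_ le_rfl
      have : (0 : ℝ) ≤ g := Nat.cast_nonneg g
      push_cast; linarith
    · refine dm_le (hg ▸ (hD4 W N).2.2 (by omega)) fun T m n X => ?_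
      have := mul_le_mul_of_nonneg_left (m (Nat.mul_le_mul_left X (by norm_num : 3 ≤ 9)))
        (Nat.cast_nonneg (α := ℝ) g)
      simp only [evO, List.map, List.sum_cons, List.sum_nil]
      push_cast; linarith
  -- the large additive primes
  set A := W.Δ.natAbs.primeFactors.filter fun q => 11 ≤ q ∧ Ad W q with hAdef
  have hn : W.Δ.natAbs ≠ 0 := Int.natAbs_ne_zero.2 hS.red.ne
  have mem : ∀ q, q ∈ A ↔ q.Prime ∧ 11 ≤ q ∧ Ad W q := fun q => by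
    rw [hAdef, Finset.mem_filter, Nat.mem_primeFactors]
    exact ⟨fun h => ⟨h.1.1, h.2⟩, fun h => ⟨⟨h.1, Int.natCast_dvd.1 h.2.2.1, hn⟩, h.2⟩⟩
  have low : ∀ a₂ b₂ x₂ a₃ b₃ x₃ a₅ b₅ x₅ a₇ b₇ x₇ : ℕ, Dm W N 2 [(a₂, b₂, x₂)] →
      Dm W N 3 [(a₃, b₃, x₃)] → Dm W N 5 [(a₅, b₅, x₅)] → Dm W N 7 [(a₇, b₇, x₇)] →
      ∀ Y : ℕ, 4 ≤ Y → Y ≤ x₂ * x₃ * x₅ * x₇ * 11 ^ A.card →
      9.42477 * (a₂ / b₂ * (a₃ / b₃ * (a₅ / b₅ * (a₇ / b₇)))) * (1 - 3.1416 / Y) ^ 4 *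
        (5 / 6) ^ A.card ≤ Ω := by
    intro a₂ b₂ x₂ a₃ b₃ x₃ a₅ b₅ x₅ a₇ b₇ x₇ d₂ d₃ d₅ d₇ Y h4 hY
    have k := hKey W Ω ρ N b hS ((2, [(a₂, b₂, x₂)]) :: (3, [(a₃, b₃, x₃)]) ::
      (5, [(a₅, b₅, x₅)]) :: (7, [(a₇, b₇, x₇)]) :: A.toList.map fun q => (q, [(5, 6, 11)]))
      ?_ ?_ ?_ 2
    · simp only [List.map_cons, List.map_map, Function.comp_def, en_one, en_big,
        Finset.length_toList, one_mul] at k
      refine le_trans ?_ k
      have t := tn_ge hS.coef.one h4 hY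
      have p := Real.pi_gt_d6
      generalize TN b 2 _ = z at t ⊢
      have u : (0 : ℝ) ≤ (1 - 3.1416 / Y) ^ 4 := by positivity
      calc _ = 9.42477 * ((a₂ / b₂ * (a₃ / b₃ * (a₅ / b₅ * (a₇ / b₇))) * (5 / 6) ^ A.card) *
            (1 - 3.1416 / Y) ^ 4 : ℝ) := by ring
        _ ≤ 3 * π * ((a₂ / b₂ * (a₃ / b₃ * (a₅ / b₅ * (a₇ / b₇))) * (5 / 6) ^ A.card) * z) :=
          mul_le_mul (by linarith) (mul_le_mul_of_nonneg_left t (by positivity)) (by positivity)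
            (by positivity)
        _ = _ := by ring
    · have : ∀ q, q < 11 → q ∉ A := fun q hq h => by have := (mem q).1 h; omega
      simp [Function.comp_def, A.nodup_toList, this]
    · simp only [List.forall_mem_cons, List.forall_mem_map, Finset.mem_toList]
      refine ⟨⟨by norm_num, d₂⟩, ⟨by norm_num, d₃⟩, ⟨by norm_num, d₅⟩, ⟨by norm_num, d₇⟩,
        fun q hq => ?_⟩
      obtain ⟨h1, h2, h3⟩ := (mem q).1 hq
      refine ⟨h1, dm_one (ad q h1 (by omega) h3) ?_ h2⟩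
      have : (11 : ℝ) ≤ q := by exact_mod_cast h2
      rw [div_le_div_iff₀ (by norm_num) (by positivity)]
      push_cast [Nat.cast_sub h1.one_le]
      linarith
    · intro p hp _ hm
      simp only [List.map_cons, List.map_map, Function.comp_def, List.map_id', List.mem_cons,
        Finset.mem_toList, not_or, mem] at hm
      obtain ⟨m2, m3, m5, m7, m⟩ := hm
      have h5 := hp.five_le_of_ne_two_of_ne_three m2 m3
      refine nad p hp h5 fun h => m ⟨hp, ?_, h⟩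
      by_contra h11
      have : p < 11 := by omega
      interval_cases p <;> simp_all (config := { decide := true })
  have up : Ω ^ 6 * (((2 ^ (if Ad W 2 then 4 else 0) * 3 ^ (if Ad W 3 then 3 else 0) *
      5 ^ (if Ad W 5 then 2 else 0) * 7 ^ (if Ad W 7 then 2 else 0) : ℕ) : ℝ) * 121 ^ A.card) ≤
      14.06 ^ 6 := by
    refine le_trans (mul_le_mul_of_nonneg_left ?_ (pow_nonneg hS.vol.pos.le 6)) hS.vol.all
    have s := st 2 Nat.prime_two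
    have d₂ : 2 ^ (if Ad W 2 then 4 else 0) ∣ W.Δ.natAbs := by
      split_ifs with h
      · exact Int.natCast_dvd.1 (s.2.2.2.2.2.1 h).2.2
      · simp
    have d₃ : 3 ^ (if Ad W 3 then 3 else 0) ∣ W.Δ.natAbs := by
      split_ifs with h
      · exact Int.natCast_dvd.1 (s.2.2.2.2.2.2 h).2.2
      · simp
    have dq : ∀ q : ℕ, q.Prime → 5 ≤ q → q ^ (if Ad W q then 2 else 0) ∣ W.Δ.natAbs :=
      fun q hq h5 => by
        split_ifs with h
        · exact Int.natCast_dvd.1 (by exact_mod_cast (st q hq).2.2.2.2.1 h h5)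
        · simp
    have dA : ∏ q ∈ A, q ^ 2 ∣ W.Δ.natAbs := by
      refine Finset.prod_dvd_of_isRelPrime (fun p hp q hq hpq => ?_) fun q hq => ?_
      · exact Nat.coprime_iff_isRelPrime.1
          (Nat.coprime_pow_primes 2 2 ((mem p).1 hp).1 ((mem q).1 hq).1 hpq)
      · obtain ⟨h1, h2, h3⟩ := (mem q).1 hq
        simpa only [if_pos h3] using dq q h1 (by omega)
    have co : ∀ p k : ℕ, p.Prime → p < 11 → (p ^ k).Coprime (∏ q ∈ A, q ^ 2) := fun p k hp h =>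
      Nat.Coprime.prod_right fun q hq => Nat.coprime_pow_primes _ _ hp ((mem q).1 hq).1
        (by have := ((mem q).1 hq).2.1; omega)
    have cp : ∀ (p q : ℕ) {k l : ℕ}, p.Coprime q → (p ^ k).Coprime (q ^ l) := fun p q _ _ h =>
      h.pow _ _
    have d := Nat.Coprime.mul_dvd_of_dvd_of_dvd ((((co 2 _ (by norm_num) (by norm_num)).mul_left
      (co 3 _ (by norm_num) (by norm_num))).mul_left (co 5 _ (by norm_num) (by norm_num))).mul_left
      (co 7 _ (by norm_num) (by norm_num)))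
      (Nat.Coprime.mul_dvd_of_dvd_of_dvd (((cp 2 7 (by norm_num)).mul_left
        (cp 3 7 (by norm_num))).mul_left (cp 5 7 (by norm_num)))
        (Nat.Coprime.mul_dvd_of_dvd_of_dvd ((cp 2 5 (by norm_num)).mul_left (cp 3 5 (by norm_num)))
          (Nat.Coprime.mul_dvd_of_dvd_of_dvd (cp 2 3 (by norm_num)) d₂ d₃)
          (dq 5 (by norm_num) le_rfl)) (dq 7 (by norm_num) (by norm_num))) dA
    have e : 121 ^ A.card ≤ ∏ q ∈ A, q ^ 2 := Finset.pow_card_le_prod _ _ _ fun q hq =>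
      Nat.pow_le_pow_left ((mem q).1 hq).2.1 2
    have f := (Nat.mul_le_mul_left _ e).trans (Nat.le_of_dvd (Nat.pos_of_ne_zero hn) d)
    rw [← Int.cast_abs, ← Nat.cast_natAbs]
    exact_mod_cast f
  obtain ⟨a₂, b₂, x₂, d₂, c₂⟩ : ∃ a b x, Dm W N 2 [(a, b, x)] ∧
      (Ad W 2 ∧ a = 1 ∧ b = 3 ∧ x = 4 ∨ Ad W 2 ∧ a = 1 ∧ b = 5 ∧ x = 16 ∨
        ¬ Ad W 2 ∧ a = 1 ∧ b = 1 ∧ x = 1 ∨ ¬ Ad W 2 ∧ a = 4 ∧ b = 5 ∧ x = 16) := by
    by_cases h : Ad W 2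
    · obtain ⟨h1, h2⟩ := (st 2 Nat.prime_two).2.2.1 h
      rcases two _ h2 h1 with d | d <;> exact ⟨_, _, _, d, by simp [h]⟩
    by_cases h1 : N.factorization 2 ≤ 1
    · exact ⟨_, _, _, small 2 Nat.prime_two h1, by simp [h]⟩
    rcases two _ ((st 2 Nat.prime_two).2.2.2.1 (hy 2 Nat.prime_two h (by omega))).2 (by omega)
      with d | d
    · exact ⟨1, 1, 1, dm_one d (by norm_num) (by norm_num), by simp [h]⟩
    · exact ⟨_, _, _, d, by simp [h]⟩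
  obtain ⟨a₃, b₃, x₃, d₃, c₃⟩ : ∃ a b x, Dm W N 3 [(a, b, x)] ∧
      (Ad W 3 ∧ a = 1 ∧ b = 2 ∧ x = 3 ∨ ¬ Ad W 3 ∧ a = 1 ∧ b = 1 ∧ x = 1) := by
    by_cases h : Ad W 3
    · obtain ⟨h1, h2⟩ := (st 3 Nat.prime_three).2.2.1 h
      exact ⟨_, _, _, three _ h2 h1, by simp [h]⟩
    by_cases h1 : N.factorization 3 ≤ 1
    · exact ⟨_, _, _, small 3 Nat.prime_three h1, by simp [h]⟩
    exact ⟨1, 1, 1, dm_one (three _ ((st 3 Nat.prime_three).2.2.2.1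
      (hy 3 Nat.prime_three h (by omega))).2 (by omega)) (by norm_num) (by norm_num), by simp [h]⟩
  have big : ∀ p : ℕ, p.Prime → 5 ≤ p → ∃ a b x, Dm W N p [(a, b, x)] ∧
      (Ad W p ∧ a = p - 1 ∧ b = p + 1 ∧ x = p ∨ ¬ Ad W p ∧ a = 1 ∧ b = 1 ∧ x = 1) :=
    fun p hp h5 => by
      by_cases h : Ad W p
      · exact ⟨_, _, _, ad p hp h5 h, by simp [h]⟩
      · exact ⟨_, _, _, nad p hp h5 h, by simp [h]⟩
  obtain ⟨a₅, b₅, x₅, d₅, c₅⟩ := big 5 (by norm_num) le_rfl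
  obtain ⟨a₇, b₇, x₇, d₇, c₇⟩ := big 7 (by norm_num) (by norm_num)
  have lo := low _ _ _ _ _ _ _ _ _ _ _ _ d₂ d₃ d₅ d₇
  have hA' : 1 ≤ A.card ∨ Ad W 5 ∧ Ad W 7 :=
    hA.imp_left fun ⟨p, hp⟩ => Finset.card_pos.2 ⟨p, (mem p).2 hp⟩
  generalize A.card = j at lo up hA'
  clear d₂ d₃ d₅ d₇ big low mem hAdef hA three two ad nad hy small st
  by_cases hc : 3 ≤ j ∨ 2 ≤ j ∧ Ad W 5 ∧ Ad W 7
  · exfalso
    rcases hc with hc | ⟨hc, g₅, g₇⟩
    · have e : 11 ^ 3 ≤ 11 ^ j := Nat.pow_le_pow_right (by norm_num) hc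
      rcases c₂ with ⟨h₂, rfl, rfl, rfl⟩ | ⟨h₂, rfl, rfl, rfl⟩ | ⟨h₂, rfl, rfl, rfl⟩ |
        ⟨h₂, rfl, rfl, rfl⟩ <;> rcases c₃ with ⟨h₃, rfl, rfl, rfl⟩ | ⟨h₃, rfl, rfl, rfl⟩ <;>
        rcases c₅ with ⟨h₅, rfl, rfl, rfl⟩ | ⟨h₅, rfl, rfl, rfl⟩ <;>
        rcases c₇ with ⟨h₇, rfl, rfl, rfl⟩ | ⟨h₇, rfl, rfl, rfl⟩ <;>
        (have := contra hc (by positivity) (by positivity) (lo 1331 (by norm_num) (by omega)) up
         simp only [h₂, h₃, h₅, h₇, if_true, if_false] at this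
         norm_num at this)
    · have e : 11 ^ 2 ≤ 11 ^ j := Nat.pow_le_pow_right (by norm_num) hc
      obtain ⟨-, rfl, rfl, rfl⟩ := c₅.resolve_right fun h => h.1 g₅
      obtain ⟨-, rfl, rfl, rfl⟩ := c₇.resolve_right fun h => h.1 g₇
      rcases c₂ with ⟨h₂, rfl, rfl, rfl⟩ | ⟨h₂, rfl, rfl, rfl⟩ | ⟨h₂, rfl, rfl, rfl⟩ |
        ⟨h₂, rfl, rfl, rfl⟩ <;> rcases c₃ with ⟨h₃, rfl, rfl, rfl⟩ | ⟨h₃, rfl, rfl, rfl⟩ <;>
        (have := contra hc (by positivity) (by positivity) (lo 1331 (by norm_num) (by omega)) up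
         simp only [h₂, h₃, g₅, g₇, if_true, if_false] at this
         norm_num at this)
  · clear up
    have hj : j = 0 ∨ j = 1 ∨ j = 2 := by omega
    rcases hj with rfl | rfl | rfl <;>
      rcases c₅ with ⟨h₅, rfl, rfl, rfl⟩ | ⟨h₅, rfl, rfl, rfl⟩ <;>
      rcases c₇ with ⟨h₇, rfl, rfl, rfl⟩ | ⟨h₇, rfl, rfl, rfl⟩ <;>
      first
      | (exfalso; revert hc hA'; simp [h₅, h₇]; done)
      | (rcases c₂ with ⟨h₂, rfl, rfl, rfl⟩ | ⟨h₂, rfl, rfl, rfl⟩ | ⟨h₂, rfl, rfl, rfl⟩ |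
          ⟨h₂, rfl, rfl, rfl⟩ <;> rcases c₃ with ⟨h₃, rfl, rfl, rfl⟩ | ⟨h₃, rfl, rfl, rfl⟩ <;>
          (have := lo _ (by norm_num) le_rfl
           norm_num at this
           refine ⟨fun _ => ?_, fun _ => ?_, ?_, fun _ => ?_, fun _ _ => ?_⟩ <;>
             first | contradiction | linarith))

end Pool.Agent.MP_b2c033_nt.U
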