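import Pool.Agent.MP_b2c033_nt.UC.TSpec

/-! Soundness of the integer evaluation of the energy. -/

namespace Pool.Agent.MP_b2c033_nt.U

namespace EnNx

theorem evN_le {t : ℕ → ℕ} {T : ℕ → ℝ} (h : TLe t T) (X : ℕ) (o : Op) :
    (evN t X o : ℝ) ≤ 268435456 * evO o T X := by
  induction o with
  | nil => simp [evN, evO]
  | cons y o ih =>
    have e : evN t X (y :: o) = y.1 * t (X * y.2.2) / y.2.1 + evN t X o := rfl
    have e2 : evO (y :: o) T X = (y.1 : ℝ) / y.2.1 * T (X * y.2.2) + evO o T X := by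
      simp [evO]
    have h1 : ((y.1 * t (X * y.2.2) / y.2.1 : ℕ) : ℝ) ≤
        (y.1 : ℝ) / y.2.1 * (268435456 * T (X * y.2.2)) := by
      refine Nat.cast_div_le.trans ?_
      rw [Nat.cast_mul, mul_div_right_comm]
      exact mul_le_mul_of_nonneg_left (h _) (by positivity)
    rw [e, e2, Nat.cast_add]
    linarith

theorem enN_le {t : ℕ → ℕ} {T : ℕ → ℝ} (h : TLe t T) (os : List Op) :
    TLe (enN t os) (EnO T os) := by
  induction os with
  | nil => exact h
  | cons o os ih =>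
    intro X
    have e : enN t (o :: os) X = evN (enN t os) X o := force_eq _ _
    rw [e]
    exact evN_le ih X o

end EnNx

theorem t_enN : T_enN := by
  refine ⟨fun t T os X h _ => EnNx.enN_le h os X, fun Ω v h => ?_⟩
  have h1 : (268435456 / 9.4247 : ℝ) ^ 6 ≤ 10 ^ 9 * (KQ : ℝ) := by
    unfold KQ
    norm_num
  have h2 : (0 : ℝ) ≤ Ω ^ 6 := by positivity
  unfold OmQ
  rw [Nat.cast_mul]
  calc Ω ^ 6 * (268435456 / 9.4247) ^ 6 ≤ Ω ^ 6 * (10 ^ 9 * (KQ : ℝ)) :=
        mul_le_mul_of_nonneg_left h1 h2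
    _ = 10 ^ 9 * Ω ^ 6 * (KQ : ℝ) := by ring
    _ ≤ v * (KQ : ℝ) := mul_le_mul_of_nonneg_right h (by positivity)

end Pool.Agent.MP_b2c033_nt.U
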