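import Pool.Agent.MP_b2c033_nt.UC.TSpec

/-! Row fast: soundness of the second filter. -/

set_option autoImplicit false

namespace Pool.Agent.MP_b2c033_nt.U

namespace FastX

theorem fL {α : Type} (l : List ℕ) : ∀ k : List ℕ → α, forceL l k = k l := by
  induction l with
  | nil => intro k; rfl
  | cons c cs ih => intro k; simp only [forceL, force_eq, ih]

theorem big {p : ℕ} (hp : p.Prime) (h : ¬p ∣ 30030) : 17 ≤ p := by
  by_contra hn
  rw [not_le] at hn
  interval_cases p <;> first | exact h (by decide) | exact absurd hp (by decide)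

theorem small {p : ℕ} (h : p ∈ [2, 3, 5, 7, 11, 13]) : p.Prime ∧ p ∣ 30030 := by
  simp only [List.mem_cons, List.not_mem_nil, or_false] at h
  rcases h with rfl | rfl | rfl | rfl | rfl | rfl <;> exact ⟨by norm_num, by norm_num⟩

theorem pw {p q : ℕ} (k : ℕ) (hp : p.Prime) (hq : q.Prime) (h : p ∣ q ^ k) : p = q :=
  (Nat.prime_dvd_prime_iff_eq hp hq).1 (hp.dvd_of_dvd_pow h)

theorem of_P {p : ℕ} (hp : p.Prime) (h : p ∣ P7 * P13) : p ∈ [2, 3, 5, 7, 11, 13] := by
  unfold P7 P13 at h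
  simp only [List.mem_cons, List.not_mem_nil, or_false]
  rcases (hp.dvd_mul).1 h with h | h
  · rcases (hp.dvd_mul).1 h with h | h
    · rcases (hp.dvd_mul).1 h with h | h
      · rcases (hp.dvd_mul).1 h with h | h
        · exact .inl (pw _ hp (by norm_num) h)
        · exact .inr (.inl (pw _ hp (by norm_num) h))
      · exact .inr (.inr (.inl (pw _ hp (by norm_num) h)))
    · exact .inr (.inr (.inr (.inl (pw _ hp (by norm_num) h))))
  · rcases (hp.dvd_mul).1 h with h | h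
    · exact .inr (.inr (.inr (.inr (.inl (pw _ hp (by norm_num) h)))))
    · exact .inr (.inr (.inr (.inr (.inr (pw _ hp (by norm_num) h)))))

theorem core (D C g' G : ℕ) (hg : g' ∣ C) (hG : G ∣ D) (hG' : G ∣ P7 * P13 * g' ^ 12)
    (h1 : Nat.gcd g' 30030 = 1) (h2 : Nat.gcd (D / G) (C * 30030) = 1) :
    ([2, 3, 5, 7, 11, 13] ++ g'.primeFactorsList.dedup).Nodup ∧
    (∀ p ∈ [2, 3, 5, 7, 11, 13] ++ g'.primeFactorsList.dedup, p.Prime) ∧
    (∀ p : ℕ, p.Prime → p ∣ D → p ∉ [2, 3, 5, 7, 11, 13] ++ g'.primeFactorsList.dedup →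
      13 < p ∧ ¬p ∣ C) ∧
    (1 < D / G → ∃ q : ℕ, q.Prime ∧ 17 ≤ q ∧ q ∣ D ∧
      q ∉ [2, 3, 5, 7, 11, 13] ++ g'.primeFactorsList.dedup) := by
  have g0 : g' ≠ 0 := by
    rintro rfl
    exact absurd h1 (by decide)
  have hm : ∀ p : ℕ, p.Prime → p ∣ D / G → ¬p ∣ C ∧ ¬p ∣ 30030 := fun p hp h =>
    ⟨fun c => hp.one_lt.ne' (Nat.dvd_one.1 (h2 ▸ Nat.dvd_gcd h (c.mul_right _))),
      fun c => hp.one_lt.ne' (Nat.dvd_one.1 (h2 ▸ Nat.dvd_gcd h (c.mul_left _)))⟩
  refine ⟨?_, fun p h => ?_, fun p hp hd hn => ?_, fun h => ?_⟩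
  · refine List.Nodup.append (by decide) (List.nodup_dedup _) fun p a b => ?_
    have b' := Nat.dvd_of_mem_primeFactorsList (List.mem_dedup.1 b)
    exact (small a).1.one_lt.ne' (Nat.dvd_one.1 (h1 ▸ Nat.dvd_gcd b' (small a).2))
  · rcases List.mem_append.1 h with h | h
    · exact (small h).1
    · exact Nat.prime_of_mem_primeFactorsList (List.mem_dedup.1 h)
  · rw [← Nat.mul_div_cancel' hG] at hd
    rcases (hp.dvd_mul).1 hd with h | h
    · exfalso
      apply hn
      rcases (hp.dvd_mul).1 (h.trans hG') with h | h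
      · exact List.mem_append_left _ (of_P hp h)
      · exact List.mem_append_right _ (List.mem_dedup.2
          ((Nat.mem_primeFactorsList g0).2 ⟨hp, hp.dvd_of_dvd_pow h⟩))
    · exact ⟨lt_of_lt_of_le (by norm_num) (big hp (hm p hp h).2), (hm p hp h).1⟩
  · have hp := Nat.minFac_prime h.ne'
    have hd := Nat.minFac_dvd (D / G)
    refine ⟨_, hp, big hp (hm _ hp hd).2, hd.trans (Nat.div_dvd_of_dvd hG), fun c => ?_⟩
    rcases List.mem_append.1 c with c | c
    · exact (hm _ hp hd).2 (small c).2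
    · exact (hm _ hp hd).1 ((Nat.dvd_of_mem_primeFactorsList (List.mem_dedup.1 c)).trans hg)

end FastX

open FastX in
theorem r_fast : R_fast := by
  intro hE hC W Ω ρ N b S hD v hv h
  simp only [fast, force_eq, fL, Bool.and_eq_true, Nat.beq_eq] at h
  obtain ⟨⟨h1, h2⟩, h3⟩ := h
  obtain ⟨a1, a2, a3, a4⟩ := core W.Δ.natAbs W.c₄.natAbs _ _
    ((Nat.div_dvd_of_dvd (Nat.gcd_dvd_left _ _)).trans (Nat.gcd_dvd_right _ _))
    (Nat.gcd_dvd_left _ _) (Nat.gcd_dvd_right _ _) h1 h2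
  obtain ⟨M, hM, -⟩ := hC W Ω ρ N b S hD _ 13 7 _ _ _ (hE.2 Ω v hv) a1 a2
    (List.mem_append_left _ (by decide)) (List.mem_append_left _ (by decide)) a3
    (fun hb => a4 (Nat.blt_eq.mp hb)) h3
  exact absurd hM (by decide)

end Pool.Agent.MP_b2c033_nt.U
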