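import Pool.Agent.MP_b2c033_nt.UC.TSpec

/-! Soundness of the last filter and of the whole filter. -/

namespace Pool.Agent.MP_b2c033_nt.U

private lemma fL_eq {α : Type} : ∀ (l : List ℕ) (k : List ℕ → α), forceL l k = k l
  | [], _ => rfl
  | c :: cs, k => by rw [forceL, force_eq, fL_eq cs]

theorem r_full : R_full := by
  intro hE hC hM w Ω ρ N b hS h1 v c hv h
  cases c with
  | pos =>
    left
    have h' : w ∈ posL := of_decide_eq_true h
    exact List.mem_map.2 ⟨w, h', rfl⟩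
  | nm u r s t => exact (hM _ u r s t hS.red h).elim
  | tr K N' l =>
    rw [full, force_eq, fL_eq] at h
    have h0 : (mkW w).Δ.natAbs ≠ 0 := Int.natAbs_ne_zero.2 hS.red.ne
    have hm : ∀ p, p ∈ (mkW w).Δ.natAbs.primeFactorsList.dedup.filter (Nat.blt 3) ↔
        (p.Prime ∧ p ∣ (mkW w).Δ.natAbs) ∧ 3 < p := by
      intro p
      rw [List.mem_filter, List.mem_dedup, Nat.mem_primeFactorsList h0, Nat.blt_eq]
    have hall : ∀ p : ℕ, p.Prime → p ∣ (mkW w).Δ.natAbs →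
        p ∈ 2 :: 3 :: (mkW w).Δ.natAbs.primeFactorsList.dedup.filter (Nat.blt 3) := by
      intro p hp hd
      rw [List.mem_cons, List.mem_cons, hm]
      have := hp.two_le
      by_cases h3 : 3 < p
      · exact Or.inr (Or.inr ⟨⟨hp, hd⟩, h3⟩)
      · omega
    obtain ⟨M, hl, hN⟩ := hC (mkW w) Ω ρ N b hS h1 (v * KQ) K 9 _ false (leafF w N' l)
      (hE.2 Ω v hv)
      (by
        rw [List.nodup_cons, List.nodup_cons, List.mem_cons, hm, hm]
        exact ⟨by omega, by omega, (List.nodup_dedup _).filter _⟩)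
      (by
        intro p hp
        rw [List.mem_cons, List.mem_cons, hm] at hp
        rcases hp with rfl | rfl | hp
        exacts [Nat.prime_two, Nat.prime_three, hp.1.1])
      List.mem_cons_self (List.mem_cons_of_mem _ List.mem_cons_self)
      (fun p hp hd hn => (hn (hall p hp hd)).elim) (fun hb => absurd hb (by simp)) h
    obtain rfl := hN hall
    rw [leafF, force_eq, Bool.or_eq_true] at hl
    rcases hl with hl | hl
    · rw [Bool.and_eq_true, Bool.and_eq_true] at hl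
      exact Or.inr ⟨of_decide_eq_true hl.1.2, List.mem_map.2 ⟨w, of_decide_eq_true hl.2, rfl⟩⟩
    · obtain ⟨y, -, hy⟩ := List.any_eq_true.1 hl
      rw [Bool.and_eq_true] at hy
      exact (feK_sound hS.coef hS.link hS.fe hy.2).elim

theorem r_flt : R_flt := by
  intro hQ hF hU W Ω ρ N b hS h1 TB exc h
  have h0 : 0 < W.Δ.natAbs := Int.natAbs_pos.2 hS.red.ne
  have hb := vb_sound (P := W.c₄.natAbs ^ 3) hS.vol h0 le_rfl le_rfl
  have hv : 10 ^ 9 * Ω ^ 6 ≤
      ((vb (W.c₄.natAbs ^ 3) W.Δ.natAbs / W.Δ.natAbs + 1 : ℕ) : ℝ) := by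
    refine le_trans ?_ (lt_div_succ _ _ h0)
    rw [le_div_iff₀ (by exact_mod_cast h0)]
    exact hb
  have h' : (quick TB W.Δ.natAbs W.c₄.natAbs
      (vb (W.c₄.natAbs ^ 3) W.Δ.natAbs / W.Δ.natAbs + 1) ||
      (fast (mkW (W.a₁, W.a₂, W.a₃, W.a₄, W.a₆)) W.Δ.natAbs W.c₄.natAbs
        (vb (W.c₄.natAbs ^ 3) W.Δ.natAbs / W.Δ.natAbs + 1) ||
      full (W.a₁, W.a₂, W.a₃, W.a₄, W.a₆) W.Δ.natAbs W.c₄.natAbs
        (vb (W.c₄.natAbs ^ 3) W.Δ.natAbs / W.Δ.natAbs + 1) (look W.a₄ W.a₆ exc))) = true := by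
    unfold Tst.at flt at h
    rw [force_eq, forceZ_eq] at h
    exact h
  rw [Bool.or_eq_true, Bool.or_eq_true] at h'
  rcases h' with h' | h' | h'
  · exact (hQ W Ω ρ N b hS h1 TB _ hv h').elim
  · exact (hF W Ω ρ N b hS h1 _ hv h').elim
  · exact hU (W.a₁, W.a₂, W.a₃, W.a₄, W.a₆) Ω ρ N b hS h1 _ _ hv h'

end Pool.Agent.MP_b2c033_nt.U
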