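import Pool.Agent.MP_b2c033_nt.UC.TSpec

/-! Soundness of the refutation step of the tree search. -/

namespace Pool.Agent.MP_b2c033_nt.U

open scoped Real

theorem kill_end (Ω E : ℝ) (Q e : ℕ) (hQ : OmQ Ω Q) (hE : 0 ≤ E) (hk : 3 * π * E ≤ Ω)
    (he : (e : ℝ) ≤ 268435456 * E) (hlt : Q < e ^ 6) : False := by
  have hpi : (3.141592 : ℝ) < π := Real.pi_gt_d6
  have h1 : 9.4247 * E ≤ Ω := by nlinarith
  have h2 : (e : ℝ) ≤ Ω * (268435456 / 9.4247) := by
    have : Ω * (268435456 / 9.4247) = 268435456 * (Ω / 9.4247) := by ring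
    rw [this]
    have h3 : E ≤ Ω / 9.4247 := by
      rw [le_div_iff₀ (by norm_num)]
      linarith
    linarith
  have h4 : (e : ℝ) ^ 6 ≤ (Ω * (268435456 / 9.4247)) ^ 6 :=
    pow_le_pow_left₀ (Nat.cast_nonneg e) h2 6
  have h5 : (Q : ℝ) < (e : ℝ) ^ 6 := by exact_mod_cast hlt
  unfold OmQ at hQ
  rw [mul_pow] at h4
  linarith

theorem kill_aux (hM : C_Mon) (hK : C_Key) (hN : T_enN) (W : WeierstrassCurve ℤ) (Ω ρ : ℝ)
    (N : ℕ) (b : ℕ → ℤ) (hS : Sit W Ω ρ N b) (t : ℕ → ℕ) (Q K : ℕ) (hQ : OmQ Ω Q)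
    (ht : TLe t (TN b K)) (F : List (ℕ × List Op)) : ∀ L : List (ℕ × Op),
    (F.map (·.1) ++ L.map (·.1)).Nodup → (∀ y ∈ F, y.1.Prime ∧ ∀ o ∈ y.2, Dm W N y.1 o) →
    (∀ y ∈ L, y.1.Prime ∧ Dm W N y.1 y.2) →
    (∀ p : ℕ, p.Prime → p ∣ N → p ∉ F.map (·.1) ++ L.map (·.1) → Dm W N p o1) →
    killA t Q (F.map (·.2)) (L.map (·.2)) = true → False := by
  induction F with
  | nil =>
    intro L hnd _ hL hr hk
    have h1 := hK W Ω ρ N b hS L (by simpa using hnd) hL (by simpa using hr) K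
    have h2 := hN.1 t (TN b K) (L.map (·.2)) 1 ht (hM.1 b K).2
    have h3 := (hM.2 (TN b K) (L.map (·.2)) (hM.1 b K).1 (hM.1 b K).2).2 1
    have h4 : Q < enN t (L.map (·.2)) 1 ^ 6 := by
      have : Nat.blt Q (Nat.pow (enN t (L.map (·.2)) 1) 6) = true := hk
      exact Nat.blt_eq.mp this
    exact kill_end Ω _ Q _ hQ h3 h1 h2 h4
  | cons y F ih =>
    intro L hnd hF hL hr hk
    have hk' : (y.2.any fun o => killA t Q (F.map (·.2)) (o :: L.map (·.2))) = true := hk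
    obtain ⟨o, ho, hko⟩ := List.any_eq_true.1 hk'
    have hperm : (F.map (·.1) ++ (((y.1, o) : ℕ × Op) :: L).map (·.1)).Perm
        ((y :: F).map (·.1) ++ L.map (·.1)) := by
      simp only [List.map_cons, List.cons_append]
      exact List.perm_middle
    refine ih ((y.1, o) :: L) (hperm.nodup_iff.2 hnd)
      (fun z hz => hF z (List.mem_cons_of_mem _ hz)) ?_ ?_ hko
    · intro z hz
      rcases List.mem_cons.1 hz with rfl | hz
      · exact ⟨(hF y List.mem_cons_self).1, (hF y List.mem_cons_self).2 o ho⟩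
      · exact hL z hz
    · intro p hp hpN hn
      exact hr p hp hpN fun h => hn (hperm.mem_iff.2 h)

theorem r_kill : R_kill := by
  intro hM hK hN W Ω ρ N b hS t Q K F hQ ht hI hk
  refine kill_aux hM hK hN W Ω ρ N b hS t Q K hQ ht F [] ?_ hI.fx (by simp) ?_ hk
  · simpa using hI.nd
  · intro p hp hpN hn
    exact hI.rest p hp hpN (by simpa using hn)

end Pool.Agent.MP_b2c033_nt.U
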