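import Pool.Agent.MP_b2c033_nt.UC.TSpec

/-! Soundness of the first filter. -/

namespace Pool.Agent.MP_b2c033_nt.U

private lemma qad_iff (W : WeierstrassCurve ℤ) (p : ℕ) :
    Ad W p ↔ p ∣ Nat.gcd W.Δ.natAbs W.c₄.natAbs := by
  rw [Ad, Nat.dvd_gcd_iff, Int.natCast_dvd, Int.natCast_dvd]

private lemma qdvd_of_div_one {g P : ℕ} (h : g / Nat.gcd g P = 1) : g ∣ P := by
  have h1 := Nat.mul_div_cancel' (Nat.gcd_dvd_left g P)
  rw [h, mul_one] at h1
  rw [← h1]
  exact Nat.gcd_dvd_right g P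

private lemma qprime_P7 {q : ℕ} (hq : q.Prime) (h : q ∣ P7) : q ≤ 7 := by
  rw [P7] at h
  rcases (Nat.Prime.dvd_mul hq).1 h with h | h
  · rcases (Nat.Prime.dvd_mul hq).1 h with h | h
    · rcases (Nat.Prime.dvd_mul hq).1 h with h | h
      · exact (Nat.le_of_dvd (by norm_num) (hq.dvd_of_dvd_pow h)).trans (by norm_num)
      · exact (Nat.le_of_dvd (by norm_num) (hq.dvd_of_dvd_pow h)).trans (by norm_num)
    · exact (Nat.le_of_dvd (by norm_num) (hq.dvd_of_dvd_pow h)).trans (by norm_num)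
  · exact Nat.le_of_dvd (by norm_num) (hq.dvd_of_dvd_pow h)

private lemma qge11 {m q : ℕ} (hq : q.Prime) (hm : Nat.gcd m 210 = 1) (h : q ∣ m) : 11 ≤ q := by
  by_contra hc
  have hc' : q < 11 := by omega
  have h2 : q ∣ 210 := by
    interval_cases q <;> first | (exfalso; revert hq; norm_num; done) | norm_num
  have h3 := Nat.dvd_gcd h h2
  rw [hm] at h3
  exact hq.one_lt.ne' (Nat.dvd_one.1 h3)

private lemma qge17 {m q : ℕ} (hq : q.Prime) (h11 : 11 ≤ q) (hm : Nat.gcd m 143 = 1)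
    (h : q ∣ m) : 17 ≤ q := by
  by_contra hc
  have hc' : q < 17 := by omega
  have h2 : q ∣ 143 := by
    interval_cases q <;> first | (exfalso; revert hq; norm_num; done) | norm_num
  have h3 := Nat.dvd_gcd h h2
  rw [hm] at h3
  exact hq.one_lt.ne' (Nat.dvd_one.1 h3)

private lemma qk2_sound (H : T_chkQ) {W Ω ρ N b} (hS : Sit W Ω ρ N b) (hD : W.Δ.natAbs ≠ 1)
    {TB v P : ℕ} (hv : 10 ^ 9 * Ω ^ 6 ≤ v) (hX : XO W P)
    (h : qk2 TB v (Nat.gcd (Nat.gcd W.Δ.natAbs W.c₄.natAbs) 210) P = true) : False := by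
  rw [qk2, force_eq, Bool.and_eq_true] at h
  have h1 := Nat.le_of_ble_eq_true h.1
  refine H W Ω ρ N b hS hD _ P _ (hv.trans (Nat.cast_le.2 h1)) ?_ hX h.2
  intro p hp
  have h2 : p ∣ 210 := by
    simp only [List.mem_cons, List.not_mem_nil, or_false] at hp
    rcases hp with rfl | rfl | rfl | rfl <;> norm_num
  rw [qad_iff, Nat.dvd_gcd_iff (k := p) (m := Nat.gcd _ _)]
  exact ⟨fun h => h.1, fun h => ⟨h, h2⟩⟩

theorem r_quick : R_quick := by
  intro H W Ω ρ N b hS hD TB v hv h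
  rw [quick, force_eq, force_eq, force_eq] at h
  generalize hg : Nat.gcd W.Δ.natAbs W.c₄.natAbs = g at h
  have hA : ∀ p, Ad W p ↔ p ∣ g := fun p => by rw [qad_iff, hg]
  have hk : ∀ P, XO W P → qk2 TB v (Nat.gcd g 210) P = true → False := fun P hX hq =>
    qk2_sound H hS hD hv hX (by rw [hg]; exact hq)
  have e1 : Nat.div g (Nat.gcd g P7) = g / Nat.gcd g P7 := rfl
  rw [e1] at h
  generalize hg' : g / Nat.gcd g P7 = g' at h
  by_cases c1 : g' = 1
  · have hN : ∀ q : ℕ, q.Prime → 11 ≤ q → ¬ Ad W q := by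
      intro q hq h11 ha
      have := qprime_P7 hq (((hA q).1 ha).trans (qdvd_of_div_one (hg'.trans c1)))
      omega
    have b1 : Nat.beq g' 1 = true := by rw [c1]; rfl
    rw [b1, cond_true, force_eq] at h
    have hmD : Nat.div W.Δ.natAbs (Nat.gcd W.Δ.natAbs P7) ∣ W.Δ.natAbs :=
      Nat.div_dvd_of_dvd (Nat.gcd_dvd_left _ _)
    generalize Nat.div W.Δ.natAbs (Nat.gcd W.Δ.natAbs P7) = m at h hmD
    by_cases c2 : m = 1
    · have b2 : Nat.beq m 1 = true := by rw [c2]; rfl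
      rw [b2, cond_true] at h
      exact hk 0 hN h
    · have b2 : Nat.beq m 1 = false := by
        rw [← Bool.not_eq_true]
        exact fun hb => c2 (Nat.eq_of_beq_eq_true hb)
      rw [b2, cond_false, Bool.and_eq_true, force_eq] at h
      obtain ⟨h1, h⟩ := h
      have h1' := Nat.eq_of_beq_eq_true h1
      have hmm : Nat.div m (Nat.gcd m P13) ∣ m := Nat.div_dvd_of_dvd (Nat.gcd_dvd_left _ _)
      generalize Nat.div m (Nat.gcd m P13) = m' at h hmm
      by_cases c3 : m' = 1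
      · have b3 : Nat.beq m' 1 = true := by rw [c3]; rfl
        rw [b3, cond_true] at h
        refine hk 1 ⟨hN, m.minFac, Nat.minFac_prime c2,
          qge11 (Nat.minFac_prime c2) h1' (Nat.minFac_dvd m), ?_⟩ h
        exact Int.natCast_dvd.2 ((Nat.minFac_dvd m).trans hmD)
      · have b3 : Nat.beq m' 1 = false := by
          rw [← Bool.not_eq_true]
          exact fun hb => c3 (Nat.eq_of_beq_eq_true hb)
        rw [b3, cond_false, Bool.and_eq_true] at h
        have hp := Nat.minFac_prime c3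
        have hd := Nat.minFac_dvd m'
        refine hk 2 ⟨hN, m'.minFac, hp,
          qge17 hp (qge11 hp h1' (hd.trans hmm)) (Nat.eq_of_beq_eq_true h.1) hd, ?_⟩ h.2
        exact Int.natCast_dvd.2 ((hd.trans hmm).trans hmD)
  · have b1 : Nat.beq g' 1 = false := by
      rw [← Bool.not_eq_true]
      exact fun hb => c1 (Nat.eq_of_beq_eq_true hb)
    rw [b1, cond_false, Bool.and_eq_true, Bool.and_eq_true] at h
    obtain ⟨⟨h1, h2⟩, h3⟩ := h
    have h1' := Nat.eq_of_beq_eq_true h1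
    have h2' : g' ∣ g'.minFac ^ 12 := Nat.dvd_of_mod_eq_zero (Nat.eq_of_beq_eq_true h2)
    have hp := Nat.minFac_prime c1
    have hd := Nat.minFac_dvd g'
    have hgg : Nat.gcd g P7 * g' = g := by
      rw [← hg']
      exact Nat.mul_div_cancel' (Nat.gcd_dvd_left g P7)
    refine hk 3 ⟨g'.minFac, hp, qge11 hp h1' hd, (hA _).2 ?_, ?_⟩ h3
    · rw [← hgg]
      exact hd.mul_left _
    · intro r hr h11 ha
      have h4 := (hA r).1 ha
      rw [← hgg] at h4
      rcases (Nat.Prime.dvd_mul hr).1 h4 with h5 | h5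
      · have := qprime_P7 hr (h5.trans (Nat.gcd_dvd_right g P7))
        omega
      · exact (Nat.prime_dvd_prime_iff_eq hr hp).1 (hr.dvd_of_dvd_pow (h5.trans h2'))

end Pool.Agent.MP_b2c033_nt.U
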