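import Pool.Agent.MP_b2c033_nt.UC.TSpec

/-! Soundness of the integer lower bound for the truncated energy sum. -/

namespace Pool.Agent.MP_b2c033_nt.U

open scoped Real

lemma sq8_le (k : ℕ) : ∀ (a : ℕ) (y : ℝ), (a : ℝ) ≤ 268435456 * y →
    (sq8 k a : ℝ) ≤ 268435456 * y ^ 2 ^ k := by
  induction k with
  | zero => intro a y h; rw [pow_zero, pow_one]; exact h
  | succ k ih =>
    intro a y h
    have e : sq8 (k + 1) a = sq8 k (a * a / 268435456) := rfl
    rw [e, pow_succ' 2 k, pow_mul]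
    refine ih _ _ (Nat.cast_div_le.trans ?_)
    rw [div_le_iff₀ (by norm_num)]
    push_cast
    have : (0 : ℝ) ≤ a := a.cast_nonneg
    nlinarith

lemma rX_le {X : ℕ} (hX : 0 < X) : (rX X : ℝ) ≤ 268435456 * Real.exp (-(4 * π / X)) := by
  have e1 : Real.exp (-(4 * π / X / 256)) ^ 2 ^ 8 = Real.exp (-(4 * π / X)) := by
    rw [← Real.exp_nat_mul]; congr 1; push_cast; ring
  rw [← e1]
  have e : rX X = sq8 8 (268435455 - 13176826 / X) := rfl
  rw [e]
  refine sq8_le _ _ _ ?_
  have hX' : (0 : ℝ) < X := by exact_mod_cast hX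
  rcases le_total 268435455 (13176826 / X) with h1 | h1
  · rw [Nat.sub_eq_zero_of_le h1, Nat.cast_zero]
    exact mul_nonneg (by norm_num) (Real.exp_pos _).le
  · rw [Nat.cast_sub h1]
    have h2 := lt_div_succ 13176826 X hX
    have h3 := Real.add_one_le_exp (-(4 * π / X / 256))
    have h4 : 268435456 * (4 * π / X / 256) ≤ (13176826 : ℝ) / X := by
      have : 268435456 * (4 * π / X / 256) = 4194304 * π / X := by ring
      rw [this]
      exact div_le_div_of_nonneg_right (by linarith [Real.pi_lt_d6]) hX'.le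
    rw [Nat.cast_add, Nat.cast_one, Nat.cast_ofNat] at h2
    rw [Nat.cast_ofNat]
    linarith

lemma hn_le {l : ℕ} {r : ℝ} (hl : (l : ℝ) ≤ 268435456 * r) (b : ℕ → ℤ) (K : ℕ) : ∀ s,
    (hn l ((List.range' s K).map fun n => (b n).natAbs ^ 2 * 268435456 / n) : ℝ) ≤
      268435456 * ∑ i ∈ Finset.range K, (b (s + i) : ℝ) ^ 2 / (s + i : ℕ) * r ^ (i + 1) := by
  induction K with
  | zero => intro s; simp [hn]
  | succ K ih =>
    intro s
    have e : ∀ (c : ℕ) (cs : List ℕ), hn l (c :: cs) = (c + hn l cs) * l / 268435456 :=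
      fun _ _ => rfl
    rw [List.range'_succ, List.map_cons, e, Finset.sum_range_succ']
    refine Nat.cast_div_le.trans ?_
    rw [div_le_iff₀ (by norm_num)]
    have h1 : (((b s).natAbs ^ 2 * 268435456 / s : ℕ) : ℝ) ≤ (b s : ℝ) ^ 2 * 268435456 / s := by
      refine Nat.cast_div_le.trans (le_of_eq ?_)
      push_cast
      rw [Nat.cast_natAbs, Int.cast_abs, sq_abs]
    have h2 := ih (s + 1)
    have h3 : ∑ i ∈ Finset.range K, (b (s + (i + 1)) : ℝ) ^ 2 / (s + (i + 1) : ℕ) * r ^ (i + 1 + 1)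
        = r * ∑ i ∈ Finset.range K, (b (s + 1 + i) : ℝ) ^ 2 / (s + 1 + i : ℕ) * r ^ (i + 1) := by
      rw [Finset.mul_sum]
      exact Finset.sum_congr rfl fun i _ => by rw [add_assoc s, add_comm 1 i]; ring
    rw [h3, Nat.cast_mul, Nat.cast_add]
    refine (mul_le_mul (add_le_add h1 h2) hl (Nat.cast_nonneg _)
      (le_trans (by positivity) (add_le_add h1 h2))).trans (le_of_eq ?_)
    simp only [add_zero, zero_add, pow_one, Nat.cast_ofNat]
    ring

theorem t_tN : T_tN := by
  intro b K X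
  rcases X with _ | X
  · have e : ∀ cs, tN cs 0 = 0 := fun _ => rfl
    rw [e, TN, if_pos rfl]
    simp
  · have e : ∀ cs, tN cs (X + 1) = hn (rX (X + 1)) cs := fun cs => by rw [tN, force_eq]
    rw [e, TN, if_neg (Nat.succ_ne_zero X)]
    refine (hn_le (rX_le (Nat.succ_pos X)) b K 1).trans (le_of_eq ?_)
    rw [TT, Finset.sum_range_succ']
    simp only [Nat.cast_zero, div_zero, zero_mul, add_zero]
    congr 1
    refine Finset.sum_congr rfl fun i _ => ?_
    rw [add_comm 1 i, ← Real.exp_nat_mul]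
    congr 2
    rw [Rat.cast_natCast]
    ring

end Pool.Agent.MP_b2c033_nt.U
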