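import Pool.Agent.MP_b2c033_nt.UC.TSpec

/-! Soundness of the tree search. -/

namespace Pool.Agent.MP_b2c033_nt.U

namespace Ttreex

/-- closing all open primes with the uniform options -/
theorem inv_kill (h3 : C_D3) {W : WeierstrassCurve ℤ} {N : ℕ} {y : ℕ × ℕ} {opn : List (ℕ × ℕ)}
    {F : List (ℕ × List Op)} (hI : TInv W N (y :: opn) F) {k : ℕ} (hk : 1 ≤ k)
    (hke : 2 * k ≤ N.factorization y.1) :
    TInv W N [] ((y.1, [uo y.1 k y.2]) :: (opn.map (fun z => (z.1, [uo z.1 1 z.2])) ++ F)) := by
  have hl : (([] : List (ℕ × ℕ)).map (·.1) ++ (((y.1, [uo y.1 k y.2]) ::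
      (opn.map (fun z => (z.1, [uo z.1 1 z.2])) ++ F) : List (ℕ × List Op))).map (·.1))
      = (y :: opn).map (·.1) ++ F.map (·.1) := by
    simp [List.map_append, List.map_map, Function.comp_def]
  refine ⟨by rw [hl]; exact hI.nd, by simp, ?_, by rw [hl]; exact hI.rest⟩
  intro z hz
  rcases List.mem_cons.1 hz with rfl | hz
  · obtain ⟨hp, _, hg⟩ := hI.op y List.mem_cons_self
    refine ⟨hp, fun o ho => ?_⟩
    rw [List.mem_singleton.1 ho, hg]
    exact h3 W N y.1 k hp hk hke
  · rcases List.mem_append.1 hz with hz | hz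
    · obtain ⟨u, hu, rfl⟩ := List.mem_map.1 hz
      obtain ⟨hp, he, hg⟩ := hI.op u (List.mem_cons_of_mem _ hu)
      refine ⟨hp, fun o ho => ?_⟩
      rw [List.mem_singleton.1 ho, hg]
      exact h3 W N u.1 1 hp le_rfl (by omega)
    · exact hI.fx z hz

/-- fixing the first open prime at its true exponent -/
theorem inv_fix (h2 : C_D2) {W : WeierstrassCurve ℤ} {N : ℕ} {y : ℕ × ℕ} {opn : List (ℕ × ℕ)}
    {F : List (ℕ × List Op)} (hI : TInv W N (y :: opn) F) :
    TInv W N opn ((y.1, alts y.1 (N.factorization y.1) y.2) :: F) := by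
  have hp : List.Perm (opn.map (·.1) ++ (((y.1, alts y.1 (N.factorization y.1) y.2) :: F :
      List (ℕ × List Op))).map (·.1)) ((y :: opn).map (·.1) ++ F.map (·.1)) := by
    simp only [List.map_cons, List.cons_append]
    exact List.perm_middle
  refine ⟨hp.nodup_iff.2 hI.nd, fun z hz => hI.op z (List.mem_cons_of_mem _ hz), ?_,
    fun p hpp hd hn => hI.rest p hpp hd fun h => hn (hp.mem_iff.2 h)⟩
  intro z hz
  rcases List.mem_cons.1 hz with rfl | hz
  · obtain ⟨hq, he, hg⟩ := hI.op y List.mem_cons_self
    refine ⟨hq, fun o ho => ?_⟩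
    simp only [alts, List.mem_cons, List.not_mem_nil, or_false] at ho
    rcases ho with rfl | rfl | rfl <;> rw [hg] <;>
      exact h2 W N y.1 _ hq (by omega) (by omega)
  · exact hI.fx z hz

end Ttreex

open Ttreex in
theorem r_tree : R_tree := by
  intro h2 h3 hk W Ω ρ N b hS t Q K fu leaf opn F M hQ hT
  induction opn generalizing F M with
  | nil =>
    intro hI h
    simp only [tree, Bool.or_eq_true] at h
    rcases h with h | h
    · exact (hk W Ω ρ N b hS t Q K F hQ hT hI h).elim
    · simpa using h
  | cons y opn ih =>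
    intro hI h
    have hfix := ih ((y.1, alts y.1 (N.factorization y.1) y.2) :: F)
      (M * y.1 ^ N.factorization y.1) (inv_fix h2 hI)
    have key : ∀ f k, 1 ≤ k → 2 * k ≤ N.factorization y.1 →
        lp t Q y.1 y.2 (opn.map fun z => [uo z.1 1 z.2]) (F.map (·.2)) M
          (tree t Q fu leaf opn) f k = true →
        tree t Q fu leaf opn (alts y.1 (N.factorization y.1) y.2 :: F.map (·.2))
          (M * y.1 ^ N.factorization y.1) = true := by
      intro f
      induction f with
      | zero => intro k _ _ h; simp [lp] at h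
      | succ f ihf =>
        intro k hk1 hke h
        simp only [lp, Bool.or_eq_true, Bool.and_eq_true, force_eq] at h
        rcases h with h | ⟨⟨ha, hb⟩, hc⟩
        · refine (hk W Ω ρ N b hS t Q K _ hQ hT (inv_kill h3 hI hk1 hke) ?_).elim
          simpa [List.map_append, List.map_map, Function.comp_def] using h
        · by_cases e1 : N.factorization y.1 = 2 * k
          · rw [e1]; exact ha
          · by_cases e2 : N.factorization y.1 = 2 * k + 1
            · rw [e2]; exact hb
            · exact ihf (k + 1) (by omega) (by omega) hc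
    have he := (hI.op y List.mem_cons_self).2.1
    have := hfix (key fu 1 le_rfl (by omega) h)
    rw [List.map_cons, List.prod_cons, ← mul_assoc]
    exact this

end Pool.Agent.MP_b2c033_nt.U
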