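import Pool.Agent.MP_b2c033_nt.UC.RThr
import Pool.Agent.MP_b2c033_nt.UC.RTA
import Pool.Agent.MP_b2c033_nt.UC.TtN
import Pool.Agent.MP_b2c033_nt.UC.TenN
import Pool.Agent.MP_b2c033_nt.UC.Tkill
import Pool.Agent.MP_b2c033_nt.UC.Ttree
import Pool.Agent.MP_b2c033_nt.UC.Tlists
import Pool.Agent.MP_b2c033_nt.UC.Tchk
import Pool.Agent.MP_b2c033_nt.UC.TchkQ
import Pool.Agent.MP_b2c033_nt.UC.Tquick
import Pool.Agent.MP_b2c033_nt.UC.Tfast
import Pool.Agent.MP_b2c033_nt.UC.Tnm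
import Pool.Agent.MP_b2c033_nt.UC.Tfull
import Pool.Agent.MP_b2c033_nt.UC.EnR

/-! The finite check from the covering statements. -/

set_option autoImplicit false

namespace Pool.Agent.MP_b2c033_nt.U

theorem c_TA : C_TA := r_TA c_Mon c_Key c_D01 c_D2 c_D3 c_D4 c_St c_H5

theorem c_Thr : C_Thr := r_Thr c_TA

theorem t_kill : T_kill := r_kill c_Mon c_Key t_enN

theorem t_tree : T_tree := r_tree c_D2 c_D3 t_kill

theorem t_lists : T_lists := r_lists c_St c_H5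

theorem t_chk : T_chk := r_chk c_D01 c_St c_H5 t_tN t_tree t_lists

theorem t_chkQ : T_chkQ := r_chkQ c_D01 c_D3 c_St c_H5 t_tN t_enN t_tree t_lists

theorem t_quick : T_quick := r_quick t_chkQ

theorem t_fast : T_fast := r_fast t_enN t_chk

theorem t_full : T_full := r_full t_enN t_chk t_nm

theorem t_flt : T_flt := r_flt t_quick t_fast t_full

theorem check2_of_res
    (h : ∀ W Ω ρ N b, Sit W Ω ρ N b → Res W N) : S_Check2 posL torL := by
  intro W Ω ρ N b h1 h2 h3 h4 h5 h6 h7 h8 h9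
  exact (h W Ω ρ N b ⟨h1, h2, h3, h4, h5, h6, h7, h8, h9⟩).imp id fun hr =>
    ⟨hr.1, fun n hn a c => multi_false hr.2 hr.1 h1.ne h2 h3 h4 h5 h7 n hn a c⟩

theorem check2_of_covs (h : Covs tR) : S_Check2 posL torL :=
  check2_of_res fun _ _ _ _ _ hs => res_of_covs c_St c_Thr t_flt h hs

end Pool.Agent.MP_b2c033_nt.U
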