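import Pool.Agent.MP_b2c033_nt.U.Spec2

/-! The finite check: relative options and their domination. -/

namespace Pool.Agent.MP_b2c033_nt.U

open scoped Real

/-- the hypotheses of the finite check -/
structure Sit (W : WeierstrassCurve ℤ) (Ω ρ : ℝ) (N : ℕ) (b : ℕ → ℤ) : Prop where
  red : RedMin W
  apf : ApFacts W
  vol : Vol W Ω
  coef : Coef N b
  link : Link W N b
  fe : FE N b
  horo : HoroB N b ρ
  val : Mtot N (fun _ => 0) ≤ 1 / 6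
  key : 3 * (hyp W N : ℝ) ^ 2 * ρ ≤ Ω * (Mtot N (smN N) : ℚ)

/-- additive reduction -/
def Ad (W : WeierstrassCurve ℤ) (p : ℕ) : Prop := (p : ℤ) ∣ W.Δ ∧ (p : ℤ) ∣ W.c₄

/-- hypothetical prime -/
def Hy (W : WeierstrassCurve ℤ) (N p : ℕ) : Prop := p ^ 2 ∣ N ∧ ¬ Ad W p

open Classical in
/-- the gain at a prime -/
noncomputable def gn (W : WeierstrassCurve ℤ) (N p : ℕ) : ℕ := if Hy W N p then p ^ 2 else 1

/-- options (numerator, denominator, width) -/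
abbrev Op : Type := List (ℕ × ℕ × ℕ)

noncomputable def evO (o : Op) (T : ℕ → ℝ) (X : ℕ) : ℝ :=
  (o.map fun y => (y.1 : ℝ) / y.2.1 * T (X * y.2.2)).sum

noncomputable def EnO (T : ℕ → ℝ) : List Op → ℕ → ℝ
  | [], X => T X
  | o :: os, X => evO o (EnO T os) X

/-- the energy at integral widths -/
noncomputable def TN (b : ℕ → ℤ) (K X : ℕ) : ℝ := if X = 0 then 0 else TT b K X

/-- the relative options of the root `i` at the prime `p`, applied to `T` -/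
noncomputable def roV (W : WeierstrassCurve ℤ) (N p i : ℕ) (T : ℕ → ℝ) (X : ℕ) : ℝ :=
  if N.factorization p = 0 then T X else
    (gn W N p : ℝ) / (Mp p (N.factorization p) (sm p (N.factorization p)) : ℚ) *
      ((opts p (N.factorization p) i).map fun y => (y.1 : ℝ) * T (X * y.2.num.toNat)).sum

/-- `o` is dominated by the relative options of some root -/
def Dm (W : WeierstrassCurve ℤ) (N p : ℕ) (o : Op) : Prop := ∃ i, 2 * i ≤ N.factorization p ∧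
  ∀ T : ℕ → ℝ, Monotone T → (∀ X, 0 ≤ T X) → ∀ X, evO o T X ≤ roV W N p i T X

/-- the exact options with the gain `g` -/
def exO (p e i g : ℕ) : Op := (opts p e i).map fun y =>
  ((g * y.1 / Mp p e (sm p e)).num.toNat, (g * y.1 / Mp p e (sm p e)).den, y.2.num.toNat)

/-- options that are valid for all exponents `e ≥ 2 k` -/
def uo (p k g : ℕ) : Op :=
  if p = 2 then [(g, 5, 2 ^ k)] else if p = 3 then [(g, 4, 3 ^ k), (g, 4, 3 ^ (k - 1))]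
  else [(g * (p - 1), p + 1, p ^ k)]

/-- the trivial option -/
def o1 : Op := [(1, 1, 1)]

/-- the options at a multiplicative prime that is at least `P` -/
def om (P : ℕ) : Op := [(1, 2, P), (1, 2, 1)]

/-- the inequality that is refuted -/
def C_Key : Prop := ∀ W Ω ρ N b, Sit W Ω ρ N b → ∀ L : List (ℕ × Op), (L.map (·.1)).Nodup →
  (∀ y ∈ L, y.1.Prime ∧ Dm W N y.1 y.2) →
  (∀ p : ℕ, p.Prime → p ∣ N → p ∉ L.map (·.1) → Dm W N p o1) →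
  ∀ K, 3 * π * EnO (TN b K) (L.map (·.2)) 1 ≤ Ω

def C_Mon : Prop := (∀ b K, Monotone (TN b K) ∧ ∀ X, 0 ≤ TN b K X) ∧
  ∀ (T : ℕ → ℝ) os, Monotone T → (∀ X, 0 ≤ T X) → Monotone (EnO T os) ∧ ∀ X, 0 ≤ EnO T os X

def C_D01 : Prop := ∀ W N p, p.Prime → (N.factorization p = 0 → Dm W N p o1) ∧
  (N.factorization p = 1 → Dm W N p o1 ∧ ∀ P, P ≤ p → Dm W N p (om P))

def C_D2 : Prop := ∀ W N p i, p.Prime → 1 ≤ N.factorization p → 2 * i ≤ N.factorization p →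
  Dm W N p (exO p (N.factorization p) i (gn W N p))

def C_D3 : Prop := ∀ W N p k, p.Prime → 1 ≤ k → 2 * k ≤ N.factorization p →
  Dm W N p (uo p k (gn W N p))

def C_D4 : Prop := ∀ W N,
  (2 ≤ N.factorization 2 → N.factorization 2 ≤ 7 → Dm W N 2 [(gn W N 2, 3, 4)]) ∧
  (N.factorization 3 = 2 → Dm W N 3 [(5 * gn W N 3, 8, 3)]) ∧
  (3 ≤ N.factorization 3 → Dm W N 3 [(gn W N 3, 4, 9), (gn W N 3, 4, 3)])

/-- the possible exponents -/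
def C_St : Prop := ∀ W Ω ρ N b, Sit W Ω ρ N b → ∀ p : ℕ, p.Prime →
  (¬ (p : ℤ) ∣ W.Δ → N.factorization p = 0 ∨ Hy W N p) ∧
  ((p : ℤ) ∣ W.Δ → ¬ (p : ℤ) ∣ W.c₄ → N.factorization p = 1 ∨ Hy W N p) ∧
  (Ad W p → 2 ≤ N.factorization p ∧ gn W N p = 1) ∧
  (Hy W N p → 2 ≤ N.factorization p ∧ gn W N p = p ^ 2) ∧
  (Ad W p → 5 ≤ p → (p : ℤ) ^ 2 ∣ W.Δ) ∧
  (Ad W 2 → W.a₁ = 0 ∧ W.a₃ = 0 ∧ 16 ∣ W.Δ) ∧
  (Ad W 3 → 3 ∣ W.b₂ ∧ 3 ∣ W.b₄ ∧ 27 ∣ W.Δ)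

/-- no hypothetical prime beyond `3` -/
def C_H5 : Prop := ∀ W Ω ρ N b, Sit W Ω ρ N b → W.Δ.natAbs ≠ 1 → ∀ p : ℕ, p.Prime → 5 ≤ p →
  ¬ Hy W N p

/-- thresholds when some prime beyond `7` is additive, or both `5` and `7` are -/
def C_TA : Prop := ∀ W Ω ρ N b, Sit W Ω ρ N b → W.Δ.natAbs ≠ 1 →
  ((∃ p : ℕ, p.Prime ∧ 11 ≤ p ∧ Ad W p) ∨ (Ad W 5 ∧ Ad W 7)) →
  (¬ Ad W 2 → 1.14 ≤ Ω) ∧ (¬ Ad W 3 → 0.72 ≤ Ω) ∧ 0.39 ≤ Ω ∧ (¬ Ad W 5 → 0.49 ≤ Ω) ∧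
    (¬ Ad W 5 → ¬ Ad W 7 → 0.65 ≤ Ω)

/-- the thresholds for the enumeration -/
def C_Thr : Prop := ∀ W Ω ρ N b, Sit W Ω ρ N b → W.Δ.natAbs ≠ 1 →
  (¬ Ad W 2 → ¬ Ad W 3 → 1.14 ≤ Ω) ∧ (¬ Ad W 2 → 0.75 ≤ Ω) ∧ (¬ Ad W 3 → 0.72 ≤ Ω) ∧
    0.39 ≤ Ω ∧ (¬ Ad W 5 → 0.49 ≤ Ω) ∧ (¬ Ad W 5 → ¬ Ad W 7 → 0.65 ≤ Ω)

def R_Key : Prop := C_Mon → C_Key
def R_H5 : Prop := C_Mon → C_Key → C_D01 → C_D2 → C_D3 → C_D4 → C_St → C_H5
def R_TA : Prop := C_Mon → C_Key → C_D01 → C_D2 → C_D3 → C_D4 → C_St → C_H5 → C_TA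

end Pool.Agent.MP_b2c033_nt.U
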