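import Pool.Agent.MP_b2c033_nt.UC.Flt3
import Pool.Agent.MP_b2c033_nt.UC.MidT

/-! The intermediate filter that is used. -/

namespace Pool.Agent.MP_b2c033_nt.U

def mdM : Md := mid TM

end Pool.Agent.MP_b2c033_nt.U
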