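import Pool.Agent.MP_b2c033_nt.U.Lists

/-! The finite check: a Boolean program, written with recursors for evaluation by the kernel. -/

namespace Pool.Agent.MP_b2c033_nt.UC

open U WeierstrassCurve

/-- evaluate `n`, then apply `f` -/
def frc {β : Type} (n : ℕ) (f : ℕ → β) : β := Nat.rec (f 0) (fun m _ => f (Nat.succ m)) n

def allN (f : ℕ → Bool) (n : ℕ) : Bool := Nat.rec true (fun i r => cond (f i) r false) n

def anyN (f : ℕ → Bool) (n : ℕ) : Bool := Nat.rec false (fun i r => cond (f i) true r) n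

def allL {α : Type} (f : α → Bool) (l : List α) : Bool :=
  List.rec true (fun a _ r => cond (f a) r false) l

def anyL {α : Type} (f : α → Bool) (l : List α) : Bool :=
  List.rec false (fun a _ r => cond (f a) true r) l

/-- `d ∣ n` -/
def dv (d n : ℕ) : Bool := Nat.beq (Nat.mod n d) 0

/-! ## The exponential -/

/-- `m` squarings at scale `2 ^ S`, rounded down (`up = 0`) or up (`up = 1`) -/
def sqs (S m up z : ℕ) : ℕ :=
  Nat.rec z (fun _ r => Nat.add (Nat.shiftRight (Nat.pow r 2) S) up) m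

/-- lower bound for `2 ^ S * exp (-(π a / b))` -/
def expLo (a b S m : ℕ) : ℕ :=
  sqs S m 0 (2 ^ S - (314159265358979323847 * a * 2 ^ S / (b * 2 ^ m * 10 ^ 20) + 1))

/-- upper bound for `2 ^ S * exp (-(π a / b))` -/
def expHi (a b S m : ℕ) : ℕ :=
  sqs S m 1 (2 ^ S * 2 ^ S /
    (2 ^ S + 314159265358979323846 * a * 2 ^ S / (b * 2 ^ m * 10 ^ 20)) + 1)

/-- lower bound for `2 ^ 24 * exp (-(4 π / X))` -/
def rlo (X : ℕ) : ℕ := Nat.shiftRight (expLo 4 X 31 12) 7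

/-- lower bound for `∑ c_n exp (-(4 π n / X))`, `cs = [c_1, c_2, …]` -/
def tcsA (cs : List ℕ) (X : ℕ) : ℕ := frc (rlo X) fun r =>
  List.rec 0 (fun c _ acc => Nat.shiftRight (Nat.mul (Nat.add acc c) r) 24) cs

def tcs (cs : List ℕ) (X : ℕ) : ℕ := frc X fun Y => Nat.add (tcsA cs Y) 0

def t1 (X : ℕ) : ℕ := frc X fun Y => Nat.add (rlo Y) 0

/-! ## Options -/

/-- a denominator and a list of pairs (weight, width) -/
abbrev Opt : Type := ℕ × List (ℕ × ℕ)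

def enN (T : ℕ → ℕ) (L : List Opt) : ℕ → ℕ :=
  List.rec T (fun o _ ih X =>
    List.rec 0 (fun y _ s => Nat.add (Nat.mul y.1 (ih (Nat.mul X y.2))) s) o.2) L

def den (L : List Opt) : ℕ := List.rec 1 (fun o _ d => Nat.mul o.1 d) L

/-- `u / 2 ^ 16 < a π E` -/
def leaf (T : ℕ → ℕ) (a u : ℕ) (L : List Opt) : Bool :=
  Nat.blt (Nat.mul (Nat.mul u (den L)) 16777216) (Nat.mul (Nat.mul a 205887) (enN T L 1))

/-- some choice of one option in each list has the property `P` -/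
def anyR (P : List Opt → Bool) (alts : List (List Opt)) : List Opt → Bool :=
  List.rec P (fun a _ ih acc => anyL (fun o => ih (o :: acc)) a) alts

def em (p : ℕ) : ℕ := cond (Nat.beq p 2) 16 (cond (Nat.beq p 3) 10 4)

def mm (p e : ℕ) : ℕ :=
  cond (Nat.beq (e % 2) 1) (2 * p ^ (e / 2)) (p ^ (e / 2 - 1) * (2 + (p - 1) * p ^ sm p e))

def oOne (p : ℕ) : Opt := (2, [(1, p), (1, 1)])

def oMid (p e c : ℕ) : Opt :=
  cond (Nat.beq (e % 2) 1) (2, [(c, p ^ (e / 2 + 1)), (c, p ^ (e / 2))])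
    (cond (Nat.beq p 2) (cond (Nat.beq e 2) 1 (cond (Nat.ble e 6) 3 5), [(c, 2 ^ (e / 2))])
      (cond (Nat.beq p 3)
        (cond (Nat.beq e 2) (8, [(5 * c, 3)]) (4, [(c, 3 ^ (e / 2)), (c, 3 ^ (e / 2 - 1))]))
        (p + 1, [(c * (p - 1), p ^ (e / 2))])))

def oZero (p e c : ℕ) : Opt := (mm p e, [(c, p ^ e), (c, 1)])

def oPre (p e c : ℕ) : Opt :=
  (mm p e, [(c * p ^ (e / 2 - 1), p ^ (e - e / 2 + 1)), (c * p ^ ((e + 1) / 2 - 1), p ^ (e / 2 - 1))])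

def oCls (p c : ℕ) : Opt :=
  cond (Nat.beq p 2) (5, [(c, 256)])
    (cond (Nat.beq p 3) (4, [(c, 243), (c, 81)]) (p + 1, [(c * (p - 1), p * p)]))

def oUni (p c : ℕ) : Opt :=
  cond (Nat.beq p 2) (5, [(c, 4)]) (cond (Nat.beq p 3) (2, [(c, 3)]) (p + 1, [(c * (p - 1), p)]))

/-- the factor at a prime of kind `a`: `0` exponent zero, `1` exponent one, `2` additive,
`3` hypothetical -/
def scl (p a : ℕ) : ℕ := cond (Nat.beq a 3) (p * p) 1

def alt (p a e : ℕ) : List Opt :=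
  cond (Nat.beq a 1) [oOne p] (cond (Nat.ble (em p) e) [oCls p (scl p a)]
    (oMid p e (scl p a) :: oZero p e (scl p a) :: cond (Nat.ble 4 e) [oPre p e (scl p a)] []))

/-- the options valid for all exponents of the given kinds -/
def unis (fl : List (ℕ × ℕ)) (ex : List Opt) : List Opt :=
  List.rec ex (fun x _ r => cond (Nat.beq x.2 0) r
    (cond (Nat.beq x.2 1) (oOne x.1) (oUni x.1 (scl x.1 x.2)) :: r)) fl

/-- the alternatives for a list of triples (prime, kind, exponent) -/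
def alts (lv : List (ℕ × ℕ × ℕ)) : List (List Opt) :=
  List.rec [] (fun x _ r => cond (Nat.beq x.2.1 0) r (alt x.1 x.2.1 x.2.2 :: r)) lv

/-- all choices of exponents -/
def allE (P : List (ℕ × ℕ × ℕ) → Bool) (fl : List (ℕ × ℕ)) : List (ℕ × ℕ × ℕ) → Bool :=
  List.rec P (fun x _ ih acc => cond (Nat.ble x.2 1) (ih ((x.1, x.2, x.2) :: acc))
    (allN (fun i => ih ((x.1, x.2, Nat.add i 2) :: acc)) (em x.1 - 1))) fl

/-- all choices of hypothetical primes; `ty` lists (prime, reduction type) -/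
def allF (P : ℕ → List (ℕ × ℕ) → Bool) (ty : List (ℕ × ℕ)) : ℕ → List (ℕ × ℕ) → Bool :=
  List.rec P (fun x _ ih h acc => ih h (x :: acc) &&
    (Nat.beq x.2 2 || Nat.ble 11 x.1 || ih (Nat.mul h x.1) ((x.1, 3) :: acc))) ty

def tree (mk : ℕ → List ℕ) (fin : ℕ → List (ℕ × ℕ × ℕ) → Bool) (u : ℕ) (ex : List Opt)
    (ty : List (ℕ × ℕ)) : Bool :=
  allF (fun h fl => leaf t1 3 u (unis fl ex) || leaf (tcs (mk h)) 3 u (unis fl ex) ||
    allE (fun lv => anyR (leaf t1 3 u) (alts lv) ex || anyR (leaf (tcs (mk h)) 3 u) (alts lv) ex ||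
      fin h lv) fl []) ty 1 []

/-- the same without the enumeration of the exponents -/
def tree₀ (mk : ℕ → List ℕ) (u : ℕ) (ex : List Opt) (ty : List (ℕ × ℕ)) : Bool :=
  allF (fun h fl => leaf t1 3 u (unis fl ex) || leaf (tcs (mk h)) 3 u (unis fl ex)) ty 1 []

/-! ## Coefficients modulo `2 ^ 24` -/

def res (b : ℤ) (p : ℕ) : ℕ := (Int.emod b (Int.ofNat p)).natAbs

def cntOdd (p x2 x4 x6 hf : ℕ) : ℕ :=
  (Nat.rec (fun s => s) (fun x ih s => frc (Nat.add s (Nat.mod (Nat.succ (Nat.pow (Nat.mod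
    (Nat.add (Nat.mul (Nat.add (Nat.mul (Nat.add (Nat.mul 4 x) x2) x) x4) x) x6) p) hf)) p)) ih)
    p : ℕ → ℕ) 0

def cntTwo (W : WeierstrassCurve ℤ) : ℕ :=
  4 - (res W.a₆ 2 + res (1 + W.a₃ + W.a₆) 2 + res (1 + W.a₂ + W.a₄ + W.a₆) 2 +
    res (W.a₁ + W.a₃ + W.a₂ + W.a₄ + W.a₆) 2)

/-- the trace of Frobenius modulo `2 ^ 24` -/
def apQ (W : WeierstrassCurve ℤ) (p : ℕ) : ℕ :=
  (p + 16777216 - cond (Nat.beq p 2) (cntTwo W)
    (frc (res (Int.add (Int.mul W.a₁ W.a₁) (Int.mul 4 W.a₂)) p) fun x2 =>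
      frc (res (Int.add (Int.mul 4 W.a₄) (Int.mul 2 (Int.mul W.a₁ W.a₃))) p) fun x4 =>
      frc (res (Int.add (Int.mul W.a₃ W.a₃) (Int.mul 4 W.a₆)) p) fun x6 =>
        Nat.add (cntOdd p x2 x4 x6 (Nat.div p 2)) 0)) % 16777216

/-- a prime factor, for `2 ≤ n < 1681` -/
def mf (n : ℕ) : ℕ :=
  cond (dv 2 n) 2 (cond (dv 3 n) 3 (cond (dv 5 n) 5 (cond (dv 7 n) 7 (cond (dv 11 n) 11
    (cond (dv 13 n) 13 (cond (dv 17 n) 17 (cond (dv 19 n) 19 (cond (dv 23 n) 23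
      (cond (dv 29 n) 29 (cond (dv 31 n) 31 (cond (dv 37 n) 37 n)))))))))))

def dig (B n : ℕ) : ℕ := Nat.mod (Nat.shiftRight B (Nat.mul 24 n)) 16777216

def nxt (W : WeierstrassCurve ℤ) (h D B n : ℕ) : ℕ := frc (mf n) fun p =>
  cond (Nat.beq p n) (cond (dv p h) 0 (apQ W p))
    (Nat.mod (Nat.add (Nat.mul (dig B p) (dig B (Nat.div n p)))
      (cond (dv p (Nat.mul h D) || !dv p (Nat.div n p)) 0
        (Nat.mul (Nat.sub 16777216 p) (dig B (Nat.div (Nat.div n p) p))))) 16777216)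

/-- the residues of `b 0, …, b (K - 1)` as digits in base `2 ^ 24` -/
def tab (W : WeierstrassCurve ℤ) (h D K : ℕ) : ℕ :=
  (Nat.rec (fun _ B => B) (fun _ ih n B => frc n fun n' =>
    frc (Nat.add B (Nat.shiftLeft (nxt W h D B n') (Nat.mul 24 n'))) (ih (Nat.succ n')))
    (K - 2) : ℕ → ℕ → ℕ) 2 16777216

def pos (v : ℕ) : ℕ := cond (Nat.blt v 8388608) v 0

def neg (v : ℕ) : ℕ := cond (Nat.blt v 8388608) 0 (Nat.sub 16777216 v)

/-- the list of the `⌊2 ^ 24 b_n ^ 2 / n⌋`, `1 ≤ n < K` -/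
def csL (B K : ℕ) : List ℕ :=
  (Nat.rec (fun acc => acc) (fun i ih acc => frc (dig B (Nat.succ i)) fun v =>
    frc (Nat.div (Nat.mul (Nat.pow (Nat.add (pos v) (neg v)) 2) 16777216) (Nat.succ i)) fun c =>
      ih (c :: acc)) (K - 1) : List ℕ → List ℕ) []

def mkC (W : WeierstrassCurve ℤ) (D K h : ℕ) : List ℕ := frc (tab W h D K) fun B => csL B K

/-! ## The functional equation -/

/-- `∑_{1 ≤ n < K} f n q ^ n + z q ^ (K - 1)` at scale `2 ^ 100` -/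
def horn (f : ℕ → ℕ) (q up z K : ℕ) : ℕ :=
  (Nat.rec (fun acc => acc) (fun i ih acc => frc (Nat.add (Nat.shiftRight
    (Nat.mul (Nat.add acc (Nat.shiftLeft (f (Nat.succ i)) 100)) q) 100) up) ih)
    (K - 1) : ℕ → ℕ) z

/-- the ratio of consecutive terms of the tail is at most `1 - 1 / m` -/
def tailOK (q m K : ℕ) : Bool := Nat.ble (q * (K + 1) ^ 2 * m) ((m - 1) * K ^ 2 * 2 ^ 100)

/-- four numbers with `x₁ - x₂ ≤ 2 ^ 100 A ≤ x₃ - x₄` -/
def encl {β : Type} (B a b m K : ℕ) (k : ℕ → ℕ → ℕ → ℕ → β) : β :=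
  frc (expLo a b 100 30) fun ql => frc (expHi a b 100 30) fun qh =>
    frc (horn (fun n => pos (dig B n)) ql 0 0 K) fun x₁ =>
    frc (horn (fun n => neg (dig B n)) qh 1 (m * K ^ 2 * 2 ^ 100) K) fun x₂ =>
    frc (horn (fun n => pos (dig B n)) qh 1 (m * K ^ 2 * 2 ^ 100) K) fun x₃ =>
    frc (horn (fun n => neg (dig B n)) ql 0 0 K) fun x₄ => k x₁ x₂ x₃ x₄

def feK (N s : ℕ) : ℕ := 36 * max s (N / s + 1) / 10 + 12

def feFail (W : WeierstrassCurve ℤ) (h D N s : ℕ) : Bool := frc (feK N s) fun K =>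
  Nat.ble 2 s && Nat.ble K 1680 && tailOK (expHi (2 * s) N 100 30) (K / 10 + 2) K &&
    tailOK (expHi 2 s 100 30) (K / 10 + 2) K &&
    frc (tab W h D K) fun B => encl B (2 * s) N (K / 10 + 2) K fun x₁ x₂ x₃ x₄ =>
      encl B 2 s (K / 10 + 2) K fun y₁ y₂ y₃ y₄ =>
        (Nat.blt (s * s * x₂ + N * y₃) (s * s * x₁ + N * y₄) ||
          Nat.blt (s * s * x₃ + N * y₂) (s * s * x₄ + N * y₁)) &&
        (Nat.blt (s * s * x₂ + N * y₂) (s * s * x₁ + N * y₁) ||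
          Nat.blt (s * s * x₃ + N * y₃) (s * s * x₄ + N * y₄))

/-- an approximate square root -/
def isq (n : ℕ) : ℕ :=
  (Nat.rec (fun x => x) (fun _ ih x => frc (Nat.div (Nat.add x (Nat.div n x)) 2) fun y =>
    cond (Nat.blt y x) (ih y) x) 60 : ℕ → ℕ) (Nat.pow 2 (Nat.log2 n / 2 + 1))

def feAny (W : WeierstrassCurve ℤ) (h D N : ℕ) : Bool := frc (isq N) fun r =>
  anyL (feFail W h D N) [r - 1 - r / 8, r + 1 + r / 8, r + 2 + r / 4, r - 1 - r / 4, r + 1, r - 1]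

def cLo : List ℕ := [0, 3811, 0, 2635, 0, 1573, 0, 1638, 0, 2359, 0, 2424, 0, 1362, 0, 186, 0, 186,
  0, 1362, 0, 2424, 0, 2359, 0, 1638, 0, 1573, 0, 2635, 0, 3811]

def cHi : List ℕ := [4000, 3814, 4000, 2638, 4000, 1576, 4000, 1641, 4000, 2362, 4000, 2427, 4000,
  1365, 4000, 189, 4000, 189, 4000, 1365, 4000, 2427, 4000, 2362, 4000, 1641, 4000, 1576, 4000,
  2638, 4000, 3814]

def invFail (B : ℕ) : Bool :=
  tailOK (expHi 1 16 100 30) 10 100 &&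
  Nat.blt (horn (fun n => 2000 * pos (dig B n) + neg (dig B n) * cHi.getD (n % 32) 0)
      (expHi 1 16 100 30) 1 (2000 * 10 * 100 ^ 2 * 2 ^ 100) 100)
    (horn (fun n => pos (dig B n) * cLo.getD (n % 32) 0 + 2000 * neg (dig B n))
      (expLo 1 16 100 30) 0 0 100)

/-! ## The true level -/

def lvN (lv : List (ℕ × ℕ × ℕ)) : ℕ := List.rec 1 (fun x _ r => Nat.mul (Nat.pow x.1 x.2.2) r) lv

def exact (lv : List (ℕ × ℕ × ℕ)) : Bool := allL (fun x => Nat.blt x.2.2 (em x.1)) lv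

def valFail (N : ℕ) : Bool := Nat.ble N 25 && decide (1 / 6 < Mtot N fun _ => 0)

/-- `l u / 2 ^ 16 < n π E` -/
def lossT (cs : List ℕ) (n u : ℕ) (al : List (List Opt)) (l : ℚ) : Bool :=
  anyR (leaf (tcs cs) (n * l.den) (u * l.num.toNat)) al []

def noMulti (B : ℕ) (cs : List ℕ) (n u : ℕ) (lv : List (ℕ × ℕ × ℕ)) (al : List (List Opt))
    (s : ℕ → ℕ → ℕ) : Bool :=
  lossT cs n u al (1 / 6) && allL (fun x => lossT cs n u al
    (loss x.1 x.2.2 ((pos (dig B x.1) : ℤ) - neg (dig B x.1)) (s x.1 x.2.2))) lv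

def mOK (B : ℕ) (cs : List ℕ) (n u : ℕ) (lv : List (ℕ × ℕ × ℕ)) : Bool :=
  noMulti B cs n u lv (alts lv) sm ||
    (Nat.beq (lvN lv) 256 && invFail B && noMulti B cs n u lv [[(3, [(1, 16)]), (6, [(1, 32), (1, 8)])]]
      fun _ _ => 2)

def tup (W : WeierstrassCurve ℤ) : ℤ × ℤ × ℤ × ℤ × ℤ := (W.a₁, W.a₂, W.a₃, W.a₄, W.a₆)

def trueL (W : WeierstrassCurve ℤ) (D u h : ℕ) (lv : List (ℕ × ℕ × ℕ)) : Bool :=
  Nat.beq (lvN lv) (U.cond W) && (decide (tup W ∈ posL) ||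
    frc (tab W h D 160) fun B => mOK B (csL B 160) 4 u lv &&
      (decide (tup W ∈ torL) || mOK B (csL B 160) 3 u lv))

def finV (_h : ℕ) (lv : List (ℕ × ℕ × ℕ)) : Bool := exact lv && valFail (lvN lv)

def finT (W : WeierstrassCurve ℤ) (D u h : ℕ) (lv : List (ℕ × ℕ × ℕ)) : Bool :=
  exact lv && frc (lvN lv) fun N => valFail N || feAny W h D N || trueL W D u h lv

/-! ## The covolume -/

/-- `log n ≤ kk n * log 2 / 8` -/
def kk (n : ℕ) : ℕ := Nat.succ (Nat.log2 (Nat.pow n 8))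

/-- `Ω ≤ u / 2 ^ 16` if `c = |c₄|`, `D = |Δ|` -/
def omB (c D u : ℕ) : Bool :=
  Nat.ble (1406 ^ 6 * 2 ^ 96) (Nat.mul (Nat.mul (Nat.pow u 6) D) 1000000000000) ||
    frc (Nat.sub (Nat.div (Nat.pow c 3) D) 1400) fun n => Nat.ble 1000 n &&
      Nat.ble (Nat.mul (Nat.pow (kk n) 6) (2682 * 2 ^ 96))
        (Nat.mul (Nat.mul (Nat.mul (Nat.pow u 6) D) n) 100000)

/-- a small `u` with `omB c D u` -/
def ub (c D : ℕ) : ℕ :=
  frc (Nat.div (1406 ^ 6 * 2 ^ 96) (Nat.mul D 1000000000000)) fun q₁ =>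
  frc (Nat.sub (Nat.div (Nat.pow c 3) D) 1400) fun n =>
  frc (cond (Nat.ble 1000 n) (frc (Nat.div (Nat.mul (Nat.pow (kk n) 6) (2682 * 2 ^ 96))
    (Nat.mul (Nat.mul D n) 100000)) fun q₂ => cond (Nat.ble q₁ q₂) q₁ q₂) q₁) fun q =>
  Nat.add ((Nat.rec (fun u => u) (fun i ih u => frc (Nat.add u (Nat.pow 2 (Nat.add i 6))) fun v =>
    cond (Nat.ble (Nat.pow v 6) q) (ih v) (ih u)) 14 : ℕ → ℕ) 0) 64

/-- the bound for the discriminant from the first inequality -/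
def dZero (v : ℕ) : ℕ := 1406 ^ 6 * 2 ^ 96 / (v ^ 6 * 10 ^ 12)

def gT (c v n : ℕ) : Bool := Nat.ble 2000 n &&
  Nat.ble (kk n ^ 6 * (2682 * 2 ^ 96) * (n + 1400)) (v ^ 6 * c ^ 3 * n * 100000)

def pw8 (k : ℕ) : ℕ :=
  Nat.shiftRight (Nat.shiftLeft
    ([65536, 71467, 77935, 84989, 92681, 101070, 110217, 120193].getD (k % 8) 0) (k / 8)) 16

/-- a bound for `|Δ|` if `v / 2 ^ 16 < Ω` and `c = |c₄|` -/
def dB (c v : ℕ) : ℕ := frc (dZero v) fun d =>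
  cond (Nat.ble (3400 * d) (c ^ 3))
    ((Nat.rec (fun _ => d) (fun _ ih k => frc (pw8 k) fun n =>
      cond (gT c v n) (c ^ 3 / (n + 1400)) (ih (k - 1))) 14 : ℕ → ℕ)
      (isq (v * v * c * 10 / (3 * 2 ^ 32)))) d

/-! ## One curve -/

def sM : ℕ := 210 ^ 33

def sM2 : ℕ := 614889782588491410 ^ 33

def typ (c D p : ℕ) : ℕ := cond (dv p D) (cond (dv p c) 2 1) 0

def smallT (c D : ℕ) : List (ℕ × ℕ) := [(7, typ c D 7), (5, typ c D 5), (3, typ c D 3), (2, typ c D 2)]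

/-- `11 ^ k ≤ g` implies `k ≤ klog g` for `g < 2 ^ 33` -/
def klog (g : ℕ) : ℕ :=
  cond (Nat.blt g 121) 1 (cond (Nat.blt g 1331) 2 (cond (Nat.blt g 14641) 3
    (cond (Nat.blt g 161051) 4 9)))

def bigG (c D : ℕ) : ℕ := frc (Nat.gcd c D) fun g => Nat.div g (Nat.gcd g sM)

/-- `0` no large bad prime, `1` and `2` large multiplicative primes only, `3` otherwise -/
def cls (c D : ℕ) : ℕ :=
  cond (dv D sM) 0 (cond (dv (Nat.gcd c D) sM) (cond (dv D sM2) 1 2) 3)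

def exO (j k : ℕ) : List Opt :=
  cond (Nat.beq j 0) [] (cond (Nat.beq j 1) [oOne 11] (cond (Nat.beq j 2) [oOne 53]
    [(6 ^ k, [(5 ^ k, 11)])]))

def nonMin (W : WeierstrassCurve ℤ) (p : ℕ) : Bool :=
  anyN (fun s => decide ((p : ℤ) ∣ W.a₁ + 2 * s) && anyN (fun r =>
    decide ((p : ℤ) ^ 2 ∣ W.a₂ - s * W.a₁ + 3 * r - s ^ 2) && anyN (fun t =>
      decide ((p : ℤ) ^ 3 ∣ (sh W r s t).a₃ ∧ (p : ℤ) ^ 4 ∣ (sh W r s t).a₄ ∧
        (p : ℤ) ^ 6 ∣ (sh W r s t).a₆)) (p ^ 3)) (p ^ 2)) p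

def isPr (p : ℕ) : Bool := frc (isq p) fun r =>
  Nat.blt p ((r + 1) * (r + 1)) && allN (fun i => !dv (Nat.add i 2) p) (r - 1)

/-- trial division from `d` on -/
def fac (n : ℕ) : List ℕ :=
  (Nat.rec (fun _ _ => []) (fun _ ih d m => cond (Nat.ble m 1) []
    (cond (Nat.blt m (Nat.mul d d)) [m] (cond (dv d m)
      (d :: frc (Nat.div m (Nat.gcd m (Nat.pow d 12))) (frc (Nat.add d 2) ih))
      (frc (Nat.add d 2) fun d' => ih d' m)))) 30000 : ℕ → ℕ → List ℕ) 11 n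

def incr (l : List ℕ) : ℕ → Bool := List.rec (fun _ => true) (fun a _ ih x => Nat.blt x a && ih a) l

def prodL (l : List ℕ) : ℕ := List.rec 1 (fun a _ r => Nat.mul a r) l

def facOK (D : ℕ) (l : List ℕ) : Bool :=
  incr l 10 && allL (fun p => dv p D && isPr p) l && dv D (Nat.mul sM (Nat.pow (prodL l) 33))

def fullT (c D : ℕ) (l : List ℕ) : List (ℕ × ℕ) :=
  List.rec (smallT c D) (fun p _ r => (p, typ c D p) :: r) l

def finF (_h : ℕ) (_lv : List (ℕ × ℕ × ℕ)) : Bool := false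

def deep (W : WeierstrassCurve ℤ) (c D : ℕ) : Bool := frc (ub c D) fun u => omB c D u &&
  ((dv 4096 D && dv 16 c && nonMin W 2) || (dv 531441 D && dv 81 c && nonMin W 3) ||
    (!dv D sM && (tree₀ (mkC W D 12) u (exO (cls c D) (klog (bigG c D))) (smallT c D) ||
      tree (mkC W D 30) finF u (exO (cls c D) (klog (bigG c D))) (smallT c D))) ||
    (facOK D (fac (D / Nat.gcd D sM)) &&
      (tree (mkC W D 30) finF u [] (fullT c D (fac (D / Nat.gcd D sM))) ||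
        tree (mkC W D 160) (finT W D u) u [] (fullT c D (fac (D / Nat.gcd D sM))))))

end Pool.Agent.MP_b2c033_nt.UC
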