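import Pool.Agent.MP_b2c033_nt.UC.Chk

/-! The finite check: thresholds and the enumeration of the models. -/

namespace Pool.Agent.MP_b2c033_nt.UC

open U WeierstrassCurve

/-- the thresholds, as digits in base `2 ^ 20` -/
def thrT : ℕ := 0x78801e2401e2400f0c03c3c03c3c00f0c03c3003c3000b4802d2c02d2c0168405a1c05a1c01678059ec059ec00b4802d2002d2001674059dc059dc016600598c0598c00a080282002820013fc04ffc04ffc013f004fc404fc400efc03bfc03bfc01dac076b4076b401d70075c006e8800ef003bc403bc401d5c072b00698001cf4064140581800a040281402814013e804fa804fa8013d004f4804f4800eec03bbc03bbc01d500708c066b401ce4060f00540c00ed403b5c03af401cc005a3c04b9001c14042a0030180078401e1401e1400ef403bdc03bdc00ee803ba003ba000b3802ce402ce40161c0587c05850015e00557c04fd800b2802cac02cac015c8051f404b8401564047580400c009f0027cc027cc0138404e1804bc00133c049200448400ea403a9c03a9c01bf4068ac0624401b0005e740579c00e600373c033f801a9c05988052ec0192004f3404870009e002780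02780013180436003d9c0129c039b00340000e58035c80323801a680556c04ec8018d004ae8044bc00ddc02c90028b80182c045c804124015b803f4803b780078401e1001e1000ef403bd403bd400ee403b9403b9400b3402cdc02cdc016140585405598015d00526c04bd000b2802ca002ca0015bc04e88047040154c042480396c009f0027c8027c80137804d780489c0132c0459803fe800e9c03a7c038c401bc006038057b801ab4052a40491400e50034640304c01a4c04c3c04288018a803ce00324c009dc02774026d40130403f3c03830012800339802c1000e48032cc02e5801a140475003d50018540376402d1000dc4026d4020e80179c02fc002658014a0021600180c0078001e0001e0000ed803b6c03b6c00ebc039d4034a400b2402c9002c90015a4049e4041100152803b94030e000b0802aa0026b001500034b802878014340206c012c4009d80276c02628012f803c8c034c00126802fbc0272800e3c030f002bfc019d80404c03554017fc02ea4023a000db4021ac01a9c0173c025c801b8c011c8015b00472c009b40222001b2c0122002494019d00112c0125c033b400da001cf001518015f801e14013ec00f6003d8c03d8c00b3c010a400c1c00ba002e8002e8000c8803228032280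

def thr (i : ℕ) : ℕ := Nat.mod (Nat.shiftRight thrT (Nat.mul 20 i)) 1048576

def idx (c D j : ℕ) : ℕ := Nat.add (Nat.add (Nat.add (Nat.add (typ c D 2) (Nat.mul 3 (typ c D 3)))
  (Nat.mul 9 (typ c D 5))) (Nat.mul 27 (typ c D 7))) (Nat.mul 81 j)

/-- the check of the threshold number `i` -/
def thrOK (i : ℕ) : Bool :=
  tree (fun _ => []) (cond (Nat.blt i 81) finV finF) (thr i) (exO (i / 81) 0)
    [(7, i / 27 % 3), (5, i / 9 % 3), (3, i / 3 % 3), (2, i % 3)]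

def midT (c D : ℕ) : Bool := frc (cls c D) fun j => frc (thr (idx c D j)) fun v =>
  omB c D (cond (Nat.beq j 3) (frc (klog (bigG c D)) fun k => v * 5 ^ k / 6 ^ k) v)

/-- lower bounds for `2 ^ 16 Ω` -/
def vT (f : ℕ) : ℕ := [81600, 47616, 49600, 42177, 75200, 47616, 49600, 28488, 76864, 47616, 49600, 32088, 75200, 47616, 49600, 25706].getD f 0

/-- the same, if there is a multiplicative prime `≥ 53` and no additive prime `≥ 11` -/
def vM (f : ℕ) : ℕ := [243584, 88960, 166784, 56768, 212992, 76224, 161792, 40448, 243584, 87616, 166784, 45696, 212992, 61056, 123200, 30784].getD f 0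

/-- upper bounds for `c₄` -/
def cM (f : ℕ) : ℕ := [24000, 88500, 80000, 119000, 29000, 88500, 80000, 304000, 27500, 88500, 80000, 229000, 29000, 88500, 80000, 387500].getD f 0

/-- the types number `i` are compatible with the flags number `f` -/
def compat (f i : ℕ) : Bool := (i % 3 != 2 || f % 2 == 1) && (i / 3 % 3 != 2 || f / 2 % 2 == 1) &&
  (i / 9 % 3 != 2 || f / 4 % 2 == 1) && (i / 27 % 3 != 2 || f / 8 % 2 == 1)

/-- a divisor of the discriminant for the types number `i` -/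
def dlt (i : ℕ) : ℕ := cond (i % 3 == 2) 16 1 * cond (i / 3 % 3 == 2) 27 1 *
  cond (i / 9 % 3 == 2) 25 1 * cond (i / 27 % 3 == 2) 49 1

def regOK (f : ℕ) : Bool :=
  Nat.ble 25700 (vT f) && Nat.ble (3400 * dZero (vT f)) (cM f ^ 3) && gT (cM f) (vT f) (cM f ^ 3) &&
  Nat.ble 8 (cM f) && Nat.ble (cM f) 387500 &&
  allN (fun i => !compat f i || (Nat.ble (vT f) (thr i) && Nat.ble (vT f) (thr (i + 81)) &&
    Nat.ble (vT f) (thr (i + 162)) && Nat.ble (vM f) (thr (i + 162)) &&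
    anyN (fun k => Nat.ble (vT f * 6 ^ k) (thr (i + 243) * 5 ^ k) &&
      Nat.ble (1406 ^ 6 * (6 ^ (k + 1) * 2 ^ 16) ^ 6)
        ((thr (i + 243) * 5 ^ (k + 1)) ^ 6 * dlt i * 121 ^ (k + 1) * 10 ^ 12)) 6)) 81

def cell (ng : Bool) (c c3 dm u : ℕ) (W : WeierstrassCurve ℤ) : Bool :=
  frc (Nat.div (cond ng (Nat.add c3 (Nat.pow u 2))
    (frc (Nat.pow u 2) fun q => Nat.add (Nat.sub c3 q) (Nat.sub q c3))) 1728) fun D =>
    Nat.beq D 0 || (Nat.blt dm D && !dv D sM2 && dv (Nat.gcd c D) sM) || midT c D || deep W c D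

/-- the models with `c₆ = σ u`, `lo ≤ u ≤ hi`, in the class `a` modulo `m` -/
def scan (ng : Bool) (c c3 dm lo hi m a : ℕ) (a₁ a₂ a₃ a₄ z σ : ℤ) : Bool :=
  frc (lo + (res (σ * z) 864 + 864 - lo % 864) % 864 + 864 * a) fun u₀ => frc (864 * m) fun st =>
    allN (fun i => frc (Nat.add u₀ (Nat.mul st i)) fun u =>
      cell ng c c3 dm u ⟨a₁, a₂, a₃, a₄, (z - σ * u) / 864⟩) ((hi + st - u₀) / st)

def flag (a₁ a₃ : ℕ) (b₂ b₄ : ℤ) (c : ℕ) : ℕ :=
  cond (Nat.beq (a₁ + a₃) 0) 1 0 + cond (Nat.beq (res b₂ 3 + res b₄ 3) 0) 2 0 +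
    cond (dv 5 c) 4 0 + cond (dv 7 c) 8 0

def rowA (m a a₁ a₃ : ℕ) (a₂ a₄ b₂ b₄ c₄ : ℤ) : Bool :=
  frc c₄.natAbs fun c => frc (flag a₁ a₃ b₂ b₄ c) fun f => frc (c ^ 3) fun c3 =>
    cond (decide (c₄ < 0))
      (frc (dZero (vT f)) fun d => Nat.blt (1728 * d) c3 ||
        frc (dZero (vM f)) fun dm => frc (isq (1728 * d - c3)) fun hi =>
          Nat.blt (1728 * d - c3) ((hi + 1) ^ 2) &&
          scan true c c3 dm 0 hi m a a₁ a₂ a₃ a₄ (-b₂ ^ 3 + 36 * b₂ * b₄ - 216 * a₃ ^ 2) 1 &&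
          scan true c c3 dm 0 hi m a a₁ a₂ a₃ a₄ (-b₂ ^ 3 + 36 * b₂ * b₄ - 216 * a₃ ^ 2) (-1))
      (Nat.ble (cM f) c || frc (dB c (vT f)) fun d => frc (dB c (vM f)) fun dm =>
        frc (isq (c3 + 1728 * d)) fun hi => frc (isq (c3 - 1728 * d)) fun lo =>
          Nat.blt (c3 + 1728 * d) ((hi + 1) ^ 2) && Nat.ble (lo ^ 2) (c3 - 1728 * d) &&
          scan false c c3 dm lo hi m a a₁ a₂ a₃ a₄ (-b₂ ^ 3 + 36 * b₂ * b₄ - 216 * a₃ ^ 2) 1 &&
          scan false c c3 dm lo hi m a a₁ a₂ a₃ a₄ (-b₂ ^ 3 + 36 * b₂ * b₄ - 216 * a₃ ^ 2) (-1))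

def rowB (m a a₁ a₃ : ℕ) (a₂ a₄ : ℤ) : Bool :=
  rowA m a a₁ a₃ a₂ a₄ (a₁ ^ 2 + 4 * a₂) (2 * a₄ + a₁ * a₃)
    ((a₁ ^ 2 + 4 * a₂) ^ 2 - 24 * (2 * a₄ + a₁ * a₃))

/-- the models with `a₁ = r % 2`, `a₃ = r / 2 % 2`, `a₂ = r / 4 % 3 - 1`, `a₄ = 340 - r / 12` -/
def row (m a r : ℕ) : Bool := frc (r % 2) fun a₁ => frc (r / 2 % 2) fun a₃ =>
  rowB m a a₁ a₃ (Int.subNatNat (r / 4 % 3) 1) (Int.subNatNat 340 (r / 12))

/-- the rows `r₀, …, r₀ + n - 1` -/
def rows (m a r₀ n : ℕ) : Bool := allN (fun i => frc (Nat.add r₀ i) (row m a)) n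

end Pool.Agent.MP_b2c033_nt.UC
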