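import Mathlib

/-! No integral model has discriminant `1` or `-1`. -/

namespace Pool.Agent.MP_b2c033_nt.U

theorem no_sq {u Q y : ℤ} (hu : u % 8 = 5) (hQ : 0 < Q) (hd : ∃ k, Q = u * k + 432)
    (h : u * Q = y ^ 2) : False := by
  have hu0 : 0 < u := by
    rcases lt_trichotomy u 0 with h1 | h1 | h1
    · nlinarith [sq_nonneg y]
    · omega
    · exact h1
  obtain ⟨g, u', Q', hg, hc, e1, e2⟩ :=
    Int.exists_gcd_one' (m := u) (n := Q) (Int.gcd_pos_of_ne_zero_left _ hu0.ne')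
  have hg' : (g : ℤ) ≠ 0 := by exact_mod_cast hg.ne'
  obtain ⟨k, hk⟩ := hd
  have h1 : (g : ℤ) ∣ 432 := ⟨Q' - u' * k, by rw [e1, e2] at hk; linear_combination -hk⟩
  have h2 : (g : ℤ) ^ 2 ∣ y ^ 2 := ⟨u' * Q', by rw [← h, e1, e2]; ring⟩
  obtain ⟨z, rfl⟩ := (Int.pow_dvd_pow_iff two_ne_zero).1 h2
  have h3 : u' * Q' = z ^ 2 := by
    refine mul_left_cancel₀ (pow_ne_zero 2 hg') ?_
    rw [e1, e2] at h
    linear_combination h
  have h4 : g ∣ 432 := by exact_mod_cast h1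
  have h5 : g % 8 = 1 ∨ g % 8 = 3 ∨ g % 2 = 0 := by
    have := Nat.mem_divisors.2 ⟨h4, by norm_num⟩
    revert this
    generalize g = x
    revert x
    decide +kernel
  obtain ⟨a, ha | ha⟩ := Int.sq_of_gcd_eq_one hc h3
  · have h6 : a ^ 2 % 8 = 0 ∨ a ^ 2 % 8 = 1 ∨ a ^ 2 % 8 = 4 := by
      have : a % 8 = 0 ∨ a % 8 = 1 ∨ a % 8 = 2 ∨ a % 8 = 3 ∨ a % 8 = 4 ∨ a % 8 = 5 ∨ a % 8 = 6 ∨
        a % 8 = 7 := by omega
      rcases this with h | h | h | h | h | h | h | h <;> simp [pow_two, Int.mul_emod, h]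
    rw [e1, ha, Int.mul_emod] at hu
    have h7 : (g : ℤ) % 8 = 0 ∨ (g : ℤ) % 8 = 1 ∨ (g : ℤ) % 8 = 2 ∨ (g : ℤ) % 8 = 3 ∨
      (g : ℤ) % 8 = 4 ∨ (g : ℤ) % 8 = 6 := by omega
    rcases h6 with h6 | h6 | h6 <;> rcases h7 with h7 | h7 | h7 | h7 | h7 | h7 <;>
      rw [h6, h7] at hu <;> omega
  · have h6 : (0 : ℤ) < g := by exact_mod_cast hg
    rw [e1, ha] at hu0
    nlinarith [sq_nonneg a]

theorem natAbs_ne_one (W : WeierstrassCurve ℤ) : W.Δ.natAbs ≠ 1 := by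
  intro h
  rcases Int.even_or_odd' W.a₁ with ⟨k, hk | hk⟩
  · obtain ⟨m, hm⟩ : ∃ m, W.Δ = 8 * m - 27 * (W.b₆ * W.b₆) :=
      ⟨-2 * (k ^ 2 + W.a₂) ^ 2 * W.b₈ - W.b₄ ^ 3 + 9 * (k ^ 2 + W.a₂) * (W.a₄ + k * W.a₃) * W.b₆, by
        simp only [WeierstrassCurve.Δ, WeierstrassCurve.b₂, WeierstrassCurve.b₄, hk]
        ring⟩
    rcases Int.even_or_odd' W.b₆ with ⟨l, hl | hl⟩
    · have : W.b₆ * W.b₆ = 4 * (l * l) := by rw [hl]; ring
      omega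
    · obtain ⟨r, hr⟩ := Int.even_mul_succ_self l
      have : W.b₆ * W.b₆ = 8 * r + 1 := by rw [hl]; linear_combination 4 * hr
      omega
  · obtain ⟨r, hr⟩ := Int.even_mul_succ_self (k ^ 2 + k + W.a₂ + (k ^ 2 + k + W.a₂))
    have h4 : W.c₄ = 8 * (r - 3 * W.b₄) + 1 := by
      simp only [WeierstrassCurve.c₄, WeierstrassCurve.b₂, hk]
      linear_combination 4 * hr
    have hc := W.c_relation
    have h1 : W.Δ = 1 ∨ W.Δ = -1 := by omega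
    rcases h1 with h1 | h1
    · exact no_sq (u := W.c₄ - 12) (Q := (W.c₄ + 6) ^ 2 + 108) (y := W.c₆) (by omega)
        (by positivity) ⟨W.c₄ + 24, by ring⟩ (by rw [h1] at hc; linear_combination -hc)
    · exact no_sq (u := W.c₄ + 12) (Q := (W.c₄ - 6) ^ 2 + 108) (y := W.c₆) (by omega)
        (by positivity) ⟨W.c₄ - 24, by ring⟩ (by rw [h1] at hc; linear_combination -hc)

end Pool.Agent.MP_b2c033_nt.U
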