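import Pool.Agent.MP_b2c033_nt.UC.Enum
import Pool.Agent.MP_b2c033_nt.UC.Tate1
import Pool.Agent.MP_b2c033_nt.UC.CSpec

/-! The classes of models that are enumerated. -/

namespace Pool.Agent.MP_b2c033_nt.U

/-- the test is skipped unless `q` divides the discriminant -/
def sk (q : ℕ) (t : Tst) : Tst := fun a₄ C a₆ y d =>
  Bool.rec true (t a₄ C a₆ y d) (Nat.beq (Nat.mod d q) (nat_lit 0))

lemma sk_at {q : ℕ} {t : Tst} {W : WeierstrassCurve ℤ} (h : (sk q t).at W = true)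
    (hq : (q : ℤ) ∣ W.Δ) : t.at W = true := by
  have h1 : Nat.beq (W.Δ.natAbs % q) 0 = true := by
    rw [Nat.mod_eq_zero_of_dvd (Int.natCast_dvd.1 hq)]; rfl
  have h2 : (Bool.rec true (t.at W) (Nat.beq (W.Δ.natAbs % q) 0) : Bool) = true := h
  rwa [h1] at h2

/-- the covering statements for a test `t a₁ a₂ a₃` -/
structure Covs (t : ℤ → ℤ → ℤ → Tst) : Prop where
  c0 : Cov 0 (-1) 1 (-630) 1 2194972623 (t 0 (-1) 1) 0 669
  c1 : Cov 0 0 1 (-630) 1 2194972623 (t 0 0 1) 0 669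
  c2 : Cov 0 1 1 (-630) 1 2194972623 (t 0 1 1) 0 669
  c3 : Cov 1 (-1) 0 (-630) 1 2194972623 (t 1 (-1) 0) 0 669
  c4 : Cov 1 (-1) 1 (-630) 1 2194972623 (t 1 (-1) 1) 0 669
  c5 : Cov 1 0 0 (-630) 1 2194972623 (t 1 0 0) 0 669
  c6 : Cov 1 0 1 (-630) 1 2194972623 (t 1 0 1) 0 669
  c7 : Cov 1 1 0 (-630) 1 2194972623 (t 1 1 0) 0 669
  c8 : Cov 1 1 1 (-630) 1 2194972623 (t 1 1 1) 0 669
  c9 : Cov 0 0 1 (-1710) 3 177978515 (t 0 0 1) 0 600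
  c10 : Cov 1 (-1) 0 (-1710) 3 177978515 (t 1 (-1) 0) 0 600
  c11 : Cov 1 (-1) 1 (-1709) 3 177978515 (t 1 (-1) 1) 0 600
  c12 : Cov 0 (-1) 0 (-1890) 1 139314069 (t 0 (-1) 0) 0 1986
  c13 : Cov 0 0 0 (-1890) 1 139314069 (t 0 0 0) 0 1986
  c14 : Cov 0 1 0 (-1890) 1 139314069 (t 0 1 0) 0 1986
  c15 : Cov 0 0 0 (-2430) 3 75418890 (t 0 0 0) 0 849
  c16 : Cov 0 0 0 (-4746) 21 13841287 (sk (nat_lit 49) (t 0 0 0)) 0 236
  c17 : Cov 0 0 0 (-8160) 15 3518743 (sk (nat_lit 25) (t 0 0 0)) 0 566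

lemma w_le {w : ℕ} {x Ω : ℝ} (h0 : 0 ≤ x) (h : x ≤ Ω) (hw : w ≤ 10 ^ 9 * x ^ 6) :
    w ≤ 10 ^ 9 * Ω ^ 6 :=
  hw.trans (mul_le_mul_of_nonneg_left (pow_le_pow_left₀ h0 h 6) (by norm_num))

theorem enum_all {t : ℤ → ℤ → ℤ → Tst} (hSt : C_St) (hT : C_Thr) (h : Covs t)
    {W : WeierstrassCurve ℤ} {Ω ρ : ℝ} {N : ℕ} {b : ℕ → ℤ} (hs : Sit W Ω ρ N b) :
    (t W.a₁ W.a₂ W.a₃).at W = true := by
  obtain ⟨t1, t2, t3, t4, t5, t6⟩ := hT W Ω ρ N b hs (natAbs_ne_one W)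
  have s2 := (hSt W Ω ρ N b hs 2 Nat.prime_two).2.2.2.2.2.1
  have s3 := (hSt W Ω ρ N b hs 2 Nat.prime_two).2.2.2.2.2.2
  have s5 := (hSt W Ω ρ N b hs 5 (by norm_num)).2.2.2.2.1
  have s7 := (hSt W Ω ρ N b hs 7 (by norm_num)).2.2.2.2.1
  have cl : ∀ {a₁ a₂ a₃ : ℤ} {w : ℕ} (x : ℝ), W.a₁ = a₁ → W.a₂ = a₂ → W.a₃ = a₃ → 0 ≤ x →
      x ≤ Ω → 0 < w → w ≤ 10 ^ 9 * x ^ 6 → Cls a₁ a₂ a₃ w W Ω :=
    fun x e₁ e₂ e₃ h0 h1 h2 h3 => ⟨e₁, e₂, e₃, hs.red.ne, hs.vol, h2, w_le h0 h1 h3⟩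
  have hb₂ : W.b₂ = W.a₁ * W.a₁ + 4 * W.a₂ := by rw [WeierstrassCurve.b₂, sq]
  have hb₄ : W.b₄ = 2 * W.a₄ + W.a₁ * W.a₃ := rfl
  have hc₄ := c4Z_eq W
  by_cases h2 : Ad W 2
  · obtain ⟨e₁, e₃, -⟩ := s2 h2
    by_cases h3 : Ad W 3
    · obtain ⟨d₂, d₄, -⟩ := s3 h3
      rw [hb₂, e₁] at d₂
      rw [hb₄, e₁] at d₄
      have e₂ : W.a₂ = 0 := by have := hs.red.a₂; omega
      rw [e₁, e₂, e₃] at hc₄ ⊢
      simp only [c4Z] at hc₄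
      by_cases h5 : Ad W 5
      · have := h5.2
        exact sk_at (h.c17.all (by decide +kernel) (cl 0.39 e₁ e₂ e₃ (by norm_num) t4
          (by norm_num) (by norm_num)) (by push_cast at this ⊢; omega)) (s5 h5 le_rfl)
      by_cases h7 : Ad W 7
      · have := h7.2
        exact sk_at (h.c16.all (by decide +kernel) (cl 0.49 e₁ e₂ e₃ (by norm_num) (t5 h5)
          (by norm_num) (by norm_num)) (by push_cast at this ⊢; omega)) (s7 h7 (by norm_num))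
      · exact h.c15.all (by decide +kernel) (cl 0.65 e₁ e₂ e₃ (by norm_num) (t6 h5 h7)
          (by norm_num) (by norm_num)) (by push_cast; omega)
    · have k : ∀ {a₂ : ℤ}, W.a₂ = a₂ → Cls 0 a₂ 0 139314069 W Ω := fun e₂ =>
        cl 0.72 e₁ e₂ e₃ (by norm_num) (t3 h3) (by norm_num) (by norm_num)
      rcases hs.red.a₂ with e₂ | e₂ | e₂ <;> rw [e₁, e₂, e₃]
      · exact h.c12.all (by decide +kernel) (k e₂) (one_dvd _)
      · exact h.c13.all (by decide +kernel) (k e₂) (one_dvd _)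
      · exact h.c14.all (by decide +kernel) (k e₂) (one_dvd _)
  · have hn : W.a₁ = 0 → W.a₃ = 0 → False := fun e₁ e₃ => h2 ⟨⟨-8 * W.a₂ ^ 2 * W.b₈ -
        4 * W.b₄ ^ 3 - 216 * W.a₆ ^ 2 + 72 * W.a₂ * W.b₄ * W.a₆, by
          simp only [WeierstrassCurve.Δ, WeierstrassCurve.b₂, WeierstrassCurve.b₆, e₁, e₃]
          push_cast
          ring⟩, ⟨8 * W.a₂ ^ 2 - 12 * W.b₄, by
          simp only [WeierstrassCurve.c₄, WeierstrassCurve.b₂, e₁]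
          push_cast
          ring⟩⟩
    by_cases h3 : Ad W 3
    · obtain ⟨d₂, d₄, -⟩ := s3 h3
      have k : ∀ {a₁ a₂ a₃ : ℤ}, W.a₁ = a₁ → W.a₂ = a₂ → W.a₃ = a₃ →
          Cls a₁ a₂ a₃ 177978515 W Ω := fun e₁ e₂ e₃ =>
        cl 0.75 e₁ e₂ e₃ (by norm_num) (t2 h2) (by norm_num) (by norm_num)
      rw [hb₂] at d₂
      rw [hb₄] at d₄
      rcases hs.red.a₁ with e₁ | e₁ <;> rcases hs.red.a₃ with e₃ | e₃
      · exact (hn e₁ e₃).elim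
      all_goals rw [e₁] at d₂; rw [e₁, e₃] at d₄
      · have e₂ : W.a₂ = 0 := by have := hs.red.a₂; omega
        rw [e₁, e₂, e₃]
        exact h.c9.all (by decide +kernel) (k e₁ e₂ e₃) (by push_cast; omega)
      · have e₂ : W.a₂ = -1 := by have := hs.red.a₂; omega
        rw [e₁, e₂, e₃]
        exact h.c10.all (by decide +kernel) (k e₁ e₂ e₃) (by push_cast; omega)
      · have e₂ : W.a₂ = -1 := by have := hs.red.a₂; omega
        rw [e₁, e₂, e₃]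
        exact h.c11.all (by decide +kernel) (k e₁ e₂ e₃) (by push_cast; omega)
    · have k : ∀ {a₁ a₂ a₃ : ℤ}, W.a₁ = a₁ → W.a₂ = a₂ → W.a₃ = a₃ →
          Cls a₁ a₂ a₃ 2194972623 W Ω := fun e₁ e₂ e₃ =>
        cl 1.14 e₁ e₂ e₃ (by norm_num) (t1 h2 h3) (by norm_num) (by norm_num)
      rcases hs.red.a₁ with e₁ | e₁ <;> rcases hs.red.a₃ with e₃ | e₃
      · exact (hn e₁ e₃).elim
      all_goals rcases hs.red.a₂ with e₂ | e₂ | e₂ <;> rw [e₁, e₂, e₃]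
      · exact h.c0.all (by decide +kernel) (k e₁ e₂ e₃) (one_dvd _)
      · exact h.c1.all (by decide +kernel) (k e₁ e₂ e₃) (one_dvd _)
      · exact h.c2.all (by decide +kernel) (k e₁ e₂ e₃) (one_dvd _)
      · exact h.c3.all (by decide +kernel) (k e₁ e₂ e₃) (one_dvd _)
      · exact h.c5.all (by decide +kernel) (k e₁ e₂ e₃) (one_dvd _)
      · exact h.c7.all (by decide +kernel) (k e₁ e₂ e₃) (one_dvd _)
      · exact h.c4.all (by decide +kernel) (k e₁ e₂ e₃) (one_dvd _)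
      · exact h.c6.all (by decide +kernel) (k e₁ e₂ e₃) (one_dvd _)
      · exact h.c8.all (by decide +kernel) (k e₁ e₂ e₃) (one_dvd _)

end Pool.Agent.MP_b2c033_nt.U
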