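import Pool.Agent.MP_b2c033_nt.UC.EnAll

/-! The classes of models that are enumerated, without repetition. -/

namespace Pool.Agent.MP_b2c033_nt.U

/-- the test is skipped if `5` or `7` is additive -/
def skA (t : Tst) : Tst := fun a₄ C a₆ y d =>
  Bool.rec true (t a₄ C a₆ y d) (Nat.beq (Nat.gcd (Nat.gcd C d) (nat_lit 35)) (nat_lit 1))

lemma skA_at {t : Tst} {W : WeierstrassCurve ℤ} (h : (skA t).at W = true) (h5 : ¬ Ad W 5)
    (h7 : ¬ Ad W 7) : t.at W = true := by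
  have k : ∀ p : ℕ, p.Prime → ¬ Ad W p → (Nat.gcd W.c₄.natAbs W.Δ.natAbs).Coprime p :=
    fun p hp hn => (hp.coprime_iff_not_dvd.2 fun hd => hn
      ⟨Int.natCast_dvd.2 (hd.trans (Nat.gcd_dvd_right _ _)),
        Int.natCast_dvd.2 (hd.trans (Nat.gcd_dvd_left _ _))⟩).symm
  have h0 : Nat.gcd (Nat.gcd W.c₄.natAbs W.Δ.natAbs) 35 = 1 :=
    Nat.Coprime.mul_right (k 5 (by norm_num) h5) (k 7 (by norm_num) h7)
  have h2 : (Bool.rec true (t.at W)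
    (Nat.beq (Nat.gcd (Nat.gcd W.c₄.natAbs W.Δ.natAbs) 35) 1) : Bool) = true := h
  rwa [h0] at h2

lemma ad_three {W : WeierstrassCurve ℤ} (h₂ : 3 ∣ W.b₂) (h₄ : 3 ∣ W.b₄) : Ad W 3 := by
  obtain ⟨x, hx⟩ := h₂
  obtain ⟨y, hy⟩ := h₄
  exact ⟨⟨-3 * x ^ 2 * W.b₈ - 72 * y ^ 3 - 9 * W.b₆ ^ 2 + 27 * x * y * W.b₆, by
    rw [WeierstrassCurve.Δ, hx, hy]; push_cast; ring⟩,
    ⟨3 * x ^ 2 - 8 * W.b₄, by rw [WeierstrassCurve.c₄, hx]; push_cast; ring⟩⟩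

/-- the covering statements for a test `t a₁ a₂ a₃` -/
structure Covs2 (t : ℤ → ℤ → ℤ → Tst) : Prop where
  c0 : Cov 0 (-1) 1 (-630) 1 2194972623 (t 0 (-1) 1) 0 669
  c1 : Cov 0 0 1 (-632) 3 2194972623 (t 0 0 1) 0 224
  c2 : Cov 0 1 1 (-630) 1 2194972623 (t 0 1 1) 0 669
  c3 : Cov 1 (-1) 0 (-632) 3 2194972623 (t 1 (-1) 0) 0 224
  c4 : Cov 1 (-1) 1 (-630) 3 2194972623 (t 1 (-1) 1) 0 224
  c5 : Cov 1 0 0 (-630) 1 2194972623 (t 1 0 0) 0 669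
  c6 : Cov 1 0 1 (-630) 1 2194972623 (t 1 0 1) 0 669
  c7 : Cov 1 1 0 (-630) 1 2194972623 (t 1 1 0) 0 669
  c8 : Cov 1 1 1 (-630) 1 2194972623 (t 1 1 1) 0 669
  c9 : Cov 0 0 1 (-1710) 3 177978515 (t 0 0 1) 0 600
  c10 : Cov 1 (-1) 0 (-1710) 3 177978515 (t 1 (-1) 0) 0 600
  c11 : Cov 1 (-1) 1 (-1709) 3 177978515 (t 1 (-1) 1) 0 600
  c12 : Cov 0 (-1) 0 (-1890) 1 139314069 (t 0 (-1) 0) 0 1986
  c13 : Cov 0 0 0 (-1889) 3 139314069 (t 0 0 0) 0 662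
  c14 : Cov 0 1 0 (-1890) 1 139314069 (t 0 1 0) 0 1986
  c15 : Cov 0 0 0 (-2430) 3 75418890 (skA (t 0 0 0)) 0 849
  c16 : Cov 0 0 0 (-4746) 21 13841287 (sk (nat_lit 49) (t 0 0 0)) 0 236
  c17 : Cov 0 0 0 (-8160) 15 3518743 (sk (nat_lit 25) (t 0 0 0)) 0 566
  c18 : Cov 0 0 1 (-631) 3 2194972623 (t 0 0 1) 0 224
  c19 : Cov 1 (-1) 0 (-631) 3 2194972623 (t 1 (-1) 0) 0 224
  c20 : Cov 1 (-1) 1 (-631) 3 2194972623 (t 1 (-1) 1) 0 224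
  c21 : Cov 0 0 0 (-1888) 3 139314069 (t 0 0 0) 0 662

theorem enum_all2 {t : ℤ → ℤ → ℤ → Tst} (hSt : C_St) (hT : C_Thr) (h : Covs2 t)
    {W : WeierstrassCurve ℤ} {Ω ρ : ℝ} {N : ℕ} {b : ℕ → ℤ} (hs : Sit W Ω ρ N b) :
    (t W.a₁ W.a₂ W.a₃).at W = true := by
  obtain ⟨t1, t2, t3, t4, t5, t6⟩ := hT W Ω ρ N b hs (natAbs_ne_one W)
  have s2 := (hSt W Ω ρ N b hs 2 Nat.prime_two).2.2.2.2.2.1
  have s3 := (hSt W Ω ρ N b hs 2 Nat.prime_two).2.2.2.2.2.2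
  have s5 := (hSt W Ω ρ N b hs 5 (by norm_num)).2.2.2.2.1
  have s7 := (hSt W Ω ρ N b hs 7 (by norm_num)).2.2.2.2.1
  have cl : ∀ {a₁ a₂ a₃ : ℤ} {w : ℕ} (x : ℝ), W.a₁ = a₁ → W.a₂ = a₂ → W.a₃ = a₃ → 0 ≤ x →
      x ≤ Ω → 0 < w → w ≤ 10 ^ 9 * x ^ 6 → Cls a₁ a₂ a₃ w W Ω :=
    fun x e₁ e₂ e₃ h0 h1 h2 h3 => ⟨e₁, e₂, e₃, hs.red.ne, hs.vol, h2, w_le h0 h1 h3⟩
  have hb₂ : W.b₂ = W.a₁ * W.a₁ + 4 * W.a₂ := by rw [WeierstrassCurve.b₂, sq]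
  have hb₄ : W.b₄ = 2 * W.a₄ + W.a₁ * W.a₃ := rfl
  have hc₄ := c4Z_eq W
  have m3 : W.a₄ % 3 = 0 ∨ W.a₄ % 3 = 1 ∨ W.a₄ % 3 = 2 := by omega
  by_cases h2 : Ad W 2
  · obtain ⟨e₁, e₃, -⟩ := s2 h2
    by_cases h3 : Ad W 3
    · obtain ⟨d₂, d₄, -⟩ := s3 h3
      rw [hb₂, e₁] at d₂
      rw [hb₄, e₁] at d₄
      have e₂ : W.a₂ = 0 := by have := hs.red.a₂; omega
      rw [e₁, e₂, e₃] at hc₄ ⊢
      simp only [c4Z] at hc₄
      by_cases h5 : Ad W 5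
      · have := h5.2
        exact sk_at (h.c17.all (by decide +kernel) (cl 0.39 e₁ e₂ e₃ (by norm_num) t4
          (by norm_num) (by norm_num)) (by push_cast at this ⊢; omega)) (s5 h5 le_rfl)
      by_cases h7 : Ad W 7
      · have := h7.2
        exact sk_at (h.c16.all (by decide +kernel) (cl 0.49 e₁ e₂ e₃ (by norm_num) (t5 h5)
          (by norm_num) (by norm_num)) (by push_cast at this ⊢; omega)) (s7 h7 (by norm_num))
      · exact skA_at (h.c15.all (by decide +kernel) (cl 0.65 e₁ e₂ e₃ (by norm_num) (t6 h5 h7)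
          (by norm_num) (by norm_num)) (by push_cast; omega)) h5 h7
    · have k : ∀ {a₂ : ℤ}, W.a₂ = a₂ → Cls 0 a₂ 0 139314069 W Ω := fun e₂ =>
        cl 0.72 e₁ e₂ e₃ (by norm_num) (t3 h3) (by norm_num) (by norm_num)
      rcases hs.red.a₂ with e₂ | e₂ | e₂ <;> rw [e₁, e₂, e₃]
      · exact h.c12.all (by decide +kernel) (k e₂) (one_dvd _)
      · have n3 : ¬ (3 : ℤ) ∣ W.b₄ := fun h4 => h3 (ad_three (by rw [hb₂, e₁, e₂]; norm_num) h4)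
        rw [hb₄, e₁, e₃] at n3
        by_cases h4 : (3 : ℤ) ∣ W.a₄ - (-1889)
        · exact h.c13.all (by decide +kernel) (k e₂) h4
        · exact h.c21.all (by decide +kernel) (k e₂)
            (by push_cast; rcases m3 with m | m | m <;> omega)
      · exact h.c14.all (by decide +kernel) (k e₂) (one_dvd _)
  · have hn : W.a₁ = 0 → W.a₃ = 0 → False := fun e₁ e₃ => h2 ⟨⟨-8 * W.a₂ ^ 2 * W.b₈ -
        4 * W.b₄ ^ 3 - 216 * W.a₆ ^ 2 + 72 * W.a₂ * W.b₄ * W.a₆, by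
          simp only [WeierstrassCurve.Δ, WeierstrassCurve.b₂, WeierstrassCurve.b₆, e₁, e₃]
          push_cast
          ring⟩, ⟨8 * W.a₂ ^ 2 - 12 * W.b₄, by
          simp only [WeierstrassCurve.c₄, WeierstrassCurve.b₂, e₁]
          push_cast
          ring⟩⟩
    by_cases h3 : Ad W 3
    · obtain ⟨d₂, d₄, -⟩ := s3 h3
      have k : ∀ {a₁ a₂ a₃ : ℤ}, W.a₁ = a₁ → W.a₂ = a₂ → W.a₃ = a₃ →
          Cls a₁ a₂ a₃ 177978515 W Ω := fun e₁ e₂ e₃ =>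
        cl 0.75 e₁ e₂ e₃ (by norm_num) (t2 h2) (by norm_num) (by norm_num)
      rw [hb₂] at d₂
      rw [hb₄] at d₄
      rcases hs.red.a₁ with e₁ | e₁ <;> rcases hs.red.a₃ with e₃ | e₃
      · exact (hn e₁ e₃).elim
      all_goals rw [e₁] at d₂; rw [e₁, e₃] at d₄
      · have e₂ : W.a₂ = 0 := by have := hs.red.a₂; omega
        rw [e₁, e₂, e₃]
        exact h.c9.all (by decide +kernel) (k e₁ e₂ e₃) (by push_cast; omega)
      · have e₂ : W.a₂ = -1 := by have := hs.red.a₂; omega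
        rw [e₁, e₂, e₃]
        exact h.c10.all (by decide +kernel) (k e₁ e₂ e₃) (by push_cast; omega)
      · have e₂ : W.a₂ = -1 := by have := hs.red.a₂; omega
        rw [e₁, e₂, e₃]
        exact h.c11.all (by decide +kernel) (k e₁ e₂ e₃) (by push_cast; omega)
    · have k : ∀ {a₁ a₂ a₃ : ℤ}, W.a₁ = a₁ → W.a₂ = a₂ → W.a₃ = a₃ →
          Cls a₁ a₂ a₃ 2194972623 W Ω := fun e₁ e₂ e₃ =>
        cl 1.14 e₁ e₂ e₃ (by norm_num) (t1 h2 h3) (by norm_num) (by norm_num)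
      rcases hs.red.a₁ with e₁ | e₁ <;> rcases hs.red.a₃ with e₃ | e₃
      · exact (hn e₁ e₃).elim
      all_goals rcases hs.red.a₂ with e₂ | e₂ | e₂ <;> rw [e₁, e₂, e₃]
      · exact h.c0.all (by decide +kernel) (k e₁ e₂ e₃) (one_dvd _)
      · have n3 : ¬ (3 : ℤ) ∣ W.b₄ := fun h4 => h3 (ad_three (by rw [hb₂, e₁, e₂]; norm_num) h4)
        rw [hb₄, e₁, e₃] at n3
        by_cases h4 : (3 : ℤ) ∣ W.a₄ - (-632)
        · exact h.c1.all (by decide +kernel) (k e₁ e₂ e₃) h4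
        · exact h.c18.all (by decide +kernel) (k e₁ e₂ e₃)
            (by push_cast; rcases m3 with m | m | m <;> omega)
      · exact h.c2.all (by decide +kernel) (k e₁ e₂ e₃) (one_dvd _)
      · have n3 : ¬ (3 : ℤ) ∣ W.b₄ := fun h4 => h3 (ad_three (by rw [hb₂, e₁, e₂]; norm_num) h4)
        rw [hb₄, e₁, e₃] at n3
        by_cases h4 : (3 : ℤ) ∣ W.a₄ - (-632)
        · exact h.c3.all (by decide +kernel) (k e₁ e₂ e₃) h4
        · exact h.c19.all (by decide +kernel) (k e₁ e₂ e₃)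
            (by push_cast; rcases m3 with m | m | m <;> omega)
      · exact h.c5.all (by decide +kernel) (k e₁ e₂ e₃) (one_dvd _)
      · exact h.c7.all (by decide +kernel) (k e₁ e₂ e₃) (one_dvd _)
      · have n3 : ¬ (3 : ℤ) ∣ W.b₄ := fun h4 => h3 (ad_three (by rw [hb₂, e₁, e₂]; norm_num) h4)
        rw [hb₄, e₁, e₃] at n3
        by_cases h4 : (3 : ℤ) ∣ W.a₄ - (-630)
        · exact h.c4.all (by decide +kernel) (k e₁ e₂ e₃) h4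
        · exact h.c20.all (by decide +kernel) (k e₁ e₂ e₃)
            (by push_cast; rcases m3 with m | m | m <;> omega)
      · exact h.c6.all (by decide +kernel) (k e₁ e₂ e₃) (one_dvd _)
      · exact h.c8.all (by decide +kernel) (k e₁ e₂ e₃) (one_dvd _)

open Classical

/-- the conclusion under the hypothesis `H`, as a test -/
noncomputable def tG (H : Prop) (R : WeierstrassCurve ℤ → ℕ → Prop) (a₁ a₂ a₃ : ℤ) : Tst :=
  fun a₄ _ a₆ _ _ =>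
    decide (H → ∀ Ω ρ N b, Sit ⟨a₁, a₂, a₃, a₄, a₆⟩ Ω ρ N b → R ⟨a₁, a₂, a₃, a₄, a₆⟩ N)

/-- the filter `f` is sound under the hypothesis `H` -/
def Snd (H : Prop) (R : WeierstrassCurve ℤ → ℕ → Prop) (f : ℤ → ℤ → ℤ → Tst) : Prop :=
  H → ∀ W Ω ρ N b, Sit W Ω ρ N b → (f W.a₁ W.a₂ W.a₃).at W = true → R W N

variable {H : Prop} {R : WeierstrassCurve ℤ → ℕ → Prop} {f : ℤ → ℤ → ℤ → Tst} {a₁ a₂ a₃ s : ℤ}
  {m w : ℕ}

lemma Snd.at (hf : Snd H R f) {W : WeierstrassCurve ℤ} {Ω : ℝ} (hc : Cls a₁ a₂ a₃ w W Ω)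
    (h : (f a₁ a₂ a₃).at W = true) : (tG H R a₁ a₂ a₃).at W = true := by
  rw [← hc.e₁, ← hc.e₂, ← hc.e₃] at h ⊢
  unfold Tst.at tG
  exact decide_eq_true fun hH Ω ρ N b hs => hf hH W Ω ρ N b hs h

lemma rec_imp {c x y : Bool} (h : (Bool.rec true x c : Bool) = true) (k : x = true → y = true) :
    (Bool.rec true y c : Bool) = true := by
  cases c
  exacts [rfl, k h]

theorem Snd.cov (hf : Snd H R f) (lo n : ℕ)
    (h : chunk a₁ a₂ a₃ s m w (f a₁ a₂ a₃) lo n = true) :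
    Cov a₁ a₂ a₃ s m w (tG H R a₁ a₂ a₃) lo (lo + n) := fun W Ω j hc hj h1 h2 =>
  hf.at hc (cov_chunk h W Ω j hc hj h1 h2)

theorem Snd.covK (hf : Snd H R f) (q lo n : ℕ)
    (h : chunk a₁ a₂ a₃ s m w (sk q (f a₁ a₂ a₃)) lo n = true) :
    Cov a₁ a₂ a₃ s m w (sk q (tG H R a₁ a₂ a₃)) lo (lo + n) := fun W Ω j hc hj h1 h2 =>
  rec_imp (cov_chunk h W Ω j hc hj h1 h2) (hf.at hc)

theorem Snd.covA (hf : Snd H R f) (lo n : ℕ)
    (h : chunk a₁ a₂ a₃ s m w (skA (f a₁ a₂ a₃)) lo n = true) :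
    Cov a₁ a₂ a₃ s m w (skA (tG H R a₁ a₂ a₃)) lo (lo + n) := fun W Ω j hc hj h1 h2 =>
  rec_imp (cov_chunk h W Ω j hc hj h1 h2) (hf.at hc)

theorem res_of_covs2 (hSt : C_St) (hT : C_Thr) (hH : H) (h : Covs2 (tG H R))
    {W : WeierstrassCurve ℤ} {Ω ρ : ℝ} {N : ℕ} {b : ℕ → ℤ} (hs : Sit W Ω ρ N b) : R W N := by
  have := enum_all2 hSt hT h hs
  unfold Tst.at tG at this
  exact of_decide_eq_true this hH Ω ρ N b hs

end Pool.Agent.MP_b2c033_nt.U
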