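import Pool.Agent.MP_b2c033_nt.UC.FeK

/-! Enumeration of the models with large covolume. -/

namespace Pool.Agent.MP_b2c033_nt.U

open scoped Real

/-- evaluate the integer `a` before it is used -/
def forceZ {α : Type} (a : ℤ) (k : ℤ → α) : α :=
  match a with
  | .ofNat n => force n fun m => k (.ofNat m)
  | .negSucc n => force n fun m => k (.negSucc m)

@[simp] lemma forceZ_eq {α : Type} (a : ℤ) (k : ℤ → α) : forceZ a k = k a := by
  cases a <;> simp [forceZ]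

/-- `g j` for all `j < n` -/
def loopB (g : ℕ → Bool) (n : ℕ) : Bool :=
  Nat.rec true (fun j ih => Bool.rec false ih (g j)) n

lemma loopB_sound {g : ℕ → Bool} : ∀ {n : ℕ}, loopB g n = true → ∀ j < n, g j = true
  | 0, _, _, hj => absurd hj (Nat.not_lt_zero _)
  | n + 1, h, j, hj => by
    have h' : (Bool.rec false (loopB g n) (g n) : Bool) = true := h
    cases hg : g n with
    | false => rw [hg] at h'; exact absurd h' (by simp)
    | true =>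
      rw [hg] at h'
      rcases Nat.lt_succ_iff_lt_or_eq.1 hj with h1 | rfl
      · exact loopB_sound h' j h1
      · exact hg

/-- a bound for `10 ^ 9 * 14.06 ^ 6` -/
def VA : ℕ := 7725238996247766

/-- one step of a binary search -/
def lg1 (s : ℕ) (k : ℕ → ℕ) (x : ℕ) : ℕ :=
  Bool.rec (Nat.add s (k (Nat.shiftRight x s))) (k x) (Nat.beq (Nat.shiftRight x s) (nat_lit 0))

/-- the number of binary digits, below `2 ^ 128` -/
def lgS : ℕ → ℕ := lg1 (nat_lit 64) (lg1 (nat_lit 32) (lg1 (nat_lit 16) (lg1 (nat_lit 8)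
  (lg1 (nat_lit 4) (lg1 (nat_lit 2) (lg1 (nat_lit 1) fun _ => nat_lit 1))))))

/-- the number of binary digits, below `2 ^ 4096` -/
def lgU : ℕ → ℕ := lg1 (nat_lit 2048) (lg1 (nat_lit 1024) (lg1 (nat_lit 512) (lg1 (nat_lit 256)
  (lg1 (nat_lit 128) lgS))))

def vbK (n k : ℕ) : ℕ :=
  Bool.rec VA (Nat.succ (Nat.div (Nat.mul (nat_lit 6546) (Nat.pow k (nat_lit 6))) n))
    (Nat.ble (Nat.pow n (nat_lit 32)) (Nat.pow (nat_lit 2) k))

def vbN (n : ℕ) : ℕ := vbK n (lgU (Nat.pow n (nat_lit 32)))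

/-- a bound for `10 ^ 9 Ω ^ 6 |Δ|`, if `|Δ| ≤ D` and `P ≤ |c₄| ^ 3` -/
def vb (P D : ℕ) : ℕ :=
  Bool.rec VA (vbN (Nat.sub (Nat.div P D) (nat_lit 1400))) (Nat.ble (Nat.mul (nat_lit 2400) D) P)

lemma log_le {n k : ℕ} (hn : 0 < n) (h1 : n ^ 32 ≤ 2 ^ k) :
    Real.log n ≤ k * Real.log 2 / 32 := by
  have h2 : ((n : ℝ)) ^ 32 ≤ 2 ^ k := by exact_mod_cast h1
  have h3 := Real.log_le_log (by positivity) h2
  rw [Real.log_pow, Real.log_pow] at h3
  push_cast at h3 ⊢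
  linarith

theorem vb_sound {W : WeierstrassCurve ℤ} {Ω : ℝ} {P D : ℕ} (hV : Vol W Ω) (h0 : 0 < D)
    (hD : W.Δ.natAbs ≤ D) (hP : P ≤ W.c₄.natAbs ^ 3) :
    10 ^ 9 * Ω ^ 6 * W.Δ.natAbs ≤ vb P D := by
  have e : ((W.Δ.natAbs : ℕ) : ℝ) = |(W.Δ : ℝ)| := by rw [Nat.cast_natAbs, Int.cast_abs]
  have e' : ((W.c₄.natAbs : ℕ) : ℝ) = |(W.c₄ : ℝ)| := by rw [Nat.cast_natAbs, Int.cast_abs]
  have hA : 10 ^ 9 * Ω ^ 6 * W.Δ.natAbs ≤ VA := by
    have := hV.all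
    rw [e, VA, mul_assoc]
    push_cast
    nlinarith
  change _ ≤ ((Bool.rec VA (vbN (P / D - 1400)) (Nat.ble (2400 * D) P) : ℕ) : ℝ)
  cases hb : Nat.ble (2400 * D) P with
  | false => exact hA
  | true =>
    change _ ≤ ((vbN (P / D - 1400) : ℕ) : ℝ)
    have h1 : 2400 ≤ P / D := (Nat.le_div_iff_mul_le h0).2 (Nat.le_of_ble_eq_true hb)
    obtain ⟨n, hn⟩ : ∃ n, P / D = n + 1400 := ⟨P / D - 1400, by omega⟩
    rw [hn, Nat.add_sub_cancel]
    have h2 : (n + 1400) * W.Δ.natAbs ≤ W.c₄.natAbs ^ 3 :=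
      (Nat.mul_le_mul_left _ hD).trans (hn ▸ (Nat.div_mul_le_self P D).trans hP)
    have hn0 : 0 < n := by omega
    have hn1 : (1000 : ℝ) ≤ n := by exact_mod_cast (by omega : 1000 ≤ n)
    have h3 := hV.big n hn1 (by rw [← e, ← e']; exact_mod_cast h2)
    unfold vbN
    generalize lgU (Nat.pow n (nat_lit 32)) = k
    change _ ≤ ((Bool.rec VA (6546 * k ^ 6 / n + 1) (Nat.ble (n ^ 32) (2 ^ k)) : ℕ) : ℝ)
    cases hb' : Nat.ble (n ^ 32) (2 ^ k)
    · exact hA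
    have h4 := log_le hn0 (Nat.le_of_ble_eq_true hb')
    refine le_trans ?_ (lt_div_succ (6546 * k ^ 6) _ hn0)
    have a6 : 0 ≤ Real.log n := Real.log_nonneg (by linarith)
    have hk : (0 : ℝ) ≤ k := k.cast_nonneg
    have a5 : Real.log n ≤ k * (0.6931471808 / 32) := by nlinarith [Real.log_two_lt_d9]
    have a7 : 2 * π * Real.log n ≤ 6.283186 * (k * (0.6931471808 / 32)) :=
      mul_le_mul (by linarith [Real.pi_lt_d6]) a5 a6 (by norm_num)
    have a8 := pow_le_pow_left₀ (by positivity) a7 6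
    have a9 : (6.283186 * ((k : ℝ) * (0.6931471808 / 32))) ^ 6 =
        (6.283186 * (0.6931471808 / 32)) ^ 6 * k ^ 6 := by ring
    have a10 : (10 : ℝ) ^ 9 * 1.03 * (6.283186 * (0.6931471808 / 32)) ^ 6 ≤ 6546 := by norm_num
    have a11 := mul_le_mul_of_nonneg_right a10 (pow_nonneg hk 6)
    have hn' : (0 : ℝ) < n := by linarith
    rw [le_div_iff₀ hn'] at h3 ⊢
    rw [e]
    push_cast
    nlinarith

/-- a better bound for the discriminant -/
def upd (w P D : ℕ) : ℕ := bif Nat.beq D 0 then 0 else force (vb P D / w) fun D' =>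
  bif Nat.ble D' D then D' else D

lemma upd_sound {W : WeierstrassCurve ℤ} {Ω : ℝ} {w P D : ℕ} (hV : Vol W Ω) (hw : 0 < w)
    (hΩ : w ≤ 10 ^ 9 * Ω ^ 6) (hD : W.Δ.natAbs ≤ D) (hP : P ≤ W.c₄.natAbs ^ 3) :
    W.Δ.natAbs ≤ upd w P D := by
  unfold upd
  cases hb : Nat.beq D 0 with
  | true => rw [cond_true]; exact Nat.eq_of_beq_eq_true hb ▸ hD
  | false =>
    rw [cond_false, force_eq]
    have h1 := vb_sound hV (Nat.pos_of_ne_zero (Nat.ne_of_beq_eq_false hb)) hD hP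
    have h2 : (W.Δ.natAbs : ℝ) * w ≤ vb P D :=
      le_trans (by rw [mul_comm]; exact mul_le_mul_of_nonneg_right hΩ (Nat.cast_nonneg _)) h1
    have h3 : W.Δ.natAbs ≤ vb P D / w := (Nat.le_div_iff_mul_le hw).2 (by exact_mod_cast h2)
    cases Nat.ble (vb P D / w) D
    exacts [hD, h3]

def warm (w P : ℕ) : ℕ → ℕ
  | 0 => VA / w
  | k + 1 => force (warm w P k) (upd w P)

lemma warm_sound {W : WeierstrassCurve ℤ} {Ω : ℝ} {w P : ℕ} (hV : Vol W Ω) (hw : 0 < w)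
    (hΩ : w ≤ 10 ^ 9 * Ω ^ 6) (hP : P ≤ W.c₄.natAbs ^ 3) : ∀ k, W.Δ.natAbs ≤ warm w P k
  | 0 => by
    have e : ((W.Δ.natAbs : ℕ) : ℝ) = |(W.Δ : ℝ)| := by rw [Nat.cast_natAbs, Int.cast_abs]
    have h1 := hV.all
    have h2 : (W.Δ.natAbs : ℝ) * w ≤ VA := by
      refine le_trans (mul_le_mul_of_nonneg_left hΩ (Nat.cast_nonneg _)) ?_
      rw [e, VA]
      push_cast
      nlinarith
    exact (Nat.le_div_iff_mul_le hw).2 (by exact_mod_cast h2)
  | k + 1 => by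
    rw [warm, force_eq]
    exact upd_sound hV hw hΩ (warm_sound hV hw hΩ hP k) hP

/-- the iteration of Newton -/
def nwt (x : ℕ) : ℕ → ℕ
  | 0 => 2 ^ (lgS x / 2 + 1)
  | k + 1 => force (nwt x k) fun g => (g + x / g) / 2

def hiS (x : ℕ) : ℕ := force (nwt x 7) fun g => bif Nat.ble x (g * g + g) then g else
  bif Nat.ble x ((g + 1) * (g + 1)) then g + 1 else x

def loS (x : ℕ) : ℕ := force (nwt x 7 - 1) fun g => bif Nat.ble (g * g) x then g else 0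

lemma le_hiS {x y : ℕ} (h : y * y ≤ x) : y ≤ hiS x := by
  rw [hiS, force_eq]
  generalize nwt x 7 = g
  cases h1 : Nat.ble x (g * g + g) with
  | true =>
    have := Nat.le_of_ble_eq_true h1
    rw [cond_true]
    by_contra h3
    have h4 := Nat.mul_self_le_mul_self (Nat.succ_le_of_lt (not_le.1 h3))
    simp only [Nat.succ_eq_add_one, add_mul, mul_add] at h4
    omega
  | false =>
    rw [cond_false]
    cases h2 : Nat.ble x ((g + 1) * (g + 1)) with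
    | true => exact Nat.mul_self_le_mul_self_iff.1 (h.trans (Nat.le_of_ble_eq_true h2))
    | false => exact (Nat.le_mul_self y).trans h

lemma loS_le {x y : ℕ} (h : x ≤ y * y) : loS x ≤ y := by
  rw [loS, force_eq]
  generalize nwt x 7 - 1 = g
  cases h1 : Nat.ble (g * g) x with
  | true => exact Nat.mul_self_le_mul_self_iff.1 ((Nat.le_of_ble_eq_true h1).trans h)
  | false => exact Nat.zero_le _

/-- `g (β - 864 a) a` for all `a` with `lo ≤ β - 864 a ≤ hi` -/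
def brn (β : ℤ) (lo hi : ℕ) (g : ℕ → ℤ → Bool) : Bool :=
  forceZ ((β - lo) / 864) fun a₀ => force (β - 864 * a₀).toNat fun y₀ =>
    loopB (fun j => g (Nat.add y₀ (Nat.mul (nat_lit 864) j)) (a₀ - j)) ((hi + 864 - y₀) / 864)

lemma brn_sound {β : ℤ} {lo hi : ℕ} {g : ℕ → ℤ → Bool} (h : brn β lo hi g = true) {y : ℕ} {a : ℤ}
    (h0 : β - 864 * a = y) (h1 : lo ≤ y) (h2 : y ≤ hi) : g y a = true := by
  rw [brn, forceZ_eq, force_eq] at h
  have h3 : g ((β - 864 * ((β - lo) / 864)).toNat + 864 * ((β - lo) / 864 - a).toNat)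
      ((β - lo) / 864 - (((β - lo) / 864 - a).toNat : ℕ)) = true :=
    loopB_sound h ((β - lo) / 864 - a).toNat (by omega)
  have e1 : (β - 864 * ((β - lo) / 864)).toNat + 864 * ((β - lo) / 864 - a).toNat = y := by omega
  have e2 : (β - lo) / 864 - (((β - lo) / 864 - a).toNat : ℕ) = a := by omega
  rwa [e1, e2] at h3

def pnR (P D : ℕ) (t : ℕ → Bool) (R : ℕ) : Bool :=
  Nat.rec true (fun d _ => Bool.rec true (t (Nat.succ d)) (Nat.ble (Nat.succ d) D))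
    (Nat.div (Nat.add (Nat.sub P R) (Nat.sub R P)) (nat_lit 1728))

/-- the test at one point -/
def pnt (P Q D : ℕ) (t : ℕ → ℕ → Bool) (y : ℕ) : Bool := pnR P D (t y) (Nat.add Q (Nat.mul y y))

lemma pnt_sound {P Q D y d : ℕ} {t : ℕ → ℕ → Bool} (h : pnt P Q D t y = true)
    (e : (P - (Q + y * y) + (Q + y * y - P)) / 1728 = d) (h0 : d ≠ 0) (hD : d ≤ D) :
    t y d = true := by
  have h' : (Nat.rec true (fun d _ => Bool.rec true (t y (d + 1)) (Nat.ble (d + 1) D))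
    ((P - (Q + y * y) + (Q + y * y - P)) / 1728) : Bool) = true := h
  obtain ⟨d, rfl⟩ := Nat.exists_eq_succ_of_ne_zero h0
  rw [e] at h'
  have h2 : (Bool.rec true (t y (d + 1)) (Nat.ble (d + 1) D) : Bool) = true := h'
  rwa [Nat.ble_eq_true_of_le hD] at h2

def c4Z (a₁ a₂ a₃ a₄ : ℤ) : ℤ := (a₁ * a₁ + 4 * a₂) * (a₁ * a₁ + 4 * a₂) - 24 * (2 * a₄ + a₁ * a₃)

def c6Z (a₁ a₂ a₃ a₄ : ℤ) : ℤ := (a₁ * a₁ + 4 * a₂) *
  (36 * (2 * a₄ + a₁ * a₃) - (a₁ * a₁ + 4 * a₂) * (a₁ * a₁ + 4 * a₂)) - 216 * (a₃ * a₃)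

lemma c4Z_eq (W : WeierstrassCurve ℤ) : c4Z W.a₁ W.a₂ W.a₃ W.a₄ = W.c₄ := by
  simp only [c4Z, WeierstrassCurve.c₄, WeierstrassCurve.b₂, WeierstrassCurve.b₄]
  ring

lemma c6Z_eq (W : WeierstrassCurve ℤ) : c6Z W.a₁ W.a₂ W.a₃ W.a₄ - 864 * W.a₆ = W.c₆ := by
  simp only [c6Z, WeierstrassCurve.c₆, WeierstrassCurve.b₂, WeierstrassCurve.b₄,
    WeierstrassCurve.b₆]
  ring

/-- the test `t a₆ |c₆| |Δ|` for all `a₆` with `0 < |Δ| ≤ D`; here `c₄ ^ 3 = P - Q` -/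
def rowB (β : ℤ) (P Q D : ℕ) (t : ℤ → ℕ → ℕ → Bool) : Bool :=
  force (1728 * D) fun E => force (loS (P - (Q + E))) fun lo => force (hiS (P + E - Q)) fun hi =>
    bif brn β lo hi (fun y a => pnt P Q D (t a) y) then
      brn (-β) lo hi (fun y a => pnt P Q D (t (-a)) y) else false

lemma rowB_sound {W : WeierstrassCurve ℤ} {β : ℤ} {P Q D : ℕ} {t : ℤ → ℕ → ℕ → Bool}
    (h : rowB β P Q D t = true) (hβ : β - 864 * W.a₆ = W.c₆) (hP : W.c₄ ^ 3 = P - Q)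
    (h0 : W.Δ ≠ 0) (hD : W.Δ.natAbs ≤ D) : t W.a₆ W.c₆.natAbs W.Δ.natAbs = true := by
  simp only [rowB, force_eq] at h
  have hc := W.c_relation
  have hy : ((W.c₆.natAbs * W.c₆.natAbs : ℕ) : ℤ) = W.c₆ ^ 2 := by
    rw [Int.natAbs_mul_self, sq]
  rw [hP, ← hy] at hc
  have h1 : loS (P - (Q + 1728 * D)) ≤ W.c₆.natAbs := loS_le (by omega)
  have h2 : W.c₆.natAbs ≤ hiS (P + 1728 * D - Q) := le_hiS (by omega)
  have key : pnt P Q D (t W.a₆) W.c₆.natAbs = true := by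
    cases hb : brn β (loS (P - (Q + 1728 * D))) (hiS (P + 1728 * D - Q))
        (fun y a => pnt P Q D (t a) y) with
    | false => rw [hb] at h; exact absurd h (by simp)
    | true =>
      rw [hb, cond_true] at h
      rcases le_total 0 W.c₆ with hs | hs
      · exact brn_sound hb (a := W.a₆) (by omega) h1 h2
      · have := brn_sound h (a := -W.a₆) (y := W.c₆.natAbs) (by omega) h1 h2
        rwa [neg_neg] at this
  exact pnt_sound key (by omega) (Int.natAbs_ne_zero.2 h0) hD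

/-- the test is `t a₄ |c₄| a₆ |c₆| |Δ|` -/
abbrev Tst : Type := ℤ → ℕ → ℤ → ℕ → ℕ → Bool

def rows (a₁ a₂ a₃ s : ℤ) (m w : ℕ) (t : Tst) (n : ℕ) : ℕ → Bool :=
  Nat.rec (fun _ => true) (fun j ih D => forceZ (s + m * j) fun a₄ =>
    forceZ (c4Z a₁ a₂ a₃ a₄) fun c => force (c.toNat ^ 3) fun P =>
      force (upd w P D) fun D' => force (upd w P D') fun D'' => force c.natAbs fun C =>
        bif forceZ (c6Z a₁ a₂ a₃ a₄) fun β => force ((-c).toNat ^ 3) fun Q =>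
          rowB β P Q D'' (t a₄ C) then ih D'' else false) n

/-- the hypotheses on the curve -/
structure Cls (a₁ a₂ a₃ : ℤ) (w : ℕ) (W : WeierstrassCurve ℤ) (Ω : ℝ) : Prop where
  e₁ : W.a₁ = a₁
  e₂ : W.a₂ = a₂
  e₃ : W.a₃ = a₃
  ne : W.Δ ≠ 0
  vol : Vol W Ω
  pos : 0 < w
  le : w ≤ 10 ^ 9 * Ω ^ 6

/-- the value of the test at `W` -/
def Tst.at (t : Tst) (W : WeierstrassCurve ℤ) : Bool :=
  t W.a₄ W.c₄.natAbs W.a₆ W.c₆.natAbs W.Δ.natAbs

variable {a₁ a₂ a₃ s : ℤ} {m w : ℕ} {t : Tst} {W : WeierstrassCurve ℤ} {Ω : ℝ}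

lemma Cls.cube (h : Cls a₁ a₂ a₃ w W Ω) {a : ℤ} (ha : W.a₄ ≤ a) :
    (c4Z a₁ a₂ a₃ a).toNat ^ 3 ≤ W.c₄.natAbs ^ 3 := by
  refine Nat.pow_le_pow_left ?_ 3
  have h1 := c4Z_eq W
  rw [h.e₁, h.e₂, h.e₃] at h1
  unfold c4Z at h1 ⊢
  generalize (a₁ * a₁ + 4 * a₂) * (a₁ * a₁ + 4 * a₂) = x at h1 ⊢
  generalize a₁ * a₃ = z at h1 ⊢
  omega

lemma rows_sound (h : Cls a₁ a₂ a₃ w W Ω) {j : ℕ} (hj : W.a₄ = s + m * j) :
    ∀ {n D : ℕ}, rows a₁ a₂ a₃ s m w t n D = true → W.Δ.natAbs ≤ D → j < n → t.at W = true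
  | 0, _, _, _, hn => absurd hn (Nat.not_lt_zero _)
  | n + 1, D, H, hD, hn => by
    have H' : (forceZ (s + m * n) fun a₄ =>
        forceZ (c4Z a₁ a₂ a₃ a₄) fun c => force (c.toNat ^ 3) fun P =>
        force (upd w P D) fun D' => force (upd w P D') fun D'' => force c.natAbs fun C =>
        bif forceZ (c6Z a₁ a₂ a₃ a₄) fun β => force ((-c).toNat ^ 3) fun Q =>
          rowB β P Q D'' (t a₄ C) then rows a₁ a₂ a₃ s m w t n D'' else false) = true := H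
    simp only [forceZ_eq, force_eq] at H'
    have ha : W.a₄ ≤ s + m * n := by
      rw [hj]
      have : (j : ℤ) ≤ n := by omega
      nlinarith [Int.natCast_nonneg m]
    have h1 := upd_sound h.vol h.pos h.le hD (h.cube ha)
    have h2 := upd_sound h.vol h.pos h.le h1 (h.cube ha)
    rw [Bool.cond_eq_ite] at H'
    split_ifs at H' with h3
    rcases Nat.lt_succ_iff_lt_or_eq.1 hn with h4 | rfl
    · exact rows_sound h hj H' h2 h4
    · rw [← hj, ← h.e₁, ← h.e₂, ← h.e₃, c4Z_eq] at h3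
      rw [← hj, ← h.e₁, ← h.e₂, ← h.e₃, c4Z_eq] at h2
      refine rowB_sound h3 (c6Z_eq W) ?_ h.ne h2
      rcases le_total 0 W.c₄ with hs | hs
      · rw [Int.toNat_eq_zero.2 (neg_nonpos.2 hs)]
        push_cast
        rw [Int.toNat_of_nonneg hs]
        ring
      · rw [Int.toNat_eq_zero.2 hs]
        push_cast
        rw [Int.toNat_of_nonneg (neg_nonneg.2 hs)]
        ring

/-- the check for `a₄ = s + m j` with `lo ≤ j < lo + n` -/
def chunk (a₁ a₂ a₃ s : ℤ) (m w : ℕ) (t : Tst) (lo n : ℕ) : Bool :=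
  forceZ (s + m * lo) fun s' => force ((c4Z a₁ a₂ a₃ (s' + m * n)).toNat ^ 3) fun P =>
    force (warm w P 100) (rows a₁ a₂ a₃ s' m w t n)

/-- the test holds for `a₄ = s + m j` with `lo ≤ j < hi` -/
def Cov (a₁ a₂ a₃ s : ℤ) (m w : ℕ) (t : Tst) (lo hi : ℕ) : Prop :=
  ∀ (W : WeierstrassCurve ℤ) (Ω : ℝ) (j : ℕ), Cls a₁ a₂ a₃ w W Ω → W.a₄ = s + m * j → lo ≤ j →
    j < hi → t.at W = true

theorem cov_chunk {lo n : ℕ} (h : chunk a₁ a₂ a₃ s m w t lo n = true) :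
    Cov a₁ a₂ a₃ s m w t lo (lo + n) := by
  intro W Ω j hc hj h1 h2
  obtain ⟨i, rfl⟩ := Nat.exists_eq_add_of_le h1
  simp only [chunk, forceZ_eq, force_eq] at h
  have hj' : W.a₄ = s + m * lo + m * i := by rw [hj]; push_cast; ring
  refine rows_sound hc hj' h (warm_sound hc.vol hc.pos hc.le (hc.cube ?_) _) (by omega)
  rw [hj']
  have : (i : ℤ) ≤ n := by omega
  nlinarith [Int.natCast_nonneg m]

theorem Cov.join {lo mid hi : ℕ} (h₁ : Cov a₁ a₂ a₃ s m w t lo mid)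
    (h₂ : Cov a₁ a₂ a₃ s m w t mid hi) : Cov a₁ a₂ a₃ s m w t lo hi := fun W Ω j hc hj h1 h2 =>
  (Nat.lt_or_ge j mid).elim (h₁ W Ω j hc hj h1) fun h3 => h₂ W Ω j hc hj h3 h2

/-- there is no curve outside the range `s ≤ a₄ < s + m n` -/
def ends (a₁ a₂ a₃ s : ℤ) (m w n : ℕ) : Bool :=
  Nat.beq (force ((c4Z a₁ a₂ a₃ s).toNat ^ 3) fun P => warm w P 400) 0 &&
    Nat.blt (1728 * (VA / w)) ((-c4Z a₁ a₂ a₃ (s + m * n)).toNat ^ 3)

theorem Cov.all {n : ℕ} (h : Cov a₁ a₂ a₃ s m w t 0 n) (he : ends a₁ a₂ a₃ s m w n = true)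
    (hc : Cls a₁ a₂ a₃ w W Ω) (hm : (m : ℤ) ∣ W.a₄ - s) : t.at W = true := by
  simp only [ends, force_eq, Bool.and_eq_true] at he
  obtain ⟨k, hk⟩ := hm
  have h1 : s < W.a₄ := by
    by_contra h1
    have := warm_sound hc.vol hc.pos hc.le (hc.cube (not_lt.1 h1)) 400
    rw [Nat.eq_of_beq_eq_true he.1] at this
    exact hc.ne (by omega)
  have h2 : W.a₄ < s + m * n := by
    by_contra h2
    have a1 : W.Δ.natAbs ≤ VA / w := warm_sound (P := 0) hc.vol hc.pos hc.le (Nat.zero_le _) 0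
    have a2 := he.2
    rw [Nat.blt_eq] at a2
    have a3 := c4Z_eq W
    rw [hc.e₁, hc.e₂, hc.e₃] at a3
    have a4 : (-c4Z a₁ a₂ a₃ (s + m * n)).toNat ≤ (-W.c₄).toNat := by
      unfold c4Z at a3 ⊢
      generalize (a₁ * a₁ + 4 * a₂) * (a₁ * a₁ + 4 * a₂) = x at a3 ⊢
      generalize a₁ * a₃ = z at a3 ⊢
      omega
    have a5 := Nat.pow_le_pow_left a4 3
    have a6 : 1728 * W.Δ.natAbs < (-W.c₄).toNat ^ 3 := by omega
    have a7 := W.c_relation
    rcases le_total 0 W.c₄ with hs | hs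
    · rw [Int.toNat_eq_zero.2 (neg_nonpos.2 hs)] at a6
      omega
    · have a8 : (((-W.c₄).toNat ^ 3 : ℕ) : ℤ) = -W.c₄ ^ 3 := by
        push_cast
        rw [Int.toNat_of_nonneg (neg_nonneg.2 hs)]
        ring
      have a9 := sq_nonneg W.c₆
      omega
  have hm0 : (0 : ℤ) ≤ m := Int.natCast_nonneg m
  clear he
  have h3 : 0 ≤ k := by
    by_contra h3
    have := mul_nonneg hm0 (neg_nonneg.2 (not_le.1 h3).le)
    linarith
  have h4 : k < n := by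
    by_contra h4
    have := mul_le_mul_of_nonneg_left (not_lt.1 h4) hm0
    linarith
  obtain ⟨j, rfl⟩ := Int.eq_ofNat_of_zero_le h3
  exact h W Ω j hc (by linarith) (Nat.zero_le _) (by exact_mod_cast h4)

end Pool.Agent.MP_b2c033_nt.U
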