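import Pool.Agent.MP_b2c033_nt.U.Core

/-! A fast formula for the trace of Frobenius. -/

namespace Pool.Agent.MP_b2c033_nt.U

open WeierstrassCurve Finset

/-- the number of affine points with abscissa below `x` (odd `p`) -/
def cntF (p c₂ c₄ c₆ : ℕ) : ℕ → ℕ
  | 0 => 0
  | x + 1 => cntF p c₂ c₄ c₆ x + (((((4 * x + c₂) * x + c₄) * x + c₆) % p) ^ (p / 2) + 1) % p

def apF (W : WeierstrassCurve ℤ) (p : ℕ) : ℤ :=
  if p = 2 then 2 - ((if W.a₆ % 2 = 0 then 1 else 0) + (if (1 + W.a₃ - W.a₆) % 2 = 0 then 1 else 0)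
    + (if (1 + W.a₂ + W.a₄ + W.a₆) % 2 = 0 then 1 else 0)
    + (if (W.a₁ + W.a₃ - W.a₂ - W.a₄ - W.a₆) % 2 = 0 then 1 else 0))
  else p - cntF p (W.b₂ % p).toNat ((2 * W.b₄) % p).toNat (W.b₆ % p).toNat p

lemma card_sq (p : ℕ) [Fact p.Prime] (hp : p ≠ 2) (d : ℕ) :
    #{y : ZMod p | y ^ 2 = d} = ((d % p) ^ (p / 2) + 1) % p := by
  have h3 : 3 ≤ p := by have := (Fact.out : p.Prime).two_le; omega
  have h1 := legendreSym.card_sqrts p hp d
  have h2 := legendreSym.eq_pow p d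
  rw [Set.toFinset_ofPred, Int.cast_natCast] at h1
  have hle : #{y : ZMod p | y ^ 2 = d} < p := by
    have : legendreSym p d ≤ 1 := by
      by_cases h : ((d : ℤ) : ZMod p) = 0
      · rw [(legendreSym.eq_zero_iff p d).2 h]; norm_num
      · rcases legendreSym.eq_one_or_neg_one p h with h | h <;> simp [h]
    omega
  rw [← Nat.mod_eq_of_lt hle]
  apply (ZMod.natCast_eq_natCast_iff' _ _ _).1
  have h4 : ((#{y : ZMod p | y ^ 2 = d} : ℤ) : ZMod p) = ((legendreSym p d + 1 : ℤ) : ZMod p) := by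
    rw [h1]
  push_cast at h4 h2 ⊢
  rw [h4, h2, ZMod.natCast_mod]

lemma cntF_eq (p c₂ c₄ c₆ n : ℕ) : cntF p c₂ c₄ c₆ n =
    ∑ x ∈ range n, (((((4 * x + c₂) * x + c₄) * x + c₆) % p) ^ (p / 2) + 1) % p := by
  induction n with
  | zero => rfl
  | succ n ih => rw [cntF, ih, sum_range_succ]

lemma card_pairs (p : ℕ) [NeZero p] (P : ZMod p → ZMod p → Prop) [∀ x y, Decidable (P x y)] :
    Nat.card {Q : ZMod p × ZMod p // P Q.1 Q.2} = ∑ x : ZMod p, #{y | P x y} := by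
  rw [Nat.card_eq_fintype_card, Fintype.card_subtype, card_filter, Fintype.sum_prod_type]
  exact sum_congr rfl fun x _ => (card_filter _ _).symm

lemma cast_toNat_emod (p : ℕ) (hp : 0 < p) (a : ℤ) : (((a % p).toNat : ℕ) : ZMod p) = a := by
  have : (((a % p).toNat : ℕ) : ℤ) = a % p :=
    Int.toNat_of_nonneg (Int.emod_nonneg _ (by exact_mod_cast hp.ne'))
  rw [← Int.cast_natCast, this, ZMod.intCast_mod]

lemma two_case : ∀ a₁ a₂ a₃ a₄ a₆ : ZMod 2,
    ((∑ x : ZMod 2, #{y | y ^ 2 + a₁ * x * y + a₃ * y = x ^ 3 + a₂ * x ^ 2 + a₄ * x + a₆} : ℕ) : ℤ)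
    = ((if a₆ = 0 then 1 else 0) + (if 1 + a₃ - a₆ = 0 then 1 else 0)
    + (if 1 + a₂ + a₄ + a₆ = 0 then 1 else 0)
    + (if a₁ + a₃ - a₂ - a₄ - a₆ = 0 then 1 else 0)) := by
  decide

lemma emod_two (a : ℤ) : a % 2 = 0 ↔ (a : ZMod 2) = 0 := by
  rw [ZMod.intCast_zmod_eq_zero_iff_dvd, Int.dvd_iff_emod_eq_zero]; rfl

theorem ap_eq (W : WeierstrassCurve ℤ) {p : ℕ} (hp : p.Prime) : ap W p = apF W p := by
  classical
  have : Fact p.Prime := ⟨hp⟩
  unfold ap apF
  simp only [Affine.equation_iff]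
  rw [card_pairs p fun x y => y ^ 2 + (W.map (Int.castRingHom (ZMod p))).toAffine.a₁ * x * y +
    (W.map (Int.castRingHom (ZMod p))).toAffine.a₃ * y = x ^ 3 +
    (W.map (Int.castRingHom (ZMod p))).toAffine.a₂ * x ^ 2 +
    (W.map (Int.castRingHom (ZMod p))).toAffine.a₄ * x +
    (W.map (Int.castRingHom (ZMod p))).toAffine.a₆]
  simp only [map_a₁, map_a₂, map_a₃, map_a₄, map_a₆, eq_intCast]
  by_cases h2 : p = 2
  · subst h2
    rw [if_pos rfl]
    simp only [emod_two]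
    push_cast
    have := two_case W.a₁ W.a₂ W.a₃ W.a₄ W.a₆
    push_cast at this
    rw [← this]
  · rw [if_neg h2, cntF_eq]
    congr 2
    symm
    refine sum_bij' (fun x _ => (x : ZMod p)) (fun x _ => x.val) (fun _ _ => mem_univ _)
      (fun x _ => mem_range.2 x.val_lt) (fun x hx => ZMod.val_cast_of_lt (mem_range.1 hx))
      (fun x _ => ZMod.natCast_zmod_val x) fun x _ => ?_
    rw [← card_sq p h2]
    have ht : (2 : ZMod p) ≠ 0 := by
      intro h
      have : ((2 : ℕ) : ZMod p) = 0 := by exact_mod_cast h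
      rw [ZMod.natCast_eq_zero_iff] at this
      exact h2 ((Nat.prime_dvd_prime_iff_eq hp Nat.prime_two).1 this)
    push_cast
    rw [cast_toNat_emod p hp.pos, cast_toNat_emod p hp.pos, cast_toNat_emod p hp.pos]
    simp only [b₂, b₄, b₆]
    push_cast
    symm
    refine card_bij' (fun y _ => 2 * y + W.a₁ * x + W.a₃)
      (fun y _ => (y - W.a₁ * x - W.a₃) / 2) ?_ ?_ ?_ ?_
    · intro y hy
      simp only [mem_filter, mem_univ, true_and] at hy ⊢
      linear_combination 4 * hy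
    · intro y hy
      simp only [mem_filter, mem_univ, true_and] at hy ⊢
      field_simp
      linear_combination hy
    · intro y _; field_simp; ring
    · intro y _; field_simp; ring

end Pool.Agent.MP_b2c033_nt.U
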