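import Mathlib

/-! Fixed point enclosures of exponentials and of power series with coefficients `O(n ^ 2)`. -/

namespace Pool.Agent.MP_b2c033_nt.U

open Finset

/-- the scale `2 ^ 128` -/
def SC : ℕ := 340282366920938463463374607431768211456

lemma SC_pos : (0 : ℝ) < SC := by unfold SC; norm_num

def sqLo : ℕ → ℕ → ℕ
  | 0, a => a
  | k + 1, a => sqLo k (a * a / SC)

def sqHi : ℕ → ℕ → ℕ
  | 0, a => a
  | k + 1, a => sqHi k (a * a / SC + 1)

lemma sqLo_le (k : ℕ) : ∀ (a : ℕ) (y : ℝ), (a : ℝ) ≤ SC * y → (sqLo k a : ℝ) ≤ SC * y ^ 2 ^ k := by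
  induction k with
  | zero => intro a y h; simpa [sqLo] using h
  | succ k ih =>
    intro a y h
    rw [sqLo, pow_succ' 2 k, pow_mul]
    refine ih _ _ (Nat.cast_div_le.trans ?_)
    rw [div_le_iff₀ SC_pos]
    push_cast
    have : (0 : ℝ) ≤ a := a.cast_nonneg
    nlinarith

lemma lt_div_succ (a b : ℕ) (hb : 0 < b) : (a : ℝ) / b ≤ (a / b + 1 : ℕ) := by
  rw [div_le_iff₀ (by exact_mod_cast hb)]
  have := Nat.lt_div_mul_add (a := a) hb
  have h2 : a ≤ (a / b + 1) * b := by rw [add_mul, one_mul]; omega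
  exact_mod_cast h2

lemma le_sqHi (k : ℕ) : ∀ (a : ℕ) (y : ℝ), 0 ≤ y → SC * y ≤ a → SC * y ^ 2 ^ k ≤ (sqHi k a : ℝ) := by
  induction k with
  | zero => intro a y _ h; simpa [sqHi] using h
  | succ k ih =>
    intro a y hy h
    rw [sqHi, pow_succ' 2 k, pow_mul]
    refine ih _ _ (by positivity) (le_trans ?_ (lt_div_succ _ _ (by unfold SC; norm_num)))
    rw [le_div_iff₀ SC_pos]
    push_cast
    have : (0 : ℝ) ≤ SC * y := mul_nonneg SC_pos.le hy
    nlinarith

/-- `2 ^ 48` -/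
def T48 : ℕ := 281474976710656

/-- a lower bound for `SC * exp (-x)` if `x ≤ n / d` -/
def expLo (n d : ℕ) : ℕ := sqLo 48 (SC - (SC * n / (d * T48) + 1))

/-- an upper bound for `SC * exp (-x)` if `n / d ≤ x` -/
def expHi (n d : ℕ) : ℕ := sqHi 48 (SC * (d * T48) / (d * T48 + n) + 1)

lemma exp_pow48 (x : ℝ) : Real.exp (-(x / T48)) ^ 2 ^ 48 = Real.exp (-x) := by
  rw [← Real.exp_nat_mul]; congr 1; unfold T48; push_cast; ring

lemma expLo_le {n d : ℕ} {x : ℝ} (hd : 0 < d) (h : x ≤ n / d) :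
    (expLo n d : ℝ) ≤ SC * Real.exp (-x) := by
  rw [← exp_pow48]
  refine sqLo_le _ _ _ ?_
  have hT : (0 : ℝ) < T48 := by unfold T48; norm_num
  have hd' : (0 : ℝ) < d := by exact_mod_cast hd
  rcases le_total SC (SC * n / (d * T48) + 1) with h1 | h1
  · rw [Nat.sub_eq_zero_of_le h1, Nat.cast_zero]
    exact mul_nonneg SC_pos.le (Real.exp_pos _).le
  · rw [Nat.cast_sub h1]
    have h2 := lt_div_succ (SC * n) (d * T48) (Nat.mul_pos hd (by unfold T48; norm_num))
    have h3 := Real.add_one_le_exp (-(x / T48))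
    have h4 : x / T48 ≤ n / (d * T48) := by
      rw [← div_div]; exact div_le_div_of_nonneg_right h hT.le
    have h5 : ((SC * n : ℕ) : ℝ) / (d * T48 : ℕ) = SC * (n / (d * T48)) := by push_cast; ring
    rw [h5] at h2
    have := SC_pos
    nlinarith

lemma le_expHi {n d : ℕ} {x : ℝ} (hd : 0 < d) (h : n / d ≤ x) :
    SC * Real.exp (-x) ≤ (expHi n d : ℝ) := by
  rw [← exp_pow48]
  refine le_sqHi _ _ _ (Real.exp_pos _).le ?_
  have hT : (0 : ℝ) < T48 := by unfold T48; norm_num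
  have hd' : (0 : ℝ) < d := by exact_mod_cast hd
  have hp : 0 < d * T48 + n := Nat.add_pos_left (Nat.mul_pos hd (by unfold T48; norm_num)) _
  refine le_trans ?_ (lt_div_succ _ _ hp)
  have h3 := Real.add_one_le_exp (x / T48)
  have h4 : n / (d * T48) ≤ x / T48 := by
    rw [← div_div]; exact div_le_div_of_nonneg_right h hT.le
  have hn : (0 : ℝ) ≤ n := n.cast_nonneg
  push_cast
  rw [Real.exp_neg, mul_div_assoc]
  refine mul_le_mul_of_nonneg_left ?_ SC_pos.le
  have hdT : (0 : ℝ) < d * T48 := mul_pos hd' hT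
  rw [← inv_div (d * T48 + n : ℝ)]
  refine inv_anti₀ (div_pos (by linarith) hdT) ?_
  rw [add_div, div_self hdT.ne']
  linarith

/-- the rule of Horner in fixed point -/
def ev (l : ℕ) : List ℤ → ℤ
  | [] => 0
  | b :: bs => (b * SC + ev l bs) * l / SC

noncomputable def pv (r : ℝ) : List ℤ → ℝ
  | [] => 0
  | b :: bs => (b + pv r bs) * r

lemma ev_err {l : ℕ} {r δ B : ℝ} (h0 : 0 ≤ r) (h1 : r ≤ 1) (hl : (l : ℝ) ≤ SC)
    (hδ : |l - SC * r| ≤ δ) (hB : 0 ≤ B) : ∀ bs : List ℤ, (∀ b ∈ bs, |(b : ℝ)| ≤ B) →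
    |pv r bs| ≤ bs.length * B ∧
      |ev l bs - SC * pv r bs| ≤ bs.length + (bs.length : ℝ) ^ 2 * B * δ
  | [], _ => by simp [pv, ev]
  | b :: bs, h => by
    obtain ⟨i1, i2⟩ := ev_err h0 h1 hl hδ hB bs fun c hc => h c (List.mem_cons_of_mem _ hc)
    have hb := h b List.mem_cons_self
    have hS := SC_pos
    have hδ0 : 0 ≤ δ := (abs_nonneg _).trans hδ
    have hk : (0 : ℝ) ≤ bs.length := Nat.cast_nonneg _
    have i3 : |b + pv r bs| ≤ (bs.length + 1) * B := (abs_add_le _ _).trans (by linarith)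
    simp only [pv, ev, List.length_cons]
    push_cast
    refine ⟨?_, ?_⟩
    · rw [abs_mul, abs_of_nonneg h0]
      exact (mul_le_of_le_one_right (abs_nonneg _) h1).trans i3
    · set X : ℤ := (b * SC + ev l bs) * l with hX
      have hS' : (0 : ℤ) < SC := by unfold SC; norm_num
      have e1 : |((X / SC : ℤ) : ℝ) - X / SC| ≤ 1 := by
        have a1 : X / SC * SC ≤ X := Int.ediv_mul_le _ hS'.ne'
        have a2 : X < (X / SC + 1) * SC := Int.lt_ediv_add_one_mul_self _ hS'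
        have a1' : ((X / SC : ℤ) : ℝ) ≤ X / SC := by
          rw [le_div_iff₀ hS]; exact_mod_cast a1
        have a2' : (X : ℝ) / SC ≤ ((X / SC : ℤ) : ℝ) + 1 := by
          rw [div_le_iff₀ hS]; exact_mod_cast a2.le
        rw [abs_le]; constructor <;> linarith
      have e2 : ((X / SC : ℤ) : ℝ) - SC * ((b + pv r bs) * r) = (((X / SC : ℤ) : ℝ) - X / SC) +
          (ev l bs - SC * pv r bs) * (l / SC) + (b + pv r bs) * (l - SC * r) := by
        rw [hX]; push_cast; field_simp; ring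
      have e3 : |(ev l bs - SC * pv r bs) * (l / SC)| ≤
          bs.length + (bs.length : ℝ) ^ 2 * B * δ := by
        rw [abs_mul, abs_of_nonneg (a := (l : ℝ) / SC) (by positivity)]
        exact (mul_le_of_le_one_right (abs_nonneg _) ((div_le_one hS).2 hl)).trans i2
      have e4 : |(b + pv r bs) * (l - SC * r)| ≤ (bs.length + 1) * B * δ := by
        rw [abs_mul]; exact mul_le_mul i3 hδ (abs_nonneg _) (by positivity)
      rw [e2]
      have e5 := (abs_add_three _ _ _).trans (add_le_add (add_le_add e1 e3) e4)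
      have e6 : 0 ≤ B * δ := mul_nonneg hB hδ0
      nlinarith

lemma pv_range (r : ℝ) (b : ℕ → ℤ) (K : ℕ) : ∀ s, pv r ((List.range' s K).map b) =
    ∑ i ∈ range K, b (s + i) * r ^ (i + 1) := by
  induction K with
  | zero => intro s; simp [pv]
  | succ K ih =>
    intro s
    rw [List.range'_succ, List.map_cons, pv, ih, sum_range_succ', add_mul, sum_mul, add_comm]
    congr 1
    · exact sum_congr rfl fun i _ => by rw [add_assoc, add_comm 1 i]; ring
    · simp

/-- the radius of the enclosure -/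
def rad (K l h : ℕ) : ℕ := K + K ^ 4 * (h - l) +
  ((K + 1) ^ 4 * h ^ (K + 1) * SC / (SC ^ K * (SC * (K + 1) ^ 2 - h * (K + 2) ^ 2)) + 1)

lemma tail_le {b : ℕ → ℤ} (hb : ∀ n, |b n| ≤ n ^ 2) {r q A : ℝ} (h0 : 0 ≤ r) (hq : r ≤ q) (K : ℕ)
    (h1 : q * (K + 2) ^ 2 < (K + 1) ^ 2)
    (hA : HasSum (fun n : ℕ => (b (n + (K + 1)) : ℝ) * r ^ (n + (K + 1))) A) :
    |A| ≤ (K + 1) ^ 4 * q ^ (K + 1) / ((K + 1) ^ 2 - q * (K + 2) ^ 2) := by
  have hK : (0 : ℝ) < K + 1 := by positivity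
  have hq0 : 0 ≤ q := h0.trans hq
  set s : ℝ := q * (1 + 1 / (K + 1)) ^ 2 with hs
  have hs' : s = q * (K + 2) ^ 2 / (K + 1) ^ 2 := by rw [hs]; field_simp; ring
  have hs1 : s < 1 := by rw [hs', div_lt_one (by positivity)]; exact h1
  have hg := (hasSum_geometric_of_lt_one (by positivity) hs1).mul_left
    (((K : ℝ) + 1) ^ 2 * q ^ (K + 1))
  have := hA.norm_le_of_bounded hg fun n => by
    rw [Real.norm_eq_abs, abs_mul, abs_of_nonneg (pow_nonneg h0 _)]
    have a1 : |(b (n + (K + 1)) : ℝ)| ≤ ((n : ℝ) + (K + 1)) ^ 2 := by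
      exact_mod_cast hb (n + (K + 1))
    have a2 : 1 + n * (1 / ((K : ℝ) + 1)) ≤ (1 + 1 / (K + 1)) ^ n :=
      one_add_mul_le_pow (by have : (0 : ℝ) ≤ 1 / (K + 1) := by positivity
                             linarith) n
    have a3 : (n : ℝ) + (K + 1) ≤ (K + 1) * (1 + 1 / (K + 1)) ^ n := by
      refine le_trans (le_of_eq ?_) (mul_le_mul_of_nonneg_left a2 hK.le)
      field_simp; ring
    calc _ ≤ ((K + 1) * (1 + 1 / ((K : ℝ) + 1)) ^ n) ^ 2 * q ^ (n + (K + 1)) :=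
          mul_le_mul (a1.trans (pow_le_pow_left₀ (by positivity) a3 2))
            (pow_le_pow_left₀ h0 hq _) (by positivity) (by positivity)
      _ = _ := by rw [hs, mul_pow, mul_pow, ← pow_mul, ← pow_mul, mul_comm n 2, pow_add]; ring
  rw [Real.norm_eq_abs] at this
  refine this.trans (le_of_eq ?_)
  have h2 : ((K : ℝ) + 1) ^ 2 - q * (K + 2) ^ 2 ≠ 0 := by linarith
  rw [hs']
  field_simp

theorem encl {b : ℕ → ℤ} (hb : ∀ n, |b n| ≤ n ^ 2) {r A : ℝ} (h0 : 0 ≤ r) {K l h : ℕ}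
    (hl : (l : ℝ) ≤ SC * r) (hh : SC * r ≤ h) (h1 : h * (K + 2) ^ 2 < SC * (K + 1) ^ 2)
    (hA : HasSum (fun n : ℕ => (b n : ℝ) * r ^ n) A) :
    |ev l ((List.range' 1 K).map b) - SC * A| ≤ rad K l h := by
  have hS := SC_pos
  have h1' : (h : ℝ) * (K + 2) ^ 2 < SC * (K + 1) ^ 2 := by exact_mod_cast h1
  have hK : (0 : ℝ) ≤ K := K.cast_nonneg
  have hh0 : (0 : ℝ) ≤ h := h.cast_nonneg
  have hhS : (h : ℝ) ≤ SC := by
    by_contra hc
    push Not at hc
    nlinarith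
  have hr1 : r ≤ 1 := by nlinarith
  have hlh : l ≤ h := by exact_mod_cast hl.trans hh
  have e1 := (ev_err (δ := h - l) (B := (K : ℝ) ^ 2) h0 hr1 (hl.trans (hh.trans hhS))
    (by rw [abs_le]; constructor <;> linarith) (by positivity) ((List.range' 1 K).map b) (by
      intro c hc
      obtain ⟨n, hn, rfl⟩ := List.mem_map.1 hc
      have : n ≤ K := by have := List.mem_range'_1.1 hn; omega
      have h2 : |b n| ≤ (K : ℤ) ^ 2 := (hb n).trans (by gcongr)
      exact_mod_cast h2)).2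
  rw [List.length_map, List.length_range', pv_range] at e1
  have e2 := tail_le hb h0 (q := h / SC) (by rw [le_div_iff₀ hS]; linarith) K
    (by rw [div_mul_eq_mul_div, div_lt_iff₀ hS]; linarith) ((hasSum_nat_add_iff' (K + 1)).2 hA)
  have hb0 : b 0 = 0 := by simpa using hb 0
  rw [sum_range_succ'] at e2
  simp only [hb0, Int.cast_zero, zero_mul, add_zero] at e2
  have e3 := lt_div_succ ((K + 1) ^ 4 * h ^ (K + 1) * SC)
    (SC ^ K * (SC * (K + 1) ^ 2 - h * (K + 2) ^ 2))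
    (Nat.mul_pos (pow_pos (by unfold SC; norm_num) _) (Nat.sub_pos_of_lt h1))
  have e4 : (((K + 1) ^ 4 * h ^ (K + 1) * SC : ℕ) : ℝ) /
      (SC ^ K * (SC * (K + 1) ^ 2 - h * (K + 2) ^ 2) : ℕ) = SC * ((K + 1) ^ 4 *
        ((h : ℝ) / SC) ^ (K + 1) / ((K + 1) ^ 2 - h / SC * (K + 2) ^ 2)) := by
    rw [Nat.cast_mul (SC ^ K), Nat.cast_sub h1.le]
    push_cast
    have : (SC : ℝ) * (K + 1) ^ 2 - h * (K + 2) ^ 2 ≠ 0 := by linarith
    rw [div_pow]
    field_simp
    ring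
  rw [e4] at e3
  have e5 := mul_le_mul_of_nonneg_left e2 hS.le
  simp only [add_comm 1] at e1
  rw [rad, Nat.cast_add, Nat.cast_add, Nat.cast_mul, Nat.cast_sub hlh, Nat.cast_pow]
  rw [← abs_of_pos hS, ← abs_mul, abs_of_pos hS] at e5
  rw [abs_le] at e1 e5 ⊢
  constructor <;> nlinarith [e1.1, e1.2, e5.1, e5.2]

end Pool.Agent.MP_b2c033_nt.U
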