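import Pool.Agent.MP_b2c033_nt.UC.FeAp
import Pool.Agent.MP_b2c033_nt.UC.FeExp

/-! Refutation of the functional equation at a wrong level. -/

namespace Pool.Agent.MP_b2c033_nt.U

open scoped Real

/-- evaluate `n` before it is used -/
def force {α : Type} (n : ℕ) (k : ℕ → α) : α :=
  match n with
  | 0 => k 0
  | m + 1 => k (m + 1)

@[simp] lemma force_eq {α : Type} (n : ℕ) (k : ℕ → α) : force n k = k n := by
  cases n <;> rfl

/-- the coefficients from the values at primes; `R` has the same primes as the level -/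
def bF (lam : ℕ → ℤ) (R : ℕ) : ℕ → ℕ → ℤ
  | 0, _ => 0
  | f + 1, n => if n ≤ 1 then n else force n.minFac fun p => force (n / p) fun m =>
      if R % p = 0 then (if lam p = 0 then 0 else lam p * bF lam R f m)
      else if m % p = 0 then lam p * bF lam R f m - p * bF lam R f (m / p)
      else lam p * bF lam R f m

lemma bF_eq {N R : ℕ} {b : ℕ → ℤ} {lam : ℕ → ℤ} (hC : Coef N b)
    (hR : ∀ p : ℕ, p.Prime → (p ∣ R ↔ p ∣ N)) (hl : ∀ p : ℕ, p.Prime → lam p = b p) :
    ∀ f n, n ≤ f → bF lam R f n = b n := by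
  intro f
  induction f with
  | zero => intro n hn; rw [Nat.le_zero.1 hn, hC.zero]; rfl
  | succ f ih =>
    intro n hn
    rw [bF]
    by_cases h1 : n ≤ 1
    · rw [if_pos h1]
      interval_cases n
      · rw [hC.zero]; rfl
      · rw [hC.one]; rfl
    · rw [if_neg h1]
      simp only [force_eq]
      have hp : n.minFac.Prime := Nat.minFac_prime (by omega)
      have hd := Nat.mul_div_cancel' n.minFac_dvd
      have hlt : n / n.minFac < n := Nat.div_lt_self (by omega) hp.one_lt
      have hr := hC.rel n.minFac (n / n.minFac) hp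
      rw [hd] at hr
      rw [hr, ih _ (by omega), ih _ ((Nat.div_le_self _ _).trans (by omega)), hl _ hp, dn]
      simp only [← Nat.dvd_iff_mod_eq_zero, hR _ hp]
      split_ifs with a1 a2 <;> simp [*]

lemma Coef.sq {N : ℕ} {b : ℕ → ℤ} (hC : Coef N b) (n : ℕ) : |b n| ≤ n ^ 2 := by
  induction n using Nat.strong_induction_on with
  | _ n ih =>
    by_cases h1 : n ≤ 1
    · interval_cases n
      · simp [hC.zero]
      · simp [hC.one]
    have hp : n.minFac.Prime := Nat.minFac_prime (by omega)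
    obtain ⟨m, hm⟩ := n.minFac_dvd
    generalize n.minFac = p at hp hm
    subst hm
    have hm0 : 0 < m := Nat.pos_of_ne_zero (by rintro rfl; simp at h1)
    have h2 := hp.two_le
    have a1 := ih m (by nlinarith)
    have a2 := hC.le p hp
    have h2' : (2 : ℤ) ≤ p := by exact_mod_cast h2
    have a3 : |b p * b m| ≤ p * m ^ 2 := by
      rw [abs_mul]; exact mul_le_mul a2 a1 (abs_nonneg _) (by positivity)
    have a4 : |(if p ∣ N then 0 else (p : ℤ)) * dn b p m| ≤ m ^ 2 := by
      unfold dn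
      split_ifs with c1 c2 c2
      · simp
      · simp
      · obtain ⟨k, rfl⟩ := c2
        have hk : 0 < k := Nat.pos_of_ne_zero (by rintro rfl; simp at hm0)
        rw [Nat.mul_div_cancel_left _ hp.pos, abs_mul, Nat.abs_cast]
        have a5 := ih k (by nlinarith [Nat.mul_le_mul h2 (le_refl (p * k)), Nat.mul_le_mul h2 (le_refl k)])
        push_cast
        have : (0 : ℤ) ≤ (k : ℤ) ^ 2 := by positivity
        nlinarith [mul_le_mul_of_nonneg_left a5 (by linarith : (0 : ℤ) ≤ p),
          mul_nonneg this (by nlinarith : (0 : ℤ) ≤ p * (p - 1))]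
      · simp
    rw [hC.rel p m hp]
    refine (abs_sub _ _).trans ?_
    push_cast
    have : (0 : ℤ) ≤ (m : ℤ) ^ 2 := by positivity
    nlinarith [mul_nonneg this (by nlinarith : (0 : ℤ) ≤ p ^ 2 - p - 1)]

/-- the value at a prime -/
def lamF (W : WeierstrassCurve ℤ) (N p : ℕ) : ℤ := if N % (p * p) = 0 then 0 else apF W p

lemma lamF_eq {W : WeierstrassCurve ℤ} {N : ℕ} {b : ℕ → ℤ} (hC : Coef N b) (hL : Link W N b)
    (p : ℕ) (hp : p.Prime) : lamF W N p = b p := by
  unfold lamF
  split_ifs with h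
  · exact (hC.two p hp (by rw [sq]; exact Nat.dvd_of_mod_eq_zero h)).symm
  · rw [← ap_eq W hp]
    by_cases h1 : p ∣ N
    · refine (hL.mul p hp ?_).2.2.symm
      have a1 := (hp.dvd_iff_one_le_factorization hC.pos.ne').1 h1
      have a2 : ¬ 2 ≤ N.factorization p := fun h2 => h (Nat.mod_eq_zero_of_dvd (by
        rw [← sq]; exact (hp.pow_dvd_iff_le_factorization hC.pos.ne').2 h2))
      omega
    · exact (hL.good p hp h1).2.symm

/-- the list `b 1, …, b K` -/
def bL (W : WeierstrassCurve ℤ) (N K : ℕ) : List ℤ :=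
  (List.range' 1 K).map fun n => bF (lamF W N) N n n

lemma bL_eq {W : WeierstrassCurve ℤ} {N : ℕ} {b : ℕ → ℤ} (hC : Coef N b) (hL : Link W N b)
    (K : ℕ) : bL W N K = (List.range' 1 K).map b :=
  List.map_congr_left fun n _ => bF_eq hC (fun _ _ => Iff.rfl) (lamF_eq hC hL) n n le_rfl

def PL : ℕ := 986960440108935861
def PH : ℕ := 986960440108935862
def PQ : ℕ := 100000000000000000

lemma pi_sq : (PL : ℝ) / PQ ≤ π ^ 2 ∧ π ^ 2 ≤ PH / PQ := by
  have h1 := Real.pi_gt_d20
  have h2 := Real.pi_lt_d20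
  unfold PL PH PQ
  constructor
  · refine le_trans ?_ (pow_le_pow_left₀ (by norm_num) h1.le 2); norm_num
  · refine le_trans (pow_le_pow_left₀ Real.pi_pos.le h2.le 2) ?_; norm_num

/-- the test at `y = t / (1000 * 2 π)` with the coefficients `bs` -/
def feC (bs : List ℤ) (N K t : ℕ) : Bool :=
  force (expLo (4000 * PH) (PQ * N * t)) fun l₁ => force (expHi (4000 * PL) (PQ * N * t)) fun h₁ =>
  force (expLo t 1000) fun l₂ => force (expHi t 1000) fun h₂ =>
  force (ev l₁ bs).natAbs fun a => force (ev l₂ bs).natAbs fun c =>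
  decide (0 < t) && decide (h₁ * (K + 2) ^ 2 < SC * (K + 1) ^ 2) &&
  decide (h₂ * (K + 2) ^ 2 < SC * (K + 1) ^ 2) &&
  (decide (N * t ^ 2 * PQ * (c + rad K l₂ h₂) + rad K l₁ h₁ * (4000000 * PL) < a * (4000000 * PL))
    || decide ((a + rad K l₁ h₁) * (4000000 * PH) + N * t ^ 2 * PQ * rad K l₂ h₂ <
      N * t ^ 2 * PQ * c))

theorem feC_sound {N K t : ℕ} {b : ℕ → ℤ} (hC : Coef N b) (hF : FE N b)
    (h : feC ((List.range' 1 K).map b) N K t = true) : False := by
  simp only [feC, force_eq, Bool.and_eq_true, Bool.or_eq_true, decide_eq_true_eq] at h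
  obtain ⟨⟨⟨ht, c1⟩, c2⟩, c3⟩ := h
  obtain ⟨w, hw, hF⟩ := hF
  have ht' : (0 : ℝ) < t := by exact_mod_cast ht
  have hN : (0 : ℝ) < N := by exact_mod_cast hC.pos
  have hπ := Real.pi_pos
  have hQ : (0 : ℝ) < PQ := by unfold PQ; norm_num
  have hQ' : 0 < PQ := by unfold PQ; norm_num
  obtain ⟨p1, p2⟩ := pi_sq
  obtain ⟨A, B, hA, hB, hAB⟩ := hF (t / (1000 * (2 * π))) (by positivity)
  have hd : 0 < PQ * N * t := Nat.mul_pos (Nat.mul_pos hQ' hC.pos) ht
  have eA := encl hC.sq (Real.exp_pos (-(4000 * π ^ 2 / (N * t)))).le (A := A)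
    (expLo_le (n := 4000 * PH) hd (by
      push_cast
      rw [mul_assoc (PQ : ℝ), ← div_div (4000 * PH : ℝ), mul_div_assoc (4000 : ℝ) PH]
      gcongr))
    (le_expHi (n := 4000 * PL) hd (by
      push_cast
      rw [mul_assoc (PQ : ℝ), ← div_div (4000 * PL : ℝ), mul_div_assoc (4000 : ℝ) PL]
      gcongr)) c1 (by
      have e : ∀ n : ℕ, Real.exp (-(4000 * π ^ 2 / (N * t))) ^ n =
          Real.exp (-(2 * π * n / (N * (t / (1000 * (2 * π)))))) := fun n => by
        rw [← Real.exp_nat_mul]; congr 1; field_simp; ring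
      simpa only [e] using hA)
  have eB := encl hC.sq (Real.exp_pos (-((t : ℝ) / (1000 : ℕ)))).le (A := B)
    (expLo_le (n := t) (d := 1000) (by norm_num) le_rfl)
    (le_expHi (n := t) (d := 1000) (by norm_num) le_rfl) c2 (by
      have e : ∀ n : ℕ, Real.exp (-((t : ℝ) / (1000 : ℕ))) ^ n =
          Real.exp (-(2 * π * n * (t / (1000 * (2 * π))))) := fun n => by
        rw [← Real.exp_nat_mul]; congr 1; push_cast; field_simp
      simpa only [e] using hB)
  generalize ev _ _ = a at eA c3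
  generalize ev _ _ = c at eB c3
  generalize rad K _ _ = ra at eA c3
  generalize rad K _ _ = rc at eB c3
  have hS := SC_pos
  have hw' : |(-w : ℝ)| = 1 := by rcases hw with rfl | rfl <;> simp
  have e1 : 4000000 * π ^ 2 * |SC * A| = N * t ^ 2 * |SC * B| := by
    rw [hAB, abs_mul, abs_mul, abs_mul, abs_mul, abs_mul, hw', abs_of_pos hS, abs_of_pos hN,
      abs_of_nonneg (sq_nonneg _)]
    field_simp; ring
  have a1 := abs_abs_sub_abs_le_abs_sub (a : ℝ) (SC * A)
  have a2 := abs_abs_sub_abs_le_abs_sub (c : ℝ) (SC * B)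
  have a3 := abs_le.1 (a1.trans eA)
  have a4 := abs_le.1 (a2.trans eB)
  have hX := abs_nonneg (SC * A)
  generalize |SC * A| = X at *
  generalize |SC * B| = Y at *
  rw [div_le_iff₀ hQ] at p1
  rw [le_div_iff₀ hQ] at p2
  have hM : (0 : ℝ) < N * t ^ 2 * PQ := by positivity
  have e2 : 4000000 * (π ^ 2 * PQ) * X = N * t ^ 2 * PQ * Y := by linear_combination PQ * e1
  rcases c3 with c3 | c3
  · have c4 : (N : ℝ) * t ^ 2 * PQ * (|(c : ℝ)| + rc) + ra * (4000000 * PL) <
        |(a : ℝ)| * (4000000 * PL) := by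
      rw [← Int.cast_abs, ← Int.cast_abs, Int.abs_eq_natAbs, Int.abs_eq_natAbs]
      exact_mod_cast c3
    have hL : (0 : ℝ) ≤ PL := Nat.cast_nonneg _
    have b1 := mul_le_mul_of_nonneg_left (show Y ≤ |(c : ℝ)| + rc by linarith) hM.le
    have b2 := mul_le_mul_of_nonneg_left (show |(a : ℝ)| - ra ≤ X by linarith) hL
    have b3 := mul_le_mul_of_nonneg_right p1 hX
    nlinarith
  · have c4 : (|(a : ℝ)| + ra) * (4000000 * PH) + (N : ℝ) * t ^ 2 * PQ * rc <
        (N : ℝ) * t ^ 2 * PQ * |(c : ℝ)| := by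
      rw [← Int.cast_abs, ← Int.cast_abs, Int.abs_eq_natAbs, Int.abs_eq_natAbs]
      exact_mod_cast c3
    have hL : (0 : ℝ) ≤ PH := Nat.cast_nonneg _
    have b1 := mul_le_mul_of_nonneg_left (show |(c : ℝ)| - rc ≤ Y by linarith) hM.le
    have b2 := mul_le_mul_of_nonneg_left (show X ≤ |(a : ℝ)| + ra by linarith) hL
    have b3 := mul_le_mul_of_nonneg_right p2 hX
    nlinarith

/-- the test for the curve `W` at the level `N` -/
def feK (W : WeierstrassCurve ℤ) (N K t : ℕ) : Bool := feC (bL W N K) N K t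

theorem feK_sound {W : WeierstrassCurve ℤ} {N K t : ℕ} {b : ℕ → ℤ} (hC : Coef N b)
    (hL : Link W N b) (hF : FE N b) (h : feK W N K t = true) : False :=
  feC_sound hC hF (by rwa [feK, bL_eq hC hL] at h)

end Pool.Agent.MP_b2c033_nt.U
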