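import Pool.Agent.MP_b2c033_nt.UC.EnAll2
import Pool.Agent.MP_b2c033_nt.UC.TSpec
import Pool.Agent.MP_b2c033_nt.UC.TB

/-! A faster arrangement of the filters. -/

namespace Pool.Agent.MP_b2c033_nt.U

/-- the entry of the table -/
def tb (A P : ℕ) : ℕ := Nat.mod (Nat.shiftRight TB (Nat.mul (nat_lit 64)
  (Nat.add (Nat.mul (nat_lit 4) A) P))) (nat_lit 18446744073709551616)

theorem tb_ok : ∀ A ∈ [1, 2, 3, 5, 6, 7, 10, 14, 15, 21, 30, 35, 42, 70, 105, 210],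
    ∀ P ∈ [0, 1, 2, 3], (force (tb A P) fun T => Nat.beq T 0 || chkQ A P T) = true := by
  decide +kernel

lemma qk2_of {v g P : ℕ} (hP : P ∈ [0, 1, 2, 3]) (h : v + 1 ≤ tb (Nat.gcd g 210) P) :
    qk2 TB (v + 1) (Nat.gcd g 210) P = true := by
  have h1 : Nat.gcd g 210 ∈ [1, 2, 3, 5, 6, 7, 10, 14, 15, 21, 30, 35, 42, 70, 105, 210] := by
    have := Nat.mem_divisors.2 ⟨Nat.gcd_dvd_right g 210, by norm_num⟩
    revert this
    generalize Nat.gcd g 210 = x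
    revert x
    decide +kernel
  have h2 := tb_ok _ h1 P hP
  rw [force_eq, Bool.or_eq_true] at h2
  rw [qk2, force_eq, Bool.and_eq_true]
  refine ⟨Nat.ble_eq_true_of_le h, h2.resolve_left fun h3 => ?_⟩
  have := Nat.eq_of_beq_eq_true h3
  omega

def th3 (A m' : ℕ) : ℕ :=
  Bool.rec (Bool.rec (nat_lit 0) (tb A (nat_lit 2)) (Nat.beq (Nat.gcd m' (nat_lit 143)) (nat_lit 1)))
    (tb A (nat_lit 1)) (Nat.beq m' (nat_lit 1))

def th2 (A m : ℕ) : ℕ :=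
  Bool.rec (Bool.rec (nat_lit 0) (th3 A (Nat.div m (Nat.gcd m P13)))
    (Nat.beq (Nat.gcd m (nat_lit 210)) (nat_lit 1))) (tb A (nat_lit 0)) (Nat.beq m (nat_lit 1))

def th1 (D A g' : ℕ) : ℕ :=
  Bool.rec (Bool.rec (nat_lit 0) (Bool.rec (nat_lit 0) (tb A (nat_lit 3))
      (Nat.beq (Nat.mod (Nat.pow g'.minFac (nat_lit 12)) g') (nat_lit 0)))
      (Nat.beq (Nat.gcd g' (nat_lit 210)) (nat_lit 1)))
    (th2 A (Nat.div D (Nat.gcd D P7))) (Nat.beq g' (nat_lit 1))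

def th0 (D g : ℕ) : ℕ := th1 D (Nat.gcd g (nat_lit 210)) (Nat.div g (Nat.gcd g P7))

/-- the threshold of the first filter -/
def thr (D C : ℕ) : ℕ := th0 D (Nat.gcd D C)

lemma quick_of {D C v : ℕ} (h : v + 1 ≤ thr D C) : quick TB D C (v + 1) = true := by
  simp only [quick, force_eq]
  unfold thr th0 th1 th2 th3 at h
  generalize Nat.gcd D C = g at h ⊢
  generalize Nat.div g (Nat.gcd g P7) = g' at h ⊢
  generalize Nat.div D (Nat.gcd D P7) = m at h ⊢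
  generalize Nat.div m (Nat.gcd m P13) = m' at h ⊢
  generalize Nat.beq (Nat.mod (Nat.pow g'.minFac 12) g') 0 = c₁ at h ⊢
  generalize Nat.beq (Nat.gcd g' 210) 1 = c₂ at h ⊢
  generalize Nat.beq (Nat.gcd m 210) 1 = c₃ at h ⊢
  generalize Nat.beq (Nat.gcd m' 143) 1 = c₄ at h ⊢
  generalize Nat.beq g' 1 = c₅ at h ⊢
  generalize Nat.beq m 1 = c₆ at h ⊢
  generalize Nat.beq m' 1 = c₇ at h ⊢
  cases c₅
  · cases c₂
    · exact absurd h (Nat.not_succ_le_zero v)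
    cases c₁
    · exact absurd h (Nat.not_succ_le_zero v)
    exact qk2_of (by simp) h
  cases c₆
  · cases c₃
    · exact absurd h (Nat.not_succ_le_zero v)
    cases c₇
    · cases c₄
      · exact absurd h (Nat.not_succ_le_zero v)
      exact qk2_of (by simp) h
    exact qk2_of (by simp) h
  exact qk2_of (by simp) h

/-- the listed models get their certificate, the others the second filter -/
def lk (w : ℤ × ℤ × ℤ × ℤ × ℤ) (D C v : ℕ) : List (ℤ × ℤ × Ct) → Bool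
  | [] => fast (mkW w) D C v
  | y :: l => bif decide (y.2.1 = w.2.2.2.2) && decide (y.1 = w.2.2.2.1) then full w D C v y.2.2
      else lk w D C v l

/-- an intermediate filter `md a₁ a₂ a₃ a₄ a₆ D C v` -/
abbrev Md : Type := ℤ → ℤ → ℤ → ℤ → ℤ → ℕ → ℕ → ℕ → Bool

def MdS (md : Md) : Prop := ∀ W Ω ρ N b, Sit W Ω ρ N b → W.Δ.natAbs ≠ 1 → ∀ v : ℕ,
  10 ^ 9 * Ω ^ 6 ≤ v → md W.a₁ W.a₂ W.a₃ W.a₄ W.a₆ W.Δ.natAbs W.c₄.natAbs v = true → False

def fl1 (md : Md) (exc : List (ℤ × ℤ × Ct)) (a₁ a₂ a₃ a₄ a₆ : ℤ) (C D T : ℕ) : Bool :=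
  Bool.rec (force (Nat.succ (Nat.div (vb (Nat.pow C (nat_lit 3)) D) D)) fun v =>
      Nat.ble v T || forceZ a₆ fun a₆ => md a₁ a₂ a₃ a₄ a₆ D C v ||
        lk (a₁, a₂, a₃, a₄, a₆) D C v exc)
    true (Nat.ble (Nat.succ (Nat.div VA D)) T)

/-- the filter -/
def flt3 (md : Md) (exc : List (ℤ × ℤ × Ct)) (a₁ a₂ a₃ : ℤ) : Tst := fun a₄ C a₆ _ D =>
  fl1 md exc a₁ a₂ a₃ a₄ a₆ C D (thr D C)

lemma v_ok {W : WeierstrassCurve ℤ} {Ω : ℝ} {P : ℕ} (hV : Vol W Ω) (h0 : W.Δ ≠ 0)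
    (hP : P ≤ W.c₄.natAbs ^ 3) :
    10 ^ 9 * Ω ^ 6 ≤ ((vb P W.Δ.natAbs / W.Δ.natAbs + 1 : ℕ) : ℝ) := by
  have hD : 0 < W.Δ.natAbs := Int.natAbs_pos.2 h0
  refine le_trans ?_ (lt_div_succ _ _ hD)
  rw [le_div_iff₀ (by exact_mod_cast hD)]
  exact vb_sound hV hD le_rfl hP

/-- what the filter needs -/
def H3 (md : Md) : Prop := T_quick ∧ T_fast ∧ T_full ∧ MdS md

theorem snd3 (md : Md) (exc : List (ℤ × ℤ × Ct)) : Snd (H3 md) Res (flt3 md exc) := by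
  rintro ⟨hq, hf, hu, hm⟩ W Ω ρ N b hs h
  have h1 := natAbs_ne_one W
  have h0 := hs.red.ne
  have v0 := v_ok (P := 0) hs.vol h0 (Nat.zero_le _)
  have v1 := v_ok hs.vol h0 le_rfl
  have e0 : vb 0 W.Δ.natAbs = VA := by
    obtain ⟨d, hd⟩ := Nat.exists_eq_succ_of_ne_zero (Int.natAbs_ne_zero.2 h0)
    rw [hd]
    rfl
  rw [e0] at v0
  have h2 : fl1 md exc W.a₁ W.a₂ W.a₃ W.a₄ W.a₆ W.c₄.natAbs W.Δ.natAbs
    (thr W.Δ.natAbs W.c₄.natAbs) = true := h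
  unfold fl1 at h2
  cases hb : Nat.ble (Nat.succ (Nat.div VA W.Δ.natAbs)) (thr W.Δ.natAbs W.c₄.natAbs) with
  | true => exact (hq W Ω ρ N b hs h1 TB _ v0 (quick_of (Nat.le_of_ble_eq_true hb))).elim
  | false =>
    rw [hb] at h2
    simp only [force_eq, forceZ_eq, Bool.or_eq_true] at h2
    rcases h2 with h2 | h2 | h2
    · exact (hq W Ω ρ N b hs h1 TB _ v1 (quick_of (Nat.le_of_ble_eq_true h2))).elim
    · exact (hm W Ω ρ N b hs h1 _ v1 h2).elim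
    · induction exc with
      | nil => exact (hf W Ω ρ N b hs h1 _ v1 h2).elim
      | cons y l ih =>
        rw [lk, Bool.cond_eq_ite] at h2
        split_ifs at h2
        · exact hu (W.a₁, W.a₂, W.a₃, W.a₄, W.a₆) Ω ρ N b hs h1 _ _ v1 h2
        · exact ih (by
            change fl1 md l W.a₁ W.a₂ W.a₃ W.a₄ W.a₆ W.c₄.natAbs W.Δ.natAbs
              (thr W.Δ.natAbs W.c₄.natAbs) = true
            unfold fl1
            rw [hb]
            simp only [force_eq, forceZ_eq, Bool.or_eq_true]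
            exact Or.inr (Or.inr h2)) h2

/-- no intermediate filter -/
def md0 : Md := fun _ _ _ _ _ _ _ _ => false

lemma md0_sound : MdS md0 := fun _ _ _ _ _ _ _ _ _ h => absurd h (by simp [md0])

end Pool.Agent.MP_b2c033_nt.U
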