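import Pool.Agent.MP_b2c033_nt.UC.FeAp
import Pool.Agent.MP_b2c033_nt.U.Spec

/-! The extra invariance fails for the four curves of level `256`. -/

namespace Pool.Agent.MP_b2c033_nt.U

open Finset
open scoped Real

namespace Invx

theorem coef_le {N : ℕ} {b : ℕ → ℤ} (h : Coef N b) (n : ℕ) : |b n| ≤ (n : ℤ) ^ 2 := by
  induction n using Nat.strong_induction_on with
  | _ n ih =>
    rcases Nat.lt_or_ge n 2 with h2 | h2
    · interval_cases n
      · simp [h.zero]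
      · simp [h.one]
    obtain ⟨p, hp, m, rfl⟩ := Nat.exists_prime_and_dvd (n := n) (by omega)
    have p2 := hp.two_le
    have m0 : 0 < m := Nat.pos_of_mul_pos_left (by omega : 0 < p * m)
    have h1 := ih m (by nlinarith)
    have h3 : (p : ℤ) ^ 2 * |dn b p m| ≤ (m : ℤ) ^ 2 := by
      unfold dn
      split_ifs with hd
      · obtain ⟨k, rfl⟩ := hd
        rw [Nat.mul_div_cancel_left _ hp.pos]
        have k0 : 0 < k := Nat.pos_of_mul_pos_left m0
        have := ih k (by nlinarith)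
        push_cast
        nlinarith [sq_nonneg (p : ℤ)]
      · simp
    have h4 : |(if p ∣ N then 0 else p : ℤ)| ≤ p := by split_ifs <;> simp
    have h5 := h.le p hp
    have p2' : (2 : ℤ) ≤ p := by exact_mod_cast p2
    have h6 : |b p * b m| ≤ p * (m : ℤ) ^ 2 := by
      rw [abs_mul]; exact mul_le_mul h5 h1 (abs_nonneg _) (by positivity)
    have h7 : |(if p ∣ N then 0 else p : ℤ) * dn b p m| ≤ p * |dn b p m| := by
      rw [abs_mul]; exact mul_le_mul_of_nonneg_right h4 (abs_nonneg _)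
    have h8 := abs_nonneg (dn b p m)
    have h9 : (p : ℤ) * |dn b p m| ≤ (m : ℤ) ^ 2 := by nlinarith
    rw [h.rel p m hp]
    refine (abs_sub _ _).trans ?_
    push_cast
    nlinarith [sq_nonneg (m : ℤ), mul_le_mul_of_nonneg_right p2' (sq_nonneg (m : ℤ)),
      mul_le_mul_of_nonneg_right p2' (mul_nonneg (by positivity : (0 : ℤ) ≤ p) (sq_nonneg (m : ℤ)))]

/-- the primes below `64` -/
def pl : List ℕ := [2, 3, 5, 7, 11, 13, 17, 19, 23, 29, 31, 37, 41, 43, 47, 53, 59, 61]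

theorem pl_prime : ∀ p ∈ pl, p.Prime := by
  simp only [pl, List.forall_mem_cons]
  norm_num

/-- the table satisfies the recursion -/
def Chk (W : WeierstrassCurve ℤ) (c : ℕ → ℤ) : Prop := c 0 = 0 ∧ c 1 = 1 ∧ ∀ n < 64, n < 2 ∨
  ∃ p ∈ pl, p ∣ n ∧ c n = (if p = 2 then 0 else apF W p * c (n / p) - p * dn c p (n / p))

instance (W : WeierstrassCurve ℤ) (c : ℕ → ℤ) : Decidable (Chk W c) := by
  unfold Chk; infer_instance

theorem eq_of_chk {W : WeierstrassCurve ℤ} {b c : ℕ → ℤ} (h : Coef 256 b) (hl : Link W 256 b)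
    (hc : Chk W c) (n : ℕ) : n < 64 → b n = c n := by
  induction n using Nat.strong_induction_on with
  | _ n ih =>
    intro hn
    rcases hc.2.2 n hn with h2 | ⟨p, hp, ⟨m, rfl⟩, e⟩
    · interval_cases n
      · rw [h.zero, hc.1]
      · rw [h.one, hc.2.1]
    have hp' := pl_prime p hp
    have p2 := hp'.two_le
    rw [e, h.rel p m hp', Nat.mul_div_cancel_left _ hp'.pos]
    by_cases h2 : p = 2
    · subst h2
      rw [h.two 2 hp' (by norm_num)]
      simp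
    have hd : ¬ p ∣ 256 := fun hd =>
      h2 ((Nat.prime_dvd_prime_iff_eq hp' Nat.prime_two).1 (hp'.dvd_of_dvd_pow (n := 8) hd))
    rw [if_neg h2, if_neg hd, (hl.good p hp' hd).2, ap_eq W hp']
    rcases Nat.eq_zero_or_pos m with rfl | m0
    · simp [dn, h.zero, hc.1]
    have m1 : m < p * m := by nlinarith
    have m2 := Nat.div_le_self m p
    rw [ih m m1 (by omega)]
    unfold dn
    rw [ih (m / p) (by omega) (by omega)]

/-- approximate values of the cosine -/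
def tb : ℕ → ℚ
  | 1 => 9807 / 10000
  | 3 => 8265 / 10000
  | 5 => 555 / 1000
  | 7 => 195 / 1000
  | 9 => -(195 / 1000)
  | 11 => -(555 / 1000)
  | 13 => -(8265 / 10000)
  | 15 => -(9807 / 10000)
  | _ => 0

/-- approximate values of `cos (π n / 16)` for odd `n` -/
def cs (n : ℕ) : ℚ := (-1) ^ (n / 16) * tb (n % 16)

theorem base {x lo hi : ℝ} (h0 : 0 ≤ lo) (h1 : lo ≤ x) (h2 : x ≤ hi) (h3 : hi ≤ 1) :
    (1 - hi ^ 2 / 2 - hi ^ 4 * (5 / 96) ≤ Real.cos x ∧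
      Real.cos x ≤ 1 - lo ^ 2 / 2 + hi ^ 4 * (5 / 96)) ∧
    lo - hi ^ 3 / 6 - hi ^ 5 / 100 ≤ Real.sin x ∧
      Real.sin x ≤ hi - lo ^ 3 / 6 + hi ^ 5 / 100 := by
  have x0 : 0 ≤ x := h0.trans h1
  have hx : |x| ≤ 1 := by rw [abs_of_nonneg x0]; linarith
  have a := abs_le.1 (Real.cos_bound hx)
  have b := abs_le.1 (Real.sin_bound hx)
  rw [abs_of_nonneg x0] at a b
  have l2 := pow_le_pow_left₀ h0 h1 2
  have l3 := pow_le_pow_left₀ h0 h1 3
  have u2 := pow_le_pow_left₀ x0 h2 2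
  have u3 := pow_le_pow_left₀ x0 h2 3
  have u4 := pow_le_pow_left₀ x0 h2 4
  have u5 := pow_le_pow_left₀ x0 h2 5
  refine ⟨⟨?_, ?_⟩, ?_, ?_⟩ <;> linarith [a.1, a.2, b.1, b.2]

theorem cos_tb (k : ℕ) (hk : k < 16) (ho : k % 2 = 1) :
    |Real.cos (π * k / 16) - tb k| ≤ 1 / 100 := by
  have p1 := Real.pi_gt_d4
  have p2 := Real.pi_lt_d4
  obtain ⟨⟨a1, a2⟩, a3, a4⟩ := base (x := π / 16) (lo := 0.1963) (hi := 0.1964) (by norm_num)
    (by linarith) (by linarith) (by norm_num)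
  obtain ⟨⟨b1, b2⟩, b3, b4⟩ := base (x := 3 * π / 16) (lo := 0.589) (hi := 0.5891) (by norm_num)
    (by linarith) (by linarith) (by norm_num)
  have e : k = 1 ∨ k = 3 ∨ k = 5 ∨ k = 7 ∨ k = 9 ∨ k = 11 ∨ k = 13 ∨ k = 15 := by omega
  rw [abs_le]
  rcases e with rfl | rfl | rfl | rfl | rfl | rfl | rfl | rfl <;> simp only [tb] <;> push_cast
  · rw [show π * 1 / 16 = π / 16 by ring]; constructor <;> linarith
  · rw [show π * 3 / 16 = 3 * π / 16 by ring]; constructor <;> linarith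
  · rw [show π * 5 / 16 = π / 2 - 3 * π / 16 by ring, Real.cos_pi_div_two_sub]
    constructor <;> linarith
  · rw [show π * 7 / 16 = π / 2 - π / 16 by ring, Real.cos_pi_div_two_sub]
    constructor <;> linarith
  · rw [show π * 9 / 16 = π / 16 + π / 2 by ring, Real.cos_add_pi_div_two]
    constructor <;> linarith
  · rw [show π * 11 / 16 = 3 * π / 16 + π / 2 by ring, Real.cos_add_pi_div_two]
    constructor <;> linarith
  · rw [show π * 13 / 16 = π - 3 * π / 16 by ring, Real.cos_pi_sub]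
    constructor <;> linarith
  · rw [show π * 15 / 16 = π - π / 16 by ring, Real.cos_pi_sub]
    constructor <;> linarith

theorem cos_cs (n : ℕ) (ho : n % 2 = 1) : |Real.cos (π * n / 16) - cs n| ≤ 1 / 100 := by
  have e : π * n / 16 = π * (n % 16 : ℕ) / 16 + (n / 16 : ℕ) * π := by
    conv_lhs => rw [← Nat.mod_add_div n 16]
    push_cast; ring
  rw [e, Real.cos_add_nat_mul_pi, cs]
  push_cast
  rw [← mul_sub, abs_mul, abs_pow, abs_neg, abs_one, one_pow, one_mul]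
  exact cos_tb _ (Nat.mod_lt _ (by norm_num)) (by omega)

theorem exp_bd : (8215 / 10000 : ℝ) ≤ Real.exp (-(π / 16)) ∧ Real.exp (-(π / 16)) ≤ 822 / 1000 := by
  have p1 := Real.pi_gt_d4
  have p2 := Real.pi_lt_d4
  constructor
  · have h := abs_le.1 (Real.exp_bound (x := -(19635 / 100000)) (by norm_num [abs_le]) (n := 4)
      (by norm_num))
    refine le_trans ?_ (Real.exp_le_exp.2 (by linarith : -(19635 / 100000) ≤ -(π / 16)))
    norm_num [Finset.sum_range_succ, Nat.factorial] at h ⊢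
    linarith [h.1]
  · have h := abs_le.1 (Real.exp_bound (x := -(19634 / 100000)) (by norm_num [abs_le]) (n := 4)
      (by norm_num))
    refine le_trans (Real.exp_le_exp.2 (by linarith : -(π / 16) ≤ -(19634 / 100000))) ?_
    norm_num [Finset.sum_range_succ, Nat.factorial] at h ⊢
    linarith [h.2]

/-- lower bound for one term -/
def lo (c : ℕ → ℤ) (n : ℕ) : ℚ := c n * (8215 / 10000) ^ n * (cs n + cs (3 * n))
  - |c n| * (2 * ((822 / 1000) ^ n - (8215 / 10000) ^ n) + (8215 / 10000) ^ n * (1 / 50))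

theorem exp_n (n : ℕ) : Real.exp (-(π * n / 16)) = Real.exp (-(π / 16)) ^ n := by
  rw [← Real.exp_nat_mul]; congr 1; ring

theorem term_ge (c : ℕ → ℤ) (n : ℕ) (h : n % 2 = 1 ∨ c n = 0) : (lo c n : ℝ) ≤
    (c n : ℝ) * Real.exp (-(π * n / 16)) * (Real.cos (π * n / 16) + Real.cos (3 * π * n / 16)) := by
  rcases h with h | h
  swap
  · simp [lo, h]
  have h1 := abs_le.1 (cos_cs n h)
  have h2 := abs_le.1 (cos_cs (3 * n) (by omega))
  rw [show π * ((3 * n : ℕ) : ℝ) / 16 = 3 * π * n / 16 by push_cast; ring] at h2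
  have r0 := pow_le_pow_left₀ (by norm_num) exp_bd.1 n
  have r1 := pow_le_pow_left₀ (Real.exp_pos _).le exp_bd.2 n
  have r2 : (0 : ℝ) ≤ (8215 / 10000) ^ n := by positivity
  rw [exp_n, lo]
  push_cast
  set C := Real.cos (π * n / 16) + Real.cos (3 * π * n / 16) with hC
  have c1 : |C| ≤ 2 := (abs_add_le _ _).trans (by
    linarith [Real.abs_cos_le_one (π * n / 16), Real.abs_cos_le_one (3 * π * n / 16)])
  have c2 : |C - (cs n + cs (3 * n))| ≤ 1 / 50 := abs_le.2 ⟨by linarith, by linarith⟩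
  generalize Real.exp (-(π / 16)) ^ n = R at *
  generalize (8215 / 10000 : ℝ) ^ n = R0 at *
  generalize (822 / 1000 : ℝ) ^ n = R1 at *
  have k : |(c n : ℝ) * ((R - R0) * C + R0 * (C - (cs n + cs (3 * n))))| ≤
      |(c n : ℝ)| * (2 * (R1 - R0) + R0 * (1 / 50)) := by
    rw [abs_mul]
    refine mul_le_mul_of_nonneg_left ((abs_add_le _ _).trans (add_le_add ?_ ?_)) (abs_nonneg _)
    · rw [abs_mul, abs_of_nonneg (by linarith)]; nlinarith [abs_nonneg C]
    · rw [abs_mul, abs_of_nonneg r2]; exact mul_le_mul_of_nonneg_left c2 r2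
  linarith [(abs_le.1 k).1]

theorem tail {b : ℕ → ℤ} (h : Coef 256 b) (m : ℕ) : -(3 / 100 * (85 / 100 : ℝ) ^ m) ≤
    (b (m + 64) : ℝ) * Real.exp (-(π * (m + 64 : ℕ) / 16)) *
      (Real.cos (π * (m + 64 : ℕ) / 16) + Real.cos (3 * π * (m + 64 : ℕ) / 16)) := by
  refine (abs_le.1 ?_).1
  have c1 : |Real.cos (π * (m + 64 : ℕ) / 16) + Real.cos (3 * π * (m + 64 : ℕ) / 16)| ≤ 2 :=
    (abs_add_le _ _).trans ((add_le_add (Real.abs_cos_le_one _) (Real.abs_cos_le_one _)).trans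
      (by norm_num))
  have b1 : |(b (m + 64) : ℝ)| ≤ ((m : ℝ) + 64) ^ 2 := by exact_mod_cast coef_le h (m + 64)
  have b2 : (m : ℝ) + 64 ≤ 64 * (1 + 1 / 64) ^ m := by
    have := one_add_mul_le_pow (a := (1 / 64 : ℝ)) (by norm_num) m
    linarith
  have b3 : |(b (m + 64) : ℝ)| ≤ 4096 * ((1 + 1 / 64) ^ 2) ^ m := by
    refine b1.trans ((pow_le_pow_left₀ (by positivity) b2 2).trans (le_of_eq ?_))
    rw [mul_pow, ← pow_mul, ← pow_mul, mul_comm m]; norm_num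
  have r1 := pow_le_pow_left₀ (Real.exp_pos _).le exp_bd.2 (m + 64)
  rw [abs_mul, abs_mul, exp_n, abs_of_nonneg (pow_nonneg (Real.exp_pos _).le _)]
  calc _ ≤ 4096 * ((1 + 1 / 64) ^ 2) ^ m * (822 / 1000) ^ (m + 64) * (2 : ℝ) := by gcongr
    _ = (8192 * (822 / 1000) ^ 64) * ((1 + 1 / 64) ^ 2 * (822 / 1000)) ^ m := by
      rw [mul_pow, pow_add]; ring
    _ ≤ _ := by gcongr <;> norm_num

theorem kill {W : WeierstrassCurve ℤ} {b : ℕ → ℤ} (c : ℕ → ℤ) (h : Coef 256 b)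
    (hl : Link W 256 b) (hc : Chk W c) (he : ∀ n < 64, n % 2 = 1 ∨ c n = 0)
    (hs : 1 / 4 ≤ ∑ n ∈ range 64, lo c n) : ¬ INV b := by
  intro hI
  have h1 := (hasSum_nat_add_iff' 64).2 hI
  have h2 := ((hasSum_geometric_of_lt_one (r := (85 / 100 : ℝ)) (by norm_num)
    (by norm_num)).mul_left (3 / 100)).neg
  have h3 := hasSum_le (tail h) h2 h1
  have h4 : ((∑ n ∈ range 64, lo c n : ℚ) : ℝ) ≤ ∑ n ∈ range 64, (b n : ℝ) *
      Real.exp (-(π * n / 16)) * (Real.cos (π * n / 16) + Real.cos (3 * π * n / 16)) := by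
    rw [Rat.cast_sum]
    refine sum_le_sum fun n hn => ?_
    rw [eq_of_chk h hl hc n (mem_range.1 hn)]
    exact term_ge c n (he n (mem_range.1 hn))
  have h5 : ((1 / 4 : ℚ) : ℝ) ≤ _ := (Rat.cast_le.2 hs).trans h4
  rw [show ((1 / 4 : ℚ) : ℝ) = 1 / 4 by norm_num] at h5
  rw [show (1 - 85 / 100 : ℝ)⁻¹ = 20 / 3 by norm_num] at h3
  linarith

end Invx

open Invx in
theorem not_inv {l : ℤ × ℤ × ℤ × ℤ × ℤ} {b : ℕ → ℤ}
    (hl : l ∈ [(0, -1, 0, -3, -1), (0, 1, 0, -3, 1), (0, 0, 0, -2, 0), (0, 0, 0, 2, 0)])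
    (h : Coef 256 b) (hk : Link (mkW l) 256 b) : ¬ INV b := by
  simp only [List.mem_cons, List.not_mem_nil, or_false] at hl
  rcases hl with rfl | rfl | rfl | rfl
  · exact kill (fun n => [0, 1, 0, 2, 0, 0, 0, 0, 0, 1, 0, 6, 0, 0, 0, 0, 0, -6, 0, 2, 0, 0, 0, 0,
      0, -5, 0, -4, 0, 0, 0, 0, 0, 12, 0, 0, 0, 0, 0, 0, 0, 6, 0, -10, 0, 0, 0, 0, 0, -7, 0, -12, 0,
      0, 0, 0, 0, 4, 0, 6, 0, 0, 0, 0].getD n 0) h hk (by decide +kernel) (by decide +kernel)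
      (by decide +kernel)
  · exact kill (fun n => [0, 1, 0, -2, 0, 0, 0, 0, 0, 1, 0, -6, 0, 0, 0, 0, 0, -6, 0, -2, 0, 0, 0, 0,
      0, -5, 0, 4, 0, 0, 0, 0, 0, 12, 0, 0, 0, 0, 0, 0, 0, 6, 0, 10, 0, 0, 0, 0, 0, -7, 0, 12, 0,
      0, 0, 0, 0, 4, 0, -6, 0, 0, 0, 0].getD n 0) h hk (by decide +kernel) (by decide +kernel)
      (by decide +kernel)
  · exact kill (fun n => [0, 1, 0, 0, 0, -4, 0, 0, 0, -3, 0, 0, 0, -4, 0, 0, 0, -2, 0, 0, 0, 0, 0, 0,
      0, 11, 0, 0, 0, -4, 0, 0, 0, 0, 0, 0, 0, 12, 0, 0, 0, -10, 0, 0, 0, 12, 0, 0, 0, -7, 0, 0, 0,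
      -4, 0, 0, 0, 0, 0, 0, 0, 12, 0, 0].getD n 0) h hk (by decide +kernel) (by decide +kernel)
      (by decide +kernel)
  · exact kill (fun n => [0, 1, 0, 0, 0, 4, 0, 0, 0, -3, 0, 0, 0, 4, 0, 0, 0, -2, 0, 0, 0, 0, 0, 0,
      0, 11, 0, 0, 0, 4, 0, 0, 0, 0, 0, 0, 0, -12, 0, 0, 0, -10, 0, 0, 0, -12, 0, 0, 0, -7, 0, 0, 0,
      4, 0, 0, 0, 0, 0, 0, 0, -12, 0, 0].getD n 0) h hk (by decide +kernel) (by decide +kernel)
      (by decide +kernel)

end Pool.Agent.MP_b2c033_nt.U
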