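import Pool.Agent.MP_b2c033_nt.UC.MidS
import Pool.Agent.MP_b2c033_nt.UC.TAll
import Pool.Agent.MP_b2c033_nt.UC.Flt3
import Pool.Agent.MP_b2c033_nt.UC.MidV0
import Pool.Agent.MP_b2c033_nt.UC.MidV1
import Pool.Agent.MP_b2c033_nt.UC.MidV2
import Pool.Agent.MP_b2c033_nt.UC.MidV3
import Pool.Agent.MP_b2c033_nt.UC.MidV4
import Pool.Agent.MP_b2c033_nt.UC.MidV5
import Pool.Agent.MP_b2c033_nt.UC.MidV6
import Pool.Agent.MP_b2c033_nt.UC.MidV7
import Pool.Agent.MP_b2c033_nt.UC.MidV8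
import Pool.Agent.MP_b2c033_nt.UC.MidV9
import Pool.Agent.MP_b2c033_nt.UC.MidV10

/-! The two cheap filters are sound. -/

namespace Pool.Agent.MP_b2c033_nt.U

theorem okM_TM : OkM TM := by
  intro s₂ h₂ s₃ h₃
  interval_cases s₂ <;> interval_cases s₃
  exacts [okM_00, okM_01, okM_02, okM_03, okM_04, okM_05,
    okM_10, okM_11, okM_12, okM_13, okM_14, okM_15, okM_20,
    okM_21, okM_22, okM_23, okM_24, okM_25, okM_30, okM_31, okM_32, okM_33,
    okM_34, okM_35, okM_40, okM_41, okM_42, okM_43, okM_44, okM_45]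

theorem t_pre : T_pre TM := pre_of c_D01 c_D3 c_D4 c_St c_H5 t_tN t_enN t_kill t_quick okM_TM

theorem mid_sound : MdS (mid TM) := fun W Ω ρ N b S _ =>
  mid_of c_D01 c_D3 c_D4 c_St c_H5 t_tN t_enN t_kill okM_TM W Ω ρ N b S

theorem h3_mid : H3 (mid TM) := ⟨t_quick, t_fast, t_full, mid_sound⟩

end Pool.Agent.MP_b2c033_nt.U
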