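import Pool.Agent.MP_b2c033_nt.UC.EnR

/-! A filter that depends only on the reduction at `2, 3, 5, 7`: definitions. -/

namespace Pool.Agent.MP_b2c033_nt.U

/-- the value at a prime: digits below `r` are good, `r` is multiplicative, `r + 1` additive -/
def lamD (r s : ℕ) (h : Bool) : ℤ :=
  bif h then 0 else bif Nat.blt s r then (s : ℤ) else bif Nat.beq s r then 1 else 0

def radD (p r s : ℕ) (h : Bool) : ℕ := bif h then p else bif Nat.blt s r then 1 else p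

def lamM (x₂ x₃ x₅ x₇ : ℤ) (p : ℕ) : ℤ :=
  bif Nat.beq p 2 then x₂ else bif Nat.beq p 3 then x₃ else bif Nat.beq p 5 then x₅ else
    bif Nat.beq p 7 then x₇ else 0

/-- the product of the primes between `11` and `47` -/
def Q47 : ℕ := 2928046583754721

def csM (s₂ s₃ s₅ s₇ : ℕ) (h₂ h₃ : Bool) : List ℕ :=
  forceZ (lamD 3 s₂ h₂) fun x₂ => forceZ (lamD 4 s₃ h₃) fun x₃ =>
  forceZ (lamD 5 s₅ false) fun x₅ => forceZ (lamD 6 s₇ false) fun x₇ =>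
  force (radD 2 3 s₂ h₂ * radD 3 4 s₃ h₃ * radD 5 5 s₅ false * radD 7 6 s₇ false * Q47) fun R =>
    (List.range' 1 49).map fun n => (bF (lamM x₂ x₃ x₅ x₇) R n n).natAbs ^ 2 * 268435456 / n

/-- the classes of exponents -/
def clD (p r s : ℕ) (h : Bool) (hy ad : List Op) : List Op :=
  bif h then hy else bif Nat.blt s r then [o1] else bif Nat.beq s r then [om p] else ad

def allK (s₂ s₃ s₅ s₇ P Q : ℕ) (h₂ h₃ : Bool) (cs : List ℕ) : Bool :=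
  (clD 2 3 s₂ h₂ [[(4, 3, 4)], [(4, 5, 16)]] [[(1, 3, 4)], [(1, 5, 16)]]).all fun o₂ =>
    (clD 3 4 s₃ h₃ [[(45, 8, 3)], [(9, 4, 9), (9, 4, 3)]]
      [[(5, 8, 3)], [(1, 4, 9), (1, 4, 3)]]).all fun o₃ =>
    killA (tN cs) Q ([o₂] :: [o₃] :: clD 5 5 s₅ false [] [[(4, 6, 5)]] ::
      clD 7 6 s₇ false [] [[(6, 8, 7)]] :: xo P) []

def chkM1 (s₂ s₃ s₅ s₇ P Q : ℕ) (h₂ h₃ : Bool) : Bool :=
  allK s₂ s₃ s₅ s₇ P Q h₂ h₃ [268435456] ||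
    forceL (csM s₂ s₃ s₅ s₇ h₂ h₃) (allK s₂ s₃ s₅ s₇ P Q h₂ h₃)

def chkM (s₂ s₃ s₅ s₇ P t : ℕ) : Bool :=
  Nat.beq t 0 || force (Nat.mul (Nat.pow t 3) KQ) fun Q =>
    br4 ((bif Nat.beq s₂ 4 then 2 else 1) * bif Nat.beq s₃ 5 then 3 else 1)
      (chkM1 s₂ s₃ s₅ s₇ P Q)

/-- an entry of the table -/
def fld (TM s₂ s₃ s₅ s₇ P : ℕ) : ℕ :=
  Nat.mod (Nat.shiftRight TM (Nat.mul 16 (Nat.add P (Nat.mul 4 (Nat.add s₇ (Nat.mul 8
    (Nat.add s₅ (Nat.mul 7 (Nat.add s₃ (Nat.mul 6 s₂)))))))))) 65536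

def okM (TM s₂ s₃ : ℕ) : Bool :=
  loopB (fun s₅ => force s₅ fun s₅ => loopB (fun s₇ => force s₇ fun s₇ =>
    loopB (fun P => force P fun P => force (fld TM s₂ s₃ s₅ s₇ P) (chkM s₂ s₃ s₅ s₇ P)) 4) 8) 7

/-- the table is correct -/
def OkM (TM : ℕ) : Prop := ∀ s₂ < 5, ∀ s₃ < 6, okM TM s₂ s₃ = true

def apA (a₁ a₂ a₃ : ℤ) (p x y : ℕ) : ℕ := (apF (mkW (a₁, a₂, a₃, x, y)) p).natAbs

/-- the digit at `p`; `x ≡ a₄` and `y ≡ a₆` modulo `210` -/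
def dg (a₁ a₂ a₃ : ℤ) (p r x y D C : ℕ) : ℕ :=
  bif Nat.beq (Nat.mod D p) 0 then (bif Nat.beq (Nat.mod C p) 0 then Nat.succ r else r) else
    force (Nat.mod x p) fun x => force (Nat.mod y p) fun y => apA a₁ a₂ a₃ p x y

/-- the type in `xo` -/
def bk (D C : ℕ) (k : ℕ → Bool) : Bool :=
  force (Nat.gcd D C) fun g => force (Nat.div g (Nat.gcd g P7)) fun g' =>
  bif Nat.beq g' 1 then
    force (Nat.div D (Nat.gcd D P7)) fun m => bif Nat.beq m 1 then k 0 else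
      Nat.beq (Nat.gcd m 210) 1 && force (Nat.div m (Nat.gcd m P13)) fun m' =>
        bif Nat.beq m' 1 then k 1 else Nat.beq (Nat.gcd m' 143) 1 && k 2
  else Nat.beq (Nat.gcd g' 210) 1 && Nat.beq (Nat.mod (Nat.pow g'.minFac 12) g') 0 && k 3

def mid (TM : ℕ) (a₁ a₂ a₃ a₄ a₆ : ℤ) (D C v : ℕ) : Bool :=
  force (a₄ % 210).toNat fun x => force (a₆ % 210).toNat fun y => bk D C fun P =>
    Nat.ble v (Nat.pow (fld TM (dg a₁ a₂ a₃ 2 3 x y D C) (dg a₁ a₂ a₃ 3 4 x y D C)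
      (dg a₁ a₂ a₃ 5 5 x y D C) (dg a₁ a₂ a₃ 7 6 x y D C) P) 3)

/-- two cheap filters in front of the test `t` -/
def pre (TB TM : ℕ) (a₁ a₂ a₃ : ℤ) (t : Tst) : Tst := fun a₄ C a₆ y D =>
  force (Nat.succ (Nat.div (vb (Nat.pow C 3) D) D)) fun v => quick TB D C v ||
    (mid TM a₁ a₂ a₃ a₄ a₆ D C v || t a₄ C a₆ y D)

def T_pre (TM : ℕ) : Prop := ∀ W Ω ρ N b, Sit W Ω ρ N b → ∀ TB t,
  (pre TB TM W.a₁ W.a₂ W.a₃ t).at W = true → t.at W = true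

end Pool.Agent.MP_b2c033_nt.U
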