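import Pool.Agent.MP_b2c033_nt.UC.MuKit
import Pool.Agent.MP_b2c033_nt.UC.Inv
import Pool.Agent.MP_b2c033_nt.U.Lists

/-! The case of a combination with several terms at the true level. -/

namespace Pool.Agent.MP_b2c033_nt.U

lemma loss_big {p : ℕ} {a : ℤ} (s : ℕ) (hp : 13 ≤ p) (ha : a ^ 2 ≤ 4 * p) :
    loss p 0 a s ≤ 1 / 7 := by
  have hp' : (13 : ℚ) ≤ p := by exact_mod_cast hp
  have ha' : (a : ℚ) ^ 2 ≤ 4 * p := by exact_mod_cast ha
  have h1 : |a| ≤ p - 6 := by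
    have hz : (13 : ℤ) ≤ p := by exact_mod_cast hp
    by_contra hc
    have h2 : (p : ℤ) - 5 ≤ |a| := by omega
    have h3 := pow_le_pow_left₀ (by omega) h2 2
    rw [sq_abs] at h3
    nlinarith
  have h1' : ((|a| : ℤ) : ℚ) ≤ p - 6 := by exact_mod_cast h1
  have h4 : ((p : ℚ) - 1) ^ 2 ≤ (p + 1) ^ 2 - (a : ℚ) ^ 2 := by nlinarith
  have h5 : (0 : ℚ) < (p - 1) ^ 2 := by nlinarith
  rw [loss, if_pos rfl, if_neg (by omega)]
  generalize ((p : ℚ) + 1) ^ 2 - (a : ℚ) ^ 2 = D at h4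
  have hD : 0 < D := h5.trans_le h4
  have h6 : ((p : ℚ) - 1) * (p - 1) ^ 2 ≤ (p - 1) * D :=
    mul_le_mul_of_nonneg_left h4 (by linarith)
  have h7 : (12 : ℚ) * (p - 1) ^ 2 ≤ (p - 1) * (p - 1) ^ 2 :=
    mul_le_mul_of_nonneg_right (by linarith) h5.le
  refine max_le ?_ (max_le ?_ ?_)
  · push_cast at h1' ⊢
    exact one_div_le_one_div_of_le (by norm_num) (by linarith)
  · rw [div_le_iff₀ (mul_pos (by linarith) hD)]; nlinarith
  · rw [div_le_iff₀ (mul_pos (by linarith) hD)]; nlinarith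

def muN (W : WeierstrassCurve ℤ) (N : ℕ) (Ω ρ : ℚ) (n : ℕ) (s : ℕ → ℕ) (l : List ℕ) : Bool :=
  decide (0 ≤ ρ) && decide (0 ≤ Ω) && decide (0 ≤ Mtot N s) &&
    decide (Ω * (1 / 7 * Mtot N s) < n * ρ) && ([2, 3, 5, 7, 11] ++ l).all fun p =>
      decide (Ω * (loss p (N.factorization p) (lamF W N p) (s p) * Mtot N s) < n * ρ)

lemma one_le_hyp (W : WeierstrassCurve ℤ) (N : ℕ) : 1 ≤ hyp W N :=
  Finset.prod_pos fun _ hp => (Nat.prime_of_mem_primeFactors (Finset.mem_filter.1 hp).1).pos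

lemma muN_sound {W : WeierstrassCurve ℤ} {N n n' : ℕ} {b : ℕ → ℤ} {Ω ρ : ℝ} {Ω' ρ' : ℚ}
    {s : ℕ → ℕ} {l : List ℕ} (hA : ApFacts W) (hC : Coef N b) (hL : Link W N b) (h0 : 0 < Ω)
    (hΩ : Ω ≤ Ω') (hρ : ρ' ≤ ρ) (hl : l.toFinset = N.primeFactors) (hn : n' ≤ n)
    (h : muN W N Ω' ρ' n' s l = true) : ¬ Multi W N b Ω ρ n s := by
  rintro ⟨p, hp, hm⟩
  simp only [muN, Bool.and_eq_true, decide_eq_true_eq, List.all_eq_true] at h
  obtain ⟨⟨⟨⟨c1, c2⟩, c3⟩, c4⟩, c5⟩ := h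
  have key : Ω' * (loss p (N.factorization p) (b p) (s p) * Mtot N s) < n' * ρ' := by
    by_cases hm : p ∈ [2, 3, 5, 7, 11] ++ l
    · rw [← lamF_eq hC hL p hp]; exact c5 p hm
    · simp only [List.mem_append, List.mem_cons, List.not_mem_nil, or_false, not_or] at hm
      have hN : ¬ p ∣ N := fun hd => hm.2 (List.mem_toFinset.1
        (hl ▸ Nat.mem_primeFactors.2 ⟨hp, hd, hC.pos.ne'⟩))
      have h13 : 13 ≤ p := by
        by_contra hc
        have := hp.two_le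
        have hc : p < 13 := by omega
        interval_cases p <;> first | omega | exact absurd hp (by norm_num)
      rw [Nat.factorization_eq_zero_of_not_dvd hN, (hL.good p hp hN).2]
      exact lt_of_le_of_lt (mul_le_mul_of_nonneg_left (mul_le_mul_of_nonneg_right
        (loss_big _ h13 (hA.hasse p hp (hL.good p hp hN).1)) c3) c2) c4
  have key' : (Ω' : ℝ) * ((loss p (N.factorization p) (b p) (s p) : ℚ) * (Mtot N s : ℚ)) <
      n' * ρ' := by exact_mod_cast key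
  generalize ((loss p (N.factorization p) (b p) (s p) : ℚ) : ℝ) * (Mtot N s : ℚ) = x at hm key'
  have c1' : (0 : ℝ) ≤ ρ' := by exact_mod_cast c1
  have h1 : (1 : ℝ) ≤ (hyp W N : ℝ) ^ 2 := one_le_pow₀ (by exact_mod_cast one_le_hyp W N)
  have hn' : (n' : ℝ) ≤ n := by exact_mod_cast hn
  have h2 : (n' : ℝ) * ρ' ≤ n * (hyp W N : ℝ) ^ 2 * ρ :=
    mul_le_mul (hn'.trans (le_mul_of_one_le_right n.cast_nonneg h1)) hρ c1' (by positivity)
  rcases le_or_gt 0 x with hx | hx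
  · nlinarith
  · have : (0 : ℝ) ≤ Ω' := h0.le.trans hΩ
    have h3 : (0 : ℝ) ≤ n' * ρ' := by positivity
    nlinarith

/-- a curve, its level, the primes with their roots, and the numbers `K, om, n, x` -/
structure MuC where
  w : ℤ × ℤ × ℤ × ℤ × ℤ
  N : ℕ
  l : List (ℕ × ℕ)
  K : ℕ
  om : ℕ
  n : ℕ
  x : ℕ

def MuC.rt (c : MuC) (p : ℕ) : ℕ := (c.l.lookup p).getD 0

def MuC.ok (c : MuC) : Bool :=
  okL c.N (c.l.map (·.1)) c.rt && volC (mkW c.w) c.om c.n c.x &&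
    muN (mkW c.w) c.N (c.om / 1000) (rhoLo (mkW c.w) c.N (c.l.map (·.1)) c.rt c.K)
      (if c.w ∈ torL then 4 else 3)
      (if c.N = 256 ∧ c.w ∈ [(0,-1,0,-3,-1), (0,1,0,-3,1), (0,0,0,-2,0), (0,0,0,2,0)] then
        fun _ => 2 else smN c.N) (c.l.map (·.1))

theorem MuC.sound (c : MuC) (h : c.ok = true) {Ω ρ : ℝ} {b : ℕ → ℤ} (h0 : (mkW c.w).Δ ≠ 0)
    (hA : ApFacts (mkW c.w)) (hV : Vol (mkW c.w) Ω) (hC : Coef c.N b) (hL : Link (mkW c.w) c.N b)
    (hH : HoroB c.N b ρ) (n : ℕ) (hn : (n = 3 ∧ mkW c.w ∉ torL.map mkW) ∨ n = 4)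
    (h1 : Multi (mkW c.w) c.N b Ω ρ n (smN c.N))
    (h2 : c.N = 256 → INV b ∨ Multi (mkW c.w) c.N b Ω ρ n fun _ => 2) : False := by
  simp only [MuC.ok, Bool.and_eq_true] at h
  obtain ⟨⟨c1, c2⟩, c4⟩ := h
  have hl : (c.l.map (·.1)).toFinset = c.N.primeFactors := by
    simp only [okL, Bool.and_eq_true, decide_eq_true_eq] at c1
    exact c1.1.1.2
  have hn' : (if c.w ∈ torL then 4 else 3) ≤ n := by
    split_ifs with ht
    · rcases hn with ⟨_, hn⟩ | hn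
      · exact absurd (List.mem_map_of_mem ht) hn
      · omega
    · omega
  refine muN_sound hA hC hL hV.pos (by simpa using volC_sound h0 hV c2) (rhoLo_le hC hL hH c1) hl
    hn' c4 ?_
  split_ifs with h256
  · refine (h2 h256.1).resolve_left ?_
    rw [h256.1] at hC hL
    exact not_inv h256.2 hC hL
  · exact h1

end Pool.Agent.MP_b2c033_nt.U
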