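import Pool.Agent.MP_b2c033_nt.UC.FeK
import Pool.Agent.MP_b2c033_nt.U.Spec

/-! Rational bounds for the energy and for the covolume. -/

namespace Pool.Agent.MP_b2c033_nt.U

open scoped Real

/-- `SC * ∑ b_n ^ 2 / n * r ^ (n - s + 1)` from below, for the list `b_s, b_(s+1), …` -/
def tH (l : ℕ) : ℕ → List ℤ → ℕ
  | _, [] => 0
  | s, b :: bs => (b.natAbs ^ 2 * SC / s + tH l (s + 1) bs) * l / SC

lemma tH_le {l : ℕ} {r : ℝ} (hl : (l : ℝ) ≤ SC * r) (b : ℕ → ℤ) (K : ℕ) : ∀ s,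
    (tH l s ((List.range' s K).map b) : ℝ) ≤
      SC * ∑ i ∈ Finset.range K, (b (s + i) : ℝ) ^ 2 / (s + i : ℕ) * r ^ (i + 1) := by
  induction K with
  | zero => intro s; simp [tH]
  | succ K ih =>
    intro s
    have hS := SC_pos
    rw [List.range'_succ, List.map_cons, tH, Finset.sum_range_succ']
    refine Nat.cast_div_le.trans ?_
    rw [div_le_iff₀ hS]
    have h1 : (((b s).natAbs ^ 2 * SC / s : ℕ) : ℝ) ≤ (b s : ℝ) ^ 2 * SC / s := by
      refine Nat.cast_div_le.trans (le_of_eq ?_)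
      push_cast
      rw [Nat.cast_natAbs, Int.cast_abs, sq_abs]
    have h2 := ih (s + 1)
    have h3 : ∑ i ∈ Finset.range K, (b (s + (i + 1)) : ℝ) ^ 2 / (s + (i + 1) : ℕ) * r ^ (i + 1 + 1)
        = r * ∑ i ∈ Finset.range K, (b (s + 1 + i) : ℝ) ^ 2 / (s + 1 + i : ℕ) * r ^ (i + 1) := by
      rw [Finset.mul_sum]
      exact Finset.sum_congr rfl fun i _ => by rw [add_assoc s, add_comm 1 i]; ring
    rw [h3, Nat.cast_mul, Nat.cast_add]
    refine (mul_le_mul (add_le_add h1 h2) hl (Nat.cast_nonneg _)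
      (le_trans (by positivity) (add_le_add h1 h2))).trans (le_of_eq ?_)
    simp only [add_zero, zero_add, pow_one]
    ring

/-- a lower bound for `TT` -/
def ttLo (bs : List ℤ) (X : ℚ) : ℚ :=
  if 0 < X then (force (expLo (1256637062 * X.den) (100000000 * X.num.natAbs)) fun l =>
    (tH l 1 bs : ℚ) / SC) else 0

lemma TT_nonneg (b : ℕ → ℤ) (n : ℕ) (X : ℚ) : 0 ≤ TT b n X :=
  Finset.sum_nonneg fun _ _ => by positivity

lemma ttLo_le (b : ℕ → ℤ) (K : ℕ) (X : ℚ) :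
    (ttLo ((List.range' 1 K).map b) X : ℝ) ≤ TT b (K + 1) X := by
  unfold ttLo
  split_ifs with hX
  · have hn : 0 < X.num := Rat.num_pos.2 hX
    have hX' : (0 : ℝ) < X := by exact_mod_cast hX
    have hx : 4 * π / X ≤ ((1256637062 * X.den : ℕ) : ℝ) / (100000000 * X.num.natAbs : ℕ) := by
      have e : (X : ℝ) = X.num / X.den := by exact_mod_cast (Rat.num_div_den X).symm
      have hd : (0 : ℝ) < X.den := by exact_mod_cast X.den_pos
      have hn' : (0 : ℝ) < X.num := by exact_mod_cast hn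
      have := Real.pi_lt_d20
      push_cast
      rw [Nat.cast_natAbs, abs_of_pos hn, e, div_div_eq_mul_div, mul_div_mul_comm, mul_div_assoc]
      exact mul_le_mul_of_nonneg_right (by linarith) (by positivity)
    have h := tH_le (expLo_le (Nat.mul_pos (by norm_num) (Int.natAbs_pos.2 hn.ne')) hx) b K 1
    rw [force_eq]
    push_cast
    rw [div_le_iff₀ SC_pos, mul_comm (TT _ _ _)]
    refine h.trans (le_of_eq ?_)
    rw [TT, Finset.sum_range_succ']
    simp only [Nat.cast_zero, div_zero, zero_mul, add_zero]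
    congr 1
    refine Finset.sum_congr rfl fun i _ => ?_
    rw [add_comm 1 i, ← Real.exp_nat_mul]
    congr 2
    ring
  · simpa using TT_nonneg b (K + 1) X

def enQ (t : ℚ → ℚ) : List (List (ℚ × ℚ)) → ℚ → ℚ
  | [], X => t X
  | o :: os, X => (o.map fun y => if 0 ≤ y.1 then y.1 * enQ t os (X * y.2) else 0).sum

lemma enQ_le {t : ℚ → ℚ} {T : ℚ → ℝ} (h : ∀ X, (t X : ℝ) ≤ T X) :
    ∀ (os : List (List (ℚ × ℚ))), (∀ o ∈ os, ∀ y ∈ o, 0 ≤ y.1) → ∀ X, (enQ t os X : ℝ) ≤ En T os X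
  | [], _, X => h X
  | o :: os, ho, X => by
    rw [enQ, En, Rat.cast_list_sum, List.map_map]
    refine List.sum_le_sum fun y hy => ?_
    have h0 := ho o List.mem_cons_self y hy
    simp only [Function.comp, if_pos h0, Rat.cast_mul]
    exact mul_le_mul_of_nonneg_left
      (enQ_le h os (fun o' h' => ho o' (List.mem_cons_of_mem _ h')) _) (by exact_mod_cast h0)

/-- the options at the level `N` for the primes `l` and the roots `rt` -/
def osN (N : ℕ) (l : List ℕ) (rt : ℕ → ℕ) : List (List (ℚ × ℚ)) :=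
  l.map fun p => opts p (N.factorization p) (rt p)

def okL (N : ℕ) (l : List ℕ) (rt : ℕ → ℕ) : Bool :=
  decide l.Nodup && decide (l.toFinset = N.primeFactors) &&
    l.all (fun p => decide (2 * rt p ≤ N.factorization p)) &&
    (osN N l rt).all fun o => o.all fun y => decide (0 ≤ y.1)

/-- a lower bound for the energy -/
def rhoLo (W : WeierstrassCurve ℤ) (N : ℕ) (l : List ℕ) (rt : ℕ → ℕ) (K : ℕ) : ℚ :=
  314159 / 100000 * enQ (ttLo (bL W N K)) (osN N l rt) 1

lemma En_nonneg {T : ℚ → ℝ} (h : ∀ X, 0 ≤ T X) (os : List (List (ℚ × ℚ)))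
    (ho : ∀ o ∈ os, ∀ y ∈ o, 0 ≤ y.1) (X : ℚ) : 0 ≤ En T os X := by
  induction os generalizing X with
  | nil => exact h X
  | cons o os ih =>
    rw [En]
    refine List.sum_nonneg fun z hz => ?_
    obtain ⟨y, hy, rfl⟩ := List.mem_map.1 hz
    exact mul_nonneg (by exact_mod_cast ho o List.mem_cons_self y hy)
      (ih (fun o' h' => ho o' (List.mem_cons_of_mem _ h')) _)

theorem rhoLo_le {W : WeierstrassCurve ℤ} {N K : ℕ} {b : ℕ → ℤ} {ρ : ℝ} {l : List ℕ}
    {rt : ℕ → ℕ} (hC : Coef N b) (hL : Link W N b) (hH : HoroB N b ρ) (h : okL N l rt = true) :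
    (rhoLo W N l rt K : ℝ) ≤ ρ := by
  simp only [okL, Bool.and_eq_true, decide_eq_true_eq, List.all_eq_true] at h
  obtain ⟨⟨⟨h1, h2⟩, h3⟩, h4⟩ := h
  refine le_trans ?_ (hH rt l (K + 1) h1 h2 h3)
  rw [rhoLo, bL_eq hC hL]
  push_cast
  have a1 := enQ_le (ttLo_le b K) _ h4 1
  have a2 := En_nonneg (TT_nonneg b (K + 1)) _ h4 1
  have a3 := Real.pi_gt_d6
  exact (mul_le_mul_of_nonneg_left a1 (by norm_num)).trans
    (mul_le_mul_of_nonneg_right (by linarith) a2)

/-- the covolume is at most `om / 1000`; `log n ≤ x / 1000` -/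
def volC (W : WeierstrassCurve ℤ) (om n x : ℕ) : Bool :=
  decide (14060 ^ 6 ≤ om ^ 6 * W.Δ.natAbs) ||
    (decide (1000 ≤ n) && decide ((n + 1400) * W.Δ.natAbs ≤ W.c₄.natAbs ^ 3) &&
      decide (n * expHi x 1000 ≤ SC) &&
      decide (103 * (6284 * x) ^ 6 ≤ 100 * 1000 ^ 6 * n * (om ^ 6 * W.Δ.natAbs)))

theorem volC_sound {W : WeierstrassCurve ℤ} {Ω : ℝ} {om n x : ℕ} (h0 : W.Δ ≠ 0) (hV : Vol W Ω)
    (h : volC W om n x = true) : Ω ≤ om / 1000 := by
  simp only [volC, Bool.and_eq_true, Bool.or_eq_true, decide_eq_true_eq] at h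
  have hD : (0 : ℝ) < |(W.Δ : ℝ)| := abs_pos.2 (by exact_mod_cast h0)
  have e : ((W.Δ.natAbs : ℕ) : ℝ) = |(W.Δ : ℝ)| := by rw [Nat.cast_natAbs, Int.cast_abs]
  refine le_of_pow_le_pow_left₀ (n := 6) (by norm_num) (by positivity)
    (le_of_mul_le_mul_right ?_ hD)
  rcases h with h | ⟨⟨⟨h1, h2⟩, h3⟩, h4⟩
  · refine hV.all.trans ?_
    have : (14060 : ℝ) ^ 6 ≤ om ^ 6 * |(W.Δ : ℝ)| := by rw [← e]; exact_mod_cast h
    rw [div_pow]; linarith
  · have h1' : (1000 : ℝ) ≤ n := by exact_mod_cast h1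
    have hn : (0 : ℝ) < n := by linarith
    refine (hV.big n h1' ?_).trans ?_
    · rw [← e, ← Int.cast_abs, ← Nat.cast_natAbs]; exact_mod_cast h2
    have a1 := le_expHi (n := x) (d := 1000) (x := (x : ℝ) / (1000 : ℕ)) (by norm_num) le_rfl
    have a2 : (n : ℝ) * expHi x 1000 ≤ SC := by exact_mod_cast h3
    have a3 : Real.log n ≤ x / 1000 := by
      rw [Real.log_le_iff_le_exp hn]
      have a4 : SC * (n * Real.exp (-((x : ℝ) / (1000 : ℕ)))) ≤ SC * 1 := by nlinarith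
      have a5 := le_of_mul_le_mul_left a4 SC_pos
      rw [Real.exp_neg, ← div_eq_mul_inv, div_le_one (Real.exp_pos _)] at a5
      exact_mod_cast a5
    have a6 : 0 ≤ Real.log n := Real.log_nonneg (by linarith)
    have a7 : 2 * π * Real.log n ≤ 6.284 * (x / 1000) :=
      mul_le_mul (by linarith [Real.pi_lt_d4]) a3 a6 (by norm_num)
    have a8 := pow_le_pow_left₀ (by positivity) a7 6
    have a9 : (103 : ℝ) * (6284 * x) ^ 6 ≤ 100 * 1000 ^ 6 * n * (om ^ 6 * |(W.Δ : ℝ)|) := by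
      rw [← e]; exact_mod_cast h4
    rw [div_le_iff₀ hn]
    have a10 : (6.284 * ((x : ℝ) / 1000)) ^ 6 = (6284 * x) ^ 6 / 1000 ^ 12 := by ring
    rw [a10] at a8
    rw [div_pow]
    nlinarith

end Pool.Agent.MP_b2c033_nt.U
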