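import Pool.Agent.MP_b2c033_nt.UC.Mu

/-! Certificates at the true level. -/

namespace Pool.Agent.MP_b2c033_nt.U

def muL : List MuC := [
  ⟨(1,0,1,4,-6), 14, [(2,0), (7,0)], 1, 2658, 0, 0⟩,
  ⟨(1,1,1,-10,-10), 15, [(3,0), (5,0)], 1, 2312, 0, 0⟩,
  ⟨(1,1,1,-80,242), 15, [(3,0), (5,0)], 1, 2248, 3777822088, 22053⟩,
  ⟨(1,-1,1,-6,-4), 17, [(17,0)], 1, 4273, 69002, 11142⟩,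
  ⟨(0,1,0,-41,-116), 20, [(2,1), (5,0)], 1, 2153, 3903365, 15178⟩,
  ⟨(1,0,0,-4,-1), 21, [(3,0), (7,0)], 2, 3534, 0, 0⟩,
  ⟨(0,-1,0,-24,-36), 24, [(2,1), (3,0)], 1, 1832, 17810, 9788⟩,
  ⟨(0,-1,0,-64,220), 24, [(2,1), (3,0)], 1, 1827, 9584009, 16076⟩,
  ⟨(1,0,1,0,0), 26, [(2,0), (13,0)], 2, 8169, 0, 0⟩,
  ⟨(0,0,1,-30,63), 27, [(3,1)], 1, 2717, 12286600, 16325⟩,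
  ⟨(0,0,1,0,-7), 27, [(3,1)], 1, 2706, 0, 0⟩,
  ⟨(1,0,1,1,2), 30, [(2,0), (3,0), (5,0)], 2, 3911, 0, 0⟩,
  ⟨(0,1,1,-1,0), 35, [(5,0), (7,0)], 5, 7121, 6089, 8715⟩,
  ⟨(0,0,0,-15,22), 36, [(2,1), (3,0)], 1, 2570, 52600, 10871⟩,
  ⟨(0,0,0,0,-27), 36, [(2,1), (3,0)], 1, 1705, 0, 0⟩,
  ⟨(0,1,1,-3,1), 37, [(37,0)], 1, 5805, 109302, 11602⟩,
  ⟨(1,1,0,1,0), 39, [(3,0), (13,0)], 5, 7635, 0, 0⟩,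
  ⟨(0,0,0,-7,-6), 40, [(2,1), (5,0)], 1, 3034, 4527, 8418⟩,
  ⟨(0,1,0,3,-1), 44, [(2,1), (11,0)], 1, 3742, 0, 0⟩,
  ⟨(1,-1,0,0,-5), 45, [(3,0), (5,0)], 2, 2985, 0, 0⟩,
  ⟨(0,1,0,-384,2772), 48, [(2,1), (3,0)], 1, 914, 340622728, 19647⟩,
  ⟨(0,1,0,-64,-220), 48, [(2,1), (3,0)], 1, 1827, 9584009, 16076⟩,
  ⟨(0,1,0,16,180), 48, [(2,1), (3,0)], 1, 912, 0, 0⟩,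
  ⟨(1,-1,0,-37,-78), 49, [(7,1)], 2, 2485, 16579975, 16624⟩,
  ⟨(1,0,1,-1,-2), 50, [(2,0), (5,0)], 2, 4284, 0, 0⟩,
  ⟨(1,1,1,-3,1), 50, [(2,0), (5,0)], 3, 4409, 2410, 7788⟩,
  ⟨(0,0,0,-4,-3), 52, [(2,1), (13,0)], 1, 4770, 32628, 10393⟩,
  ⟨(1,-1,0,-3,3), 54, [(2,0), (3,1)], 1, 5678, 64925, 11081⟩,
  ⟨(1,-1,1,1,-1), 54, [(2,0), (3,1)], 1, 5740, 0, 0⟩,
  ⟨(1,-1,0,1,0), 55, [(5,0), (11,0)], 2, 7210, 0, 0⟩,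
  ⟨(0,0,0,1,2), 56, [(2,1), (7,0)], 1, 4035, 0, 0⟩,
  ⟨(0,0,0,-44,-112), 64, [(2,2)], 1, 1729, 286096, 12565⟩,
  ⟨(0,0,0,-44,112), 64, [(2,2)], 1, 1729, 286096, 12565⟩,
  ⟨(0,0,0,6,-7), 72, [(2,1), (3,0)], 1, 2459, 0, 0⟩,
  ⟨(0,-1,0,-41,116), 80, [(2,1), (5,0)], 3, 2153, 3903365, 15178⟩,
  ⟨(0,-1,0,4,-4), 80, [(2,1), (5,0)], 3, 3264, 0, 0⟩,
  ⟨(0,0,0,-107,426), 80, [(2,1), (5,0)], 1, 1507, 26459528, 17092⟩,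
  ⟨(0,0,0,-7,6), 80, [(2,1), (5,0)], 7, 3034, 4527, 8418⟩,
  ⟨(0,0,0,13,34), 80, [(2,1), (5,0)], 1, 1515, 0, 0⟩,
  ⟨(0,1,0,2,1), 92, [(2,1), (23,0)], 1, 5253, 0, 0⟩,
  ⟨(0,-1,0,-2,0), 96, [(2,2), (3,0)], 1, 4779, 1039, 6947⟩,
  ⟨(0,1,0,-2,0), 96, [(2,2), (3,0)], 1, 4779, 1039, 6947⟩,
  ⟨(0,0,0,0,4), 108, [(2,1), (3,1)], 1, 3222, 0, 0⟩,
  ⟨(0,-1,0,-8,-16), 112, [(2,1), (7,0)], 1, 2018, 0, 0⟩,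
  ⟨(0,0,0,-19,-30), 112, [(2,1), (7,0)], 1, 2025, 13717, 9527⟩,
  ⟨(0,0,0,1,-2), 112, [(2,1), (7,0)], 7, 4035, 0, 0⟩,
  ⟨(0,1,0,0,4), 112, [(2,1), (7,0)], 3, 3202, 0, 0⟩,
  ⟨(0,-1,1,-7,10), 121, [(11,1)], 1, 3511, 31368, 10354⟩,
  ⟨(0,-1,0,-2,2), 128, [(2,3)], 1, 5597, 9576, 9168⟩,
  ⟨(0,-1,0,1,-1), 128, [(2,3)], 1, 5580, 0, 0⟩,
  ⟨(0,1,0,-2,-2), 128, [(2,3)], 1, 5597, 9576, 9168⟩,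
  ⟨(0,1,0,1,1), 128, [(2,3)], 1, 5580, 0, 0⟩,
  ⟨(0,0,0,-15,-22), 144, [(2,1), (3,1)], 1, 2570, 52600, 10871⟩,
  ⟨(0,0,0,-39,70), 144, [(2,1), (3,1)], 1, 1231, 2505, 7827⟩,
  ⟨(0,0,0,0,27), 144, [(2,1), (3,1)], 1, 1705, 0, 0⟩,
  ⟨(0,0,0,6,7), 144, [(2,1), (3,1)], 1, 2459, 0, 0⟩,
  ⟨(1,0,0,-3,-3), 150, [(2,0), (3,0), (5,1)], 1, 4156, 0, 0⟩,
  ⟨(1,-1,0,-6,8), 162, [(2,0), (3,2)], 2, 3368, 7584, 8934⟩,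
  ⟨(1,-1,0,3,-1), 162, [(2,0), (3,1)], 11, 4176, 0, 0⟩,
  ⟨(1,-1,1,-5,5), 162, [(2,0), (3,1)], 7, 4138, 16178, 9692⟩,
  ⟨(1,-1,1,4,-1), 162, [(2,0), (3,2)], 2, 3380, 0, 0⟩,
  ⟨(0,-1,0,3,1), 176, [(2,1), (11,0)], 1, 3742, 0, 0⟩,
  ⟨(0,1,0,-5,-13), 176, [(2,1), (11,0)], 1, 2358, 0, 0⟩,
  ⟨(0,-1,0,-17,-15), 192, [(2,2), (3,0)], 1, 1846, 2505, 7827⟩,
  ⟨(0,-1,0,-4,-2), 192, [(2,2), (3,0)], 7, 4720, 45469, 10725⟩,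
  ⟨(0,-1,0,-9,9), 192, [(2,2), (3,0)], 1, 2390, 1039, 6947⟩,
  ⟨(0,-1,0,3,-3), 192, [(2,2), (3,0)], 3, 3688, 0, 0⟩,
  ⟨(0,1,0,-17,15), 192, [(2,2), (3,0)], 1, 1846, 2505, 7827⟩,
  ⟨(0,1,0,-4,2), 192, [(2,2), (3,0)], 7, 4720, 45469, 10725⟩,
  ⟨(0,1,0,-9,-9), 192, [(2,2), (3,0)], 1, 2390, 1039, 6947⟩,
  ⟨(0,1,0,3,3), 192, [(2,2), (3,0)], 3, 3688, 0, 0⟩,
  ⟨(0,-1,0,-2,1), 196, [(2,1), (7,1)], 1, 4631, 0, 0⟩,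
  ⟨(0,1,0,-3,-2), 200, [(2,1), (5,1)], 1, 3962, 0, 0⟩,
  ⟨(0,0,0,-4,3), 208, [(2,1), (13,0)], 5, 4770, 32628, 10393⟩,
  ⟨(0,0,1,0,1), 225, [(3,1), (5,1)], 1, 4748, 0, 0⟩,
  ⟨(0,-1,0,-15,-18), 240, [(2,1), (3,0), (5,0)], 3, 3080, 552333, 13222⟩,
  ⟨(0,-1,0,4,0), 240, [(2,1), (3,0), (5,0)], 7, 3554, 0, 0⟩,
  ⟨(0,1,0,0,-12), 240, [(2,1), (3,0), (5,0)], 1, 2239, 0, 0⟩,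
  ⟨(0,0,1,0,-1), 243, [(3,2)], 1, 5629, 0, 0⟩,
  ⟨(0,-1,0,-13,21), 256, [(2,3)], 3, 2267, 6600, 8795⟩,
  ⟨(0,-1,0,-3,-1), 256, [(2,3)], 3, 4534, 6600, 8795⟩,
  ⟨(0,0,0,-2,0), 256, [(2,3)], 5, 4971, 0, 0⟩,
  ⟨(0,0,0,-8,0), 256, [(2,3)], 5, 2486, 0, 0⟩,
  ⟨(0,0,0,2,0), 256, [(2,3)], 5, 4971, 0, 0⟩,
  ⟨(0,0,0,8,0), 256, [(2,3)], 5, 2486, 0, 0⟩,
  ⟨(0,1,0,-13,-21), 256, [(2,3)], 3, 2267, 6600, 8795⟩,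
  ⟨(0,1,0,-3,1), 256, [(2,3)], 3, 4534, 6600, 8795⟩,
  ⟨(1,0,0,-1,-1), 294, [(2,0), (3,0), (7,1)], 1, 5453, 0, 0⟩,
  ⟨(0,-1,0,-5,5), 320, [(2,2), (5,0)], 3, 3265, 1876, 7537⟩,
  ⟨(0,-1,0,0,2), 320, [(2,2), (5,0)], 3, 4112, 0, 0⟩,
  ⟨(0,0,0,-8,-8), 320, [(2,2), (5,0)], 1, 3025, 9659, 9176⟩,
  ⟨(0,0,0,-8,8), 320, [(2,2), (5,0)], 1, 3025, 9659, 9176⟩,
  ⟨(0,1,0,-5,-5), 320, [(2,2), (5,0)], 3, 3265, 1876, 7537⟩,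
  ⟨(0,1,0,0,-2), 320, [(2,2), (5,0)], 3, 4112, 0, 0⟩,
  ⟨(0,0,0,-21,37), 324, [(2,1), (3,2)], 1, 2702, 788872, 13579⟩,
  ⟨(0,0,0,-9,9), 324, [(2,1), (3,2)], 1, 2719, 5512, 8615⟩,
  ⟨(0,-1,0,-7,10), 336, [(2,1), (3,0), (7,0)], 5, 3967, 128404, 11763⟩,
  ⟨(0,-1,0,2,-1), 368, [(2,1), (23,0)], 3, 5253, 0, 0⟩,
  ⟨(0,-1,0,-28,-48), 400, [(2,2), (5,1)], 1, 1934, 77208, 11255⟩,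
  ⟨(0,-1,0,-3,2), 400, [(2,1), (5,1)], 3, 3962, 0, 0⟩,
  ⟨(0,0,1,-12,15), 405, [(3,2), (5,0)], 1, 2604, 17474, 9769⟩,
  ⟨(0,0,1,-18,29), 405, [(3,2), (5,0)], 1, 2598, 175547, 12076⟩,
  ⟨(0,0,1,-3,-2), 405, [(3,1), (5,0)], 25, 4740, 5972, 8695⟩,
  ⟨(1,-1,0,0,1), 405, [(3,2), (5,0)], 11, 5170, 0, 0⟩,
  ⟨(0,0,0,0,-16), 432, [(2,2), (3,1)], 1, 2030, 0, 0⟩,
  ⟨(0,0,0,0,-4), 432, [(2,2), (3,1)], 1, 3222, 0, 0⟩,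
  ⟨(1,-1,0,0,-3), 567, [(3,2), (7,0)], 1, 3534, 0, 0⟩,
  ⟨(0,0,0,-3,0), 576, [(2,2), (3,0)], 13, 4059, 0, 0⟩,
  ⟨(0,0,0,0,-8), 576, [(2,3), (3,1)], 1, 2557, 0, 0⟩,
  ⟨(0,0,0,0,8), 576, [(2,3), (3,1)], 1, 2557, 0, 0⟩,
  ⟨(0,0,0,9,0), 576, [(2,3), (3,1)], 1, 2344, 0, 0⟩,
  ⟨(0,0,0,-3,-1), 648, [(2,1), (3,2)], 1, 4259, 0, 0⟩,
  ⟨(0,-1,0,-1,-1), 704, [(2,2), (11,0)], 1, 4715, 0, 0⟩,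
  ⟨(0,1,0,-1,1), 704, [(2,2), (11,0)], 1, 4715, 0, 0⟩,
  ⟨(0,0,0,-12,11), 720, [(2,2), (3,1), (5,0)], 1, 2177, 1876, 7537⟩,
  ⟨(0,-1,0,-23,51), 768, [(2,4), (3,0)], 3, 2384, 303488, 12624⟩,
  ⟨(0,-1,0,-3,-9), 768, [(2,4), (3,0)], 3, 2390, 0, 0⟩,
  ⟨(0,-1,0,-7,-5), 768, [(2,3), (3,0)], 13, 3464, 26994, 10204⟩,
  ⟨(0,-1,0,1,3), 768, [(2,3), (3,0)], 13, 3447, 0, 0⟩,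
  ⟨(0,1,0,-23,-51), 768, [(2,4), (3,0)], 3, 2384, 303488, 12624⟩,
  ⟨(0,1,0,-3,9), 768, [(2,4), (3,0)], 3, 2390, 0, 0⟩,
  ⟨(0,1,0,-7,5), 768, [(2,3), (3,0)], 13, 3464, 26994, 10204⟩,
  ⟨(0,1,0,1,-3), 768, [(2,3), (3,0)], 13, 3447, 0, 0⟩,
  ⟨(0,1,0,-16,-29), 784, [(2,2), (7,1)], 1, 2144, 11144, 9319⟩,
  ⟨(0,1,0,-2,-1), 784, [(2,2), (7,1)], 3, 4631, 0, 0⟩,
  ⟨(0,0,0,-6,-5), 1008, [(2,2), (3,1), (7,0)], 1, 3376, 6499, 8780⟩,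
  ⟨(0,0,0,-6,-9), 1008, [(2,2), (3,1), (7,0)], 1, 2674, 0, 0⟩,
  ⟨(0,0,0,-21,-37), 1296, [(2,1), (3,2)], 5, 2702, 788872, 13579⟩,
  ⟨(0,0,0,-27,-27), 1296, [(2,2), (3,2)], 1, 1420, 0, 0⟩,
  ⟨(0,0,0,-3,-14), 1296, [(2,2), (3,2)], 1, 2130, 0, 0⟩,
  ⟨(0,0,0,-3,1), 1296, [(2,2), (3,2)], 5, 4259, 0, 0⟩,
  ⟨(0,0,0,-39,-94), 1296, [(2,2), (3,2)], 1, 1850, 314968, 12661⟩,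
  ⟨(0,0,0,-75,-262), 1296, [(2,2), (3,2)], 1, 1035, 16178, 9692⟩,
  ⟨(0,0,0,-9,-9), 1296, [(2,1), (3,2)], 5, 2719, 5512, 8615⟩,
  ⟨(0,0,0,45,18), 1296, [(2,2), (3,2)], 1, 1044, 0, 0⟩,
  ⟨(0,0,0,9,18), 1296, [(2,2), (3,2)], 1, 1860, 0, 0⟩,
  ⟨(0,0,0,5,0), 1600, [(2,3), (5,1)], 1, 3144, 0, 0⟩,
  ⟨(0,0,0,0,-2), 1728, [(2,3), (3,1)], 1, 4059, 0, 0⟩,
  ⟨(0,0,0,0,2), 1728, [(2,3), (3,1)], 1, 4059, 0, 0⟩,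
  ⟨(0,0,0,-30,-56), 2304, [(2,4), (3,1)], 1, 1512, 6600, 8795⟩,
  ⟨(0,0,0,-30,56), 2304, [(2,4), (3,1)], 1, 1512, 6600, 8795⟩,
  ⟨(0,0,0,-6,0), 2304, [(2,4), (3,1)], 1, 2870, 0, 0⟩,
  ⟨(0,0,0,6,0), 2304, [(2,4), (3,1)], 1, 2870, 0, 0⟩,
  ⟨(0,-1,0,-3,-3), 4800, [(2,3), (3,0), (5,1)], 3, 3424, 0, 0⟩,
  ⟨(0,1,0,-3,3), 4800, [(2,3), (3,0), (5,1)], 3, 3424, 0, 0⟩,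
  ⟨(0,0,0,-3,-4), 5184, [(2,3), (3,2)], 1, 3380, 0, 0⟩,
  ⟨(0,0,0,-3,4), 5184, [(2,3), (3,2)], 1, 3380, 0, 0⟩,
  ⟨(0,0,0,-12,-4), 6480, [(2,2), (3,2), (5,0)], 1, 2052, 0, 0⟩]

theorem muL_ok : muL.all (fun c => c.ok && decide (c.N = cond (mkW c.w))) = true := by
  decide +kernel

/-- the curves that survive at the true level -/
def trueL : List (ℤ × ℤ × ℤ × ℤ × ℤ) := muL.map (·.w)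

theorem multi_false {W : WeierstrassCurve ℤ} {Ω ρ : ℝ} {N : ℕ} {b : ℕ → ℤ}
    (hW : W ∈ trueL.map mkW) (hN : N = cond W) (h0 : W.Δ ≠ 0) (hA : ApFacts W) (hV : Vol W Ω)
    (hC : Coef N b) (hL : Link W N b) (hH : HoroB N b ρ) (n : ℕ)
    (hn : (n = 3 ∧ W ∉ torL.map mkW) ∨ n = 4) (h1 : Multi W N b Ω ρ n (smN N))
    (h2 : N = 256 → INV b ∨ Multi W N b Ω ρ n fun _ => 2) : False := by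
  rw [trueL, List.map_map] at hW
  obtain ⟨c, hc, rfl⟩ := List.mem_map.1 hW
  have h := List.all_eq_true.1 muL_ok c hc
  simp only [Bool.and_eq_true, decide_eq_true_eq] at h
  obtain rfl : N = c.N := hN.trans h.2.symm
  exact c.sound h.1 h0 hA hV hC hL hH n hn h1 h2

end Pool.Agent.MP_b2c033_nt.U
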