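import Pool.Agent.MP_b2c033_nt.UC.CSpec

/-! Domination at good and multiplicative primes. -/

namespace Pool.Agent.MP_b2c033_nt.U

namespace D01x

theorem roV_one (W : WeierstrassCurve ℤ) {N p : ℕ} (hp : p.Prime) (h : N.factorization p = 1)
    (T : ℕ → ℝ) (X : ℕ) : roV W N p 0 T X = (T (X * p) + T X) / 2 := by
  have hN : N ≠ 0 := by
    rintro rfl
    simp at h
  have hg : gn W N p = 1 := if_neg fun hy => by
    have := (hp.pow_dvd_iff_le_factorization hN).1 hy.1
    omega
  have h1 : (p : ℝ) + 1 ≠ 0 := by positivity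
  unfold roV
  rw [hg, h, if_neg one_ne_zero]
  simp [opts, Mp]
  field_simp

end D01x

theorem c_D01 : C_D01 := by
  intro W N p hp
  refine ⟨fun h => ⟨0, by omega, fun T _ _ X => ?_⟩, fun h =>
    ⟨⟨0, by omega, fun T hT _ X => ?_⟩, fun P hP => ⟨0, by omega, fun T hT _ X => ?_⟩⟩⟩
  · simp [evO, o1, roV, h]
  · have := hT (Nat.le_mul_of_pos_right X hp.pos)
    rw [D01x.roV_one W hp h]
    simp only [evO, o1, List.map, List.sum_cons, List.sum_nil, mul_one]
    push_cast
    linarith
  · have := hT (Nat.mul_le_mul_left X hP)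
    rw [D01x.roV_one W hp h]
    simp only [evO, om, List.map, List.sum_cons, List.sum_nil, mul_one]
    push_cast
    linarith

end Pool.Agent.MP_b2c033_nt.U
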