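import Pool.Agent.MP_b2c033_nt.UC.CSpec

/-! The exact options are dominated. -/

namespace Pool.Agent.MP_b2c033_nt.U

namespace RD2

theorem cast_eq {q : ℚ} (h : 0 ≤ q) : (q.num.toNat : ℝ) / q.den = q := by
  rw [Rat.cast_def, ← Int.cast_natCast, Int.toNat_of_nonneg (Rat.num_nonneg.2 h)]

theorem Mp_nonneg {p : ℕ} (hp : p.Prime) (e s : ℕ) : 0 ≤ Mp p e s := by
  have : (0 : ℚ) ≤ p - 1 := sub_nonneg.2 (by exact_mod_cast hp.one_le)
  unfold Mp
  split_ifs <;> positivity

theorem opts_nonneg {p : ℕ} (hp : p.Prime) (e i : ℕ) : ∀ y ∈ opts p e i, 0 ≤ y.1 := by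
  have : (0 : ℚ) ≤ p - 1 := sub_nonneg.2 (by exact_mod_cast hp.one_le)
  have h3 : 5 ≤ p → (0 : ℚ) ≤ p - 3 := fun h => sub_nonneg.2 (by exact_mod_cast (by omega : 3 ≤ p))
  unfold opts optMid
  split_ifs with a b c <;>
    simp only [List.forall_mem_cons, List.forall_mem_map, List.not_mem_nil, IsEmpty.forall_iff,
      implies_true, and_true] <;> try have := h3 c
  all_goals (repeat' constructor) <;> intros <;> positivity

end RD2

open RD2

theorem c_D2 : C_D2 := fun W N p i hp h1 h2 => ⟨i, h2, fun T _ _ X => le_of_eq (by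
  rw [roV, if_neg (by omega), evO, exO, List.map_map, ← List.sum_map_mul_left]
  refine congrArg List.sum (List.map_congr_left fun y hy => ?_)
  have := opts_nonneg hp _ _ y hy
  have := Mp_nonneg hp (N.factorization p) (sm p (N.factorization p))
  simp only [Function.comp]
  rw [cast_eq (by positivity)]
  push_cast
  ring)⟩

end Pool.Agent.MP_b2c033_nt.U
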