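import Pool.Agent.MP_b2c033_nt.UC.CSpec

/-! Options that are valid for all large exponents. -/

namespace Pool.Agent.MP_b2c033_nt.U

lemma d3_num (p j : ℕ) : ((p : ℚ) ^ j).num.toNat = p ^ j := by
  rw [← Nat.cast_pow, Rat.num_natCast, Int.toNat_natCast]

lemma d3_main {p k g : ℕ} (hp : p.Prime) {T : ℕ → ℝ} (hT : Monotone T) (h0 : ∀ X, 0 ≤ T X)
    (X : ℕ) {A B : ℝ} (hA : T (X * p ^ k) ≤ A) (hB : T (X * p ^ k) ≤ B) :
    evO (uo p k g) T X ≤ g * (A / 2 + B / 2) := by
  have h1 := h0 (X * p ^ k)
  have hg : (0 : ℝ) ≤ g := Nat.cast_nonneg g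
  refine le_trans ?_ (mul_le_mul_of_nonneg_left (by linarith : T (X * p ^ k) ≤ A / 2 + B / 2) hg)
  have h2 := mul_nonneg hg h1
  unfold uo
  split_ifs with a b
  · subst a; simp only [evO, List.map, List.sum_cons, List.sum_nil]; push_cast; linarith
  · subst b
    have := mul_le_mul_of_nonneg_left (hT (Nat.mul_le_mul_left X
      (Nat.pow_le_pow_right (by norm_num : 0 < 3) (Nat.sub_le k 1)))) hg
    simp only [evO, List.map, List.sum_cons, List.sum_nil]; push_cast; linarith
  · simp only [evO, List.map, List.sum_cons, List.sum_nil, add_zero]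
    refine mul_le_mul_of_nonneg_right ?_ h1
    rw [div_le_iff₀ (by positivity)]
    exact_mod_cast Nat.mul_le_mul_left g (by omega)

theorem c_D3 : C_D3 := by
  intro W N p k hp hk he
  refine ⟨N.factorization p / 2, by omega, fun T hT h0 X => ?_⟩
  rw [roV, if_neg (by omega)]
  generalize N.factorization p = e at he ⊢
  generalize gn W N p = g
  have hg : (0 : ℝ) ≤ g := Nat.cast_nonneg g
  have hp0 : (0 : ℝ) < p := by exact_mod_cast hp.pos
  have mono : ∀ i j, i ≤ j → T (X * p ^ i) ≤ T (X * p ^ j) := fun i j h =>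
    hT (Nat.mul_le_mul_left X (Nat.pow_le_pow_right hp.pos h))
  obtain ⟨j, rfl | rfl⟩ := Nat.even_or_odd' e
  · have hj : k ≤ j := by omega
    have e1 : 2 * j / 2 = j := by omega
    have m1 := mul_le_mul_of_nonneg_left (mono k j hj) hg
    have n1 := mul_nonneg hg (h0 (X * p ^ j))
    rw [e1, opts, if_neg (by omega), if_pos rfl, Mp, if_neg (by omega), if_neg (by omega), e1,
      List.map_cons, List.sum_cons, d3_num]
    unfold uo optMid sm
    by_cases h2 : p = 2
    · subst h2
      have : 0 ≤ (List.map (fun y : ℚ × ℚ => (y.1 : ℝ) * T (X * y.2.num.toNat))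
          (if j = 1 then [(1 / 6, 2)] else [])).sum := by
        split_ifs
        · simpa using h0 _
        · simp
      simp only [if_true, show ¬ 5 ≤ 2 by norm_num, show ¬ 2 = 3 by norm_num, if_false, false_or]
      generalize (List.map (fun y : ℚ × ℚ => (y.1 : ℝ) * T (X * y.2.num.toNat))
          (if j = 1 then [(1 / 6, 2)] else [])).sum = r at this ⊢
      have m2 := mul_nonneg (mul_nonneg hg this) (pow_pos hp0 j).le
      simp only [evO, List.map, List.sum_cons, List.sum_nil]
      split_ifs <;> push_cast at * <;> field_simp <;> nlinarith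
    by_cases h3 : p = 3
    · subst h3
      have m2 := mul_le_mul_of_nonneg_left (mono (k - 1) (j - 1) (by omega)) hg
      have m3 := mul_le_mul_of_nonneg_left (mono (k - 1) j (by omega)) hg
      simp only [if_true, show ¬ 5 ≤ 3 by norm_num, show ¬ 3 = 2 by norm_num, if_false, false_or]
      by_cases h1 : j = 1
      · subst h1
        simp only [evO, List.map, List.sum_cons, List.sum_nil, if_true, le_refl, mul_one,
          show (3 : ℚ).num.toNat = 3 ^ 1 from rfl]
        push_cast at *
        linarith
      · rw [if_neg h1, if_neg (by omega)]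
        have := d3_num 3 (j - 1)
        simp only [evO, List.map, List.sum_cons, List.sum_nil, Nat.cast_ofNat] at this ⊢
        rw [this]
        push_cast
        field_simp
        linarith
    have h5 : 5 ≤ p := hp.five_le_of_ne_two_of_ne_three h2 h3
    rw [if_neg h2, if_neg h3, if_pos h5, if_pos (Or.inl h5)]
    simp only [evO, List.map, List.sum_cons, List.sum_nil, d3_num]
    have m2 := mul_le_mul_of_nonneg_left m1 (by
      have : (5 : ℝ) ≤ p := by exact_mod_cast h5
      linarith : (0 : ℝ) ≤ p - 1)
    push_cast [Nat.cast_sub hp.one_le]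
    rw [show (2 + ((p : ℝ) - 1) * p ^ 0) = p + 1 by ring]
    field_simp
    linarith
  · have hj : k ≤ j := by omega
    have e1 : (2 * j + 1) / 2 = j := by omega
    refine (d3_main hp hT h0 X (mono k (j + 1) (by omega)) (mono k j hj)).trans (le_of_eq ?_)
    rw [e1, opts, if_neg (by omega), if_neg (by omega), Mp, if_neg (by omega), if_pos (by omega),
      e1, show 2 * j + 1 - j = j + 1 by omega, show 2 * j + 1 - 2 * j = 1 by omega]
    simp only [List.map, List.sum_cons, List.sum_nil, d3_num, Nat.sub_self, Nat.zero_div,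
      List.range_zero, Nat.reduceDiv]
    push_cast
    field_simp
    ring

end Pool.Agent.MP_b2c033_nt.U
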