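import Pool.Agent.MP_b2c033_nt.UC.CSpec

/-! Uniform options at the primes `2` and `3`. -/

namespace Pool.Agent.MP_b2c033_nt.U

theorem d4_num (p k : ℕ) : (((p : ℕ) : ℚ) ^ k).num.toNat = p ^ k := by
  rw [← Nat.cast_pow, Rat.num_natCast, Int.toNat_natCast]

theorem d4_two (W : WeierstrassCurve ℤ) (N p i : ℕ) (T : ℕ → ℝ) (X : ℕ) (a b : ℚ) (u v : ℕ)
    (h0 : N.factorization p ≠ 0)
    (h : opts p (N.factorization p) i = [(a, (p : ℚ) ^ u), (b, (p : ℚ) ^ v)]) (a' b' : ℚ)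
    (ha : a / Mp p (N.factorization p) (sm p (N.factorization p)) = a')
    (hb : b / Mp p (N.factorization p) (sm p (N.factorization p)) = b') :
    roV W N p i T X = (gn W N p : ℝ) * ((a' : ℝ) * T (X * p ^ u) + (b' : ℝ) * T (X * p ^ v)) := by
  unfold roV
  rw [if_neg h0, h, ← ha, ← hb]
  simp only [List.map_cons, List.map_nil, List.sum_cons, List.sum_nil, d4_num]
  push_cast
  ring

theorem d4_one (W : WeierstrassCurve ℤ) (N p i : ℕ) (T : ℕ → ℝ) (X : ℕ) (a : ℚ) (u : ℕ)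
    (h0 : N.factorization p ≠ 0)
    (h : opts p (N.factorization p) i = [(a, (p : ℚ) ^ u)]) (a' : ℚ)
    (ha : a / Mp p (N.factorization p) (sm p (N.factorization p)) = a') :
    roV W N p i T X = (gn W N p : ℝ) * ((a' : ℝ) * T (X * p ^ u)) := by
  unfold roV
  rw [if_neg h0, h, ← ha]
  simp only [List.map_cons, List.map_nil, List.sum_cons, List.sum_nil, d4_num]
  push_cast
  ring

theorem d4_ev1 (g d w : ℕ) (T : ℕ → ℝ) (X : ℕ) :
    evO [(g, d, w)] T X = (g : ℝ) * (1 / d * T (X * w)) := by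
  simp only [evO, List.map_cons, List.map_nil, List.sum_cons, List.sum_nil]
  ring

theorem d4_ev2 (g d w w' : ℕ) (T : ℕ → ℝ) (X : ℕ) :
    evO [(g, d, w), (g, d, w')] T X = (g : ℝ) * (1 / d * T (X * w) + 1 / d * T (X * w')) := by
  simp only [evO, List.map_cons, List.map_nil, List.sum_cons, List.sum_nil]
  ring

theorem d4_a2 (W : WeierstrassCurve ℤ) (N i : ℕ) (a b : ℚ) (u v : ℕ)
    (hi : 2 * i ≤ N.factorization 2) (h0 : N.factorization 2 ≠ 0)
    (h : opts 2 (N.factorization 2) i = [(a, ((2 : ℕ) : ℚ) ^ u), (b, ((2 : ℕ) : ℚ) ^ v)])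
    (a' b' : ℚ) (ha : a / Mp 2 (N.factorization 2) (sm 2 (N.factorization 2)) = a')
    (hb : b / Mp 2 (N.factorization 2) (sm 2 (N.factorization 2)) = b') (hu : 2 ≤ u)
    (h1 : 1 / 3 ≤ a') (h2 : 0 ≤ b') : Dm W N 2 [(gn W N 2, 3, 4)] := by
  refine ⟨i, hi, fun T hT h0T X => ?_⟩
  rw [d4_two W N 2 i T X a b u v h0 h a' b' ha hb, d4_ev1]
  refine mul_le_mul_of_nonneg_left ?_ (Nat.cast_nonneg _)
  have e1 : T (X * 4) ≤ T (X * 2 ^ u) :=
    hT (Nat.mul_le_mul_left X (by simpa using Nat.pow_le_pow_right (n := 2) (by norm_num) hu))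
  have e2 : ((1 / 3 : ℚ) : ℝ) ≤ (a' : ℝ) := Rat.cast_le.2 h1
  have e3 : (0 : ℝ) ≤ (b' : ℝ) := Rat.cast_nonneg.2 h2
  have e4 := h0T (X * 4)
  have e5 := mul_nonneg e3 (h0T (X * 2 ^ v))
  push_cast at e2 ⊢
  nlinarith [mul_le_mul e2 e1 e4 (le_trans (by norm_num) e2)]

theorem d4_b2 (W : WeierstrassCurve ℤ) (N i : ℕ) (a : ℚ) (u : ℕ)
    (hi : 2 * i ≤ N.factorization 2) (h0 : N.factorization 2 ≠ 0)
    (h : opts 2 (N.factorization 2) i = [(a, ((2 : ℕ) : ℚ) ^ u)])
    (ha : a / Mp 2 (N.factorization 2) (sm 2 (N.factorization 2)) = 1 / 3) (hu : 2 ≤ u) :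
    Dm W N 2 [(gn W N 2, 3, 4)] := by
  refine ⟨i, hi, fun T hT h0T X => ?_⟩
  rw [d4_one W N 2 i T X a u h0 h _ ha, d4_ev1]
  refine mul_le_mul_of_nonneg_left ?_ (Nat.cast_nonneg _)
  have e1 : T (X * 4) ≤ T (X * 2 ^ u) :=
    hT (Nat.mul_le_mul_left X (by simpa using Nat.pow_le_pow_right (n := 2) (by norm_num) hu))
  push_cast
  linarith

theorem d4_a3 (W : WeierstrassCurve ℤ) (N i : ℕ) (a b : ℚ) (u v : ℕ)
    (hi : 2 * i ≤ N.factorization 3) (h0 : N.factorization 3 ≠ 0)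
    (h : opts 3 (N.factorization 3) i = [(a, ((3 : ℕ) : ℚ) ^ u), (b, ((3 : ℕ) : ℚ) ^ v)])
    (c : ℚ) (ha : a / Mp 3 (N.factorization 3) (sm 3 (N.factorization 3)) = c)
    (hb : b / Mp 3 (N.factorization 3) (sm 3 (N.factorization 3)) = c) (hu : 2 ≤ u) (hv : 1 ≤ v)
    (h1 : 1 / 4 ≤ c) : Dm W N 3 [(gn W N 3, 4, 9), (gn W N 3, 4, 3)] := by
  refine ⟨i, hi, fun T hT h0T X => ?_⟩
  rw [d4_two W N 3 i T X a b u v h0 h c c ha hb, d4_ev2]
  refine mul_le_mul_of_nonneg_left ?_ (Nat.cast_nonneg _)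
  have e1 : T (X * 9) ≤ T (X * 3 ^ u) :=
    hT (Nat.mul_le_mul_left X (by simpa using Nat.pow_le_pow_right (n := 3) (by norm_num) hu))
  have e1' : T (X * 3) ≤ T (X * 3 ^ v) :=
    hT (Nat.mul_le_mul_left X (by simpa using Nat.pow_le_pow_right (n := 3) (by norm_num) hv))
  have e2 : ((1 / 4 : ℚ) : ℝ) ≤ (c : ℝ) := Rat.cast_le.2 h1
  push_cast at e2 ⊢
  have e6 : (0 : ℝ) ≤ c := le_trans (by norm_num) e2
  exact add_le_add (mul_le_mul e2 e1 (h0T _) e6) (mul_le_mul e2 e1' (h0T _) e6)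

theorem c_D4 : C_D4 := by
  intro W N
  refine ⟨fun h2 h7 => ?_, fun h => ?_, fun h => ?_⟩
  · have hc : N.factorization 2 = 2 ∨ N.factorization 2 = 3 ∨ N.factorization 2 = 4 ∨
        N.factorization 2 = 5 ∨ N.factorization 2 = 6 ∨ N.factorization 2 = 7 := by omega
    rcases hc with h | h | h | h | h | h
    · refine d4_a2 W N 0 (1 / 6) (1 / 6) 2 0 (by omega) (by omega) ?_ (1 / 3) (1 / 3) ?_ ?_
        (by norm_num) (by norm_num) (by norm_num) <;> rw [h] <;> norm_num [opts, optMid, Mp, sm]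
    · refine d4_a2 W N 1 (1 / 6) (1 / 6) 2 1 (by omega) (by omega) ?_ (1 / 2) (1 / 2) ?_ ?_
        (by norm_num) (by norm_num) (by norm_num) <;> rw [h] <;> norm_num [opts, optMid, Mp, sm]
    · refine d4_b2 W N 2 (1 / 6) 2 (by omega) (by omega) ?_ ?_ (by norm_num) <;> rw [h] <;>
        norm_num [opts, optMid, Mp, sm]
    · refine d4_a2 W N 2 (1 / 12) (1 / 12) 3 2 (by omega) (by omega) ?_ (1 / 2) (1 / 2) ?_ ?_
        (by norm_num) (by norm_num) (by norm_num) <;> rw [h] <;> norm_num [opts, optMid, Mp, sm]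
    · refine d4_b2 W N 3 (1 / 12) 3 (by omega) (by omega) ?_ ?_ (by norm_num) <;> rw [h] <;>
        norm_num [opts, optMid, Mp, sm]
    · refine d4_a2 W N 3 (1 / 24) (1 / 24) 4 3 (by omega) (by omega) ?_ (1 / 2) (1 / 2) ?_ ?_
        (by norm_num) (by norm_num) (by norm_num) <;> rw [h] <;> norm_num [opts, optMid, Mp, sm]
  · refine ⟨1, by omega, fun T hT h0T X => ?_⟩
    rw [d4_two W N 3 1 T X (1 / 6) (1 / 24) 1 1 (by omega) ?_ (1 / 2) (1 / 8) ?_ ?_, d4_ev1]
    · push_cast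
      exact le_of_eq (by ring)
    all_goals (rw [h]; norm_num [opts, optMid, Mp, sm])
  · obtain ⟨j, hj | hj⟩ := Nat.even_or_odd' (N.factorization 3)
    · have h3 : (3 : ℚ) ^ j ≠ 0 := by positivity
      have hM : Mp 3 (2 * j) (sm 3 (2 * j)) = 2 / 3 ^ j := by
        have hs : sm 3 (2 * j) = 1 := by
          unfold sm
          rw [if_neg (by omega), if_pos rfl]
        rw [hs]
        unfold Mp
        rw [if_neg (by omega), if_neg (by omega), show 2 * j / 2 = j by omega]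
        push_cast
        field_simp
        norm_num
      refine d4_a3 W N j (1 / (2 * 3 ^ j)) (1 / (2 * 3 ^ j)) j (j - 1) (by omega) (by omega) ?_
        (1 / 4) ?_ ?_ (by omega) (by omega) le_rfl
      · rw [hj]
        unfold opts optMid
        rw [if_neg (by omega), if_pos rfl, if_neg (by omega), if_pos rfl, if_neg (by omega)]
        have : (2 : ℚ) / ((((3 : ℕ) : ℚ) + 1) * ((3 : ℕ) : ℚ) ^ j) = 1 / (2 * 3 ^ j) := by
          push_cast
          field_simp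
          norm_num
        rw [this]
        push_cast
        rfl
      all_goals
        rw [hj, hM]
        field_simp
        norm_num
    · have h3 : (3 : ℚ) ^ j ≠ 0 := by positivity
      have hM : Mp 3 (2 * j + 1) (sm 3 (2 * j + 1)) = 1 / (2 * 3 ^ j) := by
        unfold Mp
        rw [if_neg (by omega), if_pos (by omega), show (2 * j + 1) / 2 = j by omega]
        push_cast
        field_simp
        norm_num
      refine d4_a3 W N j (1 / (4 * 3 ^ j)) (1 / (4 * 3 ^ j)) (j + 1) j (by omega) (by omega) ?_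
        (1 / 2) ?_ ?_ (by omega) (by omega) (by norm_num)
      · rw [hj]
        unfold opts
        rw [if_neg (by omega), if_neg (by omega), show 2 * j + 1 - j = j + 1 by omega,
          show (2 * j + 1 - 2 * j) / 2 = 0 by omega, show (2 * j + 1 - 2 * j - 1) / 2 = 0 by omega]
        have e1 : ((3 : ℕ) : ℚ) / ((((3 : ℕ) : ℚ) + 1) * ((3 : ℕ) : ℚ) ^ (j + 1)) =
            1 / (4 * 3 ^ j) := by
          push_cast
          rw [pow_succ]
          field_simp
          norm_num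
        have e2 : (1 : ℚ) / (((3 : ℕ) : ℚ) ^ 0 * (((3 : ℕ) : ℚ) + 1) * ((3 : ℕ) : ℚ) ^ j) =
            1 / (4 * 3 ^ j) := by
          push_cast
          norm_num
        rw [e1, e2]
        rfl
      all_goals
        rw [hj, hM]
        field_simp
        norm_num

end Pool.Agent.MP_b2c033_nt.U
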