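import Pool.Agent.MP_b2c033_nt.UC.TSpec

/-! Soundness of the filter. -/

namespace Pool.Agent.MP_b2c033_nt.U

theorem r_flt : R_flt := by
  intro hq hf hl W Ω ρ N b hS hΔ TB exc h
  have hn : 0 < W.Δ.natAbs := Int.natAbs_pos.2 hS.red.ne
  have hv : 10 ^ 9 * Ω ^ 6 ≤
      (Nat.succ (Nat.div (vb (Nat.pow W.c₄.natAbs 3) W.Δ.natAbs) W.Δ.natAbs) : ℕ) := by
    have h1 := vb_sound hS.vol hn le_rfl (le_refl (W.c₄.natAbs ^ 3))
    have h2 : vb (W.c₄.natAbs ^ 3) W.Δ.natAbs <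
        (vb (W.c₄.natAbs ^ 3) W.Δ.natAbs / W.Δ.natAbs + 1) * W.Δ.natAbs := by
      rw [mul_comm]; exact Nat.lt_mul_div_succ _ hn
    exact le_of_mul_le_mul_right (h1.trans (by exact_mod_cast h2.le)) (by exact_mod_cast hn)
  simp only [Tst.at, flt, force_eq, forceZ_eq, Bool.or_eq_true] at h
  rcases h with h | h | h
  · exact (hq W Ω ρ N b hS hΔ TB _ hv h).elim
  · exact (hf W Ω ρ N b hS hΔ _ hv h).elim
  · exact hl (W.a₁, W.a₂, W.a₃, W.a₄, W.a₆) Ω ρ N b hS hΔ _ _ hv h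

end Pool.Agent.MP_b2c033_nt.U
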