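import Pool.Agent.MP_b2c033_nt.UC.CSpec
import Pool.Agent.MP_b2c033_nt.UL.En

/-! Row Key: the inequality that is refuted by the finite check. -/

set_option autoImplicit false

namespace Pool.Agent.MP_b2c033_nt.U

open scoped Real

namespace KeyAux

theorem Mp_pos {p : ℕ} (hp : p.Prime) (e s : ℕ) : 0 < Mp p e s := by
  have h0 : (0 : ℚ) < p := by exact_mod_cast hp.pos
  have h1 : (0 : ℚ) ≤ p - 1 := by
    have : (1 : ℚ) ≤ p := by exact_mod_cast hp.pos
    linarith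
  unfold Mp
  split_ifs <;> positivity

theorem wid_mid (p k : ℕ) : ∀ y ∈ optMid p k, ∃ n : ℕ, y.2 = n := by
  intro y hy
  unfold optMid at hy
  split_ifs at hy with h1 h2 h3 h4
  · rw [List.mem_singleton.1 hy]
    exact ⟨p ^ k, by simp⟩
  · rw [List.mem_singleton.1 hy]
    exact ⟨3, by simp⟩
  · rw [List.mem_singleton.1 hy]
    exact ⟨3 ^ (k - 1), by simp⟩
  · rw [List.mem_singleton.1 hy]
    exact ⟨2, by simp⟩
  · exact absurd hy List.not_mem_nil

theorem wid0 (p e i : ℕ) : ∀ y ∈ opts p e i, ∃ n : ℕ, y.2 = n := by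
  intro y hy
  unfold opts at hy
  split_ifs at hy
  · rcases List.mem_cons.1 hy with rfl | hy
    · exact ⟨p ^ e, by simp⟩
    · rw [List.mem_singleton.1 hy]
      exact ⟨1, by simp⟩
  · rcases List.mem_cons.1 hy with rfl | hy
    · exact ⟨p ^ i, by simp⟩
    · exact wid_mid p i y hy
  · rcases List.mem_cons.1 hy with rfl | hy
    · exact ⟨p ^ (e - i), by simp⟩
    · rcases List.mem_cons.1 hy with rfl | hy
      · exact ⟨p ^ i, by simp⟩
      · obtain ⟨m, -, rfl⟩ := List.mem_map.1 hy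
        exact ⟨p ^ (e - i - 2 * (m + 1)), by simp⟩

theorem wid {p : ℕ} (hp : p.Prime) (e i : ℕ) (y : ℚ × ℚ) (hy : y ∈ opts p e i) :
    0 < y.2.num.toNat ∧ (y.2.num.toNat : ℚ) = y.2 := by
  obtain ⟨n, hn⟩ := wid0 p e i y hy
  have h0 := (UL.EnAux.pos p e i hp y hy).2
  rw [hn] at h0 ⊢
  have h1 : 0 < n := by exact_mod_cast h0
  simpa using h1

variable (W : WeierstrassCurve ℤ) (N : ℕ) (rt : ℕ → ℕ)

/-- the energy for the relative options of the roots `rt` -/
noncomputable def EnV (T : ℕ → ℝ) : List ℕ → ℕ → ℝ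
  | [], X => T X
  | p :: l, X => roV W N p (rt p) (EnV T l) X

/-- the scaling factor -/
noncomputable def cf (p : ℕ) : ℝ :=
  (gn W N p : ℝ) / (Mp p (N.factorization p) (sm p (N.factorization p)) : ℚ)

variable {W N rt}

theorem roV_mono {p : ℕ} (hp : p.Prime) (i : ℕ) {T T' : ℕ → ℝ} (h : ∀ X, T X ≤ T' X) (X : ℕ) :
    roV W N p i T X ≤ roV W N p i T' X := by
  unfold roV
  split_ifs
  · exact h X
  · refine mul_le_mul_of_nonneg_left (List.sum_le_sum fun y hy => mul_le_mul_of_nonneg_left (h _) ?_)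
      (div_nonneg (Nat.cast_nonneg _) ?_)
    · exact_mod_cast (UL.EnAux.pos p _ i hp y hy).1
    · exact_mod_cast (Mp_pos hp _ _).le

theorem EnO_le (hM : C_Mon) {T : ℕ → ℝ} (h1 : Monotone T) (h0 : ∀ X, 0 ≤ T X) :
    ∀ L : List (ℕ × Op), (∀ y ∈ L, y.1.Prime ∧ ∀ T : ℕ → ℝ, Monotone T → (∀ X, 0 ≤ T X) →
      ∀ X, evO y.2 T X ≤ roV W N y.1 (rt y.1) T X) →
    ∀ X, EnO T (L.map (·.2)) X ≤ EnV W N rt T (L.map (·.1)) X
  | [], _, _ => le_rfl
  | y :: L, h, X => by
    obtain ⟨hp, hd⟩ := h y List.mem_cons_self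
    obtain ⟨m1, m0⟩ := hM.2 T (L.map (·.2)) h1 h0
    exact (hd _ m1 m0 X).trans
      (roV_mono hp _ (EnO_le hM h1 h0 L fun z hz => h z (List.mem_cons_of_mem _ hz)) X)

theorem EnV_eq (b : ℕ → ℤ) (K : ℕ) : ∀ l : List ℕ, (∀ p ∈ l, p.Prime) → ∀ X : ℕ, 0 < X →
    EnV W N rt (TN b K) l X =
      ((l.filter fun p => decide (N.factorization p ≠ 0)).map (cf W N)).prod *
        En (TT b K) ((l.filter fun p => decide (N.factorization p ≠ 0)).map fun p =>
          opts p (N.factorization p) (rt p)) X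
  | [], _, X, hX => by simp [EnV, En, TN, hX.ne']
  | p :: l, h, X, hX => by
    have ih := EnV_eq b K l fun z hz => h z (List.mem_cons_of_mem _ hz)
    have hp := h p List.mem_cons_self
    by_cases h0 : N.factorization p = 0
    · rw [List.filter_cons_of_neg (by simpa using h0), EnV, roV, if_pos h0, ih X hX]
    · rw [List.filter_cons_of_pos (by simpa using h0), EnV, roV, if_neg h0, List.map_cons,
        List.map_cons, List.prod_cons, En, mul_assoc]
      refine congrArg₂ _ rfl ?_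
      rw [← List.sum_map_mul_left]
      refine congrArg List.sum (List.map_congr_left fun y hy => ?_)
      obtain ⟨w0, w1⟩ := wid hp _ _ y hy
      rw [ih _ (Nat.mul_pos hX w0), Nat.cast_mul, w1, mul_left_comm]

theorem EnO_app (T : ℕ → ℝ) (os' : List Op) : ∀ os : List Op,
    EnO T (os ++ os') = EnO (EnO T os') os
  | [] => rfl
  | o :: os => funext fun X => by rw [List.cons_append, EnO, EnO, EnO_app T os' os]

theorem EnO_one (T : ℕ → ℝ) : ∀ l : List ℕ, EnO T (l.map fun _ => o1) = T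
  | [] => rfl
  | _ :: l => funext fun X => by
    rw [List.map_cons, EnO, EnO_one T l]
    simp [evO, o1]

theorem key0 (hM : C_Mon) {Ω ρ : ℝ} {b : ℕ → ℤ} (H : Sit W Ω ρ N b) (L : List (ℕ × Op))
    (h1 : (L.map (·.1)).Nodup) (h2 : ∀ y ∈ L, y.1.Prime ∧ Dm W N y.1 y.2)
    (h3 : ∀ p : ℕ, p.Prime → p ∣ N → p ∈ L.map (·.1)) (K : ℕ) :
    3 * π * EnO (TN b K) (L.map (·.2)) 1 ≤ Ω := by
  have hrt : ∀ p, ∃ i, ∀ y ∈ L, y.1 = p → 2 * i ≤ N.factorization p ∧
      ∀ T : ℕ → ℝ, Monotone T → (∀ X, 0 ≤ T X) → ∀ X, evO y.2 T X ≤ roV W N p i T X := fun p => by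
    by_cases h : ∃ y ∈ L, y.1 = p
    · obtain ⟨y, hy, rfl⟩ := h
      obtain ⟨i, hi⟩ := (h2 y hy).2
      refine ⟨i, fun z hz e => ?_⟩
      rw [List.inj_on_of_nodup_map h1 hz hy e]
      exact hi
    · exact ⟨0, fun y hy e => absurd ⟨y, hy, e⟩ h⟩
  choose rt hrt using hrt
  have hp : ∀ p ∈ L.map (·.1), p.Prime := fun p hp => by
    obtain ⟨y, hy, rfl⟩ := List.mem_map.1 hp
    exact (h2 y hy).1
  have a1 := EnO_le (rt := rt) hM (hM.1 b K).1 (hM.1 b K).2 L
    (fun y hy => ⟨(h2 y hy).1, (hrt _ y hy rfl).2⟩) 1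
  rw [EnV_eq b K _ hp 1 one_pos] at a1
  have n1 := h1.filter fun p => decide (N.factorization p ≠ 0)
  have n2 : ((L.map (·.1)).filter fun p => decide (N.factorization p ≠ 0)).toFinset =
      N.primeFactors := by
    ext p
    rw [List.mem_toFinset, List.mem_filter, decide_eq_true_eq, ← Nat.support_factorization,
      Finsupp.mem_support_iff]
    refine ⟨fun h => h.2, fun h => ⟨h3 p ?_ (Nat.dvd_of_factorization_pos h), h⟩⟩
    exact Nat.prime_of_mem_primeFactors (Finsupp.mem_support_iff.2 h)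
  have hh := H.horo rt _ K n1 n2 fun p hq => by
    obtain ⟨y, hy, rfl⟩ := List.mem_map.1 (List.mem_filter.1 hq).1
    exact (hrt _ y hy rfl).1
  have hM0 : (0 : ℚ) < Mtot N (smN N) :=
    Finset.prod_pos fun p hp => Mp_pos (Nat.prime_of_mem_primeFactors hp) _ _
  have hM' : (0 : ℝ) < (Mtot N (smN N) : ℚ) := by exact_mod_cast hM0
  have hg : ∏ p ∈ N.primeFactors, (gn W N p : ℝ) = (hyp W N : ℝ) ^ 2 := by
    rw [hyp, Nat.cast_prod, ← Finset.prod_pow, Finset.prod_filter]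
    refine Finset.prod_congr rfl fun p _ => ?_
    by_cases h : Hy W N p
    · rw [gn, if_pos h, if_pos (show p ^ 2 ∣ N ∧ ¬((p : ℤ) ∣ W.Δ ∧ (p : ℤ) ∣ W.c₄) from h),
        Nat.cast_pow]
    · rw [gn, if_neg h, if_neg (show ¬(p ^ 2 ∣ N ∧ ¬((p : ℤ) ∣ W.Δ ∧ (p : ℤ) ∣ W.c₄)) from h),
        Nat.cast_one]
  have hc : ∏ p ∈ N.primeFactors, cf W N p = (hyp W N : ℝ) ^ 2 / (Mtot N (smN N) : ℚ) := by
    unfold cf
    rw [Finset.prod_div_distrib, hg, Mtot, Rat.cast_prod]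
    rfl
  rw [← List.prod_toFinset _ n1, n2, hc, Nat.cast_one] at a1
  refine (mul_le_mul_of_nonneg_left a1 (by positivity)).trans ?_
  rw [div_mul_eq_mul_div, ← mul_div_assoc, div_le_iff₀ hM']
  refine le_trans ?_ H.key
  have := mul_le_mul_of_nonneg_left hh (by positivity : (0 : ℝ) ≤ 3 * (hyp W N : ℝ) ^ 2)
  linarith

end KeyAux

theorem r_Key : R_Key := by
  intro hM W Ω ρ N b H L h1 h2 h3 K
  have hQ : ∀ q, q ∈ (N.primeFactors \ (L.map (·.1)).toFinset).toList ↔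
      (q.Prime ∧ q ∣ N) ∧ q ∉ L.map (·.1) := fun q => by
    rw [Finset.mem_toList, Finset.mem_sdiff, List.mem_toFinset, Nat.mem_primeFactors]
    exact and_congr_left' ⟨fun h => ⟨h.1, h.2.1⟩, fun h => ⟨h.1, h.2, H.coef.pos.ne'⟩⟩
  have e1 : (L ++ (N.primeFactors \ (L.map (·.1)).toFinset).toList.map fun p => (p, o1)).map (·.1) =
      L.map (·.1) ++ (N.primeFactors \ (L.map (·.1)).toFinset).toList := by
    rw [List.map_append, List.map_map]
    exact congrArg _ (List.map_id _)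
  have := KeyAux.key0 hM H
    (L ++ (N.primeFactors \ (L.map (·.1)).toFinset).toList.map fun p => (p, o1))
    (by
      rw [e1]
      exact List.Nodup.append h1 (Finset.nodup_toList _) fun q a c => ((hQ q).1 c).2 a)
    (fun y hy => (List.mem_append.1 hy).elim (h2 y) fun h => by
      obtain ⟨q, hq, rfl⟩ := List.mem_map.1 h
      obtain ⟨⟨q1, q2⟩, q3⟩ := (hQ q).1 hq
      exact ⟨q1, h3 q q1 q2 q3⟩)
    (fun p hp h => by
      rw [e1]
      by_cases hl : p ∈ L.map (·.1)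
      · exact List.mem_append_left _ hl
      · exact List.mem_append_right _ ((hQ p).2 ⟨⟨hp, h⟩, hl⟩)) K
  rw [List.map_append, KeyAux.EnO_app, List.map_map] at this
  exact (KeyAux.EnO_one (TN b K) _) ▸ this

end Pool.Agent.MP_b2c033_nt.U
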