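import Pool.Agent.MP_b2c033_nt.UC.CSpec

/-! Monotonicity of the energy. -/

namespace Pool.Agent.MP_b2c033_nt.U

open scoped Real

namespace MonX

theorem tn0 (b : ℕ → ℤ) (K X : ℕ) : 0 ≤ TN b K X := by
  rw [TN]
  split_ifs
  · exact le_rfl
  · exact Finset.sum_nonneg fun n _ => by positivity

theorem tn (b : ℕ → ℤ) (K : ℕ) : Monotone (TN b K) := fun X Y h => by
  rcases Nat.eq_zero_or_pos X with rfl | h0
  · exact (if_pos rfl).trans_le (tn0 b K Y)
  rw [TN, TN, if_neg h0.ne', if_neg (h0.trans_le h).ne']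
  refine Finset.sum_le_sum fun n _ => mul_le_mul_of_nonneg_left (Real.exp_le_exp.2
    (neg_le_neg (div_le_div_of_nonneg_left (by positivity) ?_ ?_))) (by positivity)
  · exact_mod_cast h0
  · exact_mod_cast h

end MonX

theorem c_Mon : C_Mon := by
  refine ⟨fun b K => ⟨MonX.tn b K, MonX.tn0 b K⟩, fun T os h1 h2 => ?_⟩
  induction os with
  | nil => exact ⟨h1, h2⟩
  | cons o os ih =>
    refine ⟨fun X Y h => List.sum_le_sum fun y _ => mul_le_mul_of_nonneg_left
      (ih.1 (Nat.mul_le_mul_right _ h)) (by positivity), fun X => List.sum_nonneg fun r hr => ?_⟩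
    obtain ⟨y, -, rfl⟩ := List.mem_map.1 hr
    exact mul_nonneg (by positivity) (ih.2 _)

end Pool.Agent.MP_b2c033_nt.U
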