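import Pool.Agent.MP_b2c033_nt.UC.CSpec

/-! The possible exponents at a prime and the divisibility at additive primes. -/

namespace Pool.Agent.MP_b2c033_nt.U

lemma st_five (W : WeierstrassCurve ℤ) (p : ℕ) (hp : p.Prime) (h : Ad W p) (h5 : 5 ≤ p) :
    (p : ℤ) ^ 2 ∣ W.Δ := by
  have hpi : Prime (p : ℤ) := Nat.prime_iff_prime_int.mp hp
  have hc := W.c_relation
  have h6 : (p : ℤ) ∣ W.c₆ := by
    apply hpi.dvd_of_dvd_pow (n := 2)
    have : W.c₆ ^ 2 = W.c₄ ^ 3 - 1728 * W.Δ := by linear_combination hc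
    rw [this]
    exact dvd_sub (dvd_pow h.2 (by norm_num)) (h.1.mul_left _)
  have h7 : (p : ℤ) ^ 2 ∣ 1728 * W.Δ := by
    rw [hc]
    refine dvd_sub ?_ (pow_dvd_pow_of_dvd h6 2)
    exact (pow_dvd_pow_of_dvd h.2 2).trans (pow_dvd_pow _ (by norm_num))
  have h8 : ¬ (p : ℤ) ∣ 1728 := by
    intro hd
    have h9 : p ∣ 2 ^ 6 * 3 ^ 3 := by exact_mod_cast hd
    rcases (Nat.Prime.dvd_mul hp).mp h9 with h | h
    · have := Nat.le_of_dvd (by norm_num) (hp.dvd_of_dvd_pow h); omega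
    · have := Nat.le_of_dvd (by norm_num) (hp.dvd_of_dvd_pow h); omega
  exact hpi.pow_dvd_of_dvd_mul_left 2 h8 h7

lemma st_two (W : WeierstrassCurve ℤ) (hr : RedMin W) (h : Ad W 2) :
    W.a₁ = 0 ∧ W.a₃ = 0 ∧ 16 ∣ W.Δ := by
  obtain ⟨⟨k, hk⟩, ⟨l, hl⟩⟩ := h
  simp only [WeierstrassCurve.Δ, WeierstrassCurve.c₄, WeierstrassCurve.b₂, WeierstrassCurve.b₄,
    WeierstrassCurve.b₆, WeierstrassCurve.b₈] at hk hl ⊢
  have h1 : W.a₁ = 0 := by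
    rcases hr.a₁ with h | h
    · exact h
    · exfalso
      rw [h] at hl
      have : (1 : ℤ) = 2 * (l - 4 * W.a₂ - 8 * W.a₂ ^ 2 + 12 * (2 * W.a₄ + W.a₃)) := by
        push_cast at hl
        linear_combination hl
      omega
  have h3 : W.a₃ = 0 := by
    rcases hr.a₃ with h | h
    · exact h
    · exfalso
      rw [h, h1] at hk
      have : (1 : ℤ) = 2 * (k + 8 * W.a₂ ^ 2 * (4 * W.a₂ * W.a₆ + W.a₂ - W.a₄ ^ 2) +
          32 * W.a₄ ^ 3 + 14 + 108 * W.a₆ + 216 * W.a₆ ^ 2 -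
          36 * W.a₂ * W.a₄ * (1 + 4 * W.a₆)) := by
        push_cast at hk
        linear_combination hk
      omega
  refine ⟨h1, h3, ?_⟩
  rw [h1, h3]
  exact ⟨-(W.a₂ ^ 2 * (4 * W.a₂ * W.a₆ - W.a₄ ^ 2)) - 4 * W.a₄ ^ 3 - 27 * W.a₆ ^ 2 +
    18 * W.a₂ * W.a₄ * W.a₆, by ring⟩

lemma st_three (W : WeierstrassCurve ℤ) (h : Ad W 3) :
    3 ∣ W.b₂ ∧ 3 ∣ W.b₄ ∧ 27 ∣ W.Δ := by
  obtain ⟨⟨k, hk⟩, ⟨l, hl⟩⟩ := h
  have hb := W.b_relation
  have hp : Prime (3 : ℤ) := Int.prime_three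
  simp only [WeierstrassCurve.Δ, WeierstrassCurve.c₄] at hk hl ⊢
  push_cast at hk hl
  have h2 : (3 : ℤ) ∣ W.b₂ :=
    hp.dvd_of_dvd_pow (n := 2) ⟨l + 8 * W.b₄, by linear_combination hl⟩
  obtain ⟨u, hu⟩ := h2
  have h4 : (3 : ℤ) ∣ W.b₄ := by
    refine hp.dvd_of_dvd_pow (n := 3) ⟨k + 3 * u ^ 2 * W.b₈ + 3 * W.b₄ ^ 3 + 9 * W.b₆ ^ 2 -
      9 * u * W.b₄ * W.b₆, ?_⟩
    rw [hu] at hk
    linear_combination hk
  obtain ⟨v, hv⟩ := h4
  have h8 : W.b₈ = 3 * (u * W.b₆ - 3 * v ^ 2 - W.b₈) := by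
    rw [hu, hv] at hb
    linear_combination hb
  refine ⟨⟨u, hu⟩, ⟨v, hv⟩, -(u ^ 2 * (u * W.b₆ - 3 * v ^ 2 - W.b₈)) - 8 * v ^ 3 - W.b₆ ^ 2 +
    3 * u * v * W.b₆, ?_⟩
  rw [hu, hv]
  linear_combination (-9 * u ^ 2) * h8

theorem c_St : C_St := by
  intro W Ω ρ N b S p hp
  have hN : N ≠ 0 := S.coef.pos.ne'
  have e2 : p ^ 2 ∣ N ↔ 2 ≤ N.factorization p := hp.pow_dvd_iff_le_factorization hN
  have e0 : N.factorization p = 0 → ¬ (p : ℤ) ∣ W.Δ := fun h => by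
    refine (S.link.good p hp fun hd => ?_).1
    have := (hp.dvd_iff_one_le_factorization hN).mp hd
    omega
  have e1 := S.link.mul p hp
  refine ⟨fun h => ?_, fun h h' => ?_, fun h => ⟨?_, ?_⟩, fun h => ⟨e2.mp h.1, ?_⟩,
    st_five W p hp, st_two W S.red, st_three W⟩
  · by_cases h0 : N.factorization p = 0
    · exact Or.inl h0
    · refine Or.inr ⟨e2.mpr ?_, fun ha => h ha.1⟩
      by_contra hc
      exact h (e1 (by omega)).1
  · by_cases h1 : N.factorization p = 1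
    · exact Or.inl h1
    · refine Or.inr ⟨e2.mpr ?_, fun ha => h' ha.2⟩
      by_contra hc
      exact e0 (by omega) h
  · by_contra hc
    by_cases h0 : N.factorization p = 0
    · exact e0 h0 h.1
    · exact (e1 (by omega)).2.1 h.2
  · unfold gn
    rw [if_neg fun hh => hh.2 h]
  · unfold gn
    rw [if_pos h]

end Pool.Agent.MP_b2c033_nt.U
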