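import Pool.Agent.MP_b2c033_nt.UC.Spec

/-! Soundness of the lower bounds for the truncated energy sum. -/

namespace Pool.Agent.MP_b2c033_nt.UC

open U
open scoped Real

namespace RT

/-- Horner evaluation in the reals -/
noncomputable def hp (q : ℝ) : List ℕ → ℝ
  | [] => 0
  | c :: l => (hp q l + c) * q

/-- Horner evaluation with floors -/
def hn (r : ℕ) (cs : List ℕ) : ℕ :=
  List.rec 0 (fun c _ acc => Nat.shiftRight (Nat.mul (Nat.add acc c) r) 24) cs

lemma shr_le (a k : ℕ) : ((Nat.shiftRight a k : ℕ) : ℝ) ≤ (a : ℝ) / 2 ^ k := by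
  have h : Nat.shiftRight a k = a / 2 ^ k := Nat.shiftRight_eq_div_pow a k
  rw [h]
  have := @Nat.cast_div_le ℝ _ _ _ a (2 ^ k)
  simpa using this

lemma hn_le (q : ℝ) (r : ℕ) (hq : 0 ≤ q) (hr : (r : ℝ) ≤ 2 ^ 24 * q) (cs : List ℕ) :
    (hn r cs : ℝ) ≤ hp q cs := by
  induction cs with
  | nil => simp [hn, hp]
  | cons c l ih =>
    have e : hn r (c :: l) = Nat.shiftRight ((hn r l + c) * r) 24 := rfl
    rw [e, hp]
    refine (shr_le _ _).trans ?_
    rw [div_le_iff₀ (by positivity)]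
    push_cast
    have h0 : (0 : ℝ) ≤ (hn r l : ℝ) + c := by positivity
    calc ((hn r l : ℝ) + c) * r ≤ ((hn r l : ℝ) + c) * (2 ^ 24 * q) :=
          mul_le_mul_of_nonneg_left hr h0
      _ ≤ (hp q l + c) * (2 ^ 24 * q) :=
          mul_le_mul_of_nonneg_right (by linarith) (by positivity)
      _ = (hp q l + c) * q * 2 ^ 24 := by ring

/-- the coefficient number `n` -/
def co (B n : ℕ) : ℕ := (pos (dig B n) + neg (dig B n)) ^ 2 * 16777216 / n

/-- the loop of `csL` -/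
def lp (B i : ℕ) : List ℕ → List ℕ :=
  (Nat.rec (fun acc => acc) (fun i ih acc => frc (dig B (Nat.succ i)) fun v =>
    frc (Nat.div (Nat.mul (Nat.pow (Nat.add (pos v) (neg v)) 2) 16777216) (Nat.succ i)) fun c =>
      ih (c :: acc)) i : List ℕ → List ℕ)

lemma lp_succ (B i : ℕ) (acc : List ℕ) : lp B (i + 1) acc = lp B i (co B (i + 1) :: acc) := by
  have e : lp B (i + 1) acc = frc (dig B (Nat.succ i)) fun v =>
    frc (Nat.div (Nat.mul (Nat.pow (Nat.add (pos v) (neg v)) 2) 16777216) (Nat.succ i)) fun c =>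
      lp B i (c :: acc) := rfl
  rw [e, frc_eq, frc_eq]
  rfl

lemma hp_lp (q : ℝ) (B i : ℕ) (acc : List ℕ) :
    hp q (lp B i acc) =
      ∑ n ∈ Finset.range i, (co B (n + 1) : ℝ) * q ^ (n + 1) + q ^ i * hp q acc := by
  induction i generalizing acc with
  | zero =>
    have e : lp B 0 acc = acc := rfl
    rw [e]; simp
  | succ i ih =>
    rw [lp_succ, ih, Finset.sum_range_succ, hp]
    ring

lemma sq_eq (v : ℕ) : (((pos v + neg v) ^ 2 : ℕ) : ℤ) = ((pos v : ℤ) - neg v) ^ 2 := by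
  unfold pos neg
  cases Nat.blt v 8388608 <;> simp

lemma co_le (B n : ℕ) (z : ℤ) (h : (pos (dig B n) : ℤ) - neg (dig B n) = z) :
    (co B n : ℝ) ≤ 2 ^ 24 * ((z : ℝ) ^ 2 / n) := by
  have h1 := sq_eq (dig B n)
  rw [h] at h1
  have h2 : (((pos (dig B n) + neg (dig B n)) ^ 2 : ℕ) : ℝ) = (z : ℝ) ^ 2 := by
    have := congrArg (fun t : ℤ => (t : ℝ)) h1
    simpa using this
  have h3 := @Nat.cast_div_le ℝ _ _ _ ((pos (dig B n) + neg (dig B n)) ^ 2 * 16777216) n
  refine h3.trans (le_of_eq ?_)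
  rw [Nat.cast_mul, h2]
  push_cast
  ring

lemma rlo_le (hE : R_exp) (X : ℕ) : (rlo X : ℝ) ≤ 2 ^ 24 * Real.exp (-(4 * π / X)) := by
  have h := (hE 4 X 31 12).1
  refine (shr_le _ _).trans ?_
  rw [div_le_iff₀ (by positivity)]
  refine h.trans (le_of_eq ?_)
  have e : π * ((4 : ℕ) : ℝ) / X = 4 * π / X := by push_cast; ring
  rw [e]
  ring

lemma exp_pow (X n : ℕ) :
    Real.exp (-(4 * π * n / ((X : ℚ) : ℝ))) = Real.exp (-(4 * π / X)) ^ n := by
  rw [← Real.exp_nat_mul]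
  congr 1
  push_cast
  ring

lemma add0 (a : ℕ) : Nat.add a 0 = a := rfl

lemma t1_eq (X : ℕ) : t1 X = rlo X :=
  (frc_eq X fun Y => Nat.add (rlo Y) 0).trans (add0 _)

lemma tcsA_eq (cs : List ℕ) (X : ℕ) : tcsA cs X = hn (rlo X) cs :=
  frc_eq (rlo X) fun r => hn r cs

lemma tcs_eq (cs : List ℕ) (X : ℕ) : tcs cs X = hn (rlo X) cs :=
  ((frc_eq X fun Y => Nat.add (tcsA cs Y) 0).trans (add0 _)).trans (tcsA_eq cs X)

lemma hn_nil (r : ℕ) : hn r [] = 0 := rfl

lemma csL_eq (B K : ℕ) : csL B K = lp B (K - 1) [] := rfl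

end RT

open RT in
theorem r_T : R_T := by
  intro hE
  refine ⟨fun b K => ⟨fun x => ?_, fun x y hx hxy => ?_⟩, fun b X hb => ?_, fun X => ?_,
    fun b B K X hR => ?_⟩
  · exact Finset.sum_nonneg fun n _ => by positivity
  · refine Finset.sum_le_sum fun n _ => mul_le_mul_of_nonneg_left ?_ (by positivity)
    refine Real.exp_le_exp.2 (neg_le_neg ?_)
    have hx' : (0 : ℝ) < x := by exact_mod_cast hx
    have hxy' : (x : ℝ) ≤ y := by exact_mod_cast hxy
    exact div_le_div_of_nonneg_left (by have := Real.pi_pos; positivity) hx' hxy'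
  · rw [t1_eq]
    refine (rlo_le hE X).trans (le_of_eq ?_)
    rw [TT, Finset.sum_range_succ, Finset.sum_range_succ, exp_pow, exp_pow, hb]
    simp
  · rw [tcs_eq, hn_nil]
  · rw [tcs_eq, csL_eq]
    refine (hn_le _ _ (Real.exp_pos _).le (rlo_le hE X) _).trans ?_
    rw [hp_lp, hp, mul_zero, add_zero, TT]
    rcases K with _ | k
    · simp
    · rw [Nat.add_sub_cancel, Finset.sum_range_succ', mul_add, Finset.mul_sum]
      refine le_add_of_le_of_nonneg (Finset.sum_le_sum fun n hn => ?_) (by positivity)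
      have hn' : n + 1 < k + 1 := Nat.succ_lt_succ (Finset.mem_range.1 hn)
      rw [exp_pow, ← mul_assoc]
      exact mul_le_mul_of_nonneg_right (co_le B (n + 1) _ (hR _ hn')) (by positivity)

end Pool.Agent.MP_b2c033_nt.UC
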