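import Pool.Agent.MP_b2c033_nt.UC.ThrK
import Pool.Agent.MP_b2c033_nt.UC.RKey
import Pool.Agent.MP_b2c033_nt.UC.RH5
import Pool.Agent.MP_b2c033_nt.UC.RMon
import Pool.Agent.MP_b2c033_nt.UC.RD01
import Pool.Agent.MP_b2c033_nt.UC.RD2
import Pool.Agent.MP_b2c033_nt.UC.RD3
import Pool.Agent.MP_b2c033_nt.UC.RD4
import Pool.Agent.MP_b2c033_nt.UC.RSt

/-! The thresholds for the enumeration. -/

set_option autoImplicit false

namespace Pool.Agent.MP_b2c033_nt.U

open scoped Real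

theorem c_Key : C_Key := r_Key c_Mon

theorem c_H5 : C_H5 := r_H5 c_Mon c_Key c_D01 c_D2 c_D3 c_D4 c_St

namespace Thr

variable {W : WeierstrassCurve ℤ} {Ω ρ : ℝ} {N : ℕ} {b : ℕ → ℤ}

theorem t1_le (h : Coef N b) (X : ℕ) : (t1 X : ℝ) ≤ SC * TN b 2 X := by
  unfold t1
  split_ifs with hX
  · simp [TN, hX]
  have hX' : (0 : ℝ) < X := by exact_mod_cast Nat.pos_of_ne_zero hX
  have e : Real.exp (-(4 * π / X)) = Real.exp (-(4 * π / (4096 * X))) ^ 2 ^ 12 := by
    rw [← Real.exp_nat_mul]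
    congr 1
    push_cast
    field_simp
  rw [H5.TN_two h hX, e]
  refine sqLo_le _ _ _ ?_
  rcases le_total SC (SC * 12567 / (4096000 * X) + 1) with h1 | h1
  · rw [Nat.sub_eq_zero_of_le h1, Nat.cast_zero]
    exact mul_nonneg SC_pos.le (Real.exp_pos _).le
  · rw [Nat.cast_sub h1]
    have h2 := lt_div_succ (SC * 12567) (4096000 * X)
      (Nat.mul_pos (by norm_num) (Nat.pos_of_ne_zero hX))
    have h3 := Real.add_one_le_exp (-(4 * π / (4096 * X)))
    have h4 : 4 * π / (4096 * X) ≤ 12567 / (4096000 * X) := by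
      rw [div_le_div_iff₀ (by positivity) (by positivity)]
      nlinarith [Real.pi_lt_d4]
    have h5 : ((SC * 12567 : ℕ) : ℝ) / (4096000 * X : ℕ) = SC * (12567 / (4096000 * X)) := by
      push_cast
      ring
    rw [h5] at h2
    have := SC_pos
    nlinarith

theorem enN_le (h : Coef N b) : ∀ (os : List Op) (X : ℕ), (enN os X : ℝ) ≤ SC * EnO (TN b 2) os X
  | [], X => t1_le h X
  | o :: os, X => by
    rw [enN, EnO, evO, Nat.cast_list_sum, List.map_map, ← List.sum_map_mul_left]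
    refine List.sum_le_sum fun y _ => Nat.cast_div_le.trans ?_
    rw [Nat.cast_mul, mul_div_right_comm, mul_left_comm]
    exact mul_le_mul_of_nonneg_left (enN_le h os _) (by positivity)

/-- the state `s` is realised at the prime `p` -/
def Re (W : WeierstrassCurve ℤ) (N p : ℕ) (s : St) : Prop := gn W N p = s.2.1 ∧
  (s.2.2 = true → N.factorization p = s.1) ∧
  (s.2.2 = false → 2 ≤ s.1 ∧ s.1 ≤ N.factorization p) ∧ (ad s = true → Ad W p)

theorem cand_dm {p : ℕ} (hp : p.Prime) {s : St} (h : Re W N p s) : ∀ o ∈ cand p s, Dm W N p o := by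
  obtain ⟨e, g, x⟩ := s
  obtain ⟨rfl, h1, h2, -⟩ := h
  intro o ho
  cases x
  · obtain ⟨h3, h4⟩ := h2 rfl
    obtain rfl : o = uo p (e / 2) (gn W N p) := by simpa [cand] using ho
    exact c_D3 W N p _ hp (by simp only at h3; omega) (by simp only at h4; omega)
  · obtain rfl : N.factorization p = e := h1 rfl
    simp only [cand, if_true] at ho
    split_ifs at ho with h0 h3
    · rw [List.mem_singleton.1 ho]
      exact (c_D01 W N p hp).1 h0
    · rcases List.mem_cons.1 ho with rfl | ho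
      · exact ((c_D01 W N p hp).2 h3).1
      · rw [List.mem_singleton.1 ho, ← h3]
        exact c_D2 W N p 0 hp h3.ge (by omega)
    · obtain ⟨i, hi, rfl⟩ := List.mem_map.1 ho
      have := List.mem_range.1 (List.mem_reverse.1 hi)
      exact c_D2 W N p i hp (by omega) (by omega)

theorem ms_le {p : ℕ} (hp : p.Prime) {s : St} (h : Re W N p s) :
    0 ≤ ms p s ∧ ms p s ≤ Mp p (N.factorization p) 0 := by
  unfold ms
  split_ifs with hx
  · rw [h.2.1 hx]
    exact ⟨(KeyAux.Mp_pos hp _ _).le, le_rfl⟩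
  · exact ⟨le_rfl, (KeyAux.Mp_pos hp _ _).le⟩

theorem ex_st (S : Sit W Ω ρ N b) {p : ℕ} (hp : p.Prime) {k : ℕ} (hk : 1 ≤ k) {gs : List ℕ}
    (h1 : 1 ∈ gs) (h2 : Hy W N p → p ^ 2 ∈ gs) : ∃ s ∈ sts k gs, Re W N p s := by
  obtain ⟨-, -, s3, s4, -⟩ := c_St W Ω ρ N b S p hp
  have e2 : p ^ 2 ∣ N ↔ 2 ≤ N.factorization p := hp.pow_dvd_iff_le_factorization S.coef.pos.ne'
  by_cases h : 2 ≤ N.factorization p
  · have hg : gn W N p ∈ gs ∧ (gn W N p = 1 → Ad W p) := by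
      by_cases ha : Ad W p
      · exact ⟨(s3 ha).2 ▸ h1, fun _ => ha⟩
      · have hy : Hy W N p := ⟨e2.2 h, ha⟩
        refine ⟨(s4 hy).2 ▸ h2 hy, fun h3 => ?_⟩
        rw [(s4 hy).2] at h3
        exact absurd (Nat.pow_eq_one.1 h3) (by have := hp.two_le; omega)
    by_cases h3 : 2 * k ≤ N.factorization p
    · refine ⟨(2 * k, gn W N p, false), List.mem_cons_of_mem _ (List.mem_cons_of_mem _
        (List.mem_flatMap.2 ⟨_, hg.1, List.mem_cons_self⟩)), rfl, by simp,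
        fun _ => ⟨by simp only; omega, h3⟩, fun h4 => hg.2 ?_⟩
      simpa using (Bool.and_eq_true_iff.1 h4).2
    · refine ⟨(N.factorization p, gn W N p, true), List.mem_cons_of_mem _ (List.mem_cons_of_mem _
        (List.mem_flatMap.2 ⟨_, hg.1, List.mem_cons_of_mem _ (List.mem_map.2
          ⟨_, List.mem_range'_1.2 ⟨h, by omega⟩, rfl⟩)⟩)), rfl, fun _ => rfl, by simp,
        fun h4 => hg.2 ?_⟩
      simpa using (Bool.and_eq_true_iff.1 h4).2
  · have hg : gn W N p = 1 := if_neg fun hy => h (e2.1 hy.1)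
    by_cases h0 : N.factorization p = 0
    · exact ⟨(0, 1, true), List.mem_cons_self, hg, fun _ => h0, by simp, by simp [ad]⟩
    · exact ⟨(1, 1, true), List.mem_cons_of_mem _ List.mem_cons_self, hg,
        fun _ => by simp only; omega, by simp, by simp [ad]⟩

theorem big {q : ℕ} (hq : q.Prime) (h2 : q ≠ 2) (h3 : q ≠ 3) (h5 : q ≠ 5) (h7 : q ≠ 7) :
    11 ≤ q := by
  by_contra h
  have h1 : q < 11 := not_le.1 h
  interval_cases q <;> first | omega | norm_num at hq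

theorem good_le (S : Sit W Ω ρ N b) {s2 s3 s5 s7 : St} (r2 : Re W N 2 s2) (r3 : Re W N 3 s3)
    (r5 : Re W N 5 s5) (r7 : Re W N 7 s7) {P : ℕ} {ob : Op} (hP : P.Prime) (h11 : 11 ≤ P)
    (hb : Dm W N P ob) (hq : ∀ q : ℕ, q.Prime → 11 ≤ q → q ∣ N → Dm W N q o1)
    (h : good s2 s3 s5 s7 ob = true) : (thr (ad s2) (ad s3) (ad s5) (ad s7) : ℝ) ≤ 100 * Ω := by
  simp only [good, List.any_eq_true, Nat.ble_eq] at h
  obtain ⟨o2, h2, o3, h3, o5, h5, o7, h7, h⟩ := h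
  have hk := c_Key W Ω ρ N b S [(2, o2), (3, o3), (5, o5), (7, o7), (P, ob)]
    (by simp only [List.map_cons, List.map_nil, List.nodup_cons, List.mem_cons, List.not_mem_nil,
      List.nodup_nil, not_false_eq_true, or_false, and_true]; omega)
    (fun y hy => by
      simp only [List.mem_cons, List.not_mem_nil, or_false] at hy
      rcases hy with rfl | rfl | rfl | rfl | rfl
      · exact ⟨Nat.prime_two, cand_dm Nat.prime_two r2 _ h2⟩
      · exact ⟨Nat.prime_three, cand_dm Nat.prime_three r3 _ h3⟩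
      · exact ⟨Nat.prime_five, cand_dm Nat.prime_five r5 _ h5⟩
      · exact ⟨Nat.prime_seven, cand_dm Nat.prime_seven r7 _ h7⟩
      · exact ⟨hP, hb⟩)
    (fun q q1 q2 q3 => by
      simp only [List.map_cons, List.map_nil, List.mem_cons, not_or] at q3
      exact hq q q1 (big q1 q3.1 q3.2.1 q3.2.2.1 q3.2.2.2.1) q2) 2
  have a1 := enN_le S.coef [o2, o3, o5, o7, ob] 1
  have a2 : (thr (ad s2) (ad s3) (ad s5) (ad s7) : ℝ) * (10 * SC) ≤
      9424 * enN [o2, o3, o5, o7, ob] 1 := by exact_mod_cast h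
  have a3 := (c_Mon.2 _ [o2, o3, o5, o7, ob] (c_Mon.1 b 2).1 (c_Mon.1 b 2).2).2 1
  have a4 : 9.424 * EnO (TN b 2) [o2, o3, o5, o7, ob] 1 ≤ Ω :=
    (mul_le_mul_of_nonneg_right (by linarith [Real.pi_gt_d4]) a3).trans hk
  refine le_of_mul_le_mul_right ?_ (mul_pos (by norm_num : (0 : ℝ) < 10) SC_pos)
  nlinarith [mul_le_mul_of_nonneg_left a4 SC_pos.le]

theorem mass (h : ∀ q : ℕ, q.Prime → q ∣ N → q < 11) : Mtot N (fun _ => 0) =
    Mp 2 (N.factorization 2) 0 * Mp 3 (N.factorization 3) 0 * Mp 5 (N.factorization 5) 0 *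
      Mp 7 (N.factorization 7) 0 := by
  rw [Mtot, Finset.prod_subset (s₂ := {2, 3, 5, 7})]
  · rw [Finset.prod_insert (by decide), Finset.prod_insert (by decide),
      Finset.prod_pair (by decide)]
    ring
  · intro q hq
    have q1 := Nat.prime_of_mem_primeFactors hq
    have q2 := h q q1 (Nat.dvd_of_mem_primeFactors hq)
    simp only [Finset.mem_insert, Finset.mem_singleton]
    by_contra hc
    simp only [not_or] at hc
    exact absurd (big q1 hc.1 hc.2.1 hc.2.2.1 hc.2.2.2) (by omega)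
  · intro q _ hq
    rw [← Nat.support_factorization, Finsupp.notMem_support_iff] at hq
    rw [hq, Mp, if_pos rfl]

theorem main (S : Sit W Ω ρ N b) (hΔ : W.Δ.natAbs ≠ 1)
    (hA : ∀ p : ℕ, p.Prime → 11 ≤ p → ¬Ad W p) (h57 : ¬(Ad W 5 ∧ Ad W 7)) :
    ∃ a2 a3 a5 a7 : Bool, (a2 = true → Ad W 2) ∧ (a3 = true → Ad W 3) ∧ (a5 = true → Ad W 5) ∧
      (a7 = true → Ad W 7) ∧ (thr a2 a3 a5 a7 : ℝ) ≤ 100 * Ω := by
  have h5 := c_H5 W Ω ρ N b S hΔ
  obtain ⟨s2, m2, r2⟩ := ex_st S Nat.prime_two (k := 4) (by norm_num) (gs := [1, 4]) (by simp)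
    (by simp)
  obtain ⟨s3, m3, r3⟩ := ex_st S Nat.prime_three (k := 3) (by norm_num) (gs := [1, 9]) (by simp)
    (by simp)
  obtain ⟨s5, m5, r5⟩ := ex_st S Nat.prime_five (k := 2) (by norm_num) (gs := [1]) (by simp)
    fun h => absurd h (h5 5 Nat.prime_five le_rfl)
  obtain ⟨s7, m7, r7⟩ := ex_st S Nat.prime_seven (k := 1) le_rfl (gs := [1]) (by simp)
    fun h => absurd h (h5 7 Nat.prime_seven (by norm_num))
  refine ⟨ad s2, ad s3, ad s5, ad s7, r2.2.2.2, r3.2.2.2, r5.2.2.2, r7.2.2.2, ?_⟩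
  have hl := List.all_eq_true.1 (List.all_eq_true.1 (List.all_eq_true.1 (List.all_eq_true.1
    table s2 m2) s3 m3) s5 m5) s7 m7
  simp only [leaf, Bool.or_eq_true, Bool.and_eq_true, decide_eq_true_eq] at hl
  obtain ⟨g1, g2⟩ := hl.resolve_left fun h => h57 ⟨r5.2.2.2 h.1, r7.2.2.2 h.2⟩
  have f1 : ∀ q : ℕ, q.Prime → 11 ≤ q → q ∣ N → N.factorization q = 1 := fun q q1 q2 q3 => by
    have a1 := q1.factorization_pos_of_dvd S.coef.pos.ne' q3
    by_contra a2
    exact h5 q q1 (by omega)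
      ⟨(q1.pow_dvd_iff_le_factorization S.coef.pos.ne').2 (by omega), hA q q1 q2⟩
  have f2 : ∀ q : ℕ, q.Prime → 11 ≤ q → q ∣ N → Dm W N q o1 := fun q q1 q2 q3 =>
    ((c_D01 W N q q1).2 (f1 q q1 q2 q3)).1
  by_cases hb : ∃ q : ℕ, q.Prime ∧ 11 ≤ q ∧ q ∣ N
  · obtain ⟨q, q1, q2, q3⟩ := hb
    exact good_le S r2 r3 r5 r7 q1 q2 (((c_D01 W N q q1).2 (f1 q q1 q2 q3)).2 11 q2) f2 g1
  have p11 : Nat.Prime 11 := by norm_num
  rcases g2 with g2 | g2
  · exact good_le S r2 r3 r5 r7 p11 le_rfl ((c_D01 W N 11 p11).1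
      (Nat.factorization_eq_zero_of_not_dvd fun h => hb ⟨11, p11, le_rfl, h⟩)) f2 g2
  · have v := S.val
    rw [mass fun q q1 q2 => not_le.1 fun h => hb ⟨q, q1, h, q2⟩] at v
    obtain ⟨a2, b2⟩ := ms_le Nat.prime_two r2
    obtain ⟨a3, b3⟩ := ms_le Nat.prime_three r3
    obtain ⟨a5, b5⟩ := ms_le Nat.prime_five r5
    obtain ⟨a7, b7⟩ := ms_le Nat.prime_seven r7
    refine absurd (g2.trans_le (le_trans ?_ v)) (lt_irrefl _)
    exact mul_le_mul (mul_le_mul (mul_le_mul b2 b3 a3 (a2.trans b2)) b5 a5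
      (mul_nonneg (a2.trans b2) (a3.trans b3))) b7 a7
      (mul_nonneg (mul_nonneg (a2.trans b2) (a3.trans b3)) (a5.trans b5))

end Thr

theorem r_Thr (hT : C_TA) : C_Thr := by
  intro W Ω ρ N b S hΔ
  by_cases h : (∃ p : ℕ, p.Prime ∧ 11 ≤ p ∧ Ad W p) ∨ (Ad W 5 ∧ Ad W 7)
  · obtain ⟨a, c, d, e, f⟩ := hT W Ω ρ N b S hΔ h
    exact ⟨fun x _ => a x, fun x => le_trans (by norm_num) (a x), c, d, e, f⟩
  obtain ⟨a2, a3, a5, a7, h2, h3, h5, h7, ht⟩ := Thr.main S hΔ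
    (fun p p1 p2 p3 => h (Or.inl ⟨p, p1, p2, p3⟩)) fun x => h (Or.inr x)
  cases a2 <;> cases a3 <;> cases a5 <;> cases a7 <;> norm_num [Thr.thr] at ht h2 h3 h5 h7 <;>
    refine ⟨fun x y => ?_, fun x => ?_, fun x => ?_, ?_, fun x => ?_, fun x y => ?_⟩ <;>
    first | contradiction | linarith

end Pool.Agent.MP_b2c033_nt.U
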