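import Pool.Agent.MP_b2c033_nt.UC.Spec

/-! The finite check: the program computes the trace of Frobenius modulo `2 ^ 24`. -/

namespace Pool.Agent.MP_b2c033_nt.UC

open U WeierstrassCurve Finset

lemma rap_rec (g : ℕ → ℕ) (n s : ℕ) :
    (Nat.rec (fun s => s) (fun x ih s => frc (Nat.add s (g x)) ih) n : ℕ → ℕ) s =
      s + ∑ x ∈ range n, g x := by
  induction n generalizing s with
  | zero => simp
  | succ n ih =>
    have h : (Nat.rec (fun s => s) (fun x ih s => frc (Nat.add s (g x)) ih) (n + 1) : ℕ → ℕ) s =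
        frc (Nat.add s (g n))
          (Nat.rec (fun s => s) (fun x ih s => frc (Nat.add s (g x)) ih) n : ℕ → ℕ) := rfl
    rw [h, frc_eq, ih, sum_range_succ, Nat.add_eq]; omega

lemma rap_cntOdd (p x2 x4 x6 hf : ℕ) : cntOdd p x2 x4 x6 hf =
    ∑ x ∈ range p, (((((4 * x + x2) * x + x4) * x + x6) % p) ^ hf + 1) % p := by
  have h := rap_rec (fun x => (((((4 * x + x2) * x + x4) * x + x6) % p) ^ hf + 1) % p) p 0
  rw [zero_add] at h
  exact h

lemma rap_res (b : ℤ) (p : ℕ) (hp : 0 < p) : ((res b p : ℕ) : ZMod p) = (b : ZMod p) := by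
  have h0 : (0 : ℤ) ≤ b % (p : ℤ) := Int.emod_nonneg _ (by exact_mod_cast hp.ne')
  have h1 : ((res b p : ℕ) : ℤ) = b % (p : ℤ) := Int.natAbs_of_nonneg h0
  have h2 : (((res b p : ℕ) : ℤ) : ZMod p) = ((b % (p : ℤ) : ℤ) : ZMod p) := by rw [h1]
  rw [Int.cast_natCast, ZMod.intCast_mod] at h2
  exact h2

lemma rap_sq (p : ℕ) [Fact p.Prime] (h2 : p ≠ 2) (n : ℕ) :
    ((n % p) ^ (p / 2) + 1) % p = #{z : ZMod p | z ^ 2 = (n : ZMod p)} := by
  have hp : p.Prime := Fact.out
  have h3 : 3 ≤ p := by have := hp.two_le; omega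
  have hr : ringChar (ZMod p) ≠ 2 := by rw [ZMod.ringChar_zmod_n]; exact h2
  have h1 := quadraticChar_card_sqrts hr (n : ZMod p)
  have h4 := quadraticChar_eq_pow_of_char_ne_two' hr (n : ZMod p)
  rw [ZMod.card] at h4
  have h5 : ({x : ZMod p | x ^ 2 = (n : ZMod p)} : Set (ZMod p)).toFinset =
      ({z : ZMod p | z ^ 2 = (n : ZMod p)} : Finset (ZMod p)) := by
    ext z; simp
  rw [h5] at h1
  set m := #{z : ZMod p | z ^ 2 = (n : ZMod p)} with hm
  have h6 : m < p := by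
    have h7 : quadraticChar (ZMod p) (n : ZMod p) ≤ 1 := by
      rcases quadraticChar_isQuadratic (ZMod p) (n : ZMod p) with h | h | h <;> rw [h] <;> norm_num
    omega
  have h8 : ((m : ℕ) : ZMod p) = (((n % p) ^ (p / 2) + 1 : ℕ) : ZMod p) := by
    have h9 : (((m : ℕ) : ℤ) : ZMod p) =
        ((quadraticChar (ZMod p) (n : ZMod p) + 1 : ℤ) : ZMod p) := by rw [h1]
    rw [Int.cast_natCast, Int.cast_add, h4] at h9
    rw [h9]; push_cast; simp
  rw [ZMod.natCast_eq_natCast_iff'] at h8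
  rw [← h8, Nat.mod_eq_of_lt h6]

lemma rap_card (p : ℕ) [Fact p.Prime] (V : WeierstrassCurve (ZMod p)) [∀ x y, Decidable (V.toAffine.Equation x y)] :
    Nat.card {P : ZMod p × ZMod p // V.toAffine.Equation P.1 P.2} =
      ∑ x : ZMod p, #{y : ZMod p | V.toAffine.Equation x y} := by
  rw [Nat.card_congr (Equiv.subtypeProdEquivSigmaSubtype fun x y => V.toAffine.Equation x y),
    Nat.card_eq_fintype_card, Fintype.card_sigma]
  refine Finset.sum_congr rfl fun x _ => ?_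
  rw [Fintype.card_subtype]

lemma rap_fib (p : ℕ) [Fact p.Prime] (h2 : p ≠ 2) (V : WeierstrassCurve (ZMod p))
    [∀ x y, Decidable (V.toAffine.Equation x y)] (x : ZMod p) :
    #{y : ZMod p | V.toAffine.Equation x y} =
      #{z : ZMod p | z ^ 2 = ((4 * x + (V.a₁ * V.a₁ + 4 * V.a₂)) * x +
        (4 * V.a₄ + 2 * (V.a₁ * V.a₃))) * x + (V.a₃ * V.a₃ + 4 * V.a₆)} := by
  have hp : p.Prime := Fact.out
  have ht : (2 : ZMod p) ≠ 0 := by
    intro h
    have h' : ((2 : ℕ) : ZMod p) = 0 := by exact_mod_cast h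
    rw [ZMod.natCast_eq_zero_iff] at h'
    exact h2 ((Nat.prime_dvd_prime_iff_eq hp Nat.prime_two).1 h')
  have h4 : (4 : ZMod p) ≠ 0 := by
    have : (4 : ZMod p) = 2 * 2 := by norm_num
    rw [this]; exact mul_ne_zero ht ht
  refine Finset.card_bij (fun y _ => 2 * y + V.a₁ * x + V.a₃) ?_ ?_ ?_
  · intro y hy
    simp only [mem_filter, mem_univ, true_and] at hy ⊢
    rw [WeierstrassCurve.Affine.equation_iff] at hy
    linear_combination 4 * hy
  · intro y _ y' _ h
    have h' : 2 * y = 2 * y' := by linear_combination h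
    exact mul_left_cancel₀ ht h'
  · intro z hz
    simp only [mem_filter, mem_univ, true_and] at hz
    have e : 2 * ((z - V.a₁ * x - V.a₃) / 2) = z - V.a₁ * x - V.a₃ := mul_div_cancel₀ _ ht
    refine ⟨(z - V.a₁ * x - V.a₃) / 2, ?_, by linear_combination e⟩
    simp only [mem_filter, mem_univ, true_and]
    rw [WeierstrassCurve.Affine.equation_iff]
    apply mul_left_cancel₀ h4
    generalize (z - V.a₁ * x - V.a₃) / 2 = y at e
    have e' : z = 2 * y + V.a₁ * x + V.a₃ := by linear_combination -e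
    rw [e'] at hz
    linear_combination hz

lemma rap_odd (W : WeierstrassCurve ℤ) (p : ℕ) [Fact p.Prime] (h2 : p ≠ 2) :
    cntOdd p (res (W.a₁ * W.a₁ + 4 * W.a₂) p) (res (4 * W.a₄ + 2 * (W.a₁ * W.a₃)) p)
      (res (W.a₃ * W.a₃ + 4 * W.a₆) p) (p / 2) =
    Nat.card {P : ZMod p × ZMod p //
      (W.map (Int.castRingHom (ZMod p))).toAffine.Equation P.1 P.2} := by
  classical
  have hp : p.Prime := Fact.out
  rw [rap_cntOdd, rap_card]
  refine Finset.sum_bij (fun x _ => (x : ZMod p)) (fun _ _ => mem_univ _) ?_ ?_ ?_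
  · intro a ha b hb h
    rw [ZMod.natCast_eq_natCast_iff', Nat.mod_eq_of_lt (mem_range.1 ha),
      Nat.mod_eq_of_lt (mem_range.1 hb)] at h
    exact h
  · intro x _
    exact ⟨x.val, mem_range.2 (ZMod.val_lt x), ZMod.natCast_zmod_val x⟩
  · intro x _
    rw [rap_sq p h2, rap_fib p h2]
    push_cast
    simp only [rap_res _ p hp.pos, map_a₁, map_a₂, map_a₃, map_a₄, map_a₆, eq_intCast]
    push_cast
    rfl

lemma rap_le (p x2 x4 x6 : ℕ) [Fact p.Prime] (h2 : p ≠ 2) :
    cntOdd p x2 x4 x6 (p / 2) ≤ 2 * p := by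
  have hr : ringChar (ZMod p) ≠ 2 := by rw [ZMod.ringChar_zmod_n]; exact h2
  rw [rap_cntOdd]
  have h : ∀ x ∈ range p, (((((4 * x + x2) * x + x4) * x + x6) % p) ^ (p / 2) + 1) % p ≤ 2 := by
    intro x _
    rw [rap_sq p h2]
    generalize ((((4 * x + x2) * x + x4) * x + x6 : ℕ) : ZMod p) = t
    have h1 := quadraticChar_card_sqrts hr t
    have h5 : ({x : ZMod p | x ^ 2 = t} : Set (ZMod p)).toFinset =
        ({z : ZMod p | z ^ 2 = t} : Finset (ZMod p)) := by
      ext z; simp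
    rw [h5] at h1
    have h7 : quadraticChar (ZMod p) t ≤ 1 := by
      rcases quadraticChar_isQuadratic (ZMod p) t with h | h | h <;> rw [h] <;> norm_num
    omega
  have := Finset.sum_le_card_nsmul _ _ 2 h
  rw [card_range, smul_eq_mul] at this
  omega

lemma rap_two₀ : ∀ a₁ a₂ a₃ a₄ a₆ : ZMod 2,
    4 - (a₆.val + (1 + a₃ + a₆).val + (1 + a₂ + a₄ + a₆).val + (a₁ + a₃ + a₂ + a₄ + a₆).val) =
      ∑ x : ZMod 2, #{y : ZMod 2 |
        y ^ 2 + a₁ * x * y + a₃ * y = x ^ 3 + a₂ * x ^ 2 + a₄ * x + a₆} := by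
  decide

lemma rap_res₂ (b : ℤ) : res b 2 = (b : ZMod 2).val := by
  have h := rap_res b 2 two_pos
  have h1 : res b 2 < 2 := by
    have h0 : (0 : ℤ) ≤ b % 2 := Int.emod_nonneg _ (by norm_num)
    have h1 : ((res b 2 : ℕ) : ℤ) = b % 2 := Int.natAbs_of_nonneg h0
    omega
  rw [← h, ZMod.val_natCast, Nat.mod_eq_of_lt h1]

lemma rap_two (W : WeierstrassCurve ℤ) : cntTwo W =
    Nat.card {P : ZMod 2 × ZMod 2 //
      (W.map (Int.castRingHom (ZMod 2))).toAffine.Equation P.1 P.2} := by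
  classical
  rw [rap_card, cntTwo]
  simp only [rap_res₂]
  push_cast
  rw [rap_two₀]
  refine Finset.sum_congr rfl fun x _ => ?_
  refine congrArg Finset.card ?_
  ext y
  simp only [mem_filter, mem_univ, true_and, WeierstrassCurve.Affine.equation_iff, map_a₁, map_a₂,
    map_a₃, map_a₄, map_a₆, eq_intCast]

theorem r_ap : R_ap := by
  intro W p hp hlt
  haveI : Fact p.Prime := ⟨hp⟩
  refine ⟨?_, Nat.mod_lt _ (by norm_num)⟩
  have key : ∃ c : ℕ, c ≤ 2 * p ∧ apQ W p = (p + 16777216 - c) % 16777216 ∧ ap W p = p - c := by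
    by_cases h2 : p = 2
    · subst h2
      refine ⟨cntTwo W, ?_, rfl, ?_⟩
      · unfold cntTwo; omega
      · rw [ap, rap_two]
    · refine ⟨_, rap_le p _ _ _ h2, ?_, by rw [ap, rap_odd W p h2]⟩
      have hb : Nat.beq p 2 = false := by
        cases h : Nat.beq p 2
        · rfl
        · exact absurd (Nat.eq_of_beq_eq_true h) h2
      rw [apQ, hb]
      simp only [frc_eq]
      rfl
  obtain ⟨c, hc, h1, h2⟩ := key
  rw [h1, h2, Int.ModEq]
  omega

end Pool.Agent.MP_b2c033_nt.UC
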