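import Pool.Agent.MP_b2c033_nt.UC.Spec

/-! The finite check: classes of discriminants and factorisations. -/

namespace Pool.Agent.MP_b2c033_nt.UC

namespace Cls

lemma ex_prime {D M : ℕ} (hD : 0 < D) (hlt : D < 2 ^ 33) (h : ¬ D ∣ M ^ 33) :
    ∃ p : ℕ, p.Prime ∧ p ∣ D ∧ ¬ p ∣ M := by
  by_contra hc
  push Not at hc
  refine h ((Nat.dvd_iff_prime_pow_dvd_dvd _ _).2 fun p k hp hk => ?_)
  rcases Nat.eq_zero_or_pos k with rfl | h0
  · exact one_dvd _
  have h1 : p ∣ M := hc p hp ((dvd_pow_self p h0.ne').trans hk)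
  have h2 : 2 ^ k < 2 ^ 33 :=
    lt_of_le_of_lt ((Nat.pow_le_pow_left hp.two_le k).trans (Nat.le_of_dvd hD hk)) hlt
  have h3 : k < 33 := (Nat.pow_lt_pow_iff_right (by norm_num)).1 h2
  exact (pow_dvd_pow p h3.le).trans (pow_dvd_pow_of_dvd h1 33)

lemma small {p : ℕ} (hp : p.Prime) (h : p ∣ 210) : p = 2 ∨ p = 3 ∨ p = 5 ∨ p = 7 := by
  have e : (210 : ℕ) = 2 * (3 * (5 * 7)) := by norm_num
  rw [e, hp.dvd_mul, hp.dvd_mul, hp.dvd_mul, Nat.prime_dvd_prime_iff_eq hp Nat.prime_two,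
    Nat.prime_dvd_prime_iff_eq hp Nat.prime_three, Nat.prime_dvd_prime_iff_eq hp Nat.prime_five,
    Nat.prime_dvd_prime_iff_eq hp Nat.prime_seven] at h
  exact h

lemma small' {p : ℕ} (hp : p.Prime) (h : p ∣ sM) : p = 2 ∨ p = 3 ∨ p = 5 ∨ p = 7 :=
  small hp (hp.dvd_of_dvd_pow (n := 33) h)

lemma ge11 {p : ℕ} (hp : p.Prime) (h : ¬ p ∣ 210) : 11 ≤ p := by
  by_contra hc
  push Not at hc
  interval_cases p <;> first | (norm_num at hp; done) | norm_num at h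

lemma ge53 {p : ℕ} (hp : p.Prime) (h : ¬ p ∣ 614889782588491410) : 53 ≤ p := by
  by_contra hc
  push Not at hc
  interval_cases p <;> first | (norm_num at hp; done) | norm_num at h

lemma le_klog {k g : ℕ} (h : 11 ^ k ≤ g) (hg : g < 2 ^ 33) : k ≤ klog g := by
  have key : ∀ j : ℕ, g < 11 ^ (j + 1) → k ≤ j := fun j hj =>
    Nat.lt_succ_iff.1 ((Nat.pow_lt_pow_iff_right (by norm_num)).1 (lt_of_le_of_lt h hj))
  unfold klog
  cases h1 : Nat.blt g 121
  · cases h2 : Nat.blt g 1331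
    · cases h3 : Nat.blt g 14641
      · cases h4 : Nat.blt g 161051
        · exact key 9 (hg.trans (by norm_num))
        · exact key 4 (Nat.blt_eq.mp h4)
      · exact key 3 (Nat.blt_eq.mp h3)
    · exact key 2 (Nat.blt_eq.mp h2)
  · exact key 1 (Nat.blt_eq.mp h1)

lemma not_dv {d n : ℕ} (h : dv d n = false) : ¬ d ∣ n := fun k => by
  rw [(dv_iff d n).2 k] at h; exact absurd h (by decide)

lemma incr_spec (l : List ℕ) : ∀ x, incr l x = true → (∀ a ∈ l, x < a) ∧ l.Nodup := by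
  induction l with
  | nil => intro x _; simp
  | cons a l ih =>
    intro x h
    have e : incr (a :: l) x = (Nat.blt x a && incr l a) := rfl
    rw [e, Bool.and_eq_true, Nat.blt_eq] at h
    obtain ⟨h1, h2⟩ := ih a h.2
    refine ⟨fun b hb => ?_, List.nodup_cons.2 ⟨fun k => lt_irrefl _ (h1 a k), h2⟩⟩
    rcases List.mem_cons.1 hb with rfl | hb
    · exact h.1
    · exact h.1.trans (h1 b hb)

lemma prodL_dvd {p : ℕ} (hp : p.Prime) (l : List ℕ) (h : p ∣ prodL l) : ∃ a ∈ l, p ∣ a := by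
  induction l with
  | nil => exact absurd (Nat.dvd_one.1 h) hp.ne_one
  | cons a l ih =>
    have e : prodL (a :: l) = a * prodL l := rfl
    rw [e, hp.dvd_mul] at h
    rcases h with h | h
    · exact ⟨a, List.mem_cons_self, h⟩
    · obtain ⟨b, hb, k⟩ := ih h
      exact ⟨b, List.mem_cons_of_mem _ hb, k⟩

lemma isPr_spec {p : ℕ} (h2 : 2 ≤ p) (h : isPr p = true) : p.Prime := by
  rw [isPr, frc_eq, Bool.and_eq_true, Nat.blt_eq, allN_iff] at h
  generalize isq p = r at h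
  refine Nat.prime_def_le_sqrt.2 ⟨h2, fun m hm hs k => ?_⟩
  have h3 : m * m < (r + 1) * (r + 1) := lt_of_le_of_lt (Nat.le_sqrt.1 hs) h.1
  have h4 : m < r + 1 := Nat.mul_self_lt_mul_self_iff.1 h3
  have h5 := h.2 (m - 2) (by omega)
  have e : Nat.add (m - 2) 2 = m := by show m - 2 + 2 = m; omega
  rw [e, (dv_iff m p).2 k] at h5
  exact absurd h5 (by decide)

end Cls

open Cls

theorem r_cls : R_cls := by
  intro c D hD hlt
  refine ⟨fun h => ?_, fun h => ?_, fun g p h hp k => small' hp (k.trans ((dv_iff _ _).1 h)),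
    fun A hA => ?_⟩
  · obtain ⟨p, hp, h1, h2⟩ := ex_prime (M := 210) hD hlt (not_dv h)
    exact ⟨p, hp, ge11 hp h2, h1⟩
  · obtain ⟨p, hp, h1, h2⟩ := ex_prime (M := 614889782588491410) hD hlt (not_dv h)
    exact ⟨p, hp, ge53 hp h2, h1⟩
  · have e : bigG c D = Nat.gcd c D / Nat.gcd (Nat.gcd c D) sM := by rw [bigG, frc_eq]; rfl
    have hg : 0 < Nat.gcd c D := Nat.gcd_pos_of_pos_right _ hD
    have hgD : Nat.gcd c D ≤ D := Nat.le_of_dvd hD (Nat.gcd_dvd_right _ _)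
    have hp : ∀ p ∈ A, p ∣ Nat.gcd c D := fun p k => Nat.dvd_gcd (hA p k).2.2.2 (hA p k).2.2.1
    rw [e]
    generalize Nat.gcd c D = g at hg hgD hp
    have h1 : Nat.gcd g sM * (g / Nat.gcd g sM) = g := Nat.mul_div_cancel' (Nat.gcd_dvd_left _ _)
    have h2 : Nat.gcd g sM ∣ sM := Nat.gcd_dvd_right _ _
    have h3 : g / Nat.gcd g sM ≤ g := Nat.div_le_self _ _
    generalize g / Nat.gcd g sM = G at h1 h3
    generalize Nat.gcd g sM = t at h1 h2
    have hG : 0 < G := Nat.pos_of_mul_pos_left (h1 ▸ hg)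
    have h4 : ∀ p ∈ A, p ∣ G := fun p k => by
      obtain ⟨q1, q2, -⟩ := hA p k
      refine (q1.dvd_mul.1 (h1 ▸ hp p k)).resolve_left fun q3 => ?_
      have := small' q1 (q3.trans h2)
      omega
    have h5 : ∏ p ∈ A, p ∣ G :=
      Finset.prod_primes_dvd G (fun p k => (hA p k).1.prime) h4
    have h6 : 11 ^ A.card ≤ ∏ p ∈ A, p :=
      Finset.pow_card_le_prod A (fun p => p) 11 fun p k => (hA p k).2.1
    exact le_klog (h6.trans (Nat.le_of_dvd hG h5)) (lt_of_le_of_lt (h3.trans hgD) hlt)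

theorem r_fac : R_fac := by
  intro D l h
  rw [facOK, Bool.and_eq_true, Bool.and_eq_true, allL_iff, dv_iff] at h
  obtain ⟨⟨h1, h2⟩, h3⟩ := h
  obtain ⟨h4, h5⟩ := incr_spec l 10 h1
  have h6 : ∀ p ∈ l, p.Prime ∧ 11 ≤ p ∧ p ∣ D := fun p k => by
    have h7 := h2 p k
    have h8 := h4 p k
    rw [Bool.and_eq_true, dv_iff] at h7
    exact ⟨isPr_spec (by omega) h7.2, h8, h7.1⟩
  refine ⟨h5, h6, fun p hp k => ?_⟩
  have h7 : p ∣ sM * prodL l ^ 33 := k.trans h3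
  rcases hp.dvd_mul.1 h7 with h8 | h8
  · exact Or.inr (small' hp h8)
  · obtain ⟨a, ha, h9⟩ := prodL_dvd hp l (hp.dvd_of_dvd_pow h8)
    exact Or.inl ((Nat.prime_dvd_prime_iff_eq hp (h6 a ha).1).1 h9 ▸ ha)

end Pool.Agent.MP_b2c033_nt.UC
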