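import Pool.Agent.MP_b2c033_nt.UC.Spec

/-! Enclosures of the cosine sums. -/

namespace Pool.Agent.MP_b2c033_nt.UC

open scoped Real

namespace Cosx

lemma cp (x j : ℝ) (a : ℕ) (h : x = π * j / 16 + a * (2 * π)) :
    Real.cos x = Real.cos (π * j / 16) := by
  rw [h, Real.cos_add_nat_mul_two_pi]

lemma cm (x j : ℝ) (a : ℕ) (h : x = a * (2 * π) - π * j / 16) :
    Real.cos x = Real.cos (π * j / 16) := by
  rw [h, Real.cos_nat_mul_two_pi_sub]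

lemma np (x j : ℝ) (a : ℕ) (h : x = π * j / 16 + π + a * (2 * π)) :
    Real.cos x = -Real.cos (π * j / 16) := by
  rw [h, Real.cos_add_nat_mul_two_pi, Real.cos_add_pi]

lemma nm (x j : ℝ) (a : ℕ) (h : x = π - π * j / 16 + a * (2 * π)) :
    Real.cos x = -Real.cos (π * j / 16) := by
  rw [h, Real.cos_add_nat_mul_two_pi, Real.cos_pi_sub]

lemma s2 : (1.414213 : ℝ) ≤ √2 ∧ √2 ≤ 1.414214 :=
  ⟨Real.le_sqrt_of_sq_le (by norm_num), Real.sqrt_le_iff.2 ⟨by norm_num, by norm_num⟩⟩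

lemma s3 : (1.847758 : ℝ) ≤ √(2 + √2) ∧ √(2 + √2) ≤ 1.84776 :=
  ⟨Real.le_sqrt_of_sq_le (by nlinarith [s2.1]),
    Real.sqrt_le_iff.2 ⟨by norm_num, by nlinarith [s2.2]⟩⟩

lemma c0 : (0.98078 : ℝ) ≤ Real.cos (π / 16) ∧ Real.cos (π / 16) ≤ 0.98079 := by
  rw [Real.cos_pi_div_sixteen]
  have h1 : (1.96156 : ℝ) ≤ √(2 + √(2 + √2)) :=
    Real.le_sqrt_of_sq_le (by nlinarith [s3.1])
  have h2 : √(2 + √(2 + √2)) ≤ (1.96158 : ℝ) :=
    Real.sqrt_le_iff.2 ⟨by norm_num, by nlinarith [s3.2]⟩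
  constructor <;> linarith

lemma s0 : (0.19508 : ℝ) ≤ Real.sin (π / 16) ∧ Real.sin (π / 16) ≤ 0.1951 := by
  rw [Real.sin_pi_div_sixteen]
  have h1 : (0.39016 : ℝ) ≤ √(2 - √(2 + √2)) :=
    Real.le_sqrt_of_sq_le (by nlinarith [s3.2])
  have h2 : √(2 - √(2 + √2)) ≤ (0.3902 : ℝ) :=
    Real.sqrt_le_iff.2 ⟨by norm_num, by nlinarith [s3.1]⟩
  constructor <;> linarith

lemma c1 : (0.98078 : ℝ) ≤ Real.cos (π * 1 / 16) ∧ Real.cos (π * 1 / 16) ≤ 0.98079 := by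
  rw [mul_one]; exact c0

lemma cube {x a b : ℝ} (ha : 0 ≤ a) (h1 : a ≤ x) (h2 : x ≤ b) : a ^ 3 ≤ x ^ 3 ∧ x ^ 3 ≤ b ^ 3 :=
  ⟨pow_le_pow_left₀ ha h1 3, pow_le_pow_left₀ (ha.trans h1) h2 3⟩

lemma c3 : (0.8313 : ℝ) ≤ Real.cos (π * 3 / 16) ∧ Real.cos (π * 3 / 16) ≤ 0.8316 := by
  have h : π * 3 / 16 = 3 * (π / 16) := by ring
  rw [h, Real.cos_three_mul]
  have h3 := cube (by norm_num) c0.1 c0.2
  have := c0
  norm_num at h3 this ⊢
  constructor <;> linarith [h3.1, h3.2, this.1, this.2]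

lemma c5 : (0.5555 : ℝ) ≤ Real.cos (π * 5 / 16) ∧ Real.cos (π * 5 / 16) ≤ 0.5557 := by
  have h : π * 5 / 16 = π / 2 - 3 * (π / 16) := by ring
  rw [h, Real.cos_pi_div_two_sub, Real.sin_three_mul]
  have h3 := cube (by norm_num) s0.1 s0.2
  have := s0
  norm_num at h3 this ⊢
  constructor <;> linarith [h3.1, h3.2, this.1, this.2]

lemma c7 : (0.19508 : ℝ) ≤ Real.cos (π * 7 / 16) ∧ Real.cos (π * 7 / 16) ≤ 0.1951 := by
  have h : π * 7 / 16 = π / 2 - π / 16 := by ring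
  rw [h, Real.cos_pi_div_two_sub]; exact s0

/-- the sum of the two cosines -/
noncomputable def F (m : ℕ) : ℝ :=
  1000 * (Real.cos (π * m / 16) + Real.cos (3 * π * m / 16)) + 2000

lemma triv (m : ℕ) : 0 ≤ F m ∧ F m ≤ 4000 := by
  unfold F
  constructor <;> linarith [Real.neg_one_le_cos (π * m / 16), Real.cos_le_one (π * m / 16),
    Real.neg_one_le_cos (3 * π * m / 16), Real.cos_le_one (3 * π * m / 16)]

lemma per (n : ℕ) : F n = F (n % 32) := by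
  have h : (n : ℝ) = ((n % 32 : ℕ) : ℝ) + 32 * ((n / 32 : ℕ) : ℝ) := by
    exact_mod_cast (Nat.mod_add_div n 32).symm
  unfold F
  have h1 : π * n / 16 = π * ((n % 32 : ℕ) : ℝ) / 16 + ((n / 32 : ℕ) : ℝ) * (2 * π) := by
    linear_combination (π / 16) * h
  have h2 : 3 * π * n / 16 =
      3 * π * ((n % 32 : ℕ) : ℝ) / 16 + ((3 * (n / 32) : ℕ) : ℝ) * (2 * π) := by
    rw [Nat.cast_mul, Nat.cast_ofNat]
    linear_combination (3 * π / 16) * h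
  rw [h1, h2, Real.cos_add_nat_mul_two_pi, Real.cos_add_nat_mul_two_pi]

lemma f1 : (3811 : ℝ) ≤ F 1 ∧ F 1 ≤ 3814 := by
  unfold F
  rw [cp (π * (1 : ℕ) / 16) 1 0 (by push_cast; ring),
    cp (3 * π * (1 : ℕ) / 16) 3 0 (by push_cast; ring)]
  constructor <;> linarith [c1.1, c1.2, c3.1, c3.2]

lemma f3 : (2635 : ℝ) ≤ F 3 ∧ F 3 ≤ 2638 := by
  unfold F
  rw [cp (π * (3 : ℕ) / 16) 3 0 (by push_cast; ring),
    nm (3 * π * (3 : ℕ) / 16) 7 0 (by push_cast; ring)]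
  constructor <;> linarith [c3.1, c3.2, c7.1, c7.2]

lemma f5 : (1573 : ℝ) ≤ F 5 ∧ F 5 ≤ 1576 := by
  unfold F
  rw [cp (π * (5 : ℕ) / 16) 5 0 (by push_cast; ring),
    nm (3 * π * (5 : ℕ) / 16) 1 0 (by push_cast; ring)]
  constructor <;> linarith [c5.1, c5.2, c1.1, c1.2]

lemma f7 : (1638 : ℝ) ≤ F 7 ∧ F 7 ≤ 1641 := by
  unfold F
  rw [cp (π * (7 : ℕ) / 16) 7 0 (by push_cast; ring),
    np (3 * π * (7 : ℕ) / 16) 5 0 (by push_cast; ring)]
  constructor <;> linarith [c7.1, c7.2, c5.1, c5.2]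

lemma f9 : (2359 : ℝ) ≤ F 9 ∧ F 9 ≤ 2362 := by
  unfold F
  rw [nm (π * (9 : ℕ) / 16) 7 0 (by push_cast; ring),
    cm (3 * π * (9 : ℕ) / 16) 5 1 (by push_cast; ring)]
  constructor <;> linarith [c7.1, c7.2, c5.1, c5.2]

lemma f11 : (2424 : ℝ) ≤ F 11 ∧ F 11 ≤ 2427 := by
  unfold F
  rw [nm (π * (11 : ℕ) / 16) 5 0 (by push_cast; ring),
    cp (3 * π * (11 : ℕ) / 16) 1 1 (by push_cast; ring)]
  constructor <;> linarith [c5.1, c5.2, c1.1, c1.2]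

lemma f13 : (1362 : ℝ) ≤ F 13 ∧ F 13 ≤ 1365 := by
  unfold F
  rw [nm (π * (13 : ℕ) / 16) 3 0 (by push_cast; ring),
    cp (3 * π * (13 : ℕ) / 16) 7 1 (by push_cast; ring)]
  constructor <;> linarith [c3.1, c3.2, c7.1, c7.2]

lemma f15 : (186 : ℝ) ≤ F 15 ∧ F 15 ≤ 189 := by
  unfold F
  rw [nm (π * (15 : ℕ) / 16) 1 0 (by push_cast; ring),
    nm (3 * π * (15 : ℕ) / 16) 3 1 (by push_cast; ring)]
  constructor <;> linarith [c1.1, c1.2, c3.1, c3.2]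

lemma f17 : (186 : ℝ) ≤ F 17 ∧ F 17 ≤ 189 := by
  unfold F
  rw [np (π * (17 : ℕ) / 16) 1 0 (by push_cast; ring),
    np (3 * π * (17 : ℕ) / 16) 3 1 (by push_cast; ring)]
  constructor <;> linarith [c1.1, c1.2, c3.1, c3.2]

lemma f19 : (1362 : ℝ) ≤ F 19 ∧ F 19 ≤ 1365 := by
  unfold F
  rw [np (π * (19 : ℕ) / 16) 3 0 (by push_cast; ring),
    cm (3 * π * (19 : ℕ) / 16) 7 2 (by push_cast; ring)]
  constructor <;> linarith [c3.1, c3.2, c7.1, c7.2]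

lemma f21 : (2424 : ℝ) ≤ F 21 ∧ F 21 ≤ 2427 := by
  unfold F
  rw [np (π * (21 : ℕ) / 16) 5 0 (by push_cast; ring),
    cm (3 * π * (21 : ℕ) / 16) 1 2 (by push_cast; ring)]
  constructor <;> linarith [c5.1, c5.2, c1.1, c1.2]

lemma f23 : (2359 : ℝ) ≤ F 23 ∧ F 23 ≤ 2362 := by
  unfold F
  rw [np (π * (23 : ℕ) / 16) 7 0 (by push_cast; ring),
    cp (3 * π * (23 : ℕ) / 16) 5 2 (by push_cast; ring)]
  constructor <;> linarith [c7.1, c7.2, c5.1, c5.2]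

lemma f25 : (1638 : ℝ) ≤ F 25 ∧ F 25 ≤ 1641 := by
  unfold F
  rw [cm (π * (25 : ℕ) / 16) 7 1 (by push_cast; ring),
    nm (3 * π * (25 : ℕ) / 16) 5 2 (by push_cast; ring)]
  constructor <;> linarith [c7.1, c7.2, c5.1, c5.2]

lemma f27 : (1573 : ℝ) ≤ F 27 ∧ F 27 ≤ 1576 := by
  unfold F
  rw [cm (π * (27 : ℕ) / 16) 5 1 (by push_cast; ring),
    np (3 * π * (27 : ℕ) / 16) 1 2 (by push_cast; ring)]
  constructor <;> linarith [c5.1, c5.2, c1.1, c1.2]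

lemma f29 : (2635 : ℝ) ≤ F 29 ∧ F 29 ≤ 2638 := by
  unfold F
  rw [cm (π * (29 : ℕ) / 16) 3 1 (by push_cast; ring),
    np (3 * π * (29 : ℕ) / 16) 7 2 (by push_cast; ring)]
  constructor <;> linarith [c3.1, c3.2, c7.1, c7.2]

lemma f31 : (3811 : ℝ) ≤ F 31 ∧ F 31 ≤ 3814 := by
  unfold F
  rw [cm (π * (31 : ℕ) / 16) 1 1 (by push_cast; ring),
    cm (3 * π * (31 : ℕ) / 16) 3 3 (by push_cast; ring)]
  constructor <;> linarith [c1.1, c1.2, c3.1, c3.2]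

lemma all (m : ℕ) (hm : m < 32) :
    (cLo.getD m 0 : ℝ) ≤ F m ∧ F m ≤ cHi.getD m 0 := by
  interval_cases m
  · have e1 : cLo.getD 0 0 = 0 := rfl
    have e2 : cHi.getD 0 0 = 4000 := rfl
    rw [e1, e2]; exact_mod_cast triv 0
  · have e1 : cLo.getD 1 0 = 3811 := rfl
    have e2 : cHi.getD 1 0 = 3814 := rfl
    rw [e1, e2]; exact_mod_cast f1
  · have e1 : cLo.getD 2 0 = 0 := rfl
    have e2 : cHi.getD 2 0 = 4000 := rfl
    rw [e1, e2]; exact_mod_cast triv 2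
  · have e1 : cLo.getD 3 0 = 2635 := rfl
    have e2 : cHi.getD 3 0 = 2638 := rfl
    rw [e1, e2]; exact_mod_cast f3
  · have e1 : cLo.getD 4 0 = 0 := rfl
    have e2 : cHi.getD 4 0 = 4000 := rfl
    rw [e1, e2]; exact_mod_cast triv 4
  · have e1 : cLo.getD 5 0 = 1573 := rfl
    have e2 : cHi.getD 5 0 = 1576 := rfl
    rw [e1, e2]; exact_mod_cast f5
  · have e1 : cLo.getD 6 0 = 0 := rfl
    have e2 : cHi.getD 6 0 = 4000 := rfl
    rw [e1, e2]; exact_mod_cast triv 6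
  · have e1 : cLo.getD 7 0 = 1638 := rfl
    have e2 : cHi.getD 7 0 = 1641 := rfl
    rw [e1, e2]; exact_mod_cast f7
  · have e1 : cLo.getD 8 0 = 0 := rfl
    have e2 : cHi.getD 8 0 = 4000 := rfl
    rw [e1, e2]; exact_mod_cast triv 8
  · have e1 : cLo.getD 9 0 = 2359 := rfl
    have e2 : cHi.getD 9 0 = 2362 := rfl
    rw [e1, e2]; exact_mod_cast f9
  · have e1 : cLo.getD 10 0 = 0 := rfl
    have e2 : cHi.getD 10 0 = 4000 := rfl
    rw [e1, e2]; exact_mod_cast triv 10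
  · have e1 : cLo.getD 11 0 = 2424 := rfl
    have e2 : cHi.getD 11 0 = 2427 := rfl
    rw [e1, e2]; exact_mod_cast f11
  · have e1 : cLo.getD 12 0 = 0 := rfl
    have e2 : cHi.getD 12 0 = 4000 := rfl
    rw [e1, e2]; exact_mod_cast triv 12
  · have e1 : cLo.getD 13 0 = 1362 := rfl
    have e2 : cHi.getD 13 0 = 1365 := rfl
    rw [e1, e2]; exact_mod_cast f13
  · have e1 : cLo.getD 14 0 = 0 := rfl
    have e2 : cHi.getD 14 0 = 4000 := rfl
    rw [e1, e2]; exact_mod_cast triv 14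
  · have e1 : cLo.getD 15 0 = 186 := rfl
    have e2 : cHi.getD 15 0 = 189 := rfl
    rw [e1, e2]; exact_mod_cast f15
  · have e1 : cLo.getD 16 0 = 0 := rfl
    have e2 : cHi.getD 16 0 = 4000 := rfl
    rw [e1, e2]; exact_mod_cast triv 16
  · have e1 : cLo.getD 17 0 = 186 := rfl
    have e2 : cHi.getD 17 0 = 189 := rfl
    rw [e1, e2]; exact_mod_cast f17
  · have e1 : cLo.getD 18 0 = 0 := rfl
    have e2 : cHi.getD 18 0 = 4000 := rfl
    rw [e1, e2]; exact_mod_cast triv 18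
  · have e1 : cLo.getD 19 0 = 1362 := rfl
    have e2 : cHi.getD 19 0 = 1365 := rfl
    rw [e1, e2]; exact_mod_cast f19
  · have e1 : cLo.getD 20 0 = 0 := rfl
    have e2 : cHi.getD 20 0 = 4000 := rfl
    rw [e1, e2]; exact_mod_cast triv 20
  · have e1 : cLo.getD 21 0 = 2424 := rfl
    have e2 : cHi.getD 21 0 = 2427 := rfl
    rw [e1, e2]; exact_mod_cast f21
  · have e1 : cLo.getD 22 0 = 0 := rfl
    have e2 : cHi.getD 22 0 = 4000 := rfl
    rw [e1, e2]; exact_mod_cast triv 22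
  · have e1 : cLo.getD 23 0 = 2359 := rfl
    have e2 : cHi.getD 23 0 = 2362 := rfl
    rw [e1, e2]; exact_mod_cast f23
  · have e1 : cLo.getD 24 0 = 0 := rfl
    have e2 : cHi.getD 24 0 = 4000 := rfl
    rw [e1, e2]; exact_mod_cast triv 24
  · have e1 : cLo.getD 25 0 = 1638 := rfl
    have e2 : cHi.getD 25 0 = 1641 := rfl
    rw [e1, e2]; exact_mod_cast f25
  · have e1 : cLo.getD 26 0 = 0 := rfl
    have e2 : cHi.getD 26 0 = 4000 := rfl
    rw [e1, e2]; exact_mod_cast triv 26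
  · have e1 : cLo.getD 27 0 = 1573 := rfl
    have e2 : cHi.getD 27 0 = 1576 := rfl
    rw [e1, e2]; exact_mod_cast f27
  · have e1 : cLo.getD 28 0 = 0 := rfl
    have e2 : cHi.getD 28 0 = 4000 := rfl
    rw [e1, e2]; exact_mod_cast triv 28
  · have e1 : cLo.getD 29 0 = 2635 := rfl
    have e2 : cHi.getD 29 0 = 2638 := rfl
    rw [e1, e2]; exact_mod_cast f29
  · have e1 : cLo.getD 30 0 = 0 := rfl
    have e2 : cHi.getD 30 0 = 4000 := rfl
    rw [e1, e2]; exact_mod_cast triv 30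
  · have e1 : cLo.getD 31 0 = 3811 := rfl
    have e2 : cHi.getD 31 0 = 3814 := rfl
    rw [e1, e2]; exact_mod_cast f31

end Cosx

theorem r_cos : R_cos := by
  intro n
  have h := Cosx.all (n % 32) (Nat.mod_lt _ (by norm_num))
  rw [← Cosx.per] at h
  exact h

end Pool.Agent.MP_b2c033_nt.UC
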