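import Pool.Agent.MP_b2c033_nt.UC.Spec

/-! Divisors of the discriminant at the additive primes. -/

namespace Pool.Agent.MP_b2c033_nt.UC

open U WeierstrassCurve

namespace Rdlt

lemma sq5 (W : WeierstrassCurve ℤ) (p : ℕ) (hp : p.Prime) (h5 : 5 ≤ p)
    (hD : p ∣ W.Δ.natAbs) (hc : p ∣ W.c₄.natAbs) : p ^ 2 ∣ W.Δ.natAbs := by
  have hD' : (p : ℤ) ∣ W.Δ := Int.natCast_dvd.2 hD
  have hc' : (p : ℤ) ∣ W.c₄ := Int.natCast_dvd.2 hc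
  have hz : Prime (p : ℤ) := Nat.prime_iff_prime_int.1 hp
  have e : W.c₆ ^ 2 = W.c₄ ^ 3 - 1728 * W.Δ := by linear_combination W.c_relation
  have h6 : (p : ℤ) ∣ W.c₆ := by
    apply hz.dvd_of_dvd_pow (n := 2)
    rw [e]
    exact dvd_sub (dvd_pow hc' (by norm_num)) (hD'.mul_left _)
  have h2 : (p : ℤ) ^ 2 ∣ 1728 * W.Δ := by
    rw [W.c_relation]
    refine dvd_sub ?_ (pow_dvd_pow_of_dvd h6 2)
    exact (pow_dvd_pow_of_dvd hc' 2).trans (pow_dvd_pow _ (by norm_num))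
  have c2 : Nat.Coprime p 2 := (Nat.coprime_primes hp Nat.prime_two).2 (by omega)
  have c3 : Nat.Coprime p 3 := (Nat.coprime_primes hp Nat.prime_three).2 (by omega)
  have cc : Nat.Coprime (p ^ 2) (2 ^ 6 * 3 ^ 3) :=
    Nat.Coprime.mul_right (Nat.Coprime.pow 2 6 c2) (Nat.Coprime.pow 2 3 c3)
  have h3 : p ^ 2 ∣ (2 ^ 6 * 3 ^ 3) * W.Δ.natAbs := by
    have := Int.natAbs_dvd_natAbs.2 h2
    rw [Int.natAbs_mul, Int.natAbs_pow, Int.natAbs_natCast] at this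
    exact this
  exact cc.dvd_of_dvd_mul_left h3

lemma at2 (W : WeierstrassCurve ℤ) (h : RedMin W) (hD : 2 ∣ W.Δ.natAbs)
    (hc : 2 ∣ W.c₄.natAbs) : W.a₁ = 0 ∧ W.a₃ = 0 ∧ 16 ∣ W.Δ.natAbs := by
  have hD' : (2 : ℤ) ∣ W.Δ := Int.natCast_dvd.2 hD
  have hc' : (2 : ℤ) ∣ W.c₄ := Int.natCast_dvd.2 hc
  have h1 : W.a₁ = 0 := by
    rcases h.a₁ with h1 | h1
    · exact h1
    · exfalso
      have e : W.c₄ = 2 * (4 * W.a₂ + 8 * W.a₂ ^ 2 - 12 * W.b₄) + 1 := by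
        simp only [c₄, b₂, h1]; ring
      omega
  have h3 : W.a₃ = 0 := by
    rcases h.a₃ with h3 | h3
    · exact h3
    · exfalso
      have e : W.Δ = 2 * (-8 * W.a₂ ^ 2 * W.b₈ - 4 * W.b₄ ^ 3 - 108 * W.a₆ - 216 * W.a₆ ^ 2 +
          18 * W.a₂ * W.b₄ * W.b₆ - 14) + 1 := by
        simp only [Δ, b₂, b₆, h1, h3]; ring
      omega
  refine ⟨h1, h3, ?_⟩
  have e : W.Δ = 16 * (-W.a₂ ^ 2 * W.b₈ - 4 * W.a₄ ^ 3 - 27 * W.a₆ ^ 2 +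
      18 * W.a₂ * W.a₄ * W.a₆) := by
    simp only [Δ, b₂, b₄, b₆, h1, h3]; ring
  exact Int.natCast_dvd.1 (show ((16 : ℕ) : ℤ) ∣ W.Δ from ⟨_, e⟩)

lemma at3 (W : WeierstrassCurve ℤ) (hD : 3 ∣ W.Δ.natAbs) (hc : 3 ∣ W.c₄.natAbs) :
    (3 : ℤ) ∣ W.b₂ ∧ (3 : ℤ) ∣ W.b₄ ∧ 27 ∣ W.Δ.natAbs := by
  have hD' : (3 : ℤ) ∣ W.Δ := Int.natCast_dvd.2 hD
  have hc' : (3 : ℤ) ∣ W.c₄ := Int.natCast_dvd.2 hc
  have hz : Prime (3 : ℤ) := Int.prime_three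
  have h2 : (3 : ℤ) ∣ W.b₂ := by
    apply hz.dvd_of_dvd_pow (n := 2)
    have e : W.b₂ ^ 2 = W.c₄ + 3 * (8 * W.b₄) := by simp only [c₄]; ring
    rw [e]
    exact dvd_add hc' (dvd_mul_right _ _)
  obtain ⟨x, hx⟩ := h2
  have h4 : (3 : ℤ) ∣ W.b₄ := by
    apply hz.dvd_of_dvd_pow (n := 3)
    have e : W.b₄ ^ 3 = W.Δ + 3 * (3 * x ^ 2 * W.b₈ + 3 * W.b₄ ^ 3 + 9 * W.b₆ ^ 2 -
        9 * x * W.b₄ * W.b₆) := by
      simp only [Δ, hx]; ring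
    rw [e]
    exact dvd_add hD' (dvd_mul_right _ _)
  obtain ⟨y, hy⟩ := h4
  have e8 : W.b₈ = 3 * (x * W.b₆ - 3 * y ^ 2 - W.b₈) := by
    have := W.b_relation
    rw [hx, hy] at this
    linear_combination this
  obtain ⟨z, hz8⟩ : ∃ z, W.b₈ = 3 * z := ⟨_, e8⟩
  refine ⟨⟨x, hx⟩, ⟨y, hy⟩, ?_⟩
  have e : W.Δ = 27 * (-x ^ 2 * z - 8 * y ^ 3 - W.b₆ ^ 2 + 3 * x * y * W.b₆) := by
    simp only [Δ, hx, hy, hz8]; ring
  exact Int.natCast_dvd.1 (show ((27 : ℕ) : ℤ) ∣ W.Δ from ⟨_, e⟩)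

lemma typ_le (c D p : ℕ) : typ c D p ≤ 2 := by
  unfold typ
  cases dv p D <;> cases dv p c <;> simp

lemma typ_two (c D p : ℕ) (h : typ c D p = 2) : p ∣ D ∧ p ∣ c := by
  rw [← dv_iff, ← dv_iff]
  unfold typ at h
  revert h
  cases dv p D <;> cases dv p c <;> simp

lemma digits (c D : ℕ) : idx c D 0 % 3 = typ c D 2 ∧ idx c D 0 / 3 % 3 = typ c D 3 ∧
    idx c D 0 / 9 % 3 = typ c D 5 ∧ idx c D 0 / 27 % 3 = typ c D 7 := by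
  have e : idx c D 0 = typ c D 2 + 3 * typ c D 3 + 9 * typ c D 5 + 27 * typ c D 7 := rfl
  have h2 := typ_le c D 2
  have h3 := typ_le c D 3
  have h5 := typ_le c D 5
  have h7 := typ_le c D 7
  omega

lemma compat_ok (y2 y3 y5 y7 : Bool) (i : ℕ) (h2 : i % 3 = 2 → y2 = true)
    (h3 : i / 3 % 3 = 2 → y3 = true) (h5 : i / 9 % 3 = 2 → y5 = true)
    (h7 : i / 27 % 3 = 2 → y7 = true) :
    compat (cond y2 1 0 + cond y3 2 0 + cond y5 4 0 + cond y7 8 0) i = true := by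
  cases y2 <;> cases y3 <;> cases y5 <;> cases y7 <;> simp_all [compat]

lemma flag_lt (y2 y3 y5 y7 : Bool) :
    cond y2 1 0 + cond y3 2 0 + cond y5 4 0 + cond y7 8 0 < 16 := by
  cases y2 <;> cases y3 <;> cases y5 <;> cases y7 <;> simp

lemma cond_dvd (y : Bool) (m D : ℕ) (h : y = true → m ∣ D) : cond y m 1 ∣ D := by
  cases y
  · exact one_dvd _
  · exact h rfl

lemma four_dvd (y2 y3 y5 y7 : Bool) (D : ℕ) (h2 : y2 = true → 16 ∣ D) (h3 : y3 = true → 27 ∣ D)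
    (h5 : y5 = true → 25 ∣ D) (h7 : y7 = true → 49 ∣ D) :
    cond y2 16 1 * cond y3 27 1 * cond y5 25 1 * cond y7 49 1 ∣ D := by
  refine Nat.Coprime.mul_dvd_of_dvd_of_dvd ?_ (Nat.Coprime.mul_dvd_of_dvd_of_dvd ?_
    (Nat.Coprime.mul_dvd_of_dvd_of_dvd ?_ (cond_dvd _ _ _ h2) (cond_dvd _ _ _ h3))
    (cond_dvd _ _ _ h5)) (cond_dvd _ _ _ h7)
  · cases y2 <;> cases y3 <;> cases y5 <;> cases y7 <;> norm_num
  · cases y2 <;> cases y3 <;> cases y5 <;> norm_num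
  · cases y2 <;> cases y3 <;> norm_num

lemma dlt_dvd (i : ℕ) : dlt i ∣ 210 ^ 4 :=
  four_dvd _ _ _ _ _ (fun _ => by norm_num) (fun _ => by norm_num) (fun _ => by norm_num)
    fun _ => by norm_num

lemma cop210 (p : ℕ) (hp : p.Prime) (h : 11 ≤ p) : Nat.Coprime 210 p := by
  have c2 : Nat.Coprime 2 p := (Nat.coprime_primes Nat.prime_two hp).2 (by omega)
  have c3 : Nat.Coprime 3 p := (Nat.coprime_primes Nat.prime_three hp).2 (by omega)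
  have c5 : Nat.Coprime 5 p := (Nat.coprime_primes Nat.prime_five hp).2 (by omega)
  have c7 : Nat.Coprime 7 p := (Nat.coprime_primes (by norm_num) hp).2 (by omega)
  exact Nat.Coprime.mul_left (Nat.Coprime.mul_left (Nat.Coprime.mul_left c2 c3) c5) c7

lemma res3 (b : ℤ) (h : (3 : ℤ) ∣ b) : res b 3 = 0 := by
  change (b % 3).natAbs = 0
  omega

end Rdlt

open Rdlt in
theorem r_dlt : R_dlt := by
  intro W hW
  obtain ⟨d2, d3, d5, d7⟩ := digits W.c₄.natAbs W.Δ.natAbs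
  have k2 := fun h : idx W.c₄.natAbs W.Δ.natAbs 0 % 3 = 2 =>
    at2 W hW (typ_two _ _ _ (d2 ▸ h)).1 (typ_two _ _ _ (d2 ▸ h)).2
  have k3 := fun h : idx W.c₄.natAbs W.Δ.natAbs 0 / 3 % 3 = 2 =>
    at3 W (typ_two _ _ _ (d3 ▸ h)).1 (typ_two _ _ _ (d3 ▸ h)).2
  have k5 := fun h : idx W.c₄.natAbs W.Δ.natAbs 0 / 9 % 3 = 2 => typ_two _ _ _ (d5 ▸ h)
  have k7 := fun h : idx W.c₄.natAbs W.Δ.natAbs 0 / 27 % 3 = 2 => typ_two _ _ _ (d7 ▸ h)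
  refine ⟨fun A hA => ?_, ?_, flag_lt _ _ _ _⟩
  · have h1 : dlt (idx W.c₄.natAbs W.Δ.natAbs 0) ∣ W.Δ.natAbs :=
      four_dvd _ _ _ _ _ (fun h => (k2 (beq_iff_eq.1 h)).2.2) (fun h => (k3 (beq_iff_eq.1 h)).2.2)
        (fun h => sq5 W 5 Nat.prime_five le_rfl (k5 (beq_iff_eq.1 h)).1 (k5 (beq_iff_eq.1 h)).2)
        fun h => sq5 W 7 (by norm_num) (by norm_num) (k7 (beq_iff_eq.1 h)).1
          (k7 (beq_iff_eq.1 h)).2
    have h2 : ∏ p ∈ A, p ^ 2 ∣ W.Δ.natAbs := by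
      refine Finset.prod_dvd_of_isRelPrime (fun p hp q hq hpq => ?_) fun p hp =>
        sq5 W p (hA p hp).1 (by have := (hA p hp).2.1; omega) (hA p hp).2.2.1 (hA p hp).2.2.2
      exact Nat.coprime_iff_isRelPrime.1
        (Nat.Coprime.pow 2 2 ((Nat.coprime_primes (hA p hp).1 (hA q hq).1).2 hpq))
    have h3 : Nat.Coprime (dlt (idx W.c₄.natAbs W.Δ.natAbs 0)) (∏ p ∈ A, p ^ 2) :=
      Nat.Coprime.coprime_dvd_left (dlt_dvd _) (Nat.Coprime.prod_right fun p hp =>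
        Nat.Coprime.pow 4 2 (cop210 p (hA p hp).1 (hA p hp).2.1))
    have h4 : 121 ^ A.card ≤ ∏ p ∈ A, p ^ 2 :=
      Finset.pow_card_le_prod A _ 121 fun p hp => Nat.pow_le_pow_left (hA p hp).2.1 2
    exact (Nat.mul_le_mul_left _ h4).trans (Nat.le_of_dvd (Int.natAbs_pos.2 hW.ne)
      (h3.mul_dvd_of_dvd_of_dvd h1 h2))
  · refine compat_ok _ _ _ _ _ (fun h => ?_) (fun h => ?_) (fun h => (dv_iff _ _).2 (k5 h).2)
      fun h => (dv_iff _ _).2 (k7 h).2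
    · rw [(k2 h).1, (k2 h).2.1]; rfl
    · rw [res3 _ (k3 h).1, res3 _ (k3 h).2.1]; rfl

end Pool.Agent.MP_b2c033_nt.UC
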