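import Pool.Agent.MP_b2c033_nt.UC.Spec

/-! The finite check: bounds for the exponential. -/

namespace Pool.Agent.MP_b2c033_nt.UC

open scoped Real

namespace Rexp

lemma sqs_succ (S m up z : ℕ) : sqs S (m + 1) up z = sqs S m up z ^ 2 / 2 ^ S + up := by
  rw [← Nat.shiftRight_eq_div_pow]
  rfl

lemma div_lt (p q : ℕ) : (p : ℝ) / q ≤ (p / q : ℕ) + 1 := by
  rw [← Nat.floor_div_eq_div (K := ℝ)]
  exact (Nat.lt_floor_add_one _).le

lemma lo {S z : ℕ} {t : ℝ} (h : (z : ℝ) ≤ 2 ^ S * t) (m : ℕ) :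
    (sqs S m 0 z : ℝ) ≤ 2 ^ S * t ^ 2 ^ m := by
  induction m with
  | zero => simpa [sqs] using h
  | succ m ih =>
    have h2 : (0 : ℝ) < 2 ^ S := by positivity
    rw [sqs_succ, add_zero]
    refine Nat.cast_div_le.trans ?_
    push_cast
    rw [div_le_iff₀ h2, pow_succ 2 m, pow_mul]
    exact (pow_le_pow_left₀ (Nat.cast_nonneg _) ih 2).trans_eq (by ring)

lemma hi {S z : ℕ} {t : ℝ} (ht : 0 ≤ t) (h : 2 ^ S * t ≤ (z : ℝ)) (m : ℕ) :
    2 ^ S * t ^ 2 ^ m ≤ (sqs S m 1 z : ℝ) := by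
  induction m with
  | zero => simpa [sqs] using h
  | succ m ih =>
    have h2 : (0 : ℝ) < 2 ^ S := by positivity
    rw [sqs_succ, Nat.cast_add, Nat.cast_one]
    refine le_trans ?_ (div_lt _ _)
    push_cast
    rw [le_div_iff₀ h2, pow_succ 2 m, pow_mul]
    exact le_of_eq_of_le (by ring) (pow_le_pow_left₀ (by positivity) ih 2)

end Rexp

open Rexp in
theorem r_exp : R_exp := by
  intro a b S m
  obtain ⟨w, hw⟩ : ∃ w : ℝ, w = a / (b * 2 ^ m) := ⟨_, rfl⟩
  have w0 : 0 ≤ w := by rw [hw]; positivity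
  have h2 : (0 : ℝ) < 2 ^ S := by positivity
  have e : Real.exp (-(π * a / b)) = Real.exp (-(π * w)) ^ 2 ^ m := by
    rw [← Real.exp_nat_mul, hw]
    push_cast
    rw [← div_div, mul_neg, mul_left_comm, mul_div_cancel₀ _ (by positivity), mul_div_assoc]
  have q : ∀ P : ℕ, ((P * a * 2 ^ S : ℕ) : ℝ) / (b * 2 ^ m * 10 ^ 20 : ℕ) =
      2 ^ S * (P / 10 ^ 20 * w) := fun P => by
    rw [hw]
    push_cast
    ring
  rw [e]
  refine ⟨lo ?_ m, hi (Real.exp_pos _).le ?_ m⟩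
  · have h3 := div_lt (314159265358979323847 * a * 2 ^ S) (b * 2 ^ m * 10 ^ 20)
    rw [q] at h3
    generalize 314159265358979323847 * a * 2 ^ S / (b * 2 ^ m * 10 ^ 20) = n at h3 ⊢
    rcases le_total (2 ^ S) (n + 1) with h | h
    · rw [Nat.sub_eq_zero_of_le h, Nat.cast_zero]
      positivity
    have h4 : π * w ≤ (314159265358979323847 : ℕ) / 10 ^ 20 * w :=
      mul_le_mul_of_nonneg_right (Real.pi_lt_d20.le.trans (by norm_num)) w0
    have h5 := mul_le_mul_of_nonneg_left (Real.add_one_le_exp (-(π * w))) h2.le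
    have h6 := mul_le_mul_of_nonneg_left h4 h2.le
    rw [Nat.cast_sub h]
    push_cast at h3 h6 ⊢
    linarith
  · have h3 : ((314159265358979323846 * a * 2 ^ S / (b * 2 ^ m * 10 ^ 20) : ℕ) : ℝ) ≤ _ :=
      Nat.cast_div_le
    rw [q] at h3
    generalize 314159265358979323846 * a * 2 ^ S / (b * 2 ^ m * 10 ^ 20) = n at h3 ⊢
    have h4 : (314159265358979323846 : ℕ) / 10 ^ 20 * w ≤ π * w :=
      mul_le_mul_of_nonneg_right (le_trans (by norm_num) Real.pi_gt_d20.le) w0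
    have h6 := h3.trans (mul_le_mul_of_nonneg_left h4 h2.le)
    rw [Nat.cast_add, Nat.cast_one]
    refine le_trans ?_ (div_lt _ _)
    push_cast
    rw [le_div_iff₀ (by positivity), mul_assoc]
    refine mul_le_mul_of_nonneg_left ?_ h2.le
    rw [Real.exp_neg, inv_mul_le_iff₀ (Real.exp_pos _)]
    have h5 := mul_le_mul_of_nonneg_left (Real.add_one_le_exp (π * w)) h2.le
    linarith

end Pool.Agent.MP_b2c033_nt.UC
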