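import Pool.Agent.MP_b2c033_nt.UC.Spec

/-! The finite check: soundness of the test of the functional equation. -/

namespace Pool.Agent.MP_b2c033_nt.UC

open U WeierstrassCurve
open scoped Real

theorem Rfe.enc (hE : R_exp) (hH : R_horn) (hT : R_tail) {B a c m K : ℕ} {b : ℕ → ℤ}
    (hb : ∀ n : ℕ, |b n| ≤ (n : ℤ) ^ 2) (hR : Rep B b K) (hK : 1 ≤ K) (hm : 1 ≤ m)
    (ht : tailOK (expHi a c 100 30) m K = true) {A : ℝ}
    (hA : HasSum (fun n : ℕ => (b n : ℝ) * Real.exp (-(π * a / c)) ^ n) A) :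
    (horn (fun n => pos (dig B n)) (expLo a c 100 30) 0 0 K : ℝ) -
        horn (fun n => neg (dig B n)) (expHi a c 100 30) 1 (m * K ^ 2 * 2 ^ 100) K ≤ 2 ^ 100 * A ∧
      2 ^ 100 * A ≤
        (horn (fun n => pos (dig B n)) (expHi a c 100 30) 1 (m * K ^ 2 * 2 ^ 100) K : ℝ) -
          horn (fun n => neg (dig B n)) (expLo a c 100 30) 0 0 K := by
  obtain ⟨h1, h2⟩ := hE a c 100 30
  obtain ⟨q, hq⟩ : ∃ q, q = Real.exp (-(π * a / c)) := ⟨_, rfl⟩
  have q0 : 0 ≤ q := hq ▸ (Real.exp_pos _).le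
  rw [← hq] at h1 h2 hA
  have t := hT _ q 1 A _ m K q0 h2 hK hm ht (fun n => by
    rw [one_mul]; exact_mod_cast hb n) hA
  have e : ∑ n ∈ Finset.Ico 1 K, (b n : ℝ) * q ^ n =
      ∑ n ∈ Finset.Ico 1 K, (pos (dig B n) : ℝ) * q ^ n -
        ∑ n ∈ Finset.Ico 1 K, (neg (dig B n) : ℝ) * q ^ n := by
    rw [← Finset.sum_sub_distrib]
    refine Finset.sum_congr rfl fun n hn => ?_
    rw [← hR n (Finset.mem_Ico.1 hn).2, Int.cast_sub, Int.cast_natCast, Int.cast_natCast, sub_mul]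
  rw [e, abs_le] at t
  have a1 := (hH (fun n => pos (dig B n)) q _ 0 K q0).1 h1
  have a2 := (hH (fun n => neg (dig B n)) q _ (m * K ^ 2 * 2 ^ 100) K q0).2 h2
  have a3 := (hH (fun n => pos (dig B n)) q _ (m * K ^ 2 * 2 ^ 100) K q0).2 h2
  have a4 := (hH (fun n => neg (dig B n)) q _ 0 K q0).1 h1
  have e2 : ((m * K ^ 2 * 2 ^ 100 : ℕ) : ℝ) * q ^ (K - 1) =
      2 ^ 100 * (1 * m * (K : ℝ) ^ 2 * q ^ (K - 1)) := by
    rw [Nat.cast_mul, Nat.cast_mul, Nat.cast_pow, Nat.cast_pow, Nat.cast_ofNat]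
    ring
  rw [e2] at a2 a3
  constructor <;> linarith [t.1, t.2]

theorem r_fe : R_fe := by
  rintro hE hH hT W h D N s b hN hb hR hf ⟨w, hw, hFE⟩
  simp only [feFail, encl, frc_eq, Bool.and_eq_true, Bool.or_eq_true, Nat.ble_eq, Nat.blt_eq] at hf
  obtain ⟨K, hK⟩ : ∃ K, K = feK N s := ⟨_, rfl⟩
  rw [← hK] at hf
  obtain ⟨⟨⟨⟨s2, K1⟩, t1⟩, t2⟩, c1, c2⟩ := hf
  have K2 : 2 ≤ K := by rw [hK, feK]; omega
  have s0 : (0 : ℝ) < s := by exact_mod_cast (by omega : 0 < s)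
  have N0 : (0 : ℝ) < N := by exact_mod_cast hN
  obtain ⟨A, B, hA, hB, e⟩ := hFE (1 / s) (by positivity)
  have eA : ∀ n : ℕ, Real.exp (-(2 * π * n / (N * (1 / s)))) =
      Real.exp (-(π * (2 * s : ℕ) / N)) ^ n := fun n => by
    rw [← Real.exp_nat_mul]
    refine congrArg Real.exp ?_
    push_cast
    field_simp
  have eB : ∀ n : ℕ, Real.exp (-(2 * π * n * (1 / s))) =
      Real.exp (-(π * (2 : ℕ) / s)) ^ n := fun n => by
    rw [← Real.exp_nat_mul]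
    refine congrArg Real.exp ?_
    push_cast
    field_simp
  simp only [eA] at hA
  simp only [eB] at hB
  have hRep := hR K K2 (by omega)
  obtain ⟨a1, a2⟩ := Rfe.enc hE hH hT hb hRep (by omega) (by omega) t1 hA
  obtain ⟨b1, b2⟩ := Rfe.enc hE hH hT hb hRep (by omega) (by omega) t2 hB
  have e2 : (s : ℝ) * s * (2 ^ 100 * A) = -w * (N * (2 ^ 100 * B)) := by
    rw [e]
    field_simp
  have ss := (mul_pos s0 s0).le
  have a3 := mul_le_mul_of_nonneg_left a1 ss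
  have a4 := mul_le_mul_of_nonneg_left a2 ss
  have b3 := mul_le_mul_of_nonneg_left b1 N0.le
  have b4 := mul_le_mul_of_nonneg_left b2 N0.le
  rw [mul_sub] at a3 a4 b3 b4
  simp only [← Nat.cast_lt (α := ℝ), Nat.cast_add, Nat.cast_mul s, Nat.cast_mul (s * s),
    Nat.cast_mul N] at c1 c2
  rcases hw with rfl | rfl
  · rw [Int.cast_one] at e2
    rcases c2 with c | c <;> linarith
  · rw [Int.cast_neg, Int.cast_one] at e2
    rcases c1 with c | c <;> linarith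

end Pool.Agent.MP_b2c033_nt.UC
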