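import Pool.Agent.MP_b2c033_nt.UC.Spec

/-! Horner sums with rounding, and the tail of a series with quadratic coefficients. -/

namespace Pool.Agent.MP_b2c033_nt.UC

namespace Rhorn

theorem zero (f : ℕ → ℕ) (r up z : ℕ) : horn f r up z 1 = z := rfl

theorem succ (f : ℕ → ℕ) (r up z i : ℕ) : horn f r up z (i + 2) =
    horn f r up ((z + f (i + 1) * 2 ^ 100) * r / 2 ^ 100 + up) (i + 1) := by
  rw [← Nat.shiftLeft_eq, ← Nat.shiftRight_eq_div_pow]
  exact frc_eq _ _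

theorem lo (f : ℕ → ℕ) {q : ℝ} {r : ℕ} (hq : 0 ≤ q) (h : (r : ℝ) ≤ 2 ^ 100 * q) (k z : ℕ) :
    (horn f r 0 z (k + 1) : ℝ) ≤
      2 ^ 100 * ∑ n ∈ Finset.Ico 1 (k + 1), (f n : ℝ) * q ^ n + z * q ^ k := by
  induction k generalizing z with
  | zero => simp [zero]
  | succ k ih =>
    rw [succ, Finset.sum_Ico_succ_top (by omega)]
    refine (ih _).trans ?_
    have h1 : (((z + f (k + 1) * 2 ^ 100) * r / 2 ^ 100 + 0 : ℕ) : ℝ) ≤
        (z + f (k + 1) * 2 ^ 100) * q := by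
      rw [add_zero]
      refine Nat.cast_div_le.trans ?_
      push_cast
      rw [div_le_iff₀ (by positivity)]
      have h2 : (0 : ℝ) ≤ z + f (k + 1) * 2 ^ 100 := by positivity
      have := mul_le_mul_of_nonneg_left h h2
      norm_num at this ⊢
      linarith
    have h3 := mul_le_mul_of_nonneg_right h1 (pow_nonneg hq k)
    rw [pow_succ q k]
    linarith

theorem hi (f : ℕ → ℕ) {q : ℝ} {r : ℕ} (hq : 0 ≤ q) (h : 2 ^ 100 * q ≤ r) (k z : ℕ) :
    2 ^ 100 * ∑ n ∈ Finset.Ico 1 (k + 1), (f n : ℝ) * q ^ n + z * q ^ k ≤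
      horn f r 1 z (k + 1) := by
  induction k generalizing z with
  | zero => simp [zero]
  | succ k ih =>
    rw [succ, Finset.sum_Ico_succ_top (by omega)]
    refine le_trans ?_ (ih _)
    have h1 : ((z : ℝ) + f (k + 1) * 2 ^ 100) * q ≤
        (((z + f (k + 1) * 2 ^ 100) * r / 2 ^ 100 + 1 : ℕ) : ℝ) := by
      have h0 : (z + f (k + 1) * 2 ^ 100) * r <
          2 ^ 100 * ((z + f (k + 1) * 2 ^ 100) * r / 2 ^ 100 + 1) :=
        Nat.lt_mul_div_succ _ (by positivity)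
      generalize (z + f (k + 1) * 2 ^ 100) * r / 2 ^ 100 + 1 = y at h0 ⊢
      have h4 : ((z : ℝ) + f (k + 1) * 2 ^ 100) * r < 2 ^ 100 * y := by exact_mod_cast h0
      have h2 : (0 : ℝ) ≤ z + f (k + 1) * 2 ^ 100 := by positivity
      have := mul_le_mul_of_nonneg_left h h2
      refine le_of_mul_le_mul_left (a := (2 : ℝ) ^ 100) ?_ (by positivity)
      linarith
    have h3 := mul_le_mul_of_nonneg_right h1 (pow_nonneg hq k)
    rw [pow_succ q k]
    linarith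

theorem geo {q ρ : ℝ} {K : ℕ} (hq : 0 ≤ q) (hρ : 0 ≤ ρ) (hK : 1 ≤ K)
    (h : q * ((K : ℝ) + 1) ^ 2 ≤ ρ * (K : ℝ) ^ 2) (i : ℕ) :
    ((i + K : ℕ) : ℝ) ^ 2 * q ^ (i + K) ≤ (K : ℝ) ^ 2 * q ^ K * ρ ^ i := by
  induction i with
  | zero => simp
  | succ i ih =>
    have hk : (1 : ℝ) ≤ K := by exact_mod_cast hK
    have hi : (0 : ℝ) ≤ i := Nat.cast_nonneg i
    have h1 : q * ((i : ℝ) + K + 1) ^ 2 ≤ ρ * ((i : ℝ) + K) ^ 2 := by
      refine le_of_mul_le_mul_right (a := (K : ℝ) ^ 2) ?_ (by positivity)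
      have h2 : (((i : ℝ) + K + 1) * K) ^ 2 ≤ (((i : ℝ) + K) * (K + 1)) ^ 2 :=
        pow_le_pow_left₀ (by positivity) (by nlinarith) 2
      have h3 := mul_le_mul_of_nonneg_left h2 hq
      have h4 := mul_le_mul_of_nonneg_left h (sq_nonneg ((i : ℝ) + K))
      nlinarith
    have h5 := mul_le_mul_of_nonneg_right h1 (pow_nonneg hq (i + K))
    have h6 := mul_le_mul_of_nonneg_left ih hρ
    rw [show i + 1 + K = i + K + 1 by ring, pow_succ q, pow_succ ρ]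
    push_cast at h6 ⊢
    linarith

end Rhorn

theorem r_horn : R_horn := by
  intro f q r z K hq
  rcases K with _ | k
  · refine ⟨fun _ => ?_, fun _ => ?_⟩
    · simp [show horn f r 0 0 0 = 0 from rfl]
    · simp [show horn f r 1 z 0 = z from rfl]
  · exact ⟨fun h => by simpa using Rhorn.lo f hq h k 0, fun h => Rhorn.hi f hq h k z⟩

theorem r_tail : R_tail := by
  intro c q C A r m K hq hr hK hm ht hc hA
  have hm' : (1 : ℝ) ≤ m := by exact_mod_cast hm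
  have hk : (1 : ℝ) ≤ K := by exact_mod_cast hK
  have hC : 0 ≤ C := by simpa using (abs_nonneg _).trans (hc 1)
  have h0 : c 0 = 0 := by simpa using hc 0
  have h1 : (r : ℝ) * ((K : ℝ) + 1) ^ 2 * m ≤ ((m : ℝ) - 1) * (K : ℝ) ^ 2 * 2 ^ 100 := by
    have h2 := Nat.le_of_ble_eq_true ht
    have h3 : ((m - 1 : ℕ) : ℝ) = m - 1 := by rw [Nat.cast_sub hm, Nat.cast_one]
    rw [← h3]
    exact_mod_cast h2
  have h2 : q * ((K : ℝ) + 1) ^ 2 ≤ (1 - 1 / m) * (K : ℝ) ^ 2 := by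
    have h3 := mul_le_mul_of_nonneg_right hr
      (show (0 : ℝ) ≤ ((K : ℝ) + 1) ^ 2 * m by positivity)
    refine le_of_mul_le_mul_right (a := (m : ℝ) * 2 ^ 100) ?_ (by positivity)
    have h4 : (1 - 1 / m) * (K : ℝ) ^ 2 * (m * 2 ^ 100) =
        ((m : ℝ) - 1) * (K : ℝ) ^ 2 * 2 ^ 100 := by field_simp
    rw [h4]
    linarith
  have h3 : (0 : ℝ) < 1 / m := by positivity
  have h4 : (0 : ℝ) ≤ 1 - 1 / m := by
    rw [sub_nonneg, div_le_one (by positivity)]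
    exact hm'
  have hq1 : q ≤ 1 := by
    by_contra! h5
    nlinarith
  have h5 := (hasSum_nat_add_iff' K).2 hA
  have h6 : ∑ n ∈ Finset.range K, c n * q ^ n = ∑ n ∈ Finset.Ico 1 K, c n * q ^ n := by
    rw [Finset.range_eq_Ico, Finset.sum_eq_sum_Ico_succ_bot hK]
    simp [h0]
  rw [h6] at h5
  have h7 := (hasSum_geometric_of_lt_one h4 (by linarith)).mul_left (C * ((K : ℝ) ^ 2 * q ^ K))
  have h8 : ∀ i, |c (i + K) * q ^ (i + K)| ≤ C * ((K : ℝ) ^ 2 * q ^ K) * (1 - 1 / m) ^ i := by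
    intro i
    rw [abs_mul, abs_of_nonneg (pow_nonneg hq _)]
    have h9 := mul_le_mul_of_nonneg_right (hc (i + K)) (pow_nonneg hq (i + K))
    have h10 := mul_le_mul_of_nonneg_left (Rhorn.geo hq h4 hK h2 i) hC
    linarith
  have h9 : |A - ∑ n ∈ Finset.Ico 1 K, c n * q ^ n| ≤
      C * ((K : ℝ) ^ 2 * q ^ K) * (1 - (1 - 1 / (m : ℝ)))⁻¹ :=
    abs_le.2 ⟨hasSum_le (fun i => (abs_le.1 (h8 i)).1) h7.neg h5,
      hasSum_le (fun i => (abs_le.1 (h8 i)).2) h5 h7⟩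
  refine h9.trans ?_
  have h10 : q ^ K ≤ q ^ (K - 1) := pow_le_pow_of_le_one hq hq1 (Nat.sub_le K 1)
  have h11 := mul_le_mul_of_nonneg_left h10 (show 0 ≤ C * m * (K : ℝ) ^ 2 by positivity)
  rw [sub_sub_cancel, one_div, inv_inv]
  linarith

end Pool.Agent.MP_b2c033_nt.UC
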