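import Pool.Agent.MP_b2c033_nt.UC.Spec

/-! Soundness of the refutation of the invariance at level 256. -/

namespace Pool.Agent.MP_b2c033_nt.UC

open U
open scoped Real

theorem r_inv_aux (fL fU : ℕ → ℕ) (q x y z : ℝ) (hq : 0 ≤ q) (c : ℕ → ℝ)
    (hc : ∀ n < 100, (fL n : ℝ) - fU n ≤ c n)
    (h1 : x ≤ 2 ^ 100 * ∑ n ∈ Finset.Ico 1 100, (fL n : ℝ) * q ^ n)
    (h2 : 2 ^ 100 * ∑ n ∈ Finset.Ico 1 100, (fU n : ℝ) * q ^ n + z * 2 ^ 100 * q ^ (100 - 1) ≤ y)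
    (h3 : y < x) (h4 : |0 - ∑ n ∈ Finset.Ico 1 100, c n * q ^ n| ≤ z * q ^ (100 - 1)) : False := by
  have h5 : ∑ n ∈ Finset.Ico 1 100, (fL n : ℝ) * q ^ n - ∑ n ∈ Finset.Ico 1 100, (fU n : ℝ) * q ^ n
      ≤ ∑ n ∈ Finset.Ico 1 100, c n * q ^ n := by
    rw [← Finset.sum_sub_distrib]
    refine Finset.sum_le_sum fun n hn => ?_
    rw [← sub_mul]
    exact mul_le_mul_of_nonneg_right (hc n (Finset.mem_Ico.1 hn).2) (pow_nonneg hq n)
  have h6 := (abs_le.1 h4).1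
  generalize ∑ n ∈ Finset.Ico 1 100, (fL n : ℝ) * q ^ n = A at *
  generalize ∑ n ∈ Finset.Ico 1 100, (fU n : ℝ) * q ^ n = B at *
  generalize ∑ n ∈ Finset.Ico 1 100, c n * q ^ n = C at *
  generalize q ^ (100 - 1) = w at *
  have h7 : (0 : ℝ) < 2 ^ 100 := by positivity
  generalize (2 : ℝ) ^ 100 = T at *
  have h8 : T * (A - B) ≤ T * (z * w) := mul_le_mul_of_nonneg_left (by linarith) h7.le
  linarith

theorem r_inv : R_inv := by
  intro hE hH hT hC B b hb hR hF hI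
  obtain ⟨e1, e2⟩ := hE 1 16 100 30
  obtain ⟨q, hq⟩ : ∃ q, q = Real.exp (-(π * (1 : ℕ) / (16 : ℕ))) := ⟨_, rfl⟩
  rw [← hq] at e1 e2
  have q0 : 0 ≤ q := hq ▸ (Real.exp_pos _).le
  have qn : ∀ n : ℕ, Real.exp (-(π * n / 16)) = q ^ n := fun n => by
    rw [hq, ← Real.exp_nat_mul]
    congr 1
    push_cast
    ring
  rw [invFail, Bool.and_eq_true, Nat.blt_eq] at hF
  obtain ⟨f1, f2⟩ := hF
  obtain ⟨c, hc⟩ : ∃ c : ℕ → ℝ, ∀ n, c n =
      1000 * b n * (Real.cos (π * n / 16) + Real.cos (3 * π * n / 16)) := ⟨_, fun _ => rfl⟩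
  have hS : HasSum (fun n => c n * q ^ n) 0 := by
    have h := HasSum.mul_left 1000 hI
    rw [mul_zero] at h
    have e : (fun n => c n * q ^ n) = fun n : ℕ => 1000 * ((b n : ℝ) * Real.exp (-(π * n / 16)) *
        (Real.cos (π * n / 16) + Real.cos (3 * π * n / 16))) := funext fun n => by
      rw [hc, qn]
      ring
    rw [e]
    exact h
  have hB : ∀ n : ℕ, |c n| ≤ 2000 * (n : ℝ) ^ 2 := fun n => by
    have h1 : |(b n : ℝ)| ≤ (n : ℝ) ^ 2 := by exact_mod_cast hb n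
    have h2 : |Real.cos (π * n / 16) + Real.cos (3 * π * n / 16)| ≤ 2 :=
      (abs_add_le _ _).trans (by
        linarith [Real.abs_cos_le_one (π * n / 16), Real.abs_cos_le_one (3 * π * n / 16)])
    have h3 := mul_le_mul h1 h2 (abs_nonneg _) (by positivity)
    rw [hc, mul_assoc, abs_mul, abs_mul, abs_of_pos (by norm_num : (0 : ℝ) < 1000)]
    linarith
  have h4 := hT c q 2000 0 _ 10 100 q0 e2 (by norm_num) (by norm_num) f1 hB hS
  refine r_inv_aux _ (fun n => 2000 * pos (dig B n) + neg (dig B n) * cHi.getD (n % 32) 0)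
    q _ _ _ q0 c (fun n hn => ?_) ((hH _ q _ 0 100 q0).1 e1) ?_
    (Nat.cast_lt.2 f2) h4
  · have h1 : (pos (dig B n) : ℝ) - neg (dig B n) = b n := by exact_mod_cast hR n hn
    obtain ⟨k1, k2⟩ := hC n
    have p0 : (0 : ℝ) ≤ pos (dig B n) := Nat.cast_nonneg _
    have n0 : (0 : ℝ) ≤ neg (dig B n) := Nat.cast_nonneg _
    have k3 := mul_le_mul_of_nonneg_left k1 p0
    have k4 := mul_le_mul_of_nonneg_left k2 n0
    rw [hc, ← h1]
    simp only [Nat.cast_add, Nat.cast_mul, Nat.cast_ofNat]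
    linarith
  · refine le_trans (le_of_eq ?_) ((hH _ q _ _ 100 q0).2 e2)
    simp only [Nat.cast_mul, Nat.cast_pow, Nat.cast_ofNat]

end Pool.Agent.MP_b2c033_nt.UC
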