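import Pool.Agent.MP_b2c033_nt.UC.TSpec
import Pool.Agent.MP_b2c033_nt.U.ExCond

/-! A model that passes the test `nonMin` is not minimal. -/

namespace Pool.Agent.MP_b2c033_nt.U

open WeierstrassCurve

theorem t_nm : T_nm := by
  intro W u r s t hW h
  simp only [nonMin, Bool.and_eq_true, decide_eq_true_eq] at h
  obtain ⟨⟨⟨⟨⟨hu, ⟨b₁, h₁⟩⟩, ⟨b₂, h₂⟩⟩, ⟨b₃, h₃⟩⟩, ⟨b₄, h₄⟩⟩, ⟨b₆, h₆⟩⟩ := h
  have hu0 : (u : ℚ) ≠ 0 := by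
    have : u ≠ 0 := by omega
    exact_mod_cast this
  have hΔ : W.Δ = (u : ℤ) ^ 12 * (⟨b₁, b₂, b₃, b₄, b₆⟩ : WeierstrassCurve ℤ).Δ := by
    rw [← Δ_sh W r s t]
    simp only [WeierstrassCurve.Δ, WeierstrassCurve.b₂, WeierstrassCurve.b₄,
      WeierstrassCurve.b₆, WeierstrassCurve.b₈, h₁, h₂, h₃, h₄, h₆]
    ring
  have hC : ((⟨Units.mk0 (u : ℚ) hu0, 0, 0, 0⟩ : VariableChange ℚ) *
      (⟨1, r, s, t⟩ : VariableChange ℚ)) • toQ W = toQ ⟨b₁, b₂, b₃, b₄, b₆⟩ := by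
    rw [mul_smul, ← toQ_sh]
    generalize sh W r s t = V at h₁ h₂ h₃ h₄ h₆
    ext <;> simp [variableChange_def, h₁, h₂, h₃, h₄, h₆] <;> field_simp
  have hm := hW.min _ _ hC
  have hne := hW.ne
  rw [hΔ] at hm hne
  generalize (⟨b₁, b₂, b₃, b₄, b₆⟩ : WeierstrassCurve ℤ).Δ = D at hm hne
  have hD : 0 < |D| := abs_pos.mpr (right_ne_zero_of_mul hne)
  have h2 : (2 : ℤ) ≤ (u : ℤ) := by exact_mod_cast hu
  have h12 : (1 : ℤ) < (u : ℤ) ^ 12 := one_lt_pow₀ (by omega) (by norm_num)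
  rw [abs_mul, abs_of_pos (by omega : (0 : ℤ) < (u : ℤ) ^ 12)] at hm
  nlinarith

end Pool.Agent.MP_b2c033_nt.U
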