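import Pool.Agent.MP_b2c033_nt.UC.Spec
import Pool.Agent.MP_b2c033_nt.UC.Tnm

/-! A minimal model fails the test `nonMin`; the loss at a good prime above ten. -/

namespace Pool.Agent.MP_b2c033_nt.UC

open U WeierstrassCurve

theorem r_nm : R_nm := by
  intro W p hW hp
  rw [← Bool.not_eq_true]
  intro h
  simp only [nonMin, anyN_iff, Bool.and_eq_true, decide_eq_true_eq] at h
  obtain ⟨s, -, h1, r, -, h2, t, -, h3, h4, h6⟩ := h
  refine t_nm W p r s t hW ?_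
  simp only [U.nonMin, Bool.and_eq_true, decide_eq_true_eq]
  refine ⟨⟨⟨⟨⟨hp, ?_⟩, ?_⟩, h3⟩, h4⟩, h6⟩
  · simpa [sh, variableChange_def] using h1
  · simpa [sh, variableChange_def] using h2

theorem r_loss : R_loss := by
  intro p s a _ hp ha
  have h1 : |a| ≤ (p : ℤ) - 5 := by
    have h0 : (11 : ℤ) ≤ p := by exact_mod_cast hp
    by_contra hn
    have h2 : (p : ℤ) - 4 ≤ |a| := by omega
    have h3 : ((p : ℤ) - 4) ^ 2 ≤ |a| ^ 2 := pow_le_pow_left₀ (by omega) h2 2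
    rw [sq_abs] at h3
    nlinarith
  have hq : (11 : ℚ) ≤ p := by exact_mod_cast hp
  have h2 : ((|a| : ℤ) : ℚ) ≤ (p : ℚ) - 5 := by exact_mod_cast h1
  have h3 : (a : ℚ) ^ 2 ≤ 4 * p := by exact_mod_cast ha
  have h4 : ((p : ℚ) - 1) ^ 2 ≤ (p + 1) ^ 2 - (a : ℚ) ^ 2 := by nlinarith
  have h5 : 10 * ((p : ℚ) - 1) ^ 2 ≤ (p - 1) * ((p + 1) ^ 2 - (a : ℚ) ^ 2) :=
    mul_le_mul (by linarith) h4 (sq_nonneg _) (by linarith)
  have h6 : (0 : ℚ) < ((p : ℚ) - 1) ^ 2 := by nlinarith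
  rw [loss, if_pos rfl, if_neg (by omega)]
  refine max_le (one_div_le_one_div_of_le (by norm_num) (by linarith)) (max_le ?_ ?_)
  · rw [mul_assoc, div_le_div_iff₀ (by linarith) (by norm_num)]
    nlinarith
  · rw [div_le_div_iff₀ (by linarith) (by norm_num)]
    nlinarith

end Pool.Agent.MP_b2c033_nt.UC
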