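import Pool.Agent.MP_b2c033_nt.UC.Spec

/-! The upper bound for the covolume. -/

namespace Pool.Agent.MP_b2c033_nt.UC

open U WeierstrassCurve
open scoped Real

theorem log_le_kk {n : ℕ} (hn : 0 < n) : Real.log n ≤ kk n * Real.log 2 / 8 := by
  have h1 : n ^ 8 < 2 ^ kk n := Nat.lt_log2_self
  have h2 : ((n : ℝ)) ^ 8 ≤ 2 ^ kk n := by exact_mod_cast h1.le
  have h3 := Real.log_le_log (by positivity) h2
  rw [Real.log_pow, Real.log_pow] at h3
  push_cast at h3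
  linarith

theorem log_six {n : ℕ} (hn : 0 < n) :
    1.03 * (2 * π * Real.log n) ^ 6 ≤ 0.02682 * (kk n : ℝ) ^ 6 := by
  have h0 : 0 ≤ Real.log n := Real.log_natCast_nonneg n
  have h1 : π * Real.log 2 ≤ 3.1416 * 0.6931471808 :=
    mul_le_mul Real.pi_lt_d4.le Real.log_two_lt_d9.le (Real.log_nonneg one_le_two) (by norm_num)
  have hk : (0 : ℝ) ≤ kk n := Nat.cast_nonneg _
  have h2 : 2 * π * Real.log n ≤ 0.5444 * kk n := by
    have h3 := mul_le_mul_of_nonneg_left (log_le_kk hn) (show 0 ≤ 2 * π by positivity)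
    have h4 := mul_le_mul_of_nonneg_left h1 hk
    nlinarith
  have h5 := pow_le_pow_left₀ (by positivity) h2 6
  rw [mul_pow (0.5444 : ℝ)] at h5
  have h6 : (0 : ℝ) ≤ (kk n : ℝ) ^ 6 := by positivity
  have h7 : (1.03 : ℝ) * 0.5444 ^ 6 ≤ 0.02682 := by norm_num
  nlinarith

theorem r_om : R_om := by
  intro W Ω u hΔ hV h
  have hD : 0 < W.Δ.natAbs := Int.natAbs_pos.2 hΔ
  have eD : |(W.Δ : ℝ)| = (W.Δ.natAbs : ℝ) := by rw [Nat.cast_natAbs, Int.cast_abs]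
  have ec : |(W.c₄ : ℝ)| = (W.c₄.natAbs : ℝ) := by rw [Nat.cast_natAbs, Int.cast_abs]
  have a1 := hV.all
  have a2 := hV.big
  rw [eD] at a1
  rw [eD, ec] at a2
  generalize W.Δ.natAbs = D at *
  generalize W.c₄.natAbs = c at *
  have hD' : (0 : ℝ) < D := by exact_mod_cast hD
  suffices H : Ω ^ 6 * D ≤ (u : ℝ) ^ 6 * D / 2 ^ 96 by
    refine le_of_pow_le_pow_left₀ (n := 6) (by norm_num) (by positivity) ?_
    refine le_of_mul_le_mul_right (H.trans (le_of_eq ?_)) hD'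
    rw [div_pow]
    ring
  rw [omB, frc_eq, Bool.or_eq_true, Bool.and_eq_true, Nat.ble_eq, Nat.ble_eq, Nat.ble_eq] at h
  rcases h with h | ⟨h1, h2⟩
  · have h3 : ((1406 ^ 6 * 2 ^ 96 : ℕ) : ℝ) ≤ (u ^ 6 * D * 1000000000000 : ℕ) := Nat.cast_le.2 h
    push_cast at h3
    rw [le_div_iff₀ (by positivity)]
    norm_num at a1 h3 ⊢
    linarith
  · obtain ⟨n, hn⟩ : ∃ n, n = c ^ 3 / D - 1400 := ⟨_, rfl⟩
    have h1' : 1000 ≤ n := hn ▸ h1
    have h2' : kk n ^ 6 * (2682 * 2 ^ 96) ≤ u ^ 6 * D * n * 100000 := hn ▸ h2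
    have h3 : (n + 1400) * D ≤ c ^ 3 := by
      rw [show n + 1400 = c ^ 3 / D by omega]
      exact Nat.div_mul_le_self _ _
    have hn' : (0 : ℝ) < n := by exact_mod_cast (by omega : 0 < n)
    have h4 := a2 n (by exact_mod_cast h1') (by exact_mod_cast h3)
    have h5 := log_six (n := n) (by omega)
    have h6 : ((kk n ^ 6 * (2682 * 2 ^ 96) : ℕ) : ℝ) ≤ (u ^ 6 * D * n * 100000 : ℕ) :=
      Nat.cast_le.2 h2'
    push_cast at h6
    refine h4.trans ?_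
    rw [div_le_div_iff₀ hn' (by positivity)]
    norm_num at h5 h6 ⊢
    linarith

end Pool.Agent.MP_b2c033_nt.UC
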