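import Pool.Agent.MP_b2c033_nt.UC.Spec

/-! The enumeration of the models meets every curve in the region. -/

namespace Pool.Agent.MP_b2c033_nt.UC

open U WeierstrassCurve

lemma row_res (x : ℤ) (u : ℕ) (k : ℤ) (h : x = u + 864 * k) : res x 864 = u % 864 := by
  have : res x 864 = (x % 864).natAbs := rfl
  omega

lemma row_scan (W : WeierstrassCurve ℤ) (ng : Bool) (c c3 dm lo hi m u : ℕ) (z σ : ℤ)
    (hm : 0 < m) (hσ : σ = 1 ∨ σ = -1) (hu : σ * u = z - 864 * W.a₆) (h1 : lo ≤ u) (h2 : u ≤ hi)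
    (h : ∀ a < m, scan ng c c3 dm lo hi m a W.a₁ W.a₂ W.a₃ W.a₄ z σ = true) :
    cell ng c c3 dm u W = true := by
  have hr : res (σ * z) 864 = u % 864 := row_res _ u (σ * W.a₆) (by
    rcases hσ with rfl | rfl <;> linarith)
  obtain ⟨i, hi'⟩ : ∃ i, u = lo + (u % 864 + 864 - lo % 864) % 864 + 864 * i :=
    ⟨(u - lo) / 864, by omega⟩
  have h3 := h (i % m) (Nat.mod_lt _ hm)
  rw [scan, frc_eq, frc_eq, allN_iff, hr] at h3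
  have e : lo + (u % 864 + 864 - lo % 864) % 864 + 864 * (i % m) + 864 * m * (i / m) = u := by
    have := Nat.div_add_mod i m
    rw [mul_assoc]
    omega
  have h4 := h3 (i / m) (by
    rw [Nat.lt_iff_add_one_le, Nat.le_div_iff_mul_le (by omega), add_mul, mul_comm (i / m)]
    omega)
  rw [frc_eq] at h4
  have e' : Nat.add (lo + (u % 864 + 864 - lo % 864) % 864 + 864 * (i % m))
      (Nat.mul (864 * m) (i / m)) = u := e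
  rw [e', hu, show (z - (z - 864 * W.a₆)) / 864 = W.a₆ by omega] at h4
  exact h4

lemma row_cell (W : WeierstrassCurve ℤ) (ng : Bool) (c c3 dm u D : ℕ) (h0 : D ≠ 0)
    (hD : cond ng (c3 + u ^ 2) (c3 - u ^ 2 + (u ^ 2 - c3)) = 1728 * D)
    (h : cell ng c c3 dm u W = true) :
    (dm < D ∧ dv D sM2 = false ∧ dv (Nat.gcd c D) sM = true) ∨ midT c D = true ∨
      deep W c D = true := by
  rw [cell, frc_eq, frc_eq] at h
  have e : Nat.div (cond ng (Nat.add c3 (Nat.pow u 2))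
      (Nat.add (Nat.sub c3 (Nat.pow u 2)) (Nat.sub (Nat.pow u 2) c3))) 1728 = D := by
    show cond ng (c3 + u ^ 2) (c3 - u ^ 2 + (u ^ 2 - c3)) / 1728 = D
    rw [hD]
    omega
  rw [e] at h
  simp only [Bool.or_eq_true, Bool.and_eq_true, Nat.beq_eq, Nat.blt_eq, Bool.not_eq_true'] at h
  rcases h with ((h | h) | h) | h
  · exact absurd h h0
  · exact Or.inl ⟨h.1.1, h.1.2, h.2⟩
  · exact Or.inr (Or.inl h)
  · exact Or.inr (Or.inr h)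

lemma row_both (W : WeierstrassCurve ℤ) (ng : Bool) (c c3 dm lo hi m : ℕ) (hm : 0 < m)
    (h1 : lo ^ 2 ≤ W.c₆.natAbs ^ 2) (h2 : W.c₆.natAbs ^ 2 < (hi + 1) ^ 2)
    (h : ∀ a < m, scan ng c c3 dm lo hi m a W.a₁ W.a₂ W.a₃ W.a₄
        (-W.b₂ ^ 3 + 36 * W.b₂ * W.b₄ - 216 * W.a₃ ^ 2) 1 = true ∧
      scan ng c c3 dm lo hi m a W.a₁ W.a₂ W.a₃ W.a₄
        (-W.b₂ ^ 3 + 36 * W.b₂ * W.b₄ - 216 * W.a₃ ^ 2) (-1) = true) :
    cell ng c c3 dm W.c₆.natAbs W = true := by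
  have a1 := (Nat.pow_le_pow_iff_left two_ne_zero).1 h1
  have a2 := Nat.lt_succ_iff.1 ((Nat.pow_lt_pow_iff_left two_ne_zero).1 h2)
  have e : W.c₆ = -W.b₂ ^ 3 + 36 * W.b₂ * W.b₄ - 216 * W.a₃ ^ 2 - 864 * W.a₆ := by
    rw [c₆, b₆]; ring
  rcases Int.natAbs_eq W.c₆ with s | s
  · exact row_scan W ng c c3 dm lo hi m _ _ 1 hm (Or.inl rfl) (by rw [← e, one_mul, ← s]) a1 a2
      fun a ha => (h a ha).1
  · exact row_scan W ng c c3 dm lo hi m _ _ (-1) hm (Or.inr rfl)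
      (by rw [← e, neg_mul, one_mul, ← s]) a1 a2 fun a ha => (h a ha).2

lemma row_neg (m a a₁ a₃ f : ℕ) (a₂ a₄ b₂ b₄ c₄ : ℤ) (hn : c₄ < 0)
    (hf : f = flag a₁ a₃ b₂ b₄ c₄.natAbs) (h : rowA m a a₁ a₃ a₂ a₄ b₂ b₄ c₄ = true) :
    1728 * dZero (vT f) < c₄.natAbs ^ 3 ∨
      (1728 * dZero (vT f) - c₄.natAbs ^ 3 < (isq (1728 * dZero (vT f) - c₄.natAbs ^ 3) + 1) ^ 2 ∧
        scan true c₄.natAbs (c₄.natAbs ^ 3) (dZero (vM f)) 0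
          (isq (1728 * dZero (vT f) - c₄.natAbs ^ 3)) m a a₁ a₂ a₃ a₄
          (-b₂ ^ 3 + 36 * b₂ * b₄ - 216 * a₃ ^ 2) 1 = true) ∧
        scan true c₄.natAbs (c₄.natAbs ^ 3) (dZero (vM f)) 0
          (isq (1728 * dZero (vT f) - c₄.natAbs ^ 3)) m a a₁ a₂ a₃ a₄
          (-b₂ ^ 3 + 36 * b₂ * b₄ - 216 * a₃ ^ 2) (-1) = true := by
  rw [rowA, frc_eq, frc_eq, frc_eq, ← hf, decide_eq_true hn, cond_true, frc_eq, frc_eq, frc_eq,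
    Bool.or_eq_true, Bool.and_eq_true, Bool.and_eq_true, Nat.blt_eq, Nat.blt_eq] at h
  exact h

lemma row_pos (m a a₁ a₃ f : ℕ) (a₂ a₄ b₂ b₄ c₄ : ℤ) (hn : ¬ c₄ < 0)
    (hf : f = flag a₁ a₃ b₂ b₄ c₄.natAbs) (h : rowA m a a₁ a₃ a₂ a₄ b₂ b₄ c₄ = true) :
    cM f ≤ c₄.natAbs ∨
      ((c₄.natAbs ^ 3 + 1728 * dB c₄.natAbs (vT f) <
          (isq (c₄.natAbs ^ 3 + 1728 * dB c₄.natAbs (vT f)) + 1) ^ 2 ∧
        isq (c₄.natAbs ^ 3 - 1728 * dB c₄.natAbs (vT f)) ^ 2 ≤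
          c₄.natAbs ^ 3 - 1728 * dB c₄.natAbs (vT f)) ∧
        scan false c₄.natAbs (c₄.natAbs ^ 3) (dB c₄.natAbs (vM f))
          (isq (c₄.natAbs ^ 3 - 1728 * dB c₄.natAbs (vT f)))
          (isq (c₄.natAbs ^ 3 + 1728 * dB c₄.natAbs (vT f))) m a a₁ a₂ a₃ a₄
          (-b₂ ^ 3 + 36 * b₂ * b₄ - 216 * a₃ ^ 2) 1 = true) ∧
        scan false c₄.natAbs (c₄.natAbs ^ 3) (dB c₄.natAbs (vM f))
          (isq (c₄.natAbs ^ 3 - 1728 * dB c₄.natAbs (vT f)))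
          (isq (c₄.natAbs ^ 3 + 1728 * dB c₄.natAbs (vT f))) m a a₁ a₂ a₃ a₄
          (-b₂ ^ 3 + 36 * b₂ * b₄ - 216 * a₃ ^ 2) (-1) = true := by
  rw [rowA, frc_eq, frc_eq, frc_eq, ← hf, decide_eq_false hn, cond_false, frc_eq, frc_eq, frc_eq,
    frc_eq, Bool.or_eq_true, Bool.and_eq_true, Bool.and_eq_true, Bool.and_eq_true, Nat.blt_eq,
    Nat.ble_eq, Nat.ble_eq] at h
  exact h

lemma row_A (W : WeierstrassCurve ℤ) (m a r : ℕ) (e1 : W.a₁ = (r % 2 : ℕ))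
    (e3 : W.a₃ = (r / 2 % 2 : ℕ)) (e2 : W.a₂ = ((r / 4 % 3 : ℕ) : ℤ) - 1)
    (e4 : W.a₄ = 340 - ((r / 12 : ℕ) : ℤ)) (h : row m a r = true) :
    rowA m a (r % 2) (r / 2 % 2) W.a₂ W.a₄ W.b₂ W.b₄ W.c₄ = true := by
  rw [row, frc_eq, frc_eq, rowB, Int.subNatNat_eq_coe, Int.subNatNat_eq_coe, ← e1, ← e3,
    Nat.cast_one, ← e2, Nat.cast_ofNat, ← e4] at h
  rw [c₄, b₂, b₄]
  exact h

lemma row_k1 (W : WeierstrassCurve ℤ) (hn : W.c₄ < 0) :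
    W.c₄.natAbs ^ 3 + W.c₆.natAbs ^ 2 = 1728 * W.Δ.natAbs := by
  have hc := W.c_relation
  have q6 : ((W.c₆.natAbs ^ 2 : ℕ) : ℤ) = W.c₆ ^ 2 := by rw [Nat.cast_pow, Int.natAbs_sq]
  have q4 : ((W.c₄.natAbs ^ 3 : ℕ) : ℤ) = -W.c₄ ^ 3 := by
    rw [Nat.cast_pow, Int.ofNat_natAbs_of_nonpos hn.le]; ring
  generalize W.c₄.natAbs ^ 3 = x at q4 ⊢
  generalize W.c₆.natAbs ^ 2 = y at q6 ⊢
  omega

lemma row_k2 (W : WeierstrassCurve ℤ) (hn : ¬ W.c₄ < 0) :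
    W.c₄.natAbs ^ 3 - W.c₆.natAbs ^ 2 + (W.c₆.natAbs ^ 2 - W.c₄.natAbs ^ 3) =
      1728 * W.Δ.natAbs := by
  have hc := W.c_relation
  have q6 : ((W.c₆.natAbs ^ 2 : ℕ) : ℤ) = W.c₆ ^ 2 := by rw [Nat.cast_pow, Int.natAbs_sq]
  have q4 : ((W.c₄.natAbs ^ 3 : ℕ) : ℤ) = W.c₄ ^ 3 := by
    rw [Nat.cast_pow, Int.natAbs_of_nonneg (not_lt.1 hn)]
  generalize W.c₄.natAbs ^ 3 = x at q4 ⊢
  generalize W.c₆.natAbs ^ 2 = y at q6 ⊢
  omega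

lemma row_n1 {x y D d : ℕ} (k : x + y = 1728 * D) (h : D ≤ d) :
    ¬ 1728 * d < x ∧ y ≤ 1728 * d - x := by omega

lemma row_n2 {x y D d : ℕ} (k : x - y + (y - x) = 1728 * D) (h : D ≤ d) :
    x - 1728 * d ≤ y ∧ y ≤ x + 1728 * d := by omega

theorem r_row : R_row := by
  intro W m r f hm h0 e1 e3 e2 e4 h hf d1 d2 d3
  have t1 : W.a₁.toNat = r % 2 := by rw [e1, Int.toNat_natCast]
  have t3 : W.a₃.toNat = r / 2 % 2 := by rw [e3, Int.toNat_natCast]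
  have hA := fun a ha => row_A W m a r e1 e3 e2 e4 (h a ha)
  rw [t1, t3] at hf
  have D0 : W.Δ.natAbs ≠ 0 := Int.natAbs_ne_zero.2 h0
  by_cases hn : W.c₄ < 0
  · have k := row_k1 W hn
    have hB := fun a ha => (row_neg _ _ _ _ f _ _ _ _ _ hn hf (hA a ha)).resolve_left
      (row_n1 k d1).1
    rw [← e1, ← e3] at hB
    exact (row_cell W true _ _ _ _ _ D0 ((cond_true _ _).trans k)
      (row_both W true _ _ _ 0 _ m hm (Nat.pow_le_pow_left (Nat.zero_le _) 2)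
        ((row_n1 k d1).2.trans_lt (hB 0 hm).1.1) fun a ha => ⟨(hB a ha).1.2, (hB a ha).2⟩)).imp_left
      fun x => ⟨Or.inl x.1, x.2⟩
  · have k := row_k2 W hn
    have hB := fun a ha => (row_pos _ _ _ _ f _ _ _ _ _ hn hf (hA a ha)).resolve_left d3.not_ge
    rw [← e1, ← e3] at hB
    exact (row_cell W false _ _ _ _ _ D0 ((cond_false _ _).trans k)
      (row_both W false _ _ _ _ _ m hm ((hB 0 hm).1.1.2.trans (row_n2 k d2).1)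
        ((row_n2 k d2).2.trans_lt (hB 0 hm).1.1.1)
        fun a ha => ⟨(hB a ha).1.2, (hB a ha).2⟩)).imp_left fun x => ⟨Or.inr x.1, x.2⟩

end Pool.Agent.MP_b2c033_nt.UC
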