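import Pool.Agent.MP_b2c033_nt.UC.Spec

/-! The finite check: the table of the coefficients. -/

namespace Pool.Agent.MP_b2c033_nt.UC

open U WeierstrassCurve

theorem r_bd : R_bd := by
  intro N b h n
  induction n using Nat.strong_induction_on with
  | _ n ih =>
    rcases Nat.lt_or_ge n 2 with h2 | h2
    · interval_cases n
      · simp [h.zero]
      · simp [h.one]
    have hp := Nat.minFac_prime (show n ≠ 1 by omega)
    obtain ⟨m, hm⟩ := Nat.minFac_dvd n
    obtain ⟨p, hq⟩ : ∃ p, p = n.minFac := ⟨_, rfl⟩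
    rw [← hq] at hp hm
    have p2 := hp.two_le
    have m0 : 0 < m := Nat.pos_of_ne_zero fun e => by simp [e] at hm; omega
    have ml : m < n := by nlinarith
    have h1 := ih m ml
    have h3 : |dn b p m| ≤ (m : ℤ) ^ 2 := by
      rw [dn]
      split_ifs
      · refine (ih _ ((Nat.div_le_self m p).trans_lt ml)).trans ?_
        exact pow_le_pow_left₀ (Int.natCast_nonneg _) (Int.ofNat_le.2 (Nat.div_le_self m p)) 2
      · simp
    have h4 : |(if p ∣ N then 0 else p : ℤ)| ≤ p := by split_ifs <;> simp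
    have h5 := h.le p hp
    have p0 : (0 : ℤ) ≤ p := Int.natCast_nonneg p
    have p3 : (2 : ℤ) ≤ p := by exact_mod_cast p2
    have h6 := mul_le_mul h5 h1 (abs_nonneg _) p0
    have h7 := mul_le_mul h4 h3 (abs_nonneg _) p0
    rw [hm, h.rel p m hp]
    refine (abs_sub _ _).trans ?_
    rw [abs_mul, abs_mul]
    push_cast
    nlinarith [mul_nonneg (mul_nonneg p0 (sub_nonneg.2 p3)) (sq_nonneg (m : ℤ))]

namespace Rtab

theorem cond_pr {n q r : ℕ} (hq : q.Prime) (h : ¬q ∣ n → r.Prime ∧ r ∣ n) :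
    (cond (dv q n) q r).Prime ∧ cond (dv q n) q r ∣ n := by
  rcases e : dv q n with _ | _
  · exact h fun h1 => by simp [(dv_iff q n).2 h1] at e
  · exact ⟨hq, (dv_iff q n).1 e⟩

theorem mf_pr {n : ℕ} (h2 : 2 ≤ n) (h : n < 1681) : (mf n).Prime ∧ mf n ∣ n := by
  refine cond_pr (by norm_num) fun _ => cond_pr (by norm_num) fun _ =>
    cond_pr (by norm_num) fun _ => cond_pr (by norm_num) fun _ => cond_pr (by norm_num) fun _ =>
    cond_pr (by norm_num) fun _ => cond_pr (by norm_num) fun _ => cond_pr (by norm_num) fun _ =>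
    cond_pr (by norm_num) fun _ => cond_pr (by norm_num) fun _ => cond_pr (by norm_num) fun _ =>
    cond_pr (by norm_num) fun _ => ⟨?_, dvd_rfl⟩
  by_contra hn
  have h1 := Nat.minFac_sq_le_self (by omega) hn
  have hp := Nat.minFac_prime (show n ≠ 1 by omega)
  have hd := Nat.minFac_dvd n
  obtain ⟨q, hq⟩ : ∃ q, q = n.minFac := ⟨_, rfl⟩
  rw [← hq] at h1 hp hd
  have h3 : q ≤ 40 := by nlinarith
  interval_cases q <;> contradiction

theorem dig_eq (B n : ℕ) : dig B n = B / 16777216 ^ n % 16777216 := by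
  show B >>> (24 * n) % 16777216 = _
  rw [Nat.shiftRight_eq_div_pow, pow_mul]
  norm_num

theorem dig_lt (B n : ℕ) : dig B n < 16777216 := Nat.mod_lt _ (by norm_num)

theorem dig_low (B v : ℕ) {j n : ℕ} (h : j < n) : dig (B + v * 16777216 ^ n) j = dig B j := by
  obtain ⟨d, rfl⟩ := Nat.exists_eq_add_of_lt h
  have : v * 16777216 ^ (j + d + 1) = v * 16777216 ^ d * 16777216 * 16777216 ^ j := by ring
  rw [dig_eq, dig_eq, this, Nat.add_mul_div_right _ _ (by positivity), Nat.add_mul_mod_self_right]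

theorem dig_top {B v n : ℕ} (h : B < 16777216 ^ n) (hv : v < 16777216) :
    dig (B + v * 16777216 ^ n) n = v := by
  rw [dig_eq, Nat.add_mul_div_right _ _ (by positivity), Nat.div_eq_of_lt h, zero_add,
    Nat.mod_eq_of_lt hv]

/-- the invariant of the loop -/
def Inv (b : ℕ → ℤ) (n B : ℕ) : Prop :=
  B < 16777216 ^ n ∧ ∀ j < n, (dig B j : ℤ) ≡ b j [ZMOD 16777216]

variable {W : WeierstrassCurve ℤ} {N h D : ℕ} {b : ℕ → ℤ}

theorem nxt_eq (B n : ℕ) : nxt W h D B n =
    cond (Nat.beq (mf n) n) (cond (dv (mf n) h) 0 (apQ W (mf n)))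
      ((dig B (mf n) * dig B (n / mf n) + cond (dv (mf n) (h * D) || !dv (mf n) (n / mf n)) 0
        ((16777216 - mf n) * dig B (n / mf n / mf n))) % 16777216) := by
  have e1 : ∀ x y : ℕ, Nat.mod x y = x % y := fun _ _ => rfl
  have e2 : ∀ x y : ℕ, Nat.div x y = x / y := fun _ _ => rfl
  rw [nxt, frc_eq]
  simp only [e1, e2, Nat.add_eq, Nat.mul_eq, Nat.sub_eq]

theorem nxt_ok (ha : R_ap) (hc : Coef N b)
    (hb : ∀ p : ℕ, p.Prime → b p = if p ∣ h then 0 else ap W p)
    (hN : ∀ p : ℕ, p.Prime → (p ∣ N ↔ p ∣ h * D)) {n B : ℕ} (h2 : 2 ≤ n) (hn : n < 1681)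
    (hI : Inv b n B) :
    nxt W h D B n < 16777216 ∧ (nxt W h D B n : ℤ) ≡ b n [ZMOD 16777216] := by
  obtain ⟨hp, m, hm⟩ := mf_pr h2 hn
  rw [nxt_eq]
  obtain ⟨p, hq⟩ : ∃ p, p = mf n := ⟨_, rfl⟩
  rw [← hq] at hp hm ⊢
  have p2 := hp.two_le
  have m0 : 0 < m := Nat.pos_of_ne_zero fun e => by simp [e] at hm; omega
  have pn : p ≤ n := hm ▸ Nat.le_mul_of_pos_right p m0
  rcases e : Nat.beq p n with _ | _
  · have e1 : p < n := lt_of_le_of_ne pn (Nat.ne_of_beq_eq_false e)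
    have e2 : n / p = m := by
      rw [hm]
      exact Nat.mul_div_cancel_left m hp.pos
    have ml : m < n := by nlinarith
    rw [cond_false, e2]
    refine ⟨Nat.mod_lt _ (by norm_num), ?_⟩
    have e3 : b n = b p * b m + -((if p ∣ N then 0 else p) * dn b p m) := by
      rw [hm, hc.rel p m hp, sub_eq_add_neg]
    rw [e3, Int.natCast_mod, Nat.cast_add, Nat.cast_mul]
    refine (Int.mod_modEq _ _).trans (((hI.2 p e1).mul (hI.2 m ml)).add ?_)
    by_cases a1 : p ∣ N
    · rw [(dv_iff _ _).2 ((hN p hp).1 a1), if_pos a1, Bool.true_or, cond_true]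
      simp
    have a2 : dv p (h * D) = false :=
      Bool.eq_false_iff.2 fun a => a1 ((hN p hp).2 ((dv_iff _ _).1 a))
    rw [a2, if_neg a1, dn, Bool.false_or]
    by_cases a3 : p ∣ m
    · rw [(dv_iff _ _).2 a3, if_pos a3, Bool.not_true, cond_false, Nat.cast_mul,
        Nat.cast_sub (by omega), ← neg_mul]
      refine Int.ModEq.mul ?_ (hI.2 _ ((Nat.div_le_self m p).trans_lt ml))
      exact Int.modEq_iff_dvd.2 ⟨-1, by push_cast; ring⟩
    · rw [Bool.eq_false_iff.2 fun a => a3 ((dv_iff _ _).1 a), if_neg a3, Bool.not_false, cond_true]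
      simp
  · have e1 : p = n := Nat.eq_of_beq_eq_true e
    rw [cond_true, ← e1, hb p hp]
    by_cases a1 : p ∣ h
    · rw [(dv_iff _ _).2 a1, if_pos a1, cond_true]
      simp
    · rw [Bool.eq_false_iff.2 fun a => a1 ((dv_iff _ _).1 a), if_neg a1, cond_false]
      exact (ha W p hp (by omega)).symm

/-- the loop -/
def lp (W : WeierstrassCurve ℤ) (h D k : ℕ) : ℕ → ℕ → ℕ :=
  Nat.rec (fun _ B => B) (fun _ ih n B => frc n fun n' =>
    frc (Nat.add B (Nat.shiftLeft (nxt W h D B n') (Nat.mul 24 n'))) (ih (Nat.succ n'))) k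

theorem lp_succ (k n B : ℕ) :
    lp W h D (k + 1) n B = lp W h D k (n + 1) (B + nxt W h D B n * 16777216 ^ n) := by
  show frc n (fun n' => frc (B + nxt W h D B n' <<< (24 * n')) (lp W h D k (n' + 1))) = _
  rw [frc_eq, frc_eq, Nat.shiftLeft_eq, pow_mul, show 2 ^ 24 = 16777216 by norm_num]

theorem lp_ok (ha : R_ap) (hc : Coef N b)
    (hb : ∀ p : ℕ, p.Prime → b p = if p ∣ h then 0 else ap W p)
    (hN : ∀ p : ℕ, p.Prime → (p ∣ N ↔ p ∣ h * D)) (k : ℕ) : ∀ n B, 2 ≤ n → n + k ≤ 1681 →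
    Inv b n B → Inv b (n + k) (lp W h D k n B) := by
  induction k with
  | zero => exact fun n B _ _ hI => hI
  | succ k ih =>
    intro n B h2 hn hI
    obtain ⟨v1, v2⟩ := nxt_ok ha hc hb hN h2 (by omega) hI
    rw [lp_succ, show n + (k + 1) = n + 1 + k by omega]
    refine ih _ _ (by omega) (by omega) ⟨?_, fun j hj => ?_⟩
    · have := hI.1
      have := Nat.mul_le_mul_right (16777216 ^ n) (Nat.succ_le_of_lt v1)
      rw [Nat.succ_mul] at this
      rw [pow_succ']
      omega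
    · rcases Nat.lt_succ_iff_lt_or_eq.1 hj with a | a
      · rw [dig_low _ _ a]
        exact hI.2 j a
      · rw [a, dig_top hI.1 v1]
        exact v2

theorem sgn {v : ℕ} {x : ℤ} (hv : v < 16777216) (h : (v : ℤ) ≡ x [ZMOD 16777216])
    (hx : |x| < 8388608) : (pos v : ℤ) - neg v = x := by
  obtain ⟨c, hc⟩ := Int.modEq_iff_dvd.1 h
  obtain ⟨x1, x2⟩ := abs_lt.1 hx
  rw [pos, neg]
  rcases e : Nat.blt v 8388608 with _ | _
  · have : ¬v < 8388608 := fun a => by simp [Nat.blt_eq.mpr a] at e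
    show ((0 : ℕ) : ℤ) - ((16777216 - v : ℕ) : ℤ) = x
    omega
  · have : v < 8388608 := Nat.blt_eq.mp e
    show (v : ℤ) - ((0 : ℕ) : ℤ) = x
    omega

end Rtab

open Rtab in
theorem r_tab : R_tab := by
  intro ha hd W N h D K b hc hb hN h2 hK n hn
  have h1 := lp_ok ha hc hb hN (K - 2) 2 16777216 le_rfl (by omega) ⟨by norm_num, fun j hj => by
    interval_cases j
    · rw [hc.zero, dig_eq]
      norm_num
    · rw [hc.one, dig_eq]
      norm_num⟩
  refine sgn (dig_lt _ _) (h1.2 n (by omega)) ((hd N b hc n).trans_lt ?_)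
  have : (n : ℤ) ≤ 1680 := by omega
  nlinarith [Int.natCast_nonneg n]

end Pool.Agent.MP_b2c033_nt.UC
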