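import Pool.Agent.MP_b2c033_nt.UC.Spec

/-! The options of the root zero and of the root before the middle are valid. -/

namespace Pool.Agent.MP_b2c033_nt.UC

open U

theorem vZero_mm (p e : ℕ) (hp : p.Prime) (he : 2 ≤ e) : 0 < mm p e ∧
    ((Mp p e (sm p e) : ℚ) : ℝ) = mm p e / ((p : ℝ) ^ (e - 1) * (p + 1)) := by
  have h0 : (0 : ℝ) < p := by exact_mod_cast hp.pos
  have h1 := hp.pos
  obtain ⟨k, rfl | rfl⟩ : ∃ k, e = 2 * k + 2 ∨ e = 2 * k + 3 := ⟨(e - 2) / 2, by omega⟩
  · have a1 : (2 * k + 2) % 2 = 0 := by omega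
    have a2 : (2 * k + 2) / 2 = k + 1 := by omega
    have a3 : mm p (2 * k + 2) = p ^ k * (2 + (p - 1) * p ^ sm p (2 * k + 2)) := by
      rw [mm, a1, a2]; rfl
    refine ⟨by rw [a3]; positivity, ?_⟩
    rw [a3, Mp, if_neg (by omega), if_neg (by omega), a2,
      show 2 * k + 2 - 1 = k + (k + 1) by omega]
    push_cast [Nat.cast_sub h1]
    field_simp
    ring
  · have a1 : (2 * k + 3) % 2 = 1 := by omega
    have a2 : (2 * k + 3) / 2 = k + 1 := by omega
    have a3 : mm p (2 * k + 3) = 2 * p ^ (k + 1) := by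
      rw [mm, a1, a2]; rfl
    refine ⟨by rw [a3]; positivity, ?_⟩
    rw [a3, Mp, if_neg (by omega), if_pos a1, a2,
      show 2 * k + 3 - 1 = (k + 1) + (k + 1) by omega, pow_add (p : ℝ) (k + 1)]
    push_cast
    field_simp

theorem r_vZero : R_vZero := by
  refine ⟨fun p s P hp hP hle => ⟨two_pos, 0, by omega, fun f hf => ?_⟩,
    fun p e c hp he => ⟨(vZero_mm p e hp he).1, 0, by omega, fun f hf => ?_⟩,
    fun p e c hp he => ⟨(vZero_mm p e hp (by omega)).1, e / 2 - 1, by omega, fun f hf => ?_⟩,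
    ⟨by norm_num, 4, by omega, fun f hf => ?_⟩, ⟨by norm_num, 3, by omega, fun f hf => ?_⟩⟩
  · have h0 : (0 : ℝ) < p := by exact_mod_cast hp.pos
    have h1 := hf.2 P p (by exact_mod_cast hP) (by exact_mod_cast hle)
    have h2 : val f (oOne P) * (Mp p 1 s : ℚ) = (f P + f 1) / (p + 1) := by
      simp [val, oOne, Mp]
      field_simp
    have h3 : ((opts p 1 0).map fun y => (y.1 : ℝ) * f y.2).sum = (f p + f 1) / (p + 1) := by
      simp [opts]
      field_simp
    rw [h2, h3, Nat.cast_one, one_mul]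
    gcongr
  · obtain ⟨a1, a2⟩ := vZero_mm p e hp he
    have h0 : (0 : ℝ) < p := by exact_mod_cast hp.pos
    have a3 : (0 : ℝ) < mm p e := by exact_mod_cast a1
    rw [a2]
    refine le_of_eq ?_
    simp [val, oZero, opts]
    field_simp
  · obtain ⟨a1, a2⟩ := vZero_mm p e hp (by omega)
    have h0 : (0 : ℝ) < p := by exact_mod_cast hp.pos
    have h1 : (1 : ℝ) ≤ p := by exact_mod_cast hp.pos
    have a3 : (0 : ℝ) < mm p e := by exact_mod_cast a1
    rw [a2, opts, if_neg (by omega), if_neg (by omega), List.map_cons, List.map_cons,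
      List.sum_cons, List.sum_cons, ← add_assoc]
    refine mul_le_mul_of_nonneg_left (le_add_of_nonneg_right (List.sum_nonneg ?_))
      (Nat.cast_nonneg c) |>.trans' (le_of_eq ?_)
    · intro x hx
      simp only [List.map_map, List.mem_map, Function.comp] at hx
      obtain ⟨m, -, rfl⟩ := hx
      refine mul_nonneg ?_ (hf.1 _)
      push_cast
      exact div_nonneg (sub_nonneg.2 h1) (by positivity)
    · rw [show e - (e / 2 - 1) = e - e / 2 + 1 by omega,
        show (e - 2 * (e / 2 - 1)) / 2 = 1 by omega]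
      simp only [val, oPre, List.map_cons, List.map_nil, List.sum_cons, List.sum_nil]
      push_cast
      generalize f (_ ^ (e - e / 2 + 1)) = x
      generalize f (_ ^ (e / 2 - 1)) = y
      generalize (mm p e : ℝ) = M at a3
      obtain ⟨k, rfl | rfl⟩ : ∃ k, e = 2 * k + 4 ∨ e = 2 * k + 5 := ⟨(e - 4) / 2, by omega⟩
      · rw [show (2 * k + 4) / 2 - 1 = k + 1 by omega,
          show (2 * k + 4 + 1) / 2 - 1 = k + 1 by omega,
          show 2 * k + 4 - (2 * k + 4) / 2 + 1 = k + 3 by omega,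
          show 2 * k + 4 - 1 = 2 * k + 3 by omega]
        field_simp
        ring
      · rw [show (2 * k + 5) / 2 - 1 = k + 1 by omega,
          show (2 * k + 5 + 1) / 2 - 1 = k + 2 by omega,
          show 2 * k + 5 - (2 * k + 5) / 2 + 1 = k + 4 by omega,
          show 2 * k + 5 - 1 = 2 * k + 4 by omega]
        field_simp
        ring
  · norm_num [val, Mp, opts, optMid]
    linarith
  · norm_num [val, Mp, opts]
    linarith

end Pool.Agent.MP_b2c033_nt.UC
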