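import Pool.Agent.MP_b2c033_nt.UC.Chk2

/-! The finite check: statements of the soundness lemmas. -/

namespace Pool.Agent.MP_b2c033_nt.UC

open U WeierstrassCurve
open scoped Real

@[simp] lemma frc_eq {β : Type} (n : ℕ) (f : ℕ → β) : frc n f = f n := by cases n <;> rfl

lemma allN_iff (f : ℕ → Bool) (n : ℕ) : allN f n = true ↔ ∀ i < n, f i = true := by
  induction n with
  | zero => simp [allN]
  | succ n ih =>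
    have : allN f (n + 1) = cond (f n) (allN f n) false := rfl
    rw [this, Nat.forall_lt_succ_right, ← ih]; cases f n <;> simp

lemma anyN_iff (f : ℕ → Bool) (n : ℕ) : anyN f n = true ↔ ∃ i < n, f i = true := by
  induction n with
  | zero => simp [anyN]
  | succ n ih =>
    have : anyN f (n + 1) = cond (f n) true (anyN f n) := rfl
    rw [this, Nat.exists_lt_succ_right, ← ih]; cases f n <;> simp

lemma allL_iff {α : Type} (f : α → Bool) (l : List α) :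
    allL f l = true ↔ ∀ a ∈ l, f a = true := by
  induction l with
  | nil => simp [allL]
  | cons a l ih =>
    have : allL f (a :: l) = cond (f a) (allL f l) false := rfl
    rw [this, List.forall_mem_cons, ← ih]; cases f a <;> simp

lemma anyL_iff {α : Type} (f : α → Bool) (l : List α) :
    anyL f l = true ↔ ∃ a ∈ l, f a = true := by
  induction l with
  | nil => simp [anyL]
  | cons a l ih =>
    have : anyL f (a :: l) = cond (f a) true (anyL f l) := rfl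
    rw [this, List.exists_mem_cons_iff, ← ih]; cases f a <;> simp

lemma dv_iff (d n : ℕ) : dv d n = true ↔ d ∣ n := by
  rw [dv, Nat.beq_eq, Nat.dvd_iff_mod_eq_zero]; rfl

noncomputable section

/-- the value of an option -/
def val (f : ℚ → ℝ) (o : Opt) : ℝ := (o.2.map fun y => (y.1 : ℝ) * f y.2).sum / o.1

def Ez (T : ℚ → ℝ) : List Opt → ℚ → ℝ
  | [], X => T X
  | o :: L, X => val (fun x => Ez T L (X * x)) o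

def Mono (f : ℚ → ℝ) : Prop := (∀ x, 0 ≤ f x) ∧ ∀ x y, 0 < x → x ≤ y → f x ≤ f y

/-- `o` is below `c / Mp p e s` times the options of some root -/
def Valid (p e s c : ℕ) (o : Opt) : Prop := 0 < o.1 ∧ ∃ i, 2 * i ≤ e ∧ ∀ f, Mono f →
  val f o * (Mp p e s : ℚ) ≤ c * ((opts p e i).map fun y => (y.1 : ℝ) * f y.2).sum

/-- a hypothetical prime -/
def Hy (W : WeierstrassCurve ℤ) (N p : ℕ) : Prop :=
  p ^ 2 ∣ N ∧ ¬ ((p : ℤ) ∣ W.Δ ∧ (p : ℤ) ∣ W.c₄)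

instance (W : WeierstrassCurve ℤ) (N p : ℕ) : Decidable (Hy W N p) := by
  unfold Hy; infer_instance

def cf (W : WeierstrassCurve ℤ) (N p : ℕ) : ℕ := if Hy W N p then p * p else 1

/-- the table `B` holds `b 0, …, b (K - 1)` -/
def Rep (B : ℕ) (b : ℕ → ℤ) (K : ℕ) : Prop :=
  ∀ n < K, (pos (dig B n) : ℤ) - neg (dig B n) = b n

def R_exp : Prop := ∀ a b S m : ℕ,
  (expLo a b S m : ℝ) ≤ 2 ^ S * Real.exp (-(π * a / b)) ∧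
    2 ^ S * Real.exp (-(π * a / b)) ≤ expHi a b S m

def R_ap : Prop := ∀ (W : WeierstrassCurve ℤ) (p : ℕ), p.Prime → p < 8388608 →
  (apQ W p : ℤ) ≡ ap W p [ZMOD 16777216] ∧ apQ W p < 16777216

def R_bd : Prop := ∀ (N : ℕ) (b : ℕ → ℤ), Coef N b → ∀ n : ℕ, |b n| ≤ (n : ℤ) ^ 2

def R_tab : Prop := R_ap → R_bd → ∀ (W : WeierstrassCurve ℤ) (N h D K : ℕ) (b : ℕ → ℤ),
  Coef N b → (∀ p : ℕ, p.Prime → b p = if p ∣ h then 0 else ap W p) →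
  (∀ p : ℕ, p.Prime → (p ∣ N ↔ p ∣ h * D)) → 2 ≤ K → K ≤ 1681 → Rep (tab W h D K) b K

def R_T : Prop := R_exp →
  (∀ (b : ℕ → ℤ) (K : ℕ), Mono (TT b K)) ∧
  (∀ (b : ℕ → ℤ) (X : ℕ), b 1 = 1 → (t1 X : ℝ) ≤ 2 ^ 24 * TT b 2 X) ∧
  (∀ X : ℕ, tcs [] X = 0) ∧
  ∀ (b : ℕ → ℤ) (B K X : ℕ), Rep B b K → (tcs (csL B K) X : ℝ) ≤ 2 ^ 24 * TT b K X

def R_horn : Prop := ∀ (f : ℕ → ℕ) (q : ℝ) (r z K : ℕ), 0 ≤ q →
  ((r : ℝ) ≤ 2 ^ 100 * q →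
    (horn f r 0 0 K : ℝ) ≤ 2 ^ 100 * ∑ n ∈ Finset.Ico 1 K, (f n : ℝ) * q ^ n) ∧
  (2 ^ 100 * q ≤ r →
    2 ^ 100 * ∑ n ∈ Finset.Ico 1 K, (f n : ℝ) * q ^ n + z * q ^ (K - 1) ≤ horn f r 1 z K)

def R_tail : Prop := ∀ (c : ℕ → ℝ) (q C A : ℝ) (r m K : ℕ), 0 ≤ q → 2 ^ 100 * q ≤ r → 1 ≤ K →
  1 ≤ m → tailOK r m K = true → (∀ n : ℕ, |c n| ≤ C * (n : ℝ) ^ 2) →
  HasSum (fun n => c n * q ^ n) A →
  |A - ∑ n ∈ Finset.Ico 1 K, c n * q ^ n| ≤ C * m * (K : ℝ) ^ 2 * q ^ (K - 1)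

def R_fe : Prop := R_exp → R_horn → R_tail → ∀ (W : WeierstrassCurve ℤ) (h D N s : ℕ)
  (b : ℕ → ℤ), 0 < N → (∀ n : ℕ, |b n| ≤ (n : ℤ) ^ 2) →
  (∀ K, 2 ≤ K → K ≤ 1681 → Rep (tab W h D K) b K) → feFail W h D N s = true → ¬ FE N b

def R_cos : Prop := ∀ n : ℕ,
  (cLo.getD (n % 32) 0 : ℝ) ≤ 1000 * (Real.cos (π * n / 16) + Real.cos (3 * π * n / 16)) + 2000 ∧
    1000 * (Real.cos (π * n / 16) + Real.cos (3 * π * n / 16)) + 2000 ≤ cHi.getD (n % 32) 0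

def R_inv : Prop := R_exp → R_horn → R_tail → R_cos → ∀ (B : ℕ) (b : ℕ → ℤ),
  (∀ n : ℕ, |b n| ≤ (n : ℤ) ^ 2) → Rep B b 100 → invFail B = true → ¬ INV b

def R_vMid : Prop := ∀ p e c : ℕ, p.Prime → 2 ≤ e → Valid p e (sm p e) c (oMid p e c)

def R_vZero : Prop := (∀ p s P : ℕ, p.Prime → 0 < P → P ≤ p → Valid p 1 s 1 (oOne P)) ∧
  (∀ p e c : ℕ, p.Prime → 2 ≤ e → Valid p e (sm p e) c (oZero p e c)) ∧
  (∀ p e c : ℕ, p.Prime → 4 ≤ e → Valid p e (sm p e) c (oPre p e c)) ∧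
  Valid 2 8 2 1 (3, [(1, 16)]) ∧ Valid 2 8 2 1 (6, [(1, 32), (1, 8)])

def R_vUni : Prop := R_vMid → R_vZero →
  (∀ p e c : ℕ, p.Prime → em p ≤ e → Valid p e (sm p e) c (oCls p c)) ∧
  (∀ p e c : ℕ, p.Prime → 2 ≤ e → Valid p e (sm p e) c (oUni p c)) ∧
  (∀ p e x : ℕ, p.Prime → 2 ≤ e → 11 ≤ p → 0 < x → x ≤ 11 →
    Valid p e (sm p e) 1 (6, [(5, x)]) ∧ Valid p e (sm p e) (p * p) (1, [(1, x)]) ∧
      Valid p e (sm p e) (p * p) (1, [(100, x)])) ∧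
  (∀ p s : ℕ, p.Prime → Valid p 1 s 1 (1, [(1, 1)])) ∧
  ∀ e c : ℕ, 1 ≤ e → 1 ≤ c → (e = 1 → c = 1) → Valid 2 e (sm 2 e) c (5, [(1, 1)]) ∧
    Valid 3 e (sm 3 e) c (2, [(1, 1)]) ∧ Valid 5 e (sm 5 e) c (3, [(2, 1)]) ∧
      Valid 7 e (sm 7 e) c (4, [(3, 1)])

def R_key : Prop := ∀ (W : WeierstrassCurve ℤ) (N K : ℕ) (b : ℕ → ℤ) (ρ Ω a l : ℝ) (s : ℕ → ℕ)
  (σ : ℕ → Opt) (ps : List ℕ), Mono (TT b K) → HoroB N b ρ → 0 ≤ a →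
  a * (hyp W N : ℝ) ^ 2 * ρ ≤ Ω * (l * (Mtot N s : ℚ)) → ps.Nodup →
  ps.toFinset = N.primeFactors →
  (∀ p ∈ ps, Valid p (N.factorization p) (s p) (cf W N p) (σ p)) →
  a * π * Ez (TT b K) (ps.map σ) 1 ≤ Ω * l

def R_leaf : Prop := ∀ (T : ℕ → ℕ) (f : ℚ → ℝ) (a u : ℕ) (L : List Opt), (∀ x, 0 ≤ f x) →
  (∀ X : ℕ, (T X : ℝ) ≤ 2 ^ 24 * f X) → (∀ o ∈ L, 0 < o.1) → leaf T a u L = true →
  (u : ℝ) / 2 ^ 16 < a * π * Ez f L 1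

def R_om : Prop := ∀ (W : WeierstrassCurve ℤ) (Ω : ℝ) (u : ℕ), W.Δ ≠ 0 → Vol W Ω →
  omB W.c₄.natAbs W.Δ.natAbs u = true → Ω ≤ (u : ℝ) / 2 ^ 16

def R_dB : Prop := ∀ (W : WeierstrassCurve ℤ) (Ω : ℝ) (v : ℕ), W.Δ ≠ 0 → Vol W Ω → 0 < v →
  (v : ℝ) / 2 ^ 16 < Ω → W.Δ.natAbs ≤ dZero v ∧ W.Δ.natAbs ≤ dB W.c₄.natAbs v ∧
    ∀ C : ℕ, 8 ≤ C → 3400 * dZero v ≤ C ^ 3 → gT C v (C ^ 3) = true → W.c₄.natAbs < C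

def R_nm : Prop := ∀ (W : WeierstrassCurve ℤ) (p : ℕ), RedMin W → 2 ≤ p → nonMin W p = false

def R_cls : Prop := ∀ c D : ℕ, 0 < D → D < 2 ^ 33 →
  (dv D sM = false → ∃ p : ℕ, p.Prime ∧ 11 ≤ p ∧ p ∣ D) ∧
  (dv D sM2 = false → ∃ p : ℕ, p.Prime ∧ 53 ≤ p ∧ p ∣ D) ∧
  (∀ g p : ℕ, dv g sM = true → p.Prime → p ∣ g → p = 2 ∨ p = 3 ∨ p = 5 ∨ p = 7) ∧
  ∀ A : Finset ℕ, (∀ p ∈ A, p.Prime ∧ 11 ≤ p ∧ p ∣ D ∧ p ∣ c) → A.card ≤ klog (bigG c D)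

def R_dlt : Prop := ∀ (W : WeierstrassCurve ℤ), RedMin W →
  (∀ A : Finset ℕ, (∀ p ∈ A, p.Prime ∧ 11 ≤ p ∧ p ∣ W.Δ.natAbs ∧ p ∣ W.c₄.natAbs) →
    dlt (idx W.c₄.natAbs W.Δ.natAbs 0) * 121 ^ A.card ≤ W.Δ.natAbs) ∧
  compat (flag W.a₁.toNat W.a₃.toNat W.b₂ W.b₄ W.c₄.natAbs)
    (idx W.c₄.natAbs W.Δ.natAbs 0) = true ∧
  flag W.a₁.toNat W.a₃.toNat W.b₂ W.b₄ W.c₄.natAbs < 16

def R_loss : Prop := ∀ (p s : ℕ) (a : ℤ), p.Prime → 11 ≤ p → a ^ 2 ≤ 4 * p →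
  loss p 0 a s ≤ 1 / 6

def R_fac : Prop := ∀ (D : ℕ) (l : List ℕ), facOK D l = true → l.Nodup ∧
  (∀ p ∈ l, p.Prime ∧ 11 ≤ p ∧ p ∣ D) ∧
  ∀ p : ℕ, p.Prime → p ∣ D → p ∈ l ∨ p = 2 ∨ p = 3 ∨ p = 5 ∨ p = 7

def R_row : Prop := ∀ (W : WeierstrassCurve ℤ) (m r f : ℕ), 0 < m → W.Δ ≠ 0 →
  W.a₁ = (r % 2 : ℕ) → W.a₃ = (r / 2 % 2 : ℕ) → W.a₂ = ((r / 4 % 3 : ℕ) : ℤ) - 1 →
  W.a₄ = 340 - ((r / 12 : ℕ) : ℤ) → (∀ a < m, row m a r = true) →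
  f = flag W.a₁.toNat W.a₃.toNat W.b₂ W.b₄ W.c₄.natAbs →
  W.Δ.natAbs ≤ dZero (vT f) → W.Δ.natAbs ≤ dB W.c₄.natAbs (vT f) → W.c₄.natAbs < cM f →
  ((dZero (vM f) < W.Δ.natAbs ∨ dB W.c₄.natAbs (vM f) < W.Δ.natAbs) ∧
      dv W.Δ.natAbs sM2 = false ∧ dv (Nat.gcd W.c₄.natAbs W.Δ.natAbs) sM = true) ∨
    midT W.c₄.natAbs W.Δ.natAbs = true ∨ deep W W.c₄.natAbs W.Δ.natAbs = true

end

end Pool.Agent.MP_b2c033_nt.UC
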