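import Pool.Agent.MP_b2c033_nt.UC.MuL
import Pool.Agent.MP_b2c033_nt.UC.Enum
import Pool.Agent.MP_b2c033_nt.UC.CSpec

/-! The tree search over the levels that a curve allows. -/

namespace Pool.Agent.MP_b2c033_nt.U

/-- squaring at the scale `2 ^ 28` -/
def sq8 : ℕ → ℕ → ℕ
  | 0, a => a
  | k + 1, a => sq8 k (Nat.div (Nat.mul a a) 268435456)

/-- lower bound for `2 ^ 28 exp (-4 π / X)` -/
def rX (X : ℕ) : ℕ := sq8 8 (Nat.sub 268435455 (Nat.div 13176826 X))

def hn (r : ℕ) : List ℕ → ℕ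
  | [] => 0
  | c :: cs => Nat.div (Nat.mul (Nat.add c (hn r cs)) r) 268435456

/-- lower bound for `2 ^ 28 TN` -/
def tN (cs : List ℕ) : ℕ → ℕ
  | 0 => 0
  | X + 1 => force (rX (X + 1)) fun r => hn r cs

def evN (t : ℕ → ℕ) (X : ℕ) : Op → ℕ
  | [] => 0
  | y :: o => Nat.add (Nat.div (Nat.mul y.1 (t (Nat.mul X y.2.2))) y.2.1) (evN t X o)

def enN (t : ℕ → ℕ) : List Op → ℕ → ℕ
  | [], X => t X
  | o :: os, X => force X fun X => evN (enN t os) X o

/-- some choice of alternatives refutes the inequality -/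
def killA (t : ℕ → ℕ) (Q : ℕ) : List (List Op) → List Op → Bool
  | [], acc => Nat.blt Q (Nat.pow (enN t acc 1) 6)
  | a :: as, acc => a.any fun o => killA t Q as (o :: acc)

def alts (p e g : ℕ) : List Op := [exO p e (e / 2) g, exO p e (e / 2 - 1) g, exO p e 0 g]

/-- the loop over the exponents `2 k, 2 k + 1, …` of `p` -/
def lp (t : ℕ → ℕ) (Q p g : ℕ) (U F : List (List Op)) (M : ℕ)
    (nx : List (List Op) → ℕ → Bool) : ℕ → ℕ → Bool
  | 0, _ => false
  | f + 1, k => killA t Q ([uo p k g] :: (U ++ F)) [] ||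
      (nx (alts p (2 * k) g :: F) (M * p ^ (2 * k)) &&
        nx (alts p (2 * k + 1) g :: F) (M * p ^ (2 * k + 1)) &&
        force (k + 1) (lp t Q p g U F M nx f))

def tree (t : ℕ → ℕ) (Q fu : ℕ) (leaf : ℕ → Bool) : List (ℕ × ℕ) → List (List Op) → ℕ → Bool
  | [], F, M => killA t Q F [] || leaf M
  | y :: opn, F, M => lp t Q y.1 y.2 (opn.map fun z => [uo z.1 1 z.2]) F M
      (tree t Q fu leaf opn) fu 1

/-- the primes with exponent at least two, with their gains -/
def opnL (D C : ℕ) (h₂ h₃ : Bool) : List ℕ → List (ℕ × ℕ)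
  | [] => []
  | p :: l => bif Nat.beq (Nat.mod D p) 0 && Nat.beq (Nat.mod C p) 0 then
      (p, 1) :: opnL D C h₂ h₃ l
    else bif (h₂ && Nat.beq p 2) || (h₃ && Nat.beq p 3) then (p, p ^ 2) :: opnL D C h₂ h₃ l
    else opnL D C h₂ h₃ l

/-- the primes with exponent one -/
def mulL (D C : ℕ) (h₂ h₃ : Bool) : List ℕ → List ℕ
  | [] => []
  | p :: l => bif Nat.beq (Nat.mod D p) 0 && !Nat.beq (Nat.mod C p) 0 &&
      !((h₂ && Nat.beq p 2) || (h₃ && Nat.beq p 3)) then p :: mulL D C h₂ h₃ l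
    else mulL D C h₂ h₃ l

/-- the scaled squares of the coefficients -/
def csL (W : WeierstrassCurve ℤ) (R K : ℕ) : List ℕ :=
  (List.range' 1 K).map fun n => (bF (lamF W R) R n n).natAbs ^ 2 * 268435456 / n

def forceL {α : Type} : List ℕ → (List ℕ → α) → α
  | [], k => k []
  | c :: cs, k => force c fun c => forceL cs fun cs => k (c :: cs)

def forceP {α : Type} : List (ℕ × ℕ) → (List (ℕ × ℕ) → α) → α
  | [], k => k []
  | c :: cs, k => forceP cs fun cs => k (c :: cs)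

/-- all admissible choices of the hypothetical primes; `g` is divisible by the additive ones -/
def br4 (g : ℕ) (f : Bool → Bool → Bool) : Bool :=
  f false false && (Nat.beq (Nat.mod g 2) 0 || f true false) &&
    (Nat.beq (Nat.mod g 3) 0 || (f false true && (Nat.beq (Nat.mod g 2) 0 || f true true)))

/-- one choice of the hypothetical primes; `big` says that an untracked prime divides `D` -/
def chk1 (W : WeierstrassCurve ℤ) (D C Q K fu : ℕ) (pl : List ℕ) (big : Bool) (leaf : ℕ → Bool)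
    (h₂ h₃ : Bool) : Bool :=
  forceP (opnL D C h₂ h₃ pl) fun opn => forceL (mulL D C h₂ h₃ pl) fun ml =>
  tree (tN [268435456]) Q fu (fun _ => false) opn
      ((bif big then [[om 17]] else []) ++ ml.map fun p => [om p]) 1 ||
    force (ml.prod * (opn.map fun y => y.1 ^ 2).prod) fun R => forceL (csL W R K) fun cs =>
      tree (tN cs) Q fu leaf opn
        ((bif big then [[om 17]] else []) ++ ml.map fun p => [om p]) ml.prod

def chk (W : WeierstrassCurve ℤ) (D C Q K fu : ℕ) (pl : List ℕ) (big : Bool)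
    (leaf : ℕ → Bool) : Bool := br4 (Nat.gcd D C) (chk1 W D C Q K fu pl big leaf)

/-- large powers of the primes below `11` -/
def P7 : ℕ := 2 ^ 40 * 3 ^ 26 * 5 ^ 18 * 7 ^ 15
/-- large powers of `11` and `13` -/
def P13 : ℕ := 11 ^ 12 * 13 ^ 11
/-- `10 ^ 9 Ω ^ 6 ≤ v` gives `Ω ^ 6 ≤ v KQ (9.4247 / 2 ^ 28) ^ 6` -/
def KQ : ℕ := 533868211089387576961950417965393634

/-- the extra option of the type `P`: none, a multiplicative prime `≥ 11` or `≥ 17`, one
additive prime `≥ 11` -/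
def xo : ℕ → List (List Op)
  | 0 => []
  | 1 => [[om 11]]
  | 2 => [[om 17]]
  | _ => [[[(5, 6, 11)]]]

/-- the check that depends only on the product `A` of the additive primes below `11` -/
def chkQ (A P T : ℕ) : Bool := br4 A fun h₂ h₃ =>
  tree (tN [268435456]) (Nat.mul T KQ) 7 (fun _ => false) (opnL A A h₂ h₃ [2, 3, 5, 7]) (xo P) 1

def qk2 (TB v A P : ℕ) : Bool :=
  force (Nat.mod (Nat.shiftRight TB (Nat.mul 64 (Nat.add (Nat.mul 4 A) P))) 18446744073709551616)
    fun T => Nat.ble v T && chkQ A P T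

/-- the first filter; `TB` is any table -/
def quick (TB D C v : ℕ) : Bool :=
  force (Nat.gcd D C) fun g => force (Nat.gcd g 210) fun A =>
  force (Nat.div g (Nat.gcd g P7)) fun g' =>
  bif Nat.beq g' 1 then
    force (Nat.div D (Nat.gcd D P7)) fun m => bif Nat.beq m 1 then qk2 TB v A 0 else
      Nat.beq (Nat.gcd m 210) 1 && force (Nat.div m (Nat.gcd m P13)) fun m' =>
        bif Nat.beq m' 1 then qk2 TB v A 1 else Nat.beq (Nat.gcd m' 143) 1 && qk2 TB v A 2
  else Nat.beq (Nat.gcd g' 210) 1 && Nat.beq (Nat.mod (Nat.pow g'.minFac 12) g') 0 &&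
    qk2 TB v A 3

/-- the second filter, without factoring -/
def fast (W : WeierstrassCurve ℤ) (D C v : ℕ) : Bool :=
  force (Nat.gcd D C) fun g => force (Nat.div g (Nat.gcd g (Nat.mul P7 P13))) fun g' =>
  force (Nat.div D (Nat.gcd D (Nat.mul (Nat.mul P7 P13) (Nat.pow g' 12)))) fun m =>
    Nat.beq (Nat.gcd g' 30030) 1 && Nat.beq (Nat.gcd m (Nat.mul C 30030)) 1 &&
      force (Nat.mul v KQ) fun Q => forceL g'.primeFactorsList.dedup fun ex =>
        chk W D C Q 13 7 ([2, 3, 5, 7, 11, 13] ++ ex) (Nat.blt 1 m) fun _ => false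

/-- the model is not minimal -/
def nonMin (W : WeierstrassCurve ℤ) (u : ℕ) (r s t : ℤ) : Bool :=
  decide (2 ≤ u) && decide ((u : ℤ) ∣ (sh W r s t).a₁) && decide ((u : ℤ) ^ 2 ∣ (sh W r s t).a₂) &&
    decide ((u : ℤ) ^ 3 ∣ (sh W r s t).a₃) && decide ((u : ℤ) ^ 4 ∣ (sh W r s t).a₄) &&
    decide ((u : ℤ) ^ 6 ∣ (sh W r s t).a₆)

/-- certificates: a listed curve, a model that is not minimal, or a search with `K` terms, the
true level `N` (or `0`) and the refutations `(M, K', t)` of the functional equation -/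
inductive Ct : Type
  | pos : Ct
  | nm (u : ℕ) (r s t : ℤ) : Ct
  | tr (K N : ℕ) (l : List (ℕ × ℕ × ℕ)) : Ct

def leafF (w : ℤ × ℤ × ℤ × ℤ × ℤ) (N : ℕ) (l : List (ℕ × ℕ × ℕ)) (M : ℕ) : Bool :=
  force M fun M => (Nat.beq M N && decide (M = cond (mkW w)) && decide (w ∈ trueL)) ||
    l.any fun y => Nat.beq y.1 M && feK (mkW w) M y.2.1 y.2.2

/-- the last filter -/
def full (w : ℤ × ℤ × ℤ × ℤ × ℤ) (D C v : ℕ) : Ct → Bool
  | .pos => decide (w ∈ posL)
  | .nm u r s t => nonMin (mkW w) u r s t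
  | .tr K N l => force (Nat.mul v KQ) fun Q =>
      forceL (2 :: 3 :: D.primeFactorsList.dedup.filter (Nat.blt 3)) fun pl =>
        chk (mkW w) D C Q K 9 pl false (leafF w N l)

def look (a₄ a₆ : ℤ) : List (ℤ × ℤ × Ct) → Ct
  | [] => .tr 31 0 []
  | y :: l => bif decide (y.1 = a₄) && decide (y.2.1 = a₆) then y.2.2 else look a₄ a₆ l

/-- the filter -/
def flt (TB : ℕ) (exc : List (ℤ × ℤ × Ct)) (a₁ a₂ a₃ : ℤ) : Tst := fun a₄ C a₆ _ D =>
  force (Nat.succ (Nat.div (vb (Nat.pow C 3) D) D)) fun v => quick TB D C v ||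
    forceZ a₆ fun a₆ => fast (mkW (a₁, a₂, a₃, a₄, a₆)) D C v ||
      full (a₁, a₂, a₃, a₄, a₆) D C v (look a₄ a₆ exc)

end Pool.Agent.MP_b2c033_nt.U
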