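import Pool.Agent.MP_b2c033_nt.UC.CSpec
import Pool.Agent.MP_b2c033_nt.UC.FeExp

/-! The table of local states for the thresholds of the enumeration. -/

set_option autoImplicit false

namespace Pool.Agent.MP_b2c033_nt.U

open scoped Real

namespace Thr

/-- `SC * exp (-4 π / X)` from below -/
def t1 (X : ℕ) : ℕ := if X = 0 then 0 else sqLo 12 (SC - (SC * 12567 / (4096000 * X) + 1))

def enN : List Op → ℕ → ℕ
  | [], X => t1 X
  | o :: os, X => (o.map fun y => y.1 * enN os (X * y.2.2) / y.2.1).sum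

/-- exponent, gain, exactness -/
abbrev St : Type := ℕ × ℕ × Bool

def cand (p : ℕ) (s : St) : List Op :=
  if s.2.2 then (if s.1 = 0 then [o1] else if s.1 = 1 then [o1, exO p 1 0 s.2.1]
    else (List.range (s.1 / 2 + 1)).reverse.map fun i => exO p s.1 i s.2.1)
  else [uo p (s.1 / 2) s.2.1]

def sts (k : ℕ) (gs : List ℕ) : List St := (0, 1, true) :: (1, 1, true) ::
  gs.flatMap fun g => (2 * k, g, false) :: (List.range' 2 (2 * k - 2)).map fun e => (e, g, true)

def ad (s : St) : Bool := decide (2 ≤ s.1) && decide (s.2.1 = 1)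

def ms (p : ℕ) (s : St) : ℚ := if s.2.2 then Mp p s.1 0 else 0

def thr (a2 a3 a5 a7 : Bool) : ℕ :=
  if !a2 && !a3 then 114 else if !a2 then 75 else if !a3 then 72 else if !a5 && !a7 then 65
  else if !a5 then 49 else 39

def good (s2 s3 s5 s7 : St) (ob : Op) : Bool :=
  (cand 2 s2).any fun o2 => (cand 3 s3).any fun o3 => (cand 5 s5).any fun o5 =>
    (cand 7 s7).any fun o7 =>
      Nat.ble (thr (ad s2) (ad s3) (ad s5) (ad s7) * (10 * SC)) (9424 * enN [o2, o3, o5, o7, ob] 1)

def leaf (s2 s3 s5 s7 : St) : Bool := (ad s5 && ad s7) || (good s2 s3 s5 s7 (om 11) &&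
  (good s2 s3 s5 s7 o1 || decide (1 / 6 < ms 2 s2 * ms 3 s3 * ms 5 s5 * ms 7 s7)))

theorem table : ((sts 4 [1, 4]).all fun s2 => (sts 3 [1, 9]).all fun s3 =>
    (sts 2 [1]).all fun s5 => (sts 1 [1]).all fun s7 => leaf s2 s3 s5 s7) = true := by
  decide +kernel

end Thr

end Pool.Agent.MP_b2c033_nt.U
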